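import Pool.Agent.H.MP_bfbbee_an.helper67.Ld
import Pool.Agent.H.MP_bfbbee_an.Base

/-!
# Null sets of angles, measure estimates for sines
-/

set_option autoImplicit false

namespace Pool.Agent.H.MP_bfbbee_an.F4

open ComplexConjugate Filter Topology Complex MeasureTheory
open scoped ContDiff

/-- Polar form of `dir θ * L`. -/
private theorem LocN_polar (θ : ℝ) (L : ℂ) :
    dir θ * L = ((‖L‖ * Real.cos (θ + arg L) : ℝ) : ℂ) +
      ((‖L‖ * Real.sin (θ + arg L) : ℝ) : ℂ) * I := by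
  have h1 : L = (‖L‖ : ℂ) * Complex.exp (arg L * I) := (Complex.norm_mul_exp_arg_mul_I L).symm
  have h2 : dir θ * L = (‖L‖ : ℂ) * Complex.exp (((θ + arg L : ℝ) : ℂ) * I) := by
    conv_lhs => rw [h1]
    unfold dir
    rw [mul_left_comm, ← Complex.exp_add]
    congr 2
    push_cast
    ring
  rw [h2, Complex.exp_mul_I]
  push_cast
  ring

private theorem LocN_im (θ : ℝ) (L : ℂ) : (dir θ * L).im = ‖L‖ * Real.sin (θ + arg L) := by
  rw [LocN_polar]
  simp only [Complex.add_im, Complex.ofReal_im, Complex.mul_im, Complex.ofReal_re, Complex.I_re,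
    Complex.I_im]
  ring

private theorem LocN_re (θ : ℝ) (L : ℂ) : (dir θ * L).re = ‖L‖ * Real.cos (θ + arg L) := by
  rw [LocN_polar]
  simp only [Complex.add_re, Complex.ofReal_im, Complex.mul_re, Complex.ofReal_re, Complex.I_re,
    Complex.I_im]
  ring

/-- A set of reals of diameter at most `d` has measure at most `d`. -/
private theorem LocN_vol {S : Set ℝ} {d : ℝ} (h : ∀ x ∈ S, ∀ y ∈ S, x ≤ y → y - x ≤ d) :
    volume S ≤ ENNReal.ofReal d := by
  refine (Real.volume_le_diam S).trans ?_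
  refine Metric.ediam_le ?_
  intro x hx y hy
  rw [edist_dist]
  refine ENNReal.ofReal_le_ofReal ?_
  rw [Real.dist_eq]
  rcases le_total x y with hxy | hxy
  · rw [abs_sub_comm, abs_of_nonneg (sub_nonneg.2 hxy)]
    exact h x hx y hy hxy
  · rw [abs_of_nonneg (sub_nonneg.2 hxy)]
    exact h y hy x hx hxy

/-- Finite covers. -/
private theorem LocN_cover {ι : Type*} {S : Set ℝ} {K : Finset ι} {A : ι → Set ℝ} {d : ℝ}
    (hS : S ⊆ ⋃ k ∈ K, A k) (hA : ∀ k ∈ K, volume (A k) ≤ ENNReal.ofReal d) :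
    volume S ≤ ENNReal.ofReal (K.card * d) := by
  calc volume S ≤ volume (⋃ k ∈ K, A k) := measure_mono hS
    _ ≤ ∑ k ∈ K, volume (A k) := measure_biUnion_finset_le K A
    _ ≤ ∑ _k ∈ K, ENNReal.ofReal d := Finset.sum_le_sum hA
    _ = ENNReal.ofReal (K.card * d) := by
        rw [Finset.sum_const, nsmul_eq_mul, ENNReal.ofReal_mul (Nat.cast_nonneg _),
          ENNReal.ofReal_natCast]

/-- `|sin|` has period `π`. -/
private theorem LocN_abs_sin (x : ℝ) (k : ℤ) : |Real.sin (x - k * Real.pi)| = |Real.sin x| := by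
  rw [Real.sin_sub_int_mul_pi, abs_mul, abs_zpow, abs_neg, abs_one, one_zpow, one_mul]

/-- `|sin x|` controls the distance of `x` to the nearest multiple of `π`. -/
private theorem LocN_jordan {x : ℝ} (h : |x| ≤ Real.pi / 2) : |x| ≤ Real.pi / 2 * |Real.sin x| := by
  have hpi := Real.pi_pos
  have h1 : 2 / Real.pi * |x| ≤ Real.sin |x| := Real.mul_le_sin (abs_nonneg x) h
  have h2 : Real.sin |x| ≤ |Real.sin x| := by
    rcases abs_cases x with ⟨hx, _⟩ | ⟨hx, _⟩
    · rw [hx]; exact le_abs_self _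
    · rw [hx, Real.sin_neg]; exact neg_le_abs _
  have h3 : Real.pi / 2 * (2 / Real.pi * |x|) = |x| := by
    field_simp
  calc |x| = Real.pi / 2 * (2 / Real.pi * |x|) := h3.symm
    _ ≤ Real.pi / 2 * |Real.sin x| :=
        mul_le_mul_of_nonneg_left (h1.trans h2) (by positivity)

/-- Nearest multiple of `π`. -/
private theorem LocN_round (x : ℝ) : |x - (round (x / Real.pi) : ℤ) * Real.pi| ≤ Real.pi / 2 := by
  have hpi := Real.pi_pos
  have h1 := abs_sub_round (x / Real.pi)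
  have h2 : x - (round (x / Real.pi) : ℤ) * Real.pi =
      (x / Real.pi - (round (x / Real.pi) : ℤ)) * Real.pi := by
    field_simp
  rw [h2, abs_mul, abs_of_pos hpi]
  nlinarith

/-- The nearest multiples for `x` between `-π` and `3π`. -/
private theorem LocN_range {x : ℝ} (h1 : -Real.pi ≤ x) (h2 : x ≤ 3 * Real.pi) :
    round (x / Real.pi) ∈ Finset.Icc (-2 : ℤ) 3 := by
  have hpi := Real.pi_pos
  have h3 := abs_le.1 (abs_sub_round (x / Real.pi))
  have h4 : -1 ≤ x / Real.pi := by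
    rw [le_div_iff₀ hpi]; linarith
  have h5 : x / Real.pi ≤ 3 := by
    rw [div_le_iff₀ hpi]; linarith
  rw [Finset.mem_Icc]
  constructor
  · have : (-3 : ℝ) < (round (x / Real.pi) : ℤ) := by linarith [h3.2]
    have h6 : (-3 : ℤ) < round (x / Real.pi) := by exact_mod_cast this
    omega
  · have : ((round (x / Real.pi) : ℤ) : ℝ) < 4 := by linarith [h3.1]
    have h6 : round (x / Real.pi) < 4 := by exact_mod_cast this
    omega

/-- For a smooth `L`, the differential of `Im (e^{iθ} L(z))` vanishes only for a null set of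
angles if `L z ≠ 0` or if `L z = 0` and `dL v = k conj v`, `k ≠ 0`. -/
theorem im_crit {L : ℂ → ℂ} {z : ℂ} (hL : DifferentiableAt ℝ L z)
    (h : L z ≠ 0 ∨ ∃ k : ℂ, k ≠ 0 ∧ ∀ v : ℂ, fderiv ℝ L z v = k * conj v) :
    volume {θ : ℝ | θ ∈ Set.Icc 0 (2 * Real.pi) ∧
      fderiv ℝ (fun p : ℂ × ℝ => (dir p.2 * L p.1).im) (z, θ) = 0} = 0 := by
  have hdir : ∀ θ : ℝ, HasDerivAt dir (dir θ * I) θ := by
    intro θ
    have h1 : HasDerivAt (fun t : ℝ => ((t : ℂ)) * I) (1 * I) θ :=
      (Complex.ofRealCLM.hasDerivAt (x := θ)).mul_const I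
    have h2 := h1.cexp
    rw [one_mul] at h2
    exact h2
  have hF : ∀ θ : ℝ, DifferentiableAt ℝ (fun p : ℂ × ℝ => (dir p.2 * L p.1).im) (z, θ) := by
    intro θ
    have h1 : DifferentiableAt ℝ (fun p : ℂ × ℝ => dir p.2) (z, θ) :=
      DifferentiableAt.comp (g := dir) (f := Prod.snd) (z, θ) (hdir θ).differentiableAt
        differentiableAt_snd
    have h2 : DifferentiableAt ℝ (fun p : ℂ × ℝ => L p.1) (z, θ) :=
      DifferentiableAt.comp (z, θ) hL differentiableAt_fst
    exact Complex.imCLM.differentiableAt.comp (z, θ) (h1.mul h2)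
  -- along a curve
  have hcrit : ∀ θ : ℝ, fderiv ℝ (fun p : ℂ × ℝ => (dir p.2 * L p.1).im) (z, θ) = 0 →
      HasFDerivAt (fun p : ℂ × ℝ => (dir p.2 * L p.1).im) (0 : ℂ × ℝ →L[ℝ] ℝ) (z, θ) := by
    intro θ h0
    have h1 := (hF θ).hasFDerivAt
    rwa [h0] at h1
  rcases h with hz | ⟨k, hk, hv⟩
  · -- derivative in θ
    have hsub : {θ : ℝ | θ ∈ Set.Icc 0 (2 * Real.pi) ∧
        fderiv ℝ (fun p : ℂ × ℝ => (dir p.2 * L p.1).im) (z, θ) = 0} ⊆
        Set.range (fun k : ℤ => (2 * (k : ℝ) + 1) * Real.pi / 2 - arg (L z)) := by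
      rintro θ ⟨_, h0⟩
      have h1 := hcrit θ h0
      have hc : HasDerivAt (fun t : ℝ => (z, t)) ((0 : ℂ), (1 : ℝ)) θ :=
        (hasDerivAt_const θ z).prodMk (hasDerivAt_id θ)
      have h2 := h1.comp_hasDerivAt θ hc
      have h3 : HasDerivAt (fun t : ℝ => (dir t * L z).im) (dir θ * I * L z).im θ := by
        have := ((hdir θ).mul_const (L z))
        exact (Complex.imCLM.hasFDerivAt.comp_hasDerivAt θ this)
      have h4 := h2.unique h3
      have h5 : (dir θ * I * L z).im = (dir θ * L z).re := by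
        rw [mul_right_comm, Complex.mul_I_im]
      rw [h5, LocN_re] at h4
      have h6 : Real.cos (θ + arg (L z)) = 0 := by
        have h7 : ‖L z‖ * Real.cos (θ + arg (L z)) = 0 := by
          rw [← h4]; rfl
        rcases mul_eq_zero.1 h7 with h8 | h8
        · exact absurd (norm_eq_zero.1 h8) hz
        · exact h8
      obtain ⟨m, hm⟩ := Real.cos_eq_zero_iff.1 h6
      exact ⟨m, by simp only; linarith⟩
    exact measure_mono_null hsub ((Set.countable_range _).measure_zero _)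
  · have hempty : {θ : ℝ | θ ∈ Set.Icc 0 (2 * Real.pi) ∧
        fderiv ℝ (fun p : ℂ × ℝ => (dir p.2 * L p.1).im) (z, θ) = 0} = ∅ := by
      rw [Set.eq_empty_iff_forall_notMem]
      rintro θ ⟨_, h0⟩
      have h1 := hcrit θ h0
      set v : ℂ := conj (conj (dir θ * k) * I) with hvdef
      have hc : HasDerivAt (fun t : ℝ => (z + (t : ℂ) * v, θ)) ((1 : ℂ) * v, (0 : ℝ)) 0 := by
        refine HasDerivAt.prodMk ?_ (hasDerivAt_const _ _)
        have := ((Complex.ofRealCLM.hasDerivAt (x := (0 : ℝ))).mul_const v).const_add z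
        simpa using this
      have hz0 : (z + ((0 : ℝ) : ℂ) * v, θ) = (z, θ) := by simp
      have h2 := HasFDerivAt.comp_hasDerivAt (0 : ℝ) (by rw [hz0]; exact h1) hc
      have h3 : HasDerivAt (fun t : ℝ => (dir θ * L (z + (t : ℂ) * v)).im)
          (dir θ * (fderiv ℝ L z v)).im 0 := by
        have hl : HasDerivAt (fun t : ℝ => z + (t : ℂ) * v) v 0 := by
          have := ((Complex.ofRealCLM.hasDerivAt (x := (0 : ℝ))).mul_const v).const_add z
          simpa using this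
        have hL' : HasFDerivAt L (fderiv ℝ L z) (z + ((0 : ℝ) : ℂ) * v) := by
          have : z + ((0 : ℝ) : ℂ) * v = z := by simp
          rw [this]; exact hL.hasFDerivAt
        have h5 := hL'.comp_hasDerivAt (0 : ℝ) hl
        have h6 := h5.const_mul (dir θ)
        exact Complex.imCLM.hasFDerivAt.comp_hasDerivAt (0 : ℝ) h6
      have h4 := h2.unique h3
      rw [hv v, hvdef, Complex.conj_conj, ← mul_assoc, ← mul_assoc, Complex.mul_conj,
        Complex.mul_I_im] at h4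
      have h7 : (normSq (dir θ * k) : ℝ) = 0 := by
        have h8 : ((normSq (dir θ * k) : ℝ) : ℂ).re = 0 := by
          rw [← h4]; rfl
        simpa using h8
      rw [Complex.normSq_eq_zero] at h7
      rcases mul_eq_zero.1 h7 with h8 | h8
      · have := norm_dir θ
        rw [h8, norm_zero] at this
        exact zero_ne_one this
      · exact hk h8
    rw [hempty, measure_empty]

/-- The core estimate for `band_small`. -/
private theorem LocN_band {r a x y : ℝ} (hr : 1 < r) (hx0 : 0 ≤ x) (hxy : x ≤ y)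
    (hy : y ≤ Real.pi / 2) (h1 : a ≤ Real.sin x) (h2 : Real.sin y ≤ r * a) :
    y - x ≤ Real.pi * Real.sqrt ((r - 1) / 2) := by
  have hpi := Real.pi_pos
  have ha1 : a ≤ 1 := h1.trans (Real.sin_le_one x)
  have h3 : Real.sin y - Real.sin x = 2 * Real.sin ((y - x) / 2) * Real.cos ((y + x) / 2) :=
    Real.sin_sub_sin y x
  have h4 : Real.sin ((y - x) / 2) ≤ Real.cos ((y + x) / 2) := by
    rw [← Real.sin_pi_div_two_sub]
    apply Real.sin_le_sin_of_le_of_le_pi_div_two <;> linarith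
  have h5 : 2 / Real.pi * ((y - x) / 2) ≤ Real.sin ((y - x) / 2) :=
    Real.mul_le_sin (by linarith) (by linarith)
  have h6 : 2 / Real.pi * ((y - x) / 2) = (y - x) / Real.pi := by
    field_simp
  rw [h6] at h5
  have h7 : 0 ≤ (y - x) / Real.pi := div_nonneg (by linarith) hpi.le
  have h8 : 2 * ((y - x) / Real.pi) ^ 2 ≤ r - 1 := by
    have h9 : (y - x) / Real.pi * ((y - x) / Real.pi) ≤
        Real.sin ((y - x) / 2) * Real.cos ((y + x) / 2) :=
      mul_le_mul h5 (h5.trans h4) h7 (h7.trans h5)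
    have h10 : Real.sin y - Real.sin x ≤ (r - 1) * a := by linarith
    have h11 : (r - 1) * a ≤ (r - 1) * 1 := mul_le_mul_of_nonneg_left ha1 (by linarith)
    nlinarith
  have h12 : (y - x) / Real.pi ≤ Real.sqrt ((r - 1) / 2) := by
    apply Real.le_sqrt_of_sq_le
    linarith
  rw [div_le_iff₀ hpi] at h12
  linarith

/-- Thin bands: the set of angles with `a ≤ |Im (e^{iθ} L)| ≤ r a` has small measure if `r` is
close to `1`, uniformly in `a > 0` and `L`. -/
theorem band_small {ε : ℝ} (hε : 0 < ε) : ∃ r : ℝ, 1 < r ∧ ∀ (L : ℂ) (a : ℝ), 0 < a →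
    volume {θ : ℝ | θ ∈ Set.Icc 0 (2 * Real.pi) ∧ a ≤ |(dir θ * L).im| ∧
      |(dir θ * L).im| ≤ r * a} ≤ ENNReal.ofReal ε := by
  have hpi := Real.pi_pos
  obtain ⟨r, hrdef⟩ : ∃ r : ℝ, r = 1 + 2 * (ε / (12 * Real.pi)) ^ 2 := ⟨_, rfl⟩
  have hr : 1 < r := by
    have : 0 < ε / (12 * Real.pi) := by positivity
    rw [hrdef]
    nlinarith [pow_pos this 2]
  refine ⟨r, hr, ?_⟩
  have hsq : Real.sqrt ((r - 1) / 2) = ε / (12 * Real.pi) := by
    have : (r - 1) / 2 = (ε / (12 * Real.pi)) ^ 2 := by rw [hrdef]; ring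
    rw [this, Real.sqrt_sq (by positivity)]
  intro L a ha
  rcases eq_or_ne L 0 with hL | hL
  · have : {θ : ℝ | θ ∈ Set.Icc 0 (2 * Real.pi) ∧ a ≤ |(dir θ * L).im| ∧
      |(dir θ * L).im| ≤ r * a} = ∅ := by
      rw [Set.eq_empty_iff_forall_notMem]
      rintro θ ⟨_, h1, _⟩
      rw [hL, mul_zero, Complex.zero_im, abs_zero] at h1
      linarith
    rw [this, measure_empty]
    exact bot_le
  have hL0 : 0 < ‖L‖ := norm_pos_iff.2 hL
  set c := arg L with hc
  have hc1 := Complex.neg_pi_lt_arg L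
  have hc2 := Complex.arg_le_pi L
  have hcov : {θ : ℝ | θ ∈ Set.Icc 0 (2 * Real.pi) ∧ a ≤ |(dir θ * L).im| ∧
      |(dir θ * L).im| ≤ r * a} ⊆ ⋃ k ∈ (Finset.Icc (-2 : ℤ) 3) ×ˢ (Finset.univ : Finset Bool),
        {θ : ℝ | (a / ‖L‖ ≤ |Real.sin (θ + c)| ∧ |Real.sin (θ + c)| ≤ r * (a / ‖L‖)) ∧
          (if k.2 then 0 ≤ θ + c - k.1 * Real.pi ∧ θ + c - k.1 * Real.pi ≤ Real.pi / 2
            else -(Real.pi / 2) ≤ θ + c - k.1 * Real.pi ∧ θ + c - k.1 * Real.pi ≤ 0)} := by
    rintro θ ⟨⟨ht1, ht2⟩, h1, h2⟩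
    rw [LocN_im, abs_mul, abs_of_pos hL0] at h1 h2
    have hk := LocN_range (x := θ + c) (by linarith) (by linarith)
    have hk2 := abs_le.1 (LocN_round (θ + c))
    have hs : a / ‖L‖ ≤ |Real.sin (θ + c)| ∧ |Real.sin (θ + c)| ≤ r * (a / ‖L‖) := by
      constructor
      · rw [div_le_iff₀ hL0]; linarith
      · rw [← mul_div_assoc, le_div_iff₀ hL0]; linarith
    rw [Set.mem_iUnion₂]
    rcases le_total 0 (θ + c - (round ((θ + c) / Real.pi) : ℤ) * Real.pi) with h0 | h0
    · refine ⟨(round ((θ + c) / Real.pi), true), ?_, hs, ?_⟩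
      · rw [Finset.mem_product]; exact ⟨hk, Finset.mem_univ _⟩
      · simp only [if_true]
        exact ⟨h0, hk2.2⟩
    · refine ⟨(round ((θ + c) / Real.pi), false), ?_, hs, ?_⟩
      · rw [Finset.mem_product]; exact ⟨hk, Finset.mem_univ _⟩
      · simp only [Bool.false_eq_true, if_false]
        exact ⟨hk2.1, h0⟩
  have hmain := LocN_cover hcov (d := Real.pi * (ε / (12 * Real.pi))) (by
    rintro ⟨k, b⟩ _
    apply LocN_vol
    rintro x ⟨⟨hx1, hx2⟩, hx3⟩ y ⟨⟨hy1, hy2⟩, hy3⟩ hxy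
    rw [← LocN_abs_sin _ k] at hx1 hx2 hy1 hy2
    have haL : 0 < a / ‖L‖ := div_pos ha hL0
    rw [← hsq]
    cases b with
    | true =>
      simp only [if_true] at hx3 hy3
      rw [abs_of_nonneg (Real.sin_nonneg_of_nonneg_of_le_pi hx3.1 (by linarith [hx3.2]))] at hx1 hx2
      rw [abs_of_nonneg (Real.sin_nonneg_of_nonneg_of_le_pi hy3.1 (by linarith [hy3.2]))] at hy1 hy2
      have := LocN_band hr hx3.1 (by linarith) hy3.2 hx1 hy2
      linarith
    | false =>
      simp only [Bool.false_eq_true, if_false] at hx3 hy3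
      rw [← abs_neg, ← Real.sin_neg,
        abs_of_nonneg (Real.sin_nonneg_of_nonneg_of_le_pi (by linarith [hx3.2])
          (by linarith [hx3.1]))] at hx1 hx2
      rw [← abs_neg, ← Real.sin_neg,
        abs_of_nonneg (Real.sin_nonneg_of_nonneg_of_le_pi (by linarith [hy3.2])
          (by linarith [hy3.1]))] at hy1 hy2
      have := LocN_band hr (x := -(y + c - k * Real.pi)) (y := -(x + c - k * Real.pi))
        (by linarith [hy3.2]) (by linarith) (by linarith [hx3.1]) hy1 hx2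
      linarith)
  refine hmain.trans (ENNReal.ofReal_le_ofReal ?_)
  have hcard : ((Finset.Icc (-2 : ℤ) 3) ×ˢ (Finset.univ : Finset Bool)).card = 12 := by decide
  rw [hcard]
  have : ((12 : ℕ) : ℝ) * (Real.pi * (ε / (12 * Real.pi))) = ε := by
    push_cast
    field_simp
  rw [this]

/-- The set of angles with `|Im (e^{iθ} L)| ≤ c` has measure at most `16 π c / |L|`. -/
theorem low_small {L : ℂ} (hL : L ≠ 0) {c : ℝ} (hc : 0 ≤ c) :
    volume {θ : ℝ | θ ∈ Set.Icc 0 (2 * Real.pi) ∧ |(dir θ * L).im| ≤ c} ≤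
      ENNReal.ofReal (16 * Real.pi * c / ‖L‖) := by
  have hpi := Real.pi_pos
  have hL0 : 0 < ‖L‖ := norm_pos_iff.2 hL
  set e := arg L with he
  have hc1 := Complex.neg_pi_lt_arg L
  have hc2 := Complex.arg_le_pi L
  have hcov : {θ : ℝ | θ ∈ Set.Icc 0 (2 * Real.pi) ∧ |(dir θ * L).im| ≤ c} ⊆
      ⋃ k ∈ Finset.Icc (-2 : ℤ) 3, {θ : ℝ | |θ + e - k * Real.pi| ≤ Real.pi / 2 * (c / ‖L‖)} := by
    rintro θ ⟨⟨ht1, ht2⟩, h1⟩
    rw [LocN_im, abs_mul, abs_of_pos hL0] at h1
    have hk := LocN_range (x := θ + e) (by linarith) (by linarith)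
    have hk2 := LocN_round (θ + e)
    rw [Set.mem_iUnion₂]
    refine ⟨round ((θ + e) / Real.pi), hk, ?_⟩
    have h3 := LocN_jordan hk2
    rw [LocN_abs_sin] at h3
    have h4 : |Real.sin (θ + e)| ≤ c / ‖L‖ := by
      rw [le_div_iff₀ hL0]; linarith
    exact h3.trans (mul_le_mul_of_nonneg_left h4 (by positivity))
  have hmain := LocN_cover hcov (d := Real.pi * (c / ‖L‖)) (by
    intro k _
    apply LocN_vol
    intro x hx y hy _
    rw [Set.mem_ofPred_eq] at hx hy
    have h1 := abs_le.1 hx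
    have h2 := abs_le.1 hy
    linarith [h1.1, h2.2])
  refine hmain.trans (ENNReal.ofReal_le_ofReal ?_)
  have hcard : (Finset.Icc (-2 : ℤ) 3).card = 6 := by decide
  rw [hcard]
  have h1 : 0 ≤ c / ‖L‖ := by positivity
  have h2 : 16 * Real.pi * c / ‖L‖ = 16 * Real.pi * (c / ‖L‖) := by ring
  rw [h2]
  push_cast
  nlinarith [mul_nonneg hpi.le h1]

/-- A function on a set of reals which increases with rate at least `1/2` and whose total
increment is at most `T`: the set where `|sin (φ - c)| ≤ d` has measure at most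
`(T/π + 2) 4 π d`. -/
theorem phase_small {s : Set ℝ} {φ : ℝ → ℝ} {T d : ℝ} (hT : 0 ≤ T) (hd : 0 ≤ d)
    (h : ∀ x ∈ s, ∀ y ∈ s, x ≤ y → (y - x) / 2 ≤ φ y - φ x ∧ φ y - φ x ≤ T) (c : ℝ) :
    volume {x : ℝ | x ∈ s ∧ |Real.sin (φ x - c)| ≤ d} ≤
      ENNReal.ofReal ((T / Real.pi + 2) * (4 * Real.pi * d)) := by
  have hpi := Real.pi_pos
  rcases s.eq_empty_or_nonempty with hs | ⟨x0, hx0⟩
  · have : {x : ℝ | x ∈ s ∧ |Real.sin (φ x - c)| ≤ d} = ∅ := by
      rw [Set.eq_empty_iff_forall_notMem]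
      rintro x ⟨hx, _⟩
      rw [hs] at hx
      exact hx
    rw [this, measure_empty]
    exact bot_le
  have hrange : ∀ x ∈ s, |φ x - φ x0| ≤ T := by
    intro x hx
    rcases le_total x0 x with h0 | h0
    · obtain ⟨h1, h2⟩ := h x0 hx0 x hx h0
      rw [abs_le]
      constructor <;> linarith
    · obtain ⟨h1, h2⟩ := h x hx x0 hx0 h0
      rw [abs_le]
      constructor <;> linarith
  set lo : ℤ := ⌈(φ x0 - T - c) / Real.pi - 1 / 2⌉ with hlo
  set hi : ℤ := ⌊(φ x0 + T - c) / Real.pi + 1 / 2⌋ with hhi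
  have hcov : {x : ℝ | x ∈ s ∧ |Real.sin (φ x - c)| ≤ d} ⊆
      ⋃ n ∈ Finset.Icc lo hi, {x : ℝ | x ∈ s ∧ |φ x - c - n * Real.pi| ≤ Real.pi / 2 * d} := by
    rintro x ⟨hx, h1⟩
    rw [Set.mem_iUnion₂]
    refine ⟨round ((φ x - c) / Real.pi), ?_, hx, ?_⟩
    · rw [Finset.mem_Icc, hlo, hhi]
      have h2 := abs_le.1 (hrange x hx)
      have h3 := abs_le.1 (abs_sub_round ((φ x - c) / Real.pi))
      constructor
      · rw [Int.ceil_le]
        have h4 : (φ x0 - T - c) / Real.pi ≤ (φ x - c) / Real.pi :=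
          div_le_div_of_nonneg_right (by linarith [h2.1]) hpi.le
        linarith [h3.2]
      · rw [Int.le_floor]
        have h4 : (φ x - c) / Real.pi ≤ (φ x0 + T - c) / Real.pi :=
          div_le_div_of_nonneg_right (by linarith [h2.2]) hpi.le
        linarith [h3.1]
    · have h3 := LocN_jordan (LocN_round (φ x - c))
      rw [LocN_abs_sin] at h3
      exact h3.trans (mul_le_mul_of_nonneg_left h1 (by positivity))
  have hmain := LocN_cover hcov (d := 2 * (Real.pi * d)) (by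
    intro n _
    apply LocN_vol
    rintro x ⟨hxs, hx⟩ y ⟨hys, hy⟩ hxy
    have h1 := abs_le.1 hx
    have h2 := abs_le.1 hy
    have h3 := (h x hxs y hys hxy).1
    linarith [h1.1, h2.2])
  refine hmain.trans (ENNReal.ofReal_le_ofReal ?_)
  have hcard : ((Finset.Icc lo hi).card : ℝ) ≤ 2 * (T / Real.pi) + 2 := by
    rw [Int.card_Icc]
    have h1 : ((hi + 1 - lo).toNat : ℝ) ≤ max ((hi : ℝ) + 1 - lo) 0 := by
      rcases le_total 0 (hi + 1 - lo) with h0 | h0
      · refine le_max_of_le_left ?_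
        have : (((hi + 1 - lo).toNat : ℤ) : ℝ) = ((hi + 1 - lo : ℤ) : ℝ) := by
          rw [Int.toNat_of_nonneg h0]
        rw [← Int.cast_natCast, this]
        push_cast
        exact le_refl _
      · rw [Int.toNat_eq_zero.2 h0]
        simp
    refine h1.trans (max_le ?_ ?_)
    · have h2 : (hi : ℝ) ≤ (φ x0 + T - c) / Real.pi + 1 / 2 := Int.floor_le _
      have h3 : (φ x0 - T - c) / Real.pi - 1 / 2 ≤ (lo : ℝ) := Int.le_ceil _
      have h4 : (φ x0 + T - c) / Real.pi - (φ x0 - T - c) / Real.pi = 2 * (T / Real.pi) := by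
        field_simp
        ring
      linarith
    · have : 0 ≤ T / Real.pi := div_nonneg hT hpi.le
      linarith
  have h5 : 0 ≤ 2 * (Real.pi * d) := by positivity
  have h6 : 0 ≤ T / Real.pi := div_nonneg hT hpi.le
  calc ((Finset.Icc lo hi).card : ℝ) * (2 * (Real.pi * d))
      ≤ (2 * (T / Real.pi) + 2) * (2 * (Real.pi * d)) := mul_le_mul_of_nonneg_right hcard h5
    _ ≤ (T / Real.pi + 2) * (4 * Real.pi * d) := by nlinarith

end Pool.Agent.H.MP_bfbbee_an.F4
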