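import Pool.Agent.H.MP_bfbbee_an.helper67.Std
import Pool.Agent.H.MP_bfbbee_an.helper67.LocN

/-!
# Two angular momenta are rarely small at the same time
-/

set_option autoImplicit false

namespace Pool.Agent.H.MP_bfbbee_an.F4

open ComplexConjugate Filter Topology Complex MeasureTheory
open scoped ContDiff

variable {A B : ℂ → ℂ}

/-- `J(z, θ) = Im (e^{iθ} Λ)` with `Λ = 2 (W/|W|) conj(AB)/D`. -/
theorem J_amp (z : ℂ) (θ : ℝ) :
    Jf A B (z, θ) =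
      (dir θ * (Wr A B z / (‖Wr A B z‖ : ℂ) * (2 * conj (A z * B z) / (Dn A B z : ℂ)))).im := by
  unfold Jf Zd
  simp only
  have h1 : dir θ * (Wr A B z / (‖Wr A B z‖ : ℂ) * (2 * conj (A z * B z) / (Dn A B z : ℂ)))
      = ((2 / Dn A B z : ℝ) : ℂ) * (dir θ * (Wr A B z / (‖Wr A B z‖ : ℂ)) * conj (A z * B z)) := by
    push_cast
    ring
  rw [h1, Complex.im_ofReal_mul]
  ring

private theorem Amp_one_add_ne (l : ℂ) : 1 + l * conj l ≠ 0 := by
  rw [← sq1_mul]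
  exact mul_ne_zero (sq1_ne l) (sq1_ne l)

/-- The product of the members of the new pair. -/
private theorem Amp_prod (a b : ℂ) {l l' c : ℂ} (hk : 1 + conj l * l' ≠ 0)
    (hc : c = (l' - l) / (1 + conj l * l')) :
    ((a - l' * b) / sq1 l') * ((b + conj l' * a) / sq1 l') * (1 + c * conj c) =
      (1 - c * conj c) * (((a - l * b) / sq1 l) * ((b + conj l * a) / sq1 l)) +
        conj c * ((a - l * b) / sq1 l) ^ 2 - c * ((b + conj l * a) / sq1 l) ^ 2 := by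
  have hk' : 1 + l * conj l' ≠ 0 := by
    intro h0
    apply hk
    have h1 := congrArg conj h0
    rw [map_add, map_mul, map_one, map_zero, Complex.conj_conj] at h1
    exact h1
  have hcc : conj c = (conj l' - conj l) / (1 + l * conj l') := by
    rw [hc, map_div₀, map_sub, map_add, map_mul, map_one, Complex.conj_conj]
  have hl := Amp_one_add_ne l
  have hl' := Amp_one_add_ne l'
  rw [div_mul_div_comm, div_mul_div_comm, div_pow, div_pow, pow_two (sq1 l), sq1_mul, sq1_mul]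
  have hck : c * (1 + conj l * l') = l' - l := by rw [hc, div_mul_cancel₀ _ hk]
  have hcbk : conj c * (1 + l * conj l') = conj l' - conj l := by
    rw [hcc, div_mul_cancel₀ _ hk']
  generalize conj l = lb at *
  generalize conj l' = lb' at *
  generalize conj c = cb at *
  have f1 : (1 + l * lb) * (a - l' * b) =
      (1 + lb * l') * ((a - l * b) - c * (b + lb * a)) := by
    linear_combination (b + lb * a) * hck
  have f2 : (1 + l * lb) * (b + lb' * a) =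
      (1 + l * lb') * ((b + lb * a) + cb * (a - l * b)) := by
    linear_combination (-(a - l * b)) * hcbk
  have f3 : (1 + lb * l') * (1 + l * lb') * (1 + c * cb) =
      (1 + l * lb) * (1 + l' * lb') := by
    linear_combination (cb * (1 + l * lb')) * hck + (l' - l) * hcbk
  have f4 : (1 + l * lb) * ((a - l' * b) * (b + lb' * a) * (1 + c * cb) * (1 + l * lb)) =
      (1 + l * lb) * (((1 - c * cb) * ((a - l * b) * (b + lb * a)) + cb * (a - l * b) ^ 2 -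
        c * (b + lb * a) ^ 2) * (1 + l' * lb')) := by
    calc (1 + l * lb) * ((a - l' * b) * (b + lb' * a) * (1 + c * cb) * (1 + l * lb))
        = ((1 + l * lb) * (a - l' * b)) * ((1 + l * lb) * (b + lb' * a)) * (1 + c * cb) := by ring
      _ = ((1 + lb * l') * (1 + l * lb') * (1 + c * cb)) *
          (((a - l * b) - c * (b + lb * a)) * ((b + lb * a) + cb * (a - l * b))) := by
          rw [f1, f2]
          ring
      _ = _ := by
          rw [f3]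
          ring
  have f5 := mul_left_cancel₀ hl f4
  have f6 : (a - l' * b) * (b + lb' * a) / (1 + l' * lb') * (1 + c * cb) =
      ((a - l' * b) * (b + lb' * a) * (1 + c * cb)) / (1 + l' * lb') := by ring
  have f7 : (1 - c * cb) * ((a - l * b) * (b + lb * a) / (1 + l * lb)) +
      cb * ((a - l * b) ^ 2 / (1 + l * lb)) - c * ((b + lb * a) ^ 2 / (1 + l * lb)) =
      ((1 - c * cb) * ((a - l * b) * (b + lb * a)) + cb * (a - l * b) ^ 2 -
        c * (b + lb * a) ^ 2) / (1 + l * lb) := by ring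
  rw [f6, f7, div_eq_div_iff hl' hl]
  exact f5

/-- The amplitudes: with `c = (l'-l)/(1 + conj l l')`, `k = |c|/(1+|c|²)`, one of the two
amplitudes is at least `k/2`. -/
theorem amp_max (h : Pair A B) {l l' c : ℂ} (hk : 1 + conj l * l' ≠ 0)
    (hc : c = (l' - l) / (1 + conj l * l')) {z : ℂ} (hz : z ∈ Disc) :
    ‖c‖ / (1 + ‖c‖ ^ 2) / 2 ≤ 2 * ‖rA l A B z * rB l A B z‖ / Dn A B z ∨
      ‖c‖ / (1 + ‖c‖ ^ 2) / 2 ≤ 2 * ‖rA l' A B z * rB l' A B z‖ / Dn A B z := by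
  have hD := Dn_pos h hz
  have hab : ‖rA l A B z‖ ^ 2 + ‖rB l A B z‖ ^ 2 = Dn A B z := by
    rw [← Dn_rot (A := A) (B := B) l z]
    rfl
  have hprod : rA l' A B z * rB l' A B z * (1 + c * conj c) =
      (1 - c * conj c) * (rA l A B z * rB l A B z) + conj c * rA l A B z ^ 2 -
        c * rB l A B z ^ 2 := Amp_prod (A z) (B z) hk hc
  have hcc : c * conj c = ((‖c‖ ^ 2 : ℝ) : ℂ) := by
    rw [Complex.mul_conj, Complex.normSq_eq_norm_sq]
  generalize rA l' A B z * rB l' A B z = P at *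
  generalize rA l A B z = a at *
  generalize rB l A B z = b at *
  generalize Dn A B z = D at *
  have hn : 0 ≤ ‖c‖ := norm_nonneg c
  have hn1 : 0 < 1 + ‖c‖ ^ 2 := by positivity
  rcases le_or_gt (‖c‖ / (1 + ‖c‖ ^ 2) / 2) (2 * ‖a * b‖ / D) with h1 | h1
  · exact Or.inl h1
  right
  rw [norm_mul] at h1
  have hk2 : ‖c‖ / (1 + ‖c‖ ^ 2) ≤ 1 / 2 := by
    rw [div_le_div_iff₀ hn1 two_pos]
    nlinarith [sq_nonneg (‖c‖ - 1)]
  -- `2 |ab| < (k/2) D`
  have h2 : 2 * (‖a‖ * ‖b‖) < ‖c‖ / (1 + ‖c‖ ^ 2) / 2 * D := by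
    rwa [div_lt_iff₀ hD] at h1
  have h3 : 2 * (‖a‖ * ‖b‖) ≤ D / 4 := by
    nlinarith
  have hab0 : 0 ≤ ‖a‖ * ‖b‖ := by positivity
  have h4 : 3 / 4 * D ≤ |‖a‖ ^ 2 - ‖b‖ ^ 2| := by
    have h5 : |‖a‖ ^ 2 - ‖b‖ ^ 2| ^ 2 = D ^ 2 - (2 * (‖a‖ * ‖b‖)) ^ 2 := by
      rw [sq_abs, ← hab]
      ring
    have h6 : (3 / 4 * D) ^ 2 ≤ |‖a‖ ^ 2 - ‖b‖ ^ 2| ^ 2 := by
      rw [h5]
      have h7 : (2 * (‖a‖ * ‖b‖)) ^ 2 ≤ (D / 4) ^ 2 := by
        gcongr
      nlinarith [sq_nonneg D]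
    exact abs_le_of_sq_le_sq' h6 (abs_nonneg _) |>.2
  have h5 : ‖P‖ * (1 + ‖c‖ ^ 2) = ‖P * (1 + c * conj c)‖ := by
    rw [norm_mul, hcc, ← Complex.ofReal_one, ← Complex.ofReal_add, Complex.norm_real,
      Real.norm_of_nonneg hn1.le]
  have h6 : ‖conj c * a ^ 2 - c * b ^ 2‖ ≤ ‖P * (1 + c * conj c)‖
      + ‖(1 - c * conj c) * (a * b)‖ := by
    have h7 : conj c * a ^ 2 - c * b ^ 2 = P * (1 + c * conj c) - (1 - c * conj c) * (a * b) := by
      rw [hprod]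
      ring
    rw [h7]
    exact norm_sub_le _ _
  have h7 : ‖c‖ * |‖a‖ ^ 2 - ‖b‖ ^ 2| ≤ ‖conj c * a ^ 2 - c * b ^ 2‖ := by
    have h8 := abs_norm_sub_norm_le (conj c * a ^ 2) (c * b ^ 2)
    rw [norm_mul, norm_mul, norm_pow, norm_pow, RCLike.norm_conj, ← mul_sub, abs_mul,
      abs_norm] at h8
    exact h8
  have h8 : ‖(1 - c * conj c) * (a * b)‖ ≤ (1 + ‖c‖ ^ 2) * (‖a‖ * ‖b‖) := by
    rw [norm_mul, norm_mul]
    refine mul_le_mul_of_nonneg_right ?_ hab0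
    calc ‖1 - c * conj c‖ ≤ ‖(1 : ℂ)‖ + ‖c * conj c‖ := norm_sub_le _ _
      _ = 1 + ‖c‖ ^ 2 := by
        rw [norm_one, hcc, Complex.norm_real, Real.norm_of_nonneg (by positivity)]
  have h9 : (1 + ‖c‖ ^ 2) * (2 * (‖a‖ * ‖b‖)) ≤ ‖c‖ / 2 * D := by
    calc (1 + ‖c‖ ^ 2) * (2 * (‖a‖ * ‖b‖))
        ≤ (1 + ‖c‖ ^ 2) * (‖c‖ / (1 + ‖c‖ ^ 2) / 2 * D) := by gcongr
      _ = ‖c‖ / 2 * D := by
        field_simp
  have h10 : ‖c‖ * (3 / 4 * D) ≤ ‖c‖ * |‖a‖ ^ 2 - ‖b‖ ^ 2| := by gcongr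
  have h11 : ‖c‖ * D ≤ 2 * (‖P‖ * (1 + ‖c‖ ^ 2)) := by
    rw [h5]
    linarith
  have h12 : ‖c‖ / (1 + ‖c‖ ^ 2) ≤ 2 * ‖P‖ / D := by
    rw [div_le_div_iff₀ hn1 hD]
    linarith
  have h13 : 0 ≤ ‖c‖ / (1 + ‖c‖ ^ 2) := by positivity
  linarith

/-- One rotated pair. -/
private theorem Amp_one (h : Pair A B) (l : ℂ) {z : ℂ} (hz : z ∈ Disc)
    (hW : Wr A B z ≠ 0) {d k : ℝ} (hd : 0 ≤ d) (hk : 0 < k)
    (hkl : k / 2 ≤ 2 * ‖rA l A B z * rB l A B z‖ / Dn A B z) :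
    volume {θ : ℝ | θ ∈ Set.Icc 0 (2 * Real.pi) ∧ |Jf (rA l A B) (rB l A B) (z, θ)| ≤ d} ≤
      ENNReal.ofReal (32 * Real.pi * d / k) := by
  have hD := Dn_pos h hz
  have hpi := Real.pi_pos
  set L : ℂ := Wr (rA l A B) (rB l A B) z / (‖Wr (rA l A B) (rB l A B) z‖ : ℂ) *
    (2 * conj (rA l A B z * rB l A B z) / (Dn (rA l A B) (rB l A B) z : ℂ)) with hL
  have hLn : ‖L‖ = 2 * ‖rA l A B z * rB l A B z‖ / Dn A B z := by
    rw [hL, Wr_rot h l hz, Dn_rot]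
    have h1 : ‖Wr A B z‖ ≠ 0 := norm_ne_zero_iff.mpr hW
    rw [norm_mul, norm_div, norm_div, Complex.norm_real, norm_norm, div_self h1, one_mul, norm_mul,
      RCLike.norm_conj, Complex.norm_real, Real.norm_of_nonneg hD.le]
    norm_num
  have hLk : k / 2 ≤ ‖L‖ := by rw [hLn]; exact hkl
  have hL0 : L ≠ 0 := norm_pos_iff.mp (lt_of_lt_of_le (by positivity) hLk)
  have hset : {θ : ℝ | θ ∈ Set.Icc 0 (2 * Real.pi) ∧ |Jf (rA l A B) (rB l A B) (z, θ)| ≤ d}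
      = {θ : ℝ | θ ∈ Set.Icc 0 (2 * Real.pi) ∧ |(dir θ * L).im| ≤ d} := by
    ext θ
    simp only [Set.mem_ofPred_eq]
    rw [J_amp z θ]
  rw [hset]
  refine (low_small hL0 hd).trans (ENNReal.ofReal_le_ofReal ?_)
  calc 16 * Real.pi * d / ‖L‖ ≤ 16 * Real.pi * d / (k / 2) := by
        gcongr
    _ = 32 * Real.pi * d / k := by
        field_simp
        ring

/-- Two angular momenta are small at the same time only on a small set of angles. -/
theorem two_small (h : Pair A B) {l l' c : ℂ} (hk : 1 + conj l * l' ≠ 0)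
    (hc : c = (l' - l) / (1 + conj l * l')) (hc0 : c ≠ 0) {z : ℂ} (hz : z ∈ Disc)
    (hW : Wr A B z ≠ 0) {d : ℝ} (hd : 0 ≤ d) :
    volume {θ : ℝ | θ ∈ Set.Icc 0 (2 * Real.pi) ∧
      |Jf (rA l A B) (rB l A B) (z, θ)| ≤ d ∧ |Jf (rA l' A B) (rB l' A B) (z, θ)| ≤ d} ≤
      ENNReal.ofReal (32 * Real.pi * d / (‖c‖ / (1 + ‖c‖ ^ 2))) := by
  have hk0 : 0 < ‖c‖ / (1 + ‖c‖ ^ 2) := by
    have := norm_pos_iff.mpr hc0
    positivity
  rcases amp_max h hk hc hz with h1 | h1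
  · refine le_trans (measure_mono ?_) (Amp_one h l hz hW hd hk0 h1)
    rintro θ ⟨h2, h3, _⟩
    exact ⟨h2, h3⟩
  · refine le_trans (measure_mono ?_) (Amp_one h l' hz hW hd hk0 h1)
    rintro θ ⟨h2, _, h3⟩
    exact ⟨h2, h3⟩

end Pool.Agent.H.MP_bfbbee_an.F4
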