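import Pool.Agent.H.MP_bfbbee_an.helper67.Fd

/-!
# Smoothness of the Abel transform, Hadamard quotient
-/

set_option autoImplicit false

namespace Pool.Agent.H.MP_bfbbee_an.F4

open ComplexConjugate Filter Topology Complex
open scoped ContDiff

/-- finite order -/
private theorem DevB_nat {E : Type*} [NormedAddCommGroup E] [NormedSpace ℝ E]
    [FiniteDimensional ℝ E] (a b : ℝ) (n : ℕ) :
    ∀ f : E × ℝ → ℝ, ContDiff ℝ ∞ f → ContDiff ℝ n (fun x : E => ∫ t in a..b, f (x, t)) := by
  induction n with
  | zero =>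
    intro f hf
    rw [Nat.cast_zero, contDiff_zero]
    exact intervalIntegral.continuous_parametric_intervalIntegral_of_continuous'
      (f := fun x t => f (x, t)) hf.continuous a b
  | succ n ih =>
    intro f hf
    have hdf : ContDiff ℝ ∞ (fderiv ℝ f) := hf.fderiv_right (by simp)
    have hfc : Continuous f := hf.continuous
    have hg : Continuous (fun p : E × ℝ =>
        (fderiv ℝ f p).comp (ContinuousLinearMap.inl ℝ E ℝ)) :=
      hdf.continuous.clm_comp continuous_const
    have hder : ∀ x, HasFDerivAt (fun x : E => ∫ t in a..b, f (x, t))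
        (∫ t in a..b, (fderiv ℝ f (x, t)).comp (ContinuousLinearMap.inl ℝ E ℝ)) x := by
      intro x
      have hK : IsCompact (Metric.closedBall x 1 ×ˢ Set.uIcc a b) :=
        (isCompact_closedBall x 1).prod isCompact_uIcc
      obtain ⟨C, hC⟩ := hK.exists_bound_of_continuousOn hg.continuousOn
      refine intervalIntegral.hasFDerivAt_integral_of_dominated_of_fderiv_le
        (F := fun x t => f (x, t))
        (F' := fun x t => (fderiv ℝ f (x, t)).comp (ContinuousLinearMap.inl ℝ E ℝ))
        (bound := fun _ => C) (s := Metric.ball x 1)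
        (Metric.ball_mem_nhds x one_pos) ?_ ?_ ?_ ?_ ?_ ?_
      · refine Filter.Eventually.of_forall fun y => ?_
        exact (hfc.comp (Continuous.prodMk_right y)).aestronglyMeasurable
      · exact (hfc.comp (Continuous.prodMk_right x)).intervalIntegrable a b
      · exact (hg.comp (Continuous.prodMk_right x)).aestronglyMeasurable
      · refine Filter.Eventually.of_forall fun s hs y hy => ?_
        exact hC (y, s) ⟨Metric.ball_subset_closedBall hy, Set.uIoc_subset_uIcc hs⟩
      · exact intervalIntegrable_const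
      · refine Filter.Eventually.of_forall fun s _ y _ => ?_
        have h1 := (hf.differentiable (by simp) (y, s)).hasFDerivAt
        exact h1.comp y (hasFDerivAt_prodMk_left y s)
    rw [Nat.cast_succ, contDiff_succ_iff_fderiv_apply]
    refine ⟨fun x => (hder x).differentiableAt, by simp, fun y => ?_⟩
    have he : (fun x => fderiv ℝ (fun x : E => ∫ t in a..b, f (x, t)) x y) =
        fun x => ∫ t in a..b, (fderiv ℝ f (x, t)) (y, 0) := by
      funext x
      rw [(hder x).fderiv, ContinuousLinearMap.intervalIntegral_apply]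
      · rfl
      · exact (hg.comp (Continuous.prodMk_right x)).intervalIntegrable a b
    rw [he]
    exact ih (fun p => fderiv ℝ f p (y, 0)) (hdf.clm_apply contDiff_const)

/-- A general parametric integral over a compact interval. -/
theorem contDiff_param {E : Type*} [NormedAddCommGroup E] [NormedSpace ℝ E]
    [FiniteDimensional ℝ E] {f : E × ℝ → ℝ} (hf : ContDiff ℝ ∞ f) (a b : ℝ) :
    ContDiff ℝ ∞ (fun x : E => ∫ t in a..b, f (x, t)) := by
  rw [contDiff_infty]
  intro n
  exact DevB_nat a b n f hf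

/-- `N(q) = ∫_0^∞ ν(q + y²) dy` is smooth. -/
theorem N_contDiff {ν : ℝ → ℝ} (hν : ContDiff ℝ ∞ ν) (hc : HasCompactSupport ν) :
    ContDiff ℝ ∞ (fun q : ℝ => ∫ y in Set.Ioi (0 : ℝ), ν (q + y ^ 2)) := by
  obtain ⟨R, hR⟩ := hc.isCompact.isBounded.subset_closedBall 0
  have hR' : ∀ x : ℝ, R < |x| → ν x = 0 := by
    intro x hx
    by_contra hne
    have h1 := hR (subset_tsupport ν hne)
    rw [Metric.mem_closedBall, dist_zero_right, Real.norm_eq_abs] at h1
    linarith
  rw [contDiff_iff_contDiffAt]
  intro q0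
  set Y : ℝ := |q0| + |R| + 2 with hY
  have hYpos : 0 < Y := by positivity
  have hsm : ContDiff ℝ ∞ (fun p : ℝ × ℝ => ν (p.1 + p.2 ^ 2)) :=
    hν.comp (contDiff_fst.add (contDiff_snd.pow 2))
  have h1 : ContDiff ℝ ∞ (fun q : ℝ => ∫ y in (0 : ℝ)..Y, ν (q + y ^ 2)) :=
    contDiff_param hsm 0 Y
  refine h1.contDiffAt.congr_of_eventuallyEq ?_
  filter_upwards [Metric.ball_mem_nhds q0 one_pos] with q hq
  rw [intervalIntegral.integral_of_le hYpos.le]
  refine MeasureTheory.setIntegral_eq_of_subset_of_forall_sdiff_eq_zero measurableSet_Ioi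
    Set.Ioc_subset_Ioi_self ?_
  rintro y ⟨hy1, hy2⟩
  have hy0 : 0 < y := hy1
  have hyY : Y < y := by
    by_contra hcon
    exact hy2 ⟨hy0, not_lt.mp hcon⟩
  apply hR'
  rw [Metric.mem_ball, Real.dist_eq] at hq
  have h2 := abs_lt.mp hq
  have h3 := neg_abs_le q0
  have h4 := le_abs_self R
  have h5 := abs_nonneg R
  have h6 := abs_nonneg q0
  have h7 : y ≤ y ^ 2 := by nlinarith
  have h8 : R < q + y ^ 2 := by linarith
  exact lt_of_lt_of_le h8 (le_abs_self _)

/-- Hadamard's lemma. -/
theorem hadamard_quot {f : ℝ → ℝ} (hf : ContDiff ℝ ∞ f) :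
    ∃ g : ℝ → ℝ, ContDiff ℝ ∞ g ∧ ∀ x, f x = f 0 + x * g x := by
  have hd : ContDiff ℝ ∞ (deriv f) := (contDiff_infty_iff_deriv.mp hf).2
  have hsm : ContDiff ℝ ∞ (fun p : ℝ × ℝ => deriv f (p.2 * p.1)) :=
    hd.comp (contDiff_snd.mul contDiff_fst)
  refine ⟨fun x => ∫ t in (0 : ℝ)..1, deriv f (t * x), contDiff_param hsm 0 1, ?_⟩
  intro x
  have h1 : ∀ t ∈ Set.uIcc (0 : ℝ) 1,
      HasDerivAt (fun t : ℝ => f (t * x)) (x * deriv f (t * x)) t := by
    intro t _
    have h2 : HasDerivAt f (deriv f (t * x)) (t * x) :=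
      (hf.differentiable (by simp) (t * x)).hasDerivAt
    have h3 : HasDerivAt (fun t : ℝ => t * x) (1 * x) t := (hasDerivAt_id t).mul_const x
    have h4 := h2.comp t h3
    rw [one_mul, mul_comm] at h4
    exact h4
  have hcont : Continuous (fun t : ℝ => x * deriv f (t * x)) := by
    have := hd.continuous
    fun_prop
  have h2 := intervalIntegral.integral_eq_sub_of_hasDerivAt h1 (hcont.intervalIntegrable 0 1)
  rw [intervalIntegral.integral_const_mul, one_mul, zero_mul] at h2
  rw [h2]
  ring

end Pool.Agent.H.MP_bfbbee_an.F4
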