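import Pool.Agent.H.MP_bfbbee_an.helper67.DevA
import Pool.Agent.H.MP_bfbbee_an.helper67.DevB

/-!
# Existence of the device function
-/

set_option autoImplicit false

namespace Pool.Agent.H.MP_bfbbee_an.F4

open ComplexConjugate Filter Topology Complex
open scoped ContDiff

/-- An auxiliary function: smooth, nonnegative, supported in `(a2², a3²)`, with integral one. -/
theorem DevE_nu {a2 a3 : ℝ} (h2 : 0 < a2) (h3 : a2 < a3) :
    ∃ ν : ℝ → ℝ, ContDiff ℝ ∞ ν ∧ HasCompactSupport ν ∧ (∀ x, 0 ≤ ν x) ∧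
      (∀ x, x ≤ a2 ^ 2 → ν x = 0) ∧ (∀ x, a3 ^ 2 ≤ x → ν x = 0) ∧
      ∫ y in Set.Ioi (0 : ℝ), ν (y ^ 2) = 1 := by
  have h4 : a2 ^ 2 < a3 ^ 2 := by nlinarith
  have hp : 0 < a2 ^ 2 := by positivity
  set c := (a2 ^ 2 + a3 ^ 2) / 2 with hc
  set d := (a3 ^ 2 - a2 ^ 2) / 4 with hd
  have hd0 : 0 < d := by rw [hd]; linarith
  let b : ContDiffBump c := ⟨d / 2, d, by linarith, by linarith⟩
  have hb0 : ∀ x, d ≤ |x - c| → b x = 0 := by
    intro x hx
    have h5 : x ∉ Function.support b := by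
      rw [b.support_eq, Metric.mem_ball, Real.dist_eq]
      exact not_lt.2 hx
    simpa [Function.mem_support] using h5
  have hbl : ∀ x, x ≤ a2 ^ 2 → b x = 0 := by
    intro x hx
    refine hb0 x ?_
    rw [abs_of_nonpos (by rw [hc]; linarith), hc, hd]
    linarith
  have hbr : ∀ x, a3 ^ 2 ≤ x → b x = 0 := by
    intro x hx
    refine hb0 x ?_
    rw [abs_of_nonneg (by rw [hc]; linarith), hc, hd]
    linarith
  have hcs : HasCompactSupport fun y : ℝ => b (y ^ 2) := by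
    refine HasCompactSupport.intro (isCompact_Icc (a := -a3) (b := a3)) fun x hx => hbr _ ?_
    by_contra hcon
    apply hx
    have h5 := abs_lt_of_sq_lt_sq (not_le.1 hcon) (by linarith)
    exact ⟨(abs_lt.1 h5).1.le, (abs_lt.1 h5).2.le⟩
  have hcont : Continuous fun y : ℝ => b (y ^ 2) := b.continuous.comp (by fun_prop)
  have hint : MeasureTheory.Integrable fun y : ℝ => b (y ^ 2) :=
    hcont.integrable_of_hasCompactSupport hcs
  set C := ∫ y in Set.Ioi (0 : ℝ), b (y ^ 2) with hC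
  have hCpos : 0 < C := by
    rw [hC, MeasureTheory.setIntegral_pos_iff_support_of_nonneg_ae
      (Filter.Eventually.of_forall fun y => b.nonneg) hint.integrableOn]
    have ho : IsOpen (Function.support (fun y : ℝ => b (y ^ 2)) ∩ Set.Ioi (0 : ℝ)) :=
      hcont.isOpen_support.inter isOpen_Ioi
    refine ho.measure_pos MeasureTheory.volume ⟨Real.sqrt c, ?_, ?_⟩
    · have hc0 : 0 ≤ c := by rw [hc]; linarith
      rw [Function.mem_support, Real.sq_sqrt hc0]
      have := b.one_of_mem_closedBall (x := c) (by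
        rw [Metric.mem_closedBall, dist_self]
        exact b.rIn_pos.le)
      rw [this]
      exact one_ne_zero
    · exact Real.sqrt_pos.2 (by rw [hc]; linarith)
  refine ⟨fun x => b x / C, b.contDiff.div_const C, ?_, fun x => div_nonneg b.nonneg hCpos.le,
    fun x hx => by show b x / C = 0; rw [hbl x hx, zero_div],
    fun x hx => by show b x / C = 0; rw [hbr x hx, zero_div], ?_⟩
  · refine HasCompactSupport.intro (isCompact_Icc (a := a2 ^ 2) (b := a3 ^ 2)) fun x hx => ?_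
    rw [Set.mem_Icc, not_and_or, not_le, not_le] at hx
    rcases hx with hx | hx
    · rw [hbl x hx.le, zero_div]
    · rw [hbr x hx.le, zero_div]
  · rw [MeasureTheory.integral_div, ← hC, div_self hCpos.ne']

/-- The substitution `s = √(j² + r²)`. -/
theorem DevE_subst {a2 a3 : ℝ} {ν : ℝ → ℝ} (hν : Continuous ν)
    (hl : ∀ x, x ≤ a2 ^ 2 → ν x = 0) (hr : ∀ x, a3 ^ 2 ≤ x → ν x = 0)
    (hi : ∫ y in Set.Ioi (0 : ℝ), ν (y ^ 2) = 1) (h3 : 0 < a3) {j : ℝ} (hj : 0 < j)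
    (hj2 : j < a2) :
    ∫ r in Set.Ioi (0 : ℝ), ν (j ^ 2 + r ^ 2) * r / Real.sqrt (j ^ 2 + r ^ 2) = 1 := by
  have hpos : ∀ r : ℝ, 0 < j ^ 2 + r ^ 2 := fun r => by positivity
  have hsq : ∀ r : ℝ, Real.sqrt (j ^ 2 + r ^ 2) ^ 2 = j ^ 2 + r ^ 2 := fun r =>
    Real.sq_sqrt (hpos r).le
  have hfc : Continuous fun r : ℝ => Real.sqrt (j ^ 2 + r ^ 2) := by fun_prop
  have hgc : Continuous fun s : ℝ => ν (s ^ 2) := hν.comp (by fun_prop)
  have out : ∀ x : ℝ, x ∉ Set.Icc (-a3) a3 → a3 ^ 2 ≤ x ^ 2 := by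
    intro x hx
    by_contra hcon
    apply hx
    have h5 := abs_lt_of_sq_lt_sq (not_le.1 hcon) (by linarith)
    exact ⟨(abs_lt.1 h5).1.le, (abs_lt.1 h5).2.le⟩
  have hg1 : MeasureTheory.Integrable fun s : ℝ => ν (s ^ 2) :=
    hgc.integrable_of_hasCompactSupport
      (HasCompactSupport.intro (isCompact_Icc (a := -a3) (b := a3)) fun x hx => hr _ (out x hx))
  have hg2 : MeasureTheory.Integrable fun r : ℝ =>
      ((fun s : ℝ => ν (s ^ 2)) ∘ fun r : ℝ => Real.sqrt (j ^ 2 + r ^ 2)) r *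
        (r / Real.sqrt (j ^ 2 + r ^ 2)) := by
    refine Continuous.integrable_of_hasCompactSupport ?_
      (HasCompactSupport.intro (isCompact_Icc (a := -a3) (b := a3)) fun x hx => ?_)
    · refine (hgc.comp hfc).mul (continuous_id.div hfc fun r => ?_)
      exact (Real.sqrt_pos.2 (hpos r)).ne'
    · have h5 : ν (Real.sqrt (j ^ 2 + x ^ 2) ^ 2) = 0 := by
        rw [hsq]
        refine hr _ ?_
        have h6 := out x hx
        have h7 := sq_nonneg j
        linarith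
      show ν (Real.sqrt (j ^ 2 + x ^ 2) ^ 2) * _ = 0
      rw [h5, zero_mul]
  have key := MeasureTheory.integral_comp_mul_deriv_Ioi (a := 0)
    (f := fun r : ℝ => Real.sqrt (j ^ 2 + r ^ 2)) (f' := fun r => r / Real.sqrt (j ^ 2 + r ^ 2))
    (g := fun s : ℝ => ν (s ^ 2)) hfc.continuousOn ?_ ?_ hgc.continuousOn hg1.integrableOn
    hg2.integrableOn
  · have e1 : ∫ r in Set.Ioi (0 : ℝ), ν (j ^ 2 + r ^ 2) * r / Real.sqrt (j ^ 2 + r ^ 2) =
        ∫ r in Set.Ioi (0 : ℝ), ((fun s : ℝ => ν (s ^ 2)) ∘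
          fun r : ℝ => Real.sqrt (j ^ 2 + r ^ 2)) r * (r / Real.sqrt (j ^ 2 + r ^ 2)) := by
      refine MeasureTheory.integral_congr_ae (Filter.Eventually.of_forall fun r => ?_)
      show ν (j ^ 2 + r ^ 2) * r / Real.sqrt (j ^ 2 + r ^ 2) =
        ν (Real.sqrt (j ^ 2 + r ^ 2) ^ 2) * (r / Real.sqrt (j ^ 2 + r ^ 2))
      rw [hsq, mul_div_assoc]
    have e2 : Real.sqrt (j ^ 2 + (0 : ℝ) ^ 2) = j := by
      rw [zero_pow two_ne_zero, add_zero, Real.sqrt_sq hj.le]
    rw [e1, key, e2, ← hi]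
    symm
    refine MeasureTheory.setIntegral_eq_of_subset_of_forall_sdiff_eq_zero measurableSet_Ioi
      (Set.Ioi_subset_Ioi hj.le) fun x hx => hl _ ?_
    have h5 : 0 < x := hx.1
    have h6 : x ≤ j := not_lt.1 hx.2
    exact pow_le_pow_left₀ h5.le (h6.trans hj2.le) 2
  · refine Filter.tendsto_atTop_mono (fun r => ?_) Filter.tendsto_id
    show r ≤ Real.sqrt (j ^ 2 + r ^ 2)
    exact Real.le_sqrt_of_sq_le (by linarith [sq_nonneg j])
  · intro r _
    have h5 : HasDerivAt (fun r : ℝ => j ^ 2 + r ^ 2) (2 * r) r := by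
      have := (hasDerivAt_pow 2 r).const_add (j ^ 2)
      simpa using this
    have h6 := h5.sqrt (hpos r).ne'
    refine (h6.congr_deriv ?_).hasDerivWithinAt
    rw [mul_div_mul_left _ _ two_ne_zero]

/-- Existence of the device: `ν ≥ 0` smooth with support in `[a2², a3²]`,
`∫_0^∞ ν(y²) dy = 1`, `N(q) = ∫_0^∞ ν(q+y²) dy`, `μ(q) = (1 - N(q))/q`. -/
theorem exists_dev {a2 a3 : ℝ} (h2 : 0 < a2) (h3 : a2 < a3) (hh : a3 ^ 2 < 1 / 2) :
    ∃ mu : ℝ → ℝ, Dev a2 a3 mu := by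
  obtain ⟨ν, hν, hc, h0, hl, hr, hi⟩ := DevE_nu h2 h3
  set N : ℝ → ℝ := fun q => ∫ y in Set.Ioi (0 : ℝ), ν (q + y ^ 2) with hN
  have hNs : ContDiff ℝ ∞ N := N_contDiff hν hc
  have hN0 : N 0 = 1 := by
    rw [← hi, hN]
    simp only [zero_add]
  obtain ⟨mu, hmu, hq⟩ := hadamard_quot (f := fun q => 1 - N q) (contDiff_const.sub hNs)
  have hN1 : ∀ q, 1 - q * mu q = N q := by
    intro q
    have h4 : 1 - N q = 1 - N 0 + q * mu q := hq q
    rw [hN0] at h4
    linarith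
  refine ⟨mu, h2, h3, hh, hmu, fun q => ?_, fun q hq => ?_, fun j hj hj2 => ?_⟩
  · rw [hN1]
    exact MeasureTheory.integral_nonneg fun y => h0 _
  · have h4 : N q = 0 := by
      rw [hN]
      have h5 : (fun y : ℝ => ν (q + y ^ 2)) = fun _ => 0 := by
        funext y
        exact hr _ (by linarith [sq_nonneg y])
      show ∫ y in Set.Ioi (0 : ℝ), ν (q + y ^ 2) = 0
      rw [h5, MeasureTheory.integral_zero]
    have h5 := hN1 q
    rw [h4] at h5
    linarith
  · have h4 := abel (φ := fun t => ν (j ^ 2 + t)) (hν.continuous.comp (by fun_prop))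
      (fun x => h0 _) (R := a3 ^ 2) (fun x hx => hr _ (by linarith [sq_nonneg j])) hj
    rw [DevE_subst hν.continuous hl hr hi (h2.trans h3) hj hj2, mul_one] at h4
    rw [← h4]
    refine MeasureTheory.integral_congr_ae (Filter.Eventually.of_forall fun k => ?_)
    show j * (1 - (j ^ 2 + k ^ 2) * mu (j ^ 2 + k ^ 2)) / (j ^ 2 + k ^ 2) =
      ∫ y in Set.Ioi (0 : ℝ), j * ν (j ^ 2 + (k ^ 2 + y ^ 2)) / (j ^ 2 + k ^ 2)
    rw [hN1, MeasureTheory.integral_div, MeasureTheory.integral_const_mul]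
    congr 2
    show ∫ y in Set.Ioi (0 : ℝ), ν (j ^ 2 + k ^ 2 + y ^ 2) = _
    simp only [add_assoc]

end Pool.Agent.H.MP_bfbbee_an.F4
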