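import Pool.Agent.H.MP_bfbbee_an.helper67.DevB

/-!
# Existence of the profile
-/

set_option autoImplicit false

namespace Pool.Agent.H.MP_bfbbee_an.F4

open ComplexConjugate Filter Topology Complex
open scoped ContDiff

private theorem ProfE_mf_mul (β : ℕ) (mu : ℝ → ℝ) {q : ℝ} (hq : q < 1) :
    q * mf β mu q = β - Mf β mu q := by
  have hs : 0 < Real.sqrt (1 - q) := Real.sqrt_pos.2 (by linarith)
  have hs2 : Real.sqrt (1 - q) ^ 2 = 1 - q := Real.sq_sqrt (by linarith)
  unfold mf Mf
  set s := Real.sqrt (1 - q) with hsdef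
  have h1 : q * (-1 / (s * (1 + s))) = 1 - 1 / s := by
    have h2 : q = (1 - s) * (1 + s) := by nlinarith
    rw [h2]
    field_simp
    ring
  rw [mul_add, h1]
  ring

private theorem ProfE_mf_smooth (β : ℕ) {mu : ℝ → ℝ} (hmu : ContDiff ℝ ∞ mu) {q : ℝ}
    (hq : q < 1) : ContDiffAt ℝ ∞ (mf β mu) q := by
  unfold mf
  have h1 : ContDiffAt ℝ ∞ (fun q : ℝ => Real.sqrt (1 - q)) q :=
    (contDiffAt_const.sub contDiffAt_id).sqrt (by simp only [id]; linarith)
  have hs : 0 < Real.sqrt (1 - q) := Real.sqrt_pos.2 (by linarith)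
  exact (contDiffAt_const.div (h1.mul (contDiffAt_const.add h1)) (by positivity)).add
    (contDiffAt_const.mul hmu.contDiffAt)

private theorem ProfE_Mf_pos {a2 a3 : ℝ} {mu : ℝ → ℝ} (hd : Dev a2 a3 mu) {β : ℕ} (hβ : 1 ≤ β)
    {q : ℝ} (hq : q < 1) : 0 < Mf β mu q := by
  have hs : 0 < Real.sqrt (1 - q) := Real.sqrt_pos.2 (by linarith)
  have hβ0 : (1 : ℝ) ≤ β := by exact_mod_cast hβ
  have h1 : 0 ≤ ((β : ℝ) - 1) * (1 - q * mu q) := mul_nonneg (by linarith) (hd.nonneg q)
  have h2 : 0 < 1 / Real.sqrt (1 - q) := by positivity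
  unfold Mf
  linarith

/-- the derivative of the logarithm of the two sides -/
private theorem ProfE_log_deriv {q : ℝ} (h0 : 0 < q) (h1 : q < 1) :
    HasDerivAt (fun q : ℝ => (1 / 2) * Real.log q - Real.log (1 + Real.sqrt (1 - q)))
      (1 / (2 * q * Real.sqrt (1 - q))) q := by
  have hs : 0 < Real.sqrt (1 - q) := Real.sqrt_pos.2 (by linarith)
  have hs2 : Real.sqrt (1 - q) ^ 2 = 1 - q := Real.sq_sqrt (by linarith)
  have a1 : HasDerivAt (fun q : ℝ => (1 / 2) * Real.log q) ((1 / 2) * q⁻¹) q :=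
    (Real.hasDerivAt_log h0.ne').const_mul _
  have a2 : HasDerivAt (fun q : ℝ => 1 - q) (-1) q := by
    simpa using (hasDerivAt_id q).const_sub 1
  have a3 : HasDerivAt (fun q : ℝ => Real.sqrt (1 - q)) (-1 / (2 * Real.sqrt (1 - q))) q :=
    a2.sqrt (by linarith)
  have a4 : HasDerivAt (fun q : ℝ => 1 + Real.sqrt (1 - q)) (-1 / (2 * Real.sqrt (1 - q))) q :=
    a3.const_add 1
  have a5 := a4.log (by positivity)
  have a6 := a1.sub a5
  refine a6.congr_deriv ?_
  set s := Real.sqrt (1 - q) with hsdef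
  have hq : q = (1 - s) * (1 + s) := by nlinarith
  have hq0 : q ≠ 0 := h0.ne'
  field_simp
  nlinarith

private theorem ProfE_logT0 {q : ℝ} (h0 : 0 < q) :
    Real.log (T0 q) = (1 / 2) * Real.log q - Real.log (1 + Real.sqrt (1 - q)) := by
  unfold T0
  have hs : 0 ≤ Real.sqrt (1 - q) := Real.sqrt_nonneg _
  rw [Real.log_div (Real.sqrt_pos.2 h0).ne' (by positivity), Real.log_sqrt h0.le]
  ring

private theorem ProfE_T0_pos {q : ℝ} (h0 : 0 < q) : 0 < T0 q := by
  unfold T0
  have hs : 0 ≤ Real.sqrt (1 - q) := Real.sqrt_nonneg _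
  exact div_pos (Real.sqrt_pos.2 h0) (by positivity)

/-- Existence of the profile. -/
theorem exists_prof {a2 a3 : ℝ} {mu : ℝ → ℝ} (hd : Dev a2 a3 mu) {β : ℕ} (hβ : 1 ≤ β) :
    ∃ (G h : ℝ → ℝ) (δ : ℝ), Prof β (a3 ^ 2) mu G h δ := by
  have hβ0 : (0 : ℝ) < β := by exact_mod_cast hβ
  have ha3 : 0 < a3 := hd.pos2.trans hd.lt3
  have hb1 : a3 ^ 2 < 1 / 2 := hd.lth
  have hb0 : 0 < a3 ^ 2 := by positivity
  have hzero := hd.zero
  obtain ⟨b, hb⟩ : ∃ b, b = a3 ^ 2 := ⟨_, rfl⟩
  rw [← hb] at hb0 hb1 hzero ⊢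
  -- the cut-off
  let χ : ContDiffBump (1 / 4 : ℝ) := ⟨1 / 4, 1 / 2, by norm_num, by norm_num⟩
  have hχ1 : ∀ q ∈ Set.Icc (0 : ℝ) (1 / 2), χ q = 1 := by
    intro q hq
    apply χ.one_of_mem_closedBall
    rw [Metric.mem_closedBall, Real.dist_eq, abs_le]
    have : χ.rIn = 1 / 4 := rfl
    rw [this]
    constructor <;> linarith [hq.1, hq.2]
  have hχ0 : ∀ q, 3 / 4 ≤ q → χ q = 0 := by
    intro q hq
    apply χ.zero_of_le_dist
    have : χ.rOut = 1 / 2 := rfl
    rw [this, Real.dist_eq, abs_of_nonneg (by linarith)]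
    linarith
  -- the function
  let mt : ℝ → ℝ := fun q => χ q * mf β mu q
  have hmt : ContDiff ℝ ∞ mt := by
    rw [contDiff_iff_contDiffAt]
    intro q
    by_cases hq : q < 1
    · exact χ.contDiffAt.mul (ProfE_mf_smooth β hd.smooth hq)
    · have h1 : mt =ᶠ[𝓝 q] fun _ => (0 : ℝ) := by
        filter_upwards [lt_mem_nhds (show (3 / 4 : ℝ) < q by linarith [not_lt.1 hq])] with y hy
        simp only [mt]
        rw [hχ0 y hy.le, zero_mul]
      exact contDiffAt_const.congr_of_eventuallyEq h1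
  have hmtc : HasCompactSupport mt := χ.hasCompactSupport.mul_right
  have hint : MeasureTheory.Integrable mt :=
    hmt.continuous.integrable_of_hasCompactSupport hmtc
  let F : ℝ → ℝ := fun q => ∫ y in (0 : ℝ)..q, mt y
  have hF : ∀ q, HasDerivAt F (mt q) q := fun q =>
    intervalIntegral.integral_hasDerivAt_right (hmt.continuous.intervalIntegrable _ _)
      (hmt.continuous.stronglyMeasurableAtFilter _ _) hmt.continuous.continuousAt
  have hFs : ContDiff ℝ ∞ F := by
    rw [contDiff_infty_iff_deriv]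
    refine ⟨fun q => (hF q).differentiableAt, ?_⟩
    rw [show deriv F = mt from funext fun q => (hF q).deriv]
    exact hmt
  have hFb : ∃ K : ℝ, ∀ q, |F q| ≤ K := by
    refine ⟨∫ y, ‖mt y‖, fun q => ?_⟩
    calc |F q| ≤ |∫ y in (0 : ℝ)..q, ‖mt y‖| := by
          rw [← Real.norm_eq_abs]
          exact intervalIntegral.norm_integral_le_abs_integral_norm
      _ = |∫ y in Set.uIoc (0 : ℝ) q, ‖mt y‖| := intervalIntegral.abs_integral_eq_abs_integral_uIoc _
      _ = ∫ y in Set.uIoc (0 : ℝ) q, ‖mt y‖ :=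
          abs_of_nonneg (MeasureTheory.integral_nonneg fun y => norm_nonneg _)
      _ ≤ ∫ y, ‖mt y‖ := MeasureTheory.setIntegral_le_integral hint.norm
          (Filter.Eventually.of_forall fun y => norm_nonneg _)
  obtain ⟨K, hK⟩ := hFb
  -- the function `X`
  let Lc : ℝ → ℝ := fun q =>
    (2 / (β : ℝ)) * ((1 / 2) * Real.log q - Real.log (1 + Real.sqrt (1 - q))) - Real.log q
      + F q / β
  let C : ℝ := Real.exp (Lc b)
  have hC : 0 < C := Real.exp_pos _
  let X : ℝ → ℝ := fun q => C * (q * Real.exp (-(F q / β)))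
  let X' : ℝ → ℝ := fun q => C * (Real.exp (-(F q / β)) * (1 - q * mt q / β))
  have hXd : ∀ q, HasDerivAt X (X' q) q := by
    intro q
    have h1 : HasDerivAt (fun q => Real.exp (-(F q / β)))
        (Real.exp (-(F q / β)) * (-(mt q / β))) q := ((hF q).div_const _).neg.exp
    have h2 := ((hasDerivAt_id q).mul h1).const_mul C
    refine h2.congr_deriv ?_
    simp only [X', id]
    ring
  have hXs : ContDiff ℝ ∞ X :=
    contDiff_const.mul (contDiff_id.mul ((hFs.div_const _).neg.exp))
  have hpos : ∀ q, 0 < 1 - q * mt q / β := by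
    intro q
    by_cases hq : q < 3 / 4
    · have h1 := ProfE_mf_mul β mu (q := q) (by linarith)
      have h2 := ProfE_Mf_pos hd hβ (q := q) (by linarith)
      have h3 : 1 - q * mt q / β = (1 - χ q) + χ q * (Mf β mu q / β) := by
        have : q * mt q = χ q * (β - Mf β mu q) := by
          simp only [mt]
          rw [← h1]
          ring
        rw [this]
        field_simp
        ring
      rw [h3]
      have h4 : 0 ≤ χ q := χ.nonneg
      have h5 : χ q ≤ 1 := χ.le_one
      have h6 : 0 < Mf β mu q / β := by positivity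
      rcases h4.eq_or_lt with h7 | h7
      · rw [← h7]; norm_num
      · have := mul_pos h7 h6
        linarith
    · have h1 : mt q = 0 := by
        simp only [mt]
        rw [hχ0 q (not_lt.1 hq), zero_mul]
      rw [h1]
      norm_num
  have hX'pos : ∀ q, 0 < X' q := fun q =>
    mul_pos hC (mul_pos (Real.exp_pos _) (hpos q))
  have hXmono : StrictMono X := strictMono_of_hasDerivAt_pos hXd hX'pos
  have hXsurj : Function.Surjective X := by
    have hc : 0 < C * Real.exp (-(K / β)) := mul_pos hC (Real.exp_pos _)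
    have hE : ∀ q, Real.exp (-(K / β)) ≤ Real.exp (-(F q / β)) := by
      intro q
      apply Real.exp_le_exp.2
      apply neg_le_neg
      exact div_le_div_of_nonneg_right ((le_abs_self _).trans (hK q)) hβ0.le
    apply hXs.continuous.surjective
    · apply tendsto_atTop_mono' _ _ (tendsto_id.const_mul_atTop hc)
      filter_upwards [eventually_ge_atTop (0 : ℝ)] with q hq
      simp only [X, id]
      rw [mul_assoc]
      apply mul_le_mul_of_nonneg_left _ hC.le
      rw [mul_comm]
      exact mul_le_mul_of_nonneg_left (hE q) hq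
    · apply tendsto_atBot_mono' _ _ (tendsto_id.const_mul_atBot hc)
      filter_upwards [eventually_le_atBot (0 : ℝ)] with q hq
      simp only [X, id]
      rw [mul_assoc]
      apply mul_le_mul_of_nonneg_left _ hC.le
      rw [mul_comm (Real.exp _)]
      exact mul_le_mul_of_nonpos_left (hE q) hq
  let e : ℝ ≃ₜ ℝ := (StrictMono.orderIsoOfSurjective X hXmono hXsurj).toHomeomorph
  have he : (e : ℝ → ℝ) = X := rfl
  have heX : ∀ x, X (e.symm x) = x := fun x => e.apply_symm_apply x
  have heX' : ∀ q, e.symm (X q) = q := fun q => e.symm_apply_apply q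
  have hGs : ContDiff ℝ ∞ (e.symm : ℝ → ℝ) :=
    e.contDiff_symm_deriv (fun q => (hX'pos q).ne') hXd hXs
  have hGmono : StrictMono (e.symm : ℝ → ℝ) := by
    intro x y hxy
    have := hXmono.lt_iff_lt (a := e.symm x) (b := e.symm y)
    rw [heX, heX] at this
    exact this.1 hxy
  have hGd : ∀ x, HasDerivAt (e.symm : ℝ → ℝ) (X' (e.symm x))⁻¹ x := by
    intro x
    exact e.toOpenPartialHomeomorph.hasDerivAt_symm (Set.mem_univ x) (hX'pos _).ne' (hXd _)
  -- the identity on `[b, 1/2]`
  have hLc : ∀ q ∈ Set.Icc b (1 / 2), Lc q = Lc b := by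
    have hder : ∀ q ∈ Set.Icc b (1 / 2), HasDerivAt Lc 0 q := by
      intro q hq
      have hq0 : 0 < q := hb0.trans_le hq.1
      have hq1 : q < 1 := by linarith [hq.2]
      have h1 := ((ProfE_log_deriv hq0 hq1).const_mul (2 / (β : ℝ))).sub
        (Real.hasDerivAt_log hq0.ne')
      have h2 := h1.add ((hF q).div_const (β : ℝ))
      refine h2.congr_deriv ?_
      have h3 : mt q = mf β mu q := by
        simp only [mt]
        rw [hχ1 q ⟨hq0.le, hq.2⟩, one_mul]
      have h4 := ProfE_mf_mul β mu hq1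
      have h5 : Mf β mu q = 1 / Real.sqrt (1 - q) := by
        unfold Mf
        rw [hzero q hq.1]
        ring
      rw [h3]
      have hs : 0 < Real.sqrt (1 - q) := Real.sqrt_pos.2 (by linarith)
      have h6 : mf β mu q = (β - 1 / Real.sqrt (1 - q)) / q := by
        rw [eq_div_iff hq0.ne', mul_comm, h4, h5]
      rw [h6]
      field_simp
      ring
    intro q hq
    refine constant_of_has_deriv_right_zero (a := b) (b := 1 / 2) ?_ ?_ q hq
    · intro y hy
      exact (hder y hy).continuousAt.continuousWithinAt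
    · intro y hy
      exact (hder y (Set.Ico_subset_Icc_self hy)).hasDerivWithinAt
  have hXT : ∀ q ∈ Set.Icc b (1 / 2), X q = T0 q ^ (2 / (β : ℝ)) := by
    intro q hq
    have hq0 : 0 < q := hb0.trans_le hq.1
    rw [Real.rpow_def_of_pos (ProfE_T0_pos hq0), ProfE_logT0 hq0]
    simp only [X, C]
    rw [← hLc q hq]
    nth_rewrite 2 [← Real.exp_log hq0]
    rw [← Real.exp_add, ← Real.exp_add]
    congr 1
    simp only [Lc]
    ring
  have hX0 : X 0 = 0 := by simp [X]
  have hx1 : X (1 / 2) = T0 (1 / 2) ^ (2 / (β : ℝ)) := hXT _ ⟨hb1.le, le_refl _⟩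
  have hG1 : e.symm (T0 (1 / 2) ^ (2 / (β : ℝ))) = 1 / 2 := by rw [← hx1, heX']
  have hG0 : e.symm 0 = 0 := by
    have := heX' 0
    rwa [hX0] at this
  have hfac : ∀ x, x = C * (e.symm x * Real.exp (-(F (e.symm x) / β))) := fun x => (heX x).symm
  refine ⟨e.symm, fun x => (C * Real.exp (-(F (e.symm x) / β)))⁻¹, 1, ?_⟩
  refine
    { pos := one_pos
      smooth := ?_
      hpos := ?_
      eq := ?_
      lt := ?_
      der := ?_
      mono := hGmono.strictMonoOn _
      std := ?_ }
  · apply ContDiff.contDiffOn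
    apply ContDiff.inv
    · exact contDiff_const.mul (((hFs.comp hGs).div_const _).neg.exp)
    · intro x
      exact (mul_pos hC (Real.exp_pos _)).ne'
  · intro x _
    have := Real.exp_pos (-(F (e.symm x) / β))
    positivity
  · intro x _
    have h1 := hfac x
    have h2 := Real.exp_pos (-(F (e.symm x) / β))
    have h3 : C * Real.exp (-(F (e.symm x) / β)) ≠ 0 := (mul_pos hC h2).ne'
    rw [eq_mul_inv_iff_mul_eq₀ h3]
    nth_rewrite 3 [h1]
    ring
  · intro x hx
    have := hGmono hx.2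
    rwa [hG1] at this
  · intro x hx
    have h1 := hGd x
    refine h1.congr_deriv ?_
    have hq0 : 0 < e.symm x := by
      have := hGmono hx.1
      rwa [hG0] at this
    have hq1 : e.symm x < 1 / 2 := by
      have := hGmono hx.2
      rwa [hG1] at this
    have h2 := hfac x
    have hM := ProfE_Mf_pos hd hβ (q := e.symm x) (by linarith)
    have h3 : 1 - e.symm x * mt (e.symm x) / β = Mf β mu (e.symm x) / β := by
      have h4 := ProfE_mf_mul β mu (q := e.symm x) (by linarith)
      have h5 : mt (e.symm x) = mf β mu (e.symm x) := by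
        simp only [mt]
        rw [hχ1 _ ⟨hq0.le, hq1.le⟩, one_mul]
      rw [h5, h4]
      field_simp
      ring
    simp only [X']
    rw [h3]
    have hE := Real.exp_pos (-(F (e.symm x) / β))
    have hx0 : x ≠ 0 := hx.1.ne'
    symm
    apply eq_inv_of_mul_eq_one_left
    have h6 : (β : ℝ) * e.symm x / (x * Mf β mu (e.symm x))
        * (C * (Real.exp (-(F (e.symm x) / β)) * (Mf β mu (e.symm x) / β)))
        = (C * (e.symm x * Real.exp (-(F (e.symm x) / β)))) / x := by
      field_simp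
    rw [h6, ← h2, div_self hx0]
  · intro q hq
    rw [← hXT q ⟨hq.1, hq.2.le⟩, heX']

end Pool.Agent.H.MP_bfbbee_an.F4
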