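import Pool.Agent.H.MP_bfbbee_an.helper67.Fd
import Pool.Agent.H.MP_bfbbee_an.Mob
import Pool.Agent.H.MP_bfbbee_an.Base

/-!
# Algebra of the angular momenta of the round metric
-/

set_option autoImplicit false

namespace Pool.Agent.H.MP_bfbbee_an.F4

open ComplexConjugate Filter Topology Complex
open scoped ContDiff

variable {A B : ℂ → ℂ}

theorem Dn_pos (h : Pair A B) {z : ℂ} (hz : z ∈ Disc) : 0 < Dn A B z := by
  unfold Dn
  rcases h.ne z hz with h1 | h1
  · have h2 := norm_pos_iff.mpr h1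
    positivity
  · have h2 := norm_pos_iff.mpr h1
    positivity

private theorem Std_sqrt_pos (l : ℂ) : 0 < Real.sqrt (1 + ‖l‖ ^ 2) :=
  Real.sqrt_pos.mpr (by positivity)

theorem sq1_ne (l : ℂ) : sq1 l ≠ 0 := by
  unfold sq1
  exact Complex.ofReal_ne_zero.mpr (Std_sqrt_pos l).ne'

private theorem Std_mul_conj (l : ℂ) : l * conj l = ((‖l‖ ^ 2 : ℝ) : ℂ) := by
  rw [Complex.mul_conj, Complex.normSq_eq_norm_sq]

theorem sq1_mul (l : ℂ) : sq1 l * sq1 l = 1 + l * conj l := by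
  unfold sq1
  rw [← Complex.ofReal_mul, Real.mul_self_sqrt (by positivity), Std_mul_conj]
  push_cast
  ring

/-- `‖Zd‖ = 1` where `W ≠ 0`. -/
theorem norm_Zd {z : ℂ} (hW : Wr A B z ≠ 0) (θ : ℝ) : ‖Zd A B z θ‖ = 1 := by
  unfold Zd
  have h1 : ‖Wr A B z‖ ≠ 0 := norm_ne_zero_iff.mpr hW
  rw [norm_mul, norm_dir, one_mul, norm_div, Complex.norm_real, norm_norm, div_self h1]

private theorem Std_alg (Z a b : ℂ) :
    (2 * (Z * conj (a * b)).im) ^ 2 + normSq (conj Z * b ^ 2 + Z * conj a ^ 2) =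
      normSq Z * (normSq a + normSq b) ^ 2 := by
  simp only [Complex.normSq_apply, mul_re, mul_im, add_re, add_im, conj_re, conj_im, pow_two]
  ring

/-- `J² + |N|² = 1`. -/
theorem J_sq_add (h : Pair A B) {z : ℂ} (hz : z ∈ Disc) (hW : Wr A B z ≠ 0) (θ : ℝ) :
    Jf A B (z, θ) ^ 2 + ‖Nf A B (z, θ)‖ ^ 2 = 1 := by
  have hD := Dn_pos h hz
  have hZ : normSq (Zd A B z θ) = 1 := by
    rw [Complex.normSq_eq_norm_sq, norm_Zd hW, one_pow]
  have h1 := Std_alg (Zd A B z θ) (A z) (B z)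
  have hDn : normSq (A z) + normSq (B z) = Dn A B z := by
    unfold Dn
    rw [Complex.normSq_eq_norm_sq, Complex.normSq_eq_norm_sq]
  rw [hZ, one_mul, hDn, Complex.normSq_eq_norm_sq] at h1
  unfold Jf Nf
  simp only
  rw [norm_div, norm_mul, Complex.norm_I, one_mul, Complex.norm_real, Real.norm_of_nonneg hD.le,
    div_pow, div_pow, ← add_div, h1]
  exact div_self (by positivity)

theorem J_per (z : ℂ) (θ : ℝ) : Jf A B (z, θ + 2 * Real.pi) = Jf A B (z, θ) := by
  unfold Jf Zd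
  simp only
  rw [Base_dir_add_two_pi]

theorem N_per (z : ℂ) (θ : ℝ) : Nf A B (z, θ + 2 * Real.pi) = Nf A B (z, θ) := by
  unfold Nf Zd
  simp only
  rw [Base_dir_add_two_pi]

private theorem Std_one_add_ne (l : ℂ) : 1 + l * conj l ≠ 0 := by
  rw [← sq1_mul]
  exact mul_ne_zero (sq1_ne l) (sq1_ne l)

/-- The rotated pair is a pair. -/
theorem pair_rot (h : Pair A B) (l : ℂ) : Pair (rA l A B) (rB l A B) := by
  refine ⟨?_, ?_, ?_⟩
  · unfold rA
    exact (h.hA.sub (h.hB.const_mul l)).div_const _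
  · unfold rB
    exact (h.hB.add (h.hA.const_mul (conj l))).div_const _
  · intro z hz
    by_contra hcon
    rw [not_or, not_not, not_not] at hcon
    obtain ⟨h1, h2⟩ := hcon
    unfold rA at h1
    unfold rB at h2
    rw [div_eq_zero_iff] at h1 h2
    have h3 := h1.resolve_right (sq1_ne l)
    have h4 := h2.resolve_right (sq1_ne l)
    have h5 : B z * (1 + l * conj l) = 0 := by
      calc B z * (1 + l * conj l) = (B z + conj l * A z) - conj l * (A z - l * B z) := by ring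
        _ = 0 := by rw [h3, h4]; ring
    have h6 := (mul_eq_zero.mp h5).resolve_right (Std_one_add_ne l)
    have h7 : A z = 0 := by
      rw [h6, mul_zero, sub_zero] at h3
      exact h3
    rcases h.ne z hz with h8 | h8
    · exact h8 h7
    · exact h8 h6

private theorem Std_diffA (h : Pair A B) {z : ℂ} (hz : z ∈ Disc) : HasDerivAt A (deriv A z) z :=
  (h.hA.differentiableAt (Metric.isOpen_ball.mem_nhds hz)).hasDerivAt

private theorem Std_diffB (h : Pair A B) {z : ℂ} (hz : z ∈ Disc) : HasDerivAt B (deriv B z) z :=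
  (h.hB.differentiableAt (Metric.isOpen_ball.mem_nhds hz)).hasDerivAt

/-- The Wronskian of the rotated pair is the same. -/
theorem Wr_rot (h : Pair A B) (l : ℂ) {z : ℂ} (hz : z ∈ Disc) :
    Wr (rA l A B) (rB l A B) z = Wr A B z := by
  have hA := Std_diffA h hz
  have hB := Std_diffB h hz
  have h1 : deriv (rA l A B) z = (deriv A z - l * deriv B z) / sq1 l := by
    have h2 : HasDerivAt (rA l A B) ((deriv A z - l * deriv B z) / sq1 l) z :=
      (hA.sub (hB.const_mul l)).div_const _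
    exact h2.deriv
  have h3 : deriv (rB l A B) z = (deriv B z + conj l * deriv A z) / sq1 l := by
    have h2 : HasDerivAt (rB l A B) ((deriv B z + conj l * deriv A z) / sq1 l) z :=
      (hB.add (hA.const_mul (conj l))).div_const _
    exact h2.deriv
  unfold Wr
  rw [h1, h3]
  unfold rA rB
  rw [div_mul_div_comm, div_mul_div_comm, ← sub_div, sq1_mul, div_eq_iff (Std_one_add_ne l)]
  ring

theorem Dn_rot (l : ℂ) (z : ℂ) : Dn (rA l A B) (rB l A B) z = Dn A B z := by
  have h1 : ‖sq1 l‖ ^ 2 = 1 + normSq l := by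
    unfold sq1
    rw [Complex.norm_real, Real.norm_of_nonneg (Std_sqrt_pos l).le, Real.sq_sqrt (by positivity),
      Complex.normSq_eq_norm_sq]
  have h2 : 0 < 1 + normSq l := by
    have := Complex.normSq_nonneg l
    linarith
  unfold Dn rA rB
  rw [norm_div, norm_div, div_pow, div_pow, h1, ← add_div, div_eq_iff h2.ne',
    ← Complex.normSq_eq_norm_sq, ← Complex.normSq_eq_norm_sq, ← Complex.normSq_eq_norm_sq,
    ← Complex.normSq_eq_norm_sq]
  simp only [Complex.normSq_apply, mul_re, mul_im, add_re, add_im, sub_re, sub_im, conj_re,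
    conj_im]
  ring

theorem Zd_rot (h : Pair A B) (l : ℂ) {z : ℂ} (hz : z ∈ Disc) (θ : ℝ) :
    Zd (rA l A B) (rB l A B) z θ = Zd A B z θ := by
  unfold Zd
  rw [Wr_rot h l hz]

/-- The product of the members of the new pair. -/
private theorem Std_prod (a b : ℂ) {l l' c : ℂ} (hk : 1 + conj l * l' ≠ 0)
    (hc : c = (l' - l) / (1 + conj l * l')) :
    ((a - l' * b) / sq1 l') * ((b + conj l' * a) / sq1 l') * (1 + c * conj c) =
      (1 - c * conj c) * (((a - l * b) / sq1 l) * ((b + conj l * a) / sq1 l)) +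
        conj c * ((a - l * b) / sq1 l) ^ 2 - c * ((b + conj l * a) / sq1 l) ^ 2 := by
  have hk' : 1 + l * conj l' ≠ 0 := by
    intro h0
    apply hk
    have h1 := congrArg conj h0
    rw [map_add, map_mul, map_one, map_zero, Complex.conj_conj] at h1
    exact h1
  have hcc : conj c = (conj l' - conj l) / (1 + l * conj l') := by
    rw [hc, map_div₀, map_sub, map_add, map_mul, map_one, Complex.conj_conj]
  have hl := Std_one_add_ne l
  have hl' := Std_one_add_ne l'
  rw [div_mul_div_comm, div_mul_div_comm, div_pow, div_pow, pow_two (sq1 l), sq1_mul, sq1_mul]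
  have hck : c * (1 + conj l * l') = l' - l := by rw [hc, div_mul_cancel₀ _ hk]
  have hcbk : conj c * (1 + l * conj l') = conj l' - conj l := by
    rw [hcc, div_mul_cancel₀ _ hk']
  generalize conj l = lb at *
  generalize conj l' = lb' at *
  generalize conj c = cb at *
  have f1 : (1 + l * lb) * (a - l' * b) =
      (1 + lb * l') * ((a - l * b) - c * (b + lb * a)) := by
    linear_combination (b + lb * a) * hck
  have f2 : (1 + l * lb) * (b + lb' * a) =
      (1 + l * lb') * ((b + lb * a) + cb * (a - l * b)) := by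
    linear_combination (-(a - l * b)) * hcbk
  have f3 : (1 + lb * l') * (1 + l * lb') * (1 + c * cb) =
      (1 + l * lb) * (1 + l' * lb') := by
    linear_combination (cb * (1 + l * lb')) * hck + (l' - l) * hcbk
  have f4 : (1 + l * lb) * ((a - l' * b) * (b + lb' * a) * (1 + c * cb) * (1 + l * lb)) =
      (1 + l * lb) * (((1 - c * cb) * ((a - l * b) * (b + lb * a)) + cb * (a - l * b) ^ 2 -
        c * (b + lb * a) ^ 2) * (1 + l' * lb')) := by
    calc (1 + l * lb) * ((a - l' * b) * (b + lb' * a) * (1 + c * cb) * (1 + l * lb))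
        = ((1 + l * lb) * (a - l' * b)) * ((1 + l * lb) * (b + lb' * a)) * (1 + c * cb) := by ring
      _ = ((1 + lb * l') * (1 + l * lb') * (1 + c * cb)) *
          (((a - l * b) - c * (b + lb * a)) * ((b + lb * a) + cb * (a - l * b))) := by
          rw [f1, f2]
          ring
      _ = _ := by
          rw [f3]
          ring
  have f5 := mul_left_cancel₀ hl f4
  have f6 : (a - l' * b) * (b + lb' * a) / (1 + l' * lb') * (1 + c * cb) =
      ((a - l' * b) * (b + lb' * a) * (1 + c * cb)) / (1 + l' * lb') := by ring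
  have f7 : (1 - c * cb) * ((a - l * b) * (b + lb * a) / (1 + l * lb)) +
      cb * ((a - l * b) ^ 2 / (1 + l * lb)) - c * ((b + lb * a) ^ 2 / (1 + l * lb)) =
      ((1 - c * cb) * ((a - l * b) * (b + lb * a)) + cb * (a - l * b) ^ 2 -
        c * (b + lb * a) ^ 2) / (1 + l * lb) := by ring
  rw [f6, f7, div_eq_div_iff hl' hl]
  exact f5

/-- Change of axis: with `c = (l' - l)/(1 + conj l * l')`,
`J_{l'} = ((1 - |c|²) J_l - 2 Re (c N_l)) / (1 + |c|²)`.  Proof: `A_{l'} B_{l'} =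
(A_l - c B_l)(B_l + conj c A_l)/(1 + |c|²)` because `A_{l'} √.. √.. = κ (A_l - c B_l)`,
`B_{l'} √.. √.. = conj κ (B_l + conj c A_l)`, `κ = 1 + conj l l'`,
`|κ|² (1 + |c|²) = (1+|l|²)(1+|l'|²)`. -/
theorem J_change (h : Pair A B) {l l' c : ℂ} (hk : 1 + conj l * l' ≠ 0)
    (hc : c = (l' - l) / (1 + conj l * l')) {z : ℂ} (hz : z ∈ Disc) (hW : Wr A B z ≠ 0)
    (θ : ℝ) :
    Jf (rA l' A B) (rB l' A B) (z, θ) =
      ((1 - ‖c‖ ^ 2) * Jf (rA l A B) (rB l A B) (z, θ)
        - 2 * (c * Nf (rA l A B) (rB l A B) (z, θ)).re) / (1 + ‖c‖ ^ 2) := by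
  have _ := hW
  have hD := Dn_pos h hz
  have hc0 : (0 : ℝ) < 1 + ‖c‖ ^ 2 := by positivity
  have h1 := Std_prod (A z) (B z) hk hc
  unfold Jf Nf
  simp only
  rw [Zd_rot h l hz, Zd_rot h l' hz, Dn_rot, Dn_rot]
  have e1 : rA l' A B z * rB l' A B z * (1 + c * conj c) =
      (1 - c * conj c) * (rA l A B z * rB l A B z) + conj c * rA l A B z ^ 2 -
        c * rB l A B z ^ 2 := h1
  generalize rA l' A B z * rB l' A B z = q at e1 ⊢
  generalize rA l A B z = a at e1 ⊢
  generalize rB l A B z = b at e1 ⊢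
  generalize Zd A B z θ = Z at e1 ⊢
  generalize Dn A B z = D at hD ⊢
  rw [Std_mul_conj] at e1
  -- the imaginary part of `Z conj q`
  have e2 : (Z * conj q).im * (1 + ‖c‖ ^ 2) =
      (1 - ‖c‖ ^ 2) * (Z * conj (a * b)).im +
        (c * (conj Z * b ^ 2 + Z * conj a ^ 2)).im := by
    have e3 : (Z * conj q) * ((1 + ‖c‖ ^ 2 : ℝ) : ℂ) =
        ((1 - ‖c‖ ^ 2 : ℝ) : ℂ) * (Z * conj (a * b)) +
          (c * (Z * conj a ^ 2) - conj (c * (conj Z * b ^ 2))) := by
      have e4 := congrArg conj e1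
      simp only [map_mul, map_add, map_sub, map_one, map_pow, Complex.conj_conj,
        Complex.conj_ofReal] at e4
      push_cast
      simp only [map_mul, map_pow, Complex.conj_conj]
      push_cast at e4
      linear_combination Z * e4
    have e5 := congrArg Complex.im e3
    rw [Complex.im_mul_ofReal] at e5
    rw [e5, add_im, Complex.im_ofReal_mul, sub_im, conj_im, mul_add, add_im]
    ring
  have e6 : (c * (I * (conj Z * b ^ 2 + Z * conj a ^ 2) / (D : ℂ))).re =
      -(c * (conj Z * b ^ 2 + Z * conj a ^ 2)).im / D := by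
    have e7 : c * (I * (conj Z * b ^ 2 + Z * conj a ^ 2) / (D : ℂ)) =
        (I * (c * (conj Z * b ^ 2 + Z * conj a ^ 2))) / (D : ℂ) := by ring
    rw [e7, Complex.div_ofReal_re, Complex.I_mul_re]
  rw [e6, eq_div_iff hc0.ne']
  generalize (Z * conj q).im = u1 at e2 ⊢
  generalize (Z * conj (a * b)).im = u2 at e2 ⊢
  generalize (c * (conj Z * b ^ 2 + Z * conj a ^ 2)).im = u3 at e2 ⊢
  generalize ‖c‖ ^ 2 = u4 at e2 ⊢
  have e8 : 2 * u1 / D * (1 + u4) = 2 * (u1 * (1 + u4)) / D := by ring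
  rw [e8, e2]
  ring

/-- The pair of values at the image point is a multiple of the pair of values, and the
Wronskians are related by the square of the factor. -/
theorem pres_fac (h : Pair A B) {w a : ℂ} (hm : Pres A B w a) {z : ℂ} (hz : z ∈ Disc) :
    ∃ m : ℂ, m ≠ 0 ∧ A (mob w a z) = m * A z ∧ B (mob w a z) = m * B z ∧
      Wr A B (mob w a z) * mobd w a z = m ^ 2 * Wr A B z := by
  obtain ⟨hw, ha, hcr⟩ := hm
  have hmz : mob w a z ∈ Disc := mob_mem hw ha hz
  have hz1 : ‖z‖ ≤ 1 := by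
    have : ‖z‖ < 1 := by simpa [Disc] using hz
    exact this.le
  have hrel := hcr z hz
  obtain ⟨m, hmA, hmB⟩ : ∃ m : ℂ, A (mob w a z) = m * A z ∧ B (mob w a z) = m * B z := by
    rcases h.ne z hz with h1 | h1
    · refine ⟨A (mob w a z) / A z, ?_, ?_⟩
      · field_simp
      · rw [div_mul_eq_mul_div, hrel, eq_div_iff h1]
        ring
    · refine ⟨B (mob w a z) / B z, ?_, ?_⟩
      · rw [div_mul_eq_mul_div, eq_div_iff h1, hrel]
        ring
      · field_simp
  refine ⟨m, ?_, hmA, hmB, ?_⟩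
  · intro h0
    rw [h0, zero_mul] at hmA hmB
    rcases h.ne _ hmz with h1 | h1
    · exact h1 hmA
    · exact h1 hmB
  · have hmob : HasDerivAt (mob w a) (mobd w a z) z := mob_hasDerivAt ha hz1
    have hA1 := Std_diffA h hz
    have hB1 := Std_diffB h hz
    have hA2 : HasDerivAt (fun y => A (mob w a y)) (deriv A (mob w a z) * mobd w a z) z :=
      (Std_diffA h hmz).comp z hmob
    have hB2 : HasDerivAt (fun y => B (mob w a y)) (deriv B (mob w a z) * mobd w a z) z :=
      (Std_diffB h hmz).comp z hmob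
    have h1 : HasDerivAt (fun y => A (mob w a y) * B y)
        (deriv A (mob w a z) * mobd w a z * B z + A (mob w a z) * deriv B z) z := hA2.mul hB1
    have h2 : HasDerivAt (fun y => A y * B (mob w a y))
        (deriv A z * B (mob w a z) + A z * (deriv B (mob w a z) * mobd w a z)) z := hA1.mul hB2
    have h3 : (fun y => A y * B (mob w a y)) =ᶠ[𝓝 z] (fun y => A (mob w a y) * B y) := by
      filter_upwards [Metric.isOpen_ball.mem_nhds hz] with y hy
      exact (hcr y hy).symm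
    have h4 := h2.congr_of_eventuallyEq h3.symm
    have h5 := h1.unique h4
    unfold Wr
    rw [hmA, hmB] at h5 ⊢
    linear_combination m * h5

theorem pres_rot {w a : ℂ} (hm : Pres A B w a) (l : ℂ) : Pres (rA l A B) (rB l A B) w a := by
  obtain ⟨hw, ha, hcr⟩ := hm
  refine ⟨hw, ha, fun z hz => ?_⟩
  have h1 := hcr z hz
  unfold rA rB
  rw [div_mul_div_comm, div_mul_div_comm]
  congr 1
  linear_combination (1 + l * conj l) * h1

private theorem Std_Zd_pres {w a m z : ℂ} (hm0 : m ≠ 0)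
    (hWm : Wr A B (mob w a z) * mobd w a z = m ^ 2 * Wr A B z)
    {θ θ' : ℝ} (hθ : dir θ' = dir θ * (mobd w a z / (‖mobd w a z‖ : ℂ))) :
    Zd A B (mob w a z) θ' * ((‖m‖ ^ 2 : ℝ) : ℂ) = Zd A B z θ * m ^ 2 := by
  have hn : ‖Wr A B (mob w a z)‖ * ‖mobd w a z‖ = ‖m‖ ^ 2 * ‖Wr A B z‖ := by
    rw [← norm_mul, hWm, norm_mul, norm_pow]
  have hmn : ((‖m‖ : ℝ) : ℂ) ≠ 0 := Complex.ofReal_ne_zero.mpr (norm_ne_zero_iff.mpr hm0)
  have h1 : Zd A B (mob w a z) θ' =
      dir θ * ((Wr A B (mob w a z) * mobd w a z) /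
        ((‖Wr A B (mob w a z)‖ * ‖mobd w a z‖ : ℝ) : ℂ)) := by
    unfold Zd
    rw [hθ]
    push_cast
    rw [mul_assoc, div_mul_div_comm]
    ring
  rw [h1, hWm, hn]
  unfold Zd
  by_cases hW : Wr A B z = 0
  · rw [hW]
    simp
  · have hWn : ((‖Wr A B z‖ : ℝ) : ℂ) ≠ 0 :=
      Complex.ofReal_ne_zero.mpr (norm_ne_zero_iff.mpr hW)
    push_cast
    field_simp

theorem pres_J (h : Pair A B) {w a : ℂ} (hm : Pres A B w a) {z : ℂ} (hz : z ∈ Disc)
    (hW : Wr A B z ≠ 0) {θ θ' : ℝ}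
    (hθ : dir θ' = dir θ * (mobd w a z / (‖mobd w a z‖ : ℂ))) :
    Jf A B (mob w a z, θ') = Jf A B (z, θ) ∧ Nf A B (mob w a z, θ') = Nf A B (z, θ) := by
  have _ := hW
  obtain ⟨m, hm0, hmA, hmB, hWm⟩ := pres_fac h hm hz
  have hD := Dn_pos h hz
  have hZ := Std_Zd_pres hm0 hWm hθ
  have hmn : 0 < ‖m‖ ^ 2 := by
    have := norm_pos_iff.mpr hm0
    positivity
  have hmm : m * conj m = ((‖m‖ ^ 2 : ℝ) : ℂ) := Std_mul_conj m
  have hDm : Dn A B (mob w a z) = ‖m‖ ^ 2 * Dn A B z := by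
    unfold Dn
    rw [hmA, hmB, norm_mul, norm_mul]
    ring
  have hmnc : ((‖m‖ ^ 2 : ℝ) : ℂ) ≠ 0 := Complex.ofReal_ne_zero.mpr hmn.ne'
  have hZ' := congrArg conj hZ
  rw [map_mul, map_mul, map_pow, Complex.conj_ofReal] at hZ'
  unfold Jf Nf
  simp only
  rw [hDm, hmA, hmB]
  generalize Zd A B (mob w a z) θ' = Z' at hZ hZ' ⊢
  generalize Zd A B z θ = Z at hZ hZ' ⊢
  generalize Dn A B z = D at hD ⊢
  generalize A z = x
  generalize B z = y
  have e1 : Z' * conj m ^ 2 = ((‖m‖ ^ 2 : ℝ) : ℂ) * Z := by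
    apply mul_right_cancel₀ hmnc
    calc Z' * conj m ^ 2 * ((‖m‖ ^ 2 : ℝ) : ℂ) = (Z' * ((‖m‖ ^ 2 : ℝ) : ℂ)) * conj m ^ 2 := by ring
      _ = Z * m ^ 2 * conj m ^ 2 := by rw [hZ]
      _ = Z * (m * conj m) ^ 2 := by ring
      _ = ((‖m‖ ^ 2 : ℝ) : ℂ) * Z * ((‖m‖ ^ 2 : ℝ) : ℂ) := by rw [hmm]; ring
  have e2 : conj Z' * m ^ 2 = ((‖m‖ ^ 2 : ℝ) : ℂ) * conj Z := by
    have e3 := congrArg conj e1
    rw [map_mul, map_mul, map_pow, Complex.conj_conj, Complex.conj_ofReal] at e3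
    exact e3
  constructor
  · have e3 : Z' * conj (m * x * (m * y)) = ((‖m‖ ^ 2 : ℝ) : ℂ) * (Z * conj (x * y)) := by
      simp only [map_mul]
      linear_combination (conj x * conj y) * e1
    rw [e3, Complex.im_ofReal_mul]
    field_simp
  · have e3 : conj Z' * (m * y) ^ 2 + Z' * conj (m * x) ^ 2 =
        ((‖m‖ ^ 2 : ℝ) : ℂ) * (conj Z * y ^ 2 + Z * conj x ^ 2) := by
      simp only [map_mul]
      linear_combination (conj x ^ 2) * e1 + y ^ 2 * e2
    have hDc : (D : ℂ) ≠ 0 := Complex.ofReal_ne_zero.mpr hD.ne'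
    rw [e3, Complex.ofReal_mul (‖m‖ ^ 2) D, mul_left_comm, mul_div_mul_left _ _ hmnc]

/-- Invariance of the factor of the round metric. -/
theorem pres_rst (h : Pair A B) {w a : ℂ} (hm : Pres A B w a) {z : ℂ} (hz : z ∈ Disc) :
    rst A B (mob w a z) * ‖mobd w a z‖ = rst A B z := by
  obtain ⟨m, hm0, hmA, hmB, hWm⟩ := pres_fac h hm hz
  have hD := Dn_pos h hz
  have hn : ‖Wr A B (mob w a z)‖ * ‖mobd w a z‖ = ‖m‖ ^ 2 * ‖Wr A B z‖ := by
    rw [← norm_mul, hWm, norm_mul, norm_pow]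
  have hmn : 0 < ‖m‖ ^ 2 := by
    have := norm_pos_iff.mpr hm0
    positivity
  have hDm : Dn A B (mob w a z) = ‖m‖ ^ 2 * Dn A B z := by
    unfold Dn
    rw [hmA, hmB, norm_mul, norm_mul]
    ring
  unfold rst
  rw [hDm, div_mul_eq_mul_div, mul_assoc, hn, div_eq_div_iff (by positivity) hD.ne']
  ring

end Pool.Agent.H.MP_bfbbee_an.F4
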