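import Pool.Agent.H.MP_bfbbee_an.helper67.Ld
import Pool.Agent.H.MP_bfbbee_an.helper67.Std

/-!
# Factorisation at a ramification point
-/

set_option autoImplicit false

namespace Pool.Agent.H.MP_bfbbee_an.F4

open ComplexConjugate Filter Topology Complex
open scoped ContDiff

variable {A B : ℂ → ℂ}

/-- A holomorphic function on the disc which is not identically zero factors at `P` with its
order of vanishing. -/
theorem factor {f : ℂ → ℂ} (hf : DifferentiableOn ℂ f Disc) {P : ℂ} (hP : P ∈ Disc)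
    (hne : ∃ z ∈ Disc, f z ≠ 0) :
    ∃ a : ℂ → ℂ, DifferentiableOn ℂ a Disc ∧ a P ≠ 0 ∧
      ∀ z ∈ Disc, f z = (z - P) ^ (analyticOrderNatAt f P) * a z := by
  have hopen : IsOpen Disc := Metric.isOpen_ball
  have hfa : AnalyticOnNhd ℂ f Disc := hf.analyticOnNhd hopen
  have htop : analyticOrderAt f P ≠ ⊤ := by
    intro h0
    rw [analyticOrderAt_eq_top] at h0
    obtain ⟨z, hz, hfz⟩ := hne
    have h1 : Set.EqOn f 0 Disc :=
      hfa.eqOn_zero_of_preconnected_of_eventuallyEq_zero
        (convex_ball (0 : ℂ) 1).isPreconnected hP h0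
    exact hfz (h1 hz)
  obtain ⟨g, hg, hg0, hev⟩ := ((hfa P hP).analyticOrderAt_eq_natCast
    (n := analyticOrderNatAt f P)).1 (Nat.cast_analyticOrderNatAt htop).symm
  set n := analyticOrderNatAt f P with hn
  refine ⟨Function.update (fun z => f z / (z - P) ^ n) P (g P), ?_, ?_, ?_⟩
  · intro z hz
    apply DifferentiableAt.differentiableWithinAt
    rcases eq_or_ne z P with hzP | hzP
    · rw [hzP]
      have h1 : Function.update (fun z => f z / (z - P) ^ n) P (g P) =ᶠ[𝓝 P] g := by
        filter_upwards [hev] with y hy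
        rcases eq_or_ne y P with hyP | hyP
        · rw [hyP, Function.update_self]
        · rw [Function.update_of_ne hyP, hy, smul_eq_mul, mul_div_assoc, mul_div_cancel₀]
          exact pow_ne_zero _ (sub_ne_zero.2 hyP)
      exact h1.differentiableAt_iff.2 hg.differentiableAt
    · have h1 : Function.update (fun z => f z / (z - P) ^ n) P (g P) =ᶠ[𝓝 z]
          fun z => f z / (z - P) ^ n := by
        filter_upwards [isOpen_ne.mem_nhds hzP] with y hy
        rw [Function.update_of_ne hy]
      refine h1.differentiableAt_iff.2 ?_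
      exact ((hf z hz).differentiableAt (hopen.mem_nhds hz)).div
        ((differentiableAt_id.sub_const P).pow n) (pow_ne_zero _ (sub_ne_zero.2 hzP))
  · rw [Function.update_self]
    exact hg0
  · intro z hz
    rcases eq_or_ne z P with hzP | hzP
    · rw [hzP, Function.update_self]
      have h1 := hev.self_of_nhds
      rw [smul_eq_mul] at h1
      exact h1
    · rw [Function.update_of_ne hzP, mul_div_cancel₀]
      exact pow_ne_zero _ (sub_ne_zero.2 hzP)

/-- At a point with `W = 0`, `B ≠ 0` the function `rA l`, `l = A P / B P`, vanishes to order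
`β ≥ 2`. -/
theorem order_ge_two (h : Pair A B) (hne : ∃ z ∈ Disc, Wr A B z ≠ 0) {P : ℂ} (hP : P ∈ Disc)
    (hW : Wr A B P = 0) (hB : B P ≠ 0) :
    2 ≤ analyticOrderNatAt (rA (A P / B P) A B) P ∧
      (∃ z ∈ Disc, rA (A P / B P) A B z ≠ 0) ∧ rB (A P / B P) A B P ≠ 0 := by
  have hopen : IsOpen Disc := Metric.isOpen_ball
  set l := A P / B P with hl
  have hpr := pair_rot h l
  have hA0 : rA l A B P = 0 := by
    unfold rA
    rw [hl, div_mul_cancel₀ _ hB, sub_self, zero_div]
  have hne0 : ∃ z ∈ Disc, rA l A B z ≠ 0 := by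
    by_contra hcon
    push Not at hcon
    obtain ⟨z, hz, hWz⟩ := hne
    apply hWz
    have h1 : ∀ y ∈ Disc, A y = l * B y := by
      intro y hy
      have h2 := hcon y hy
      unfold rA at h2
      rcases div_eq_zero_iff.1 h2 with h3 | h3
      · exact sub_eq_zero.1 h3
      · exact absurd h3 (sq1_ne l)
    have h2 : A =ᶠ[𝓝 z] fun y => l * B y := by
      filter_upwards [hopen.mem_nhds hz] with y hy
      exact h1 y hy
    unfold Wr
    rw [h2.deriv_eq, h1 z hz,
      deriv_const_mul l ((h.hB z hz).differentiableAt (hopen.mem_nhds hz))]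
    ring
  have hB0 : rB l A B P ≠ 0 := by
    rcases hpr.ne P hP with h1 | h1
    · exact absurd hA0 h1
    · exact h1
  refine ⟨?_, hne0, hB0⟩
  obtain ⟨a, ha, haP, hfac⟩ := factor hpr.hA hP hne0
  set n := analyticOrderNatAt (rA l A B) P with hn
  have hWr : Wr (rA l A B) (rB l A B) P = 0 := by
    rw [Wr_rot h l hP]; exact hW
  have hd : deriv (rA l A B) P = 0 := by
    unfold Wr at hWr
    rw [hA0, zero_mul, sub_zero] at hWr
    rcases mul_eq_zero.1 hWr with h1 | h1
    · exact h1
    · exact absurd h1 hB0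
  by_contra hlt
  have hlt' : n = 0 ∨ n = 1 := by omega
  rcases hlt' with h0 | h0
  · have h1 := hfac P hP
    rw [h0, pow_zero, one_mul, hA0] at h1
    exact haP h1.symm
  · have h2 : rA l A B =ᶠ[𝓝 P] fun y => (y - P) * a y := by
      filter_upwards [hopen.mem_nhds hP] with y hy
      rw [hfac y hy, h0, pow_one]
    have h3 : HasDerivAt (fun y => (y - P) * a y) (1 * a P + (P - P) * deriv a P) P :=
      ((hasDerivAt_id P).sub_const P).mul
        ((ha P hP).differentiableAt (hopen.mem_nhds hP)).hasDerivAt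
    rw [h2.deriv_eq, h3.deriv, sub_self, zero_mul, add_zero, one_mul] at hd
    exact haP hd

/-- Factorisation of the Wronskian. -/
theorem factor_Wr {a0 b0 a : ℂ → ℂ} (h : Pair a0 b0) {P : ℂ} (hP : P ∈ Disc)
    {β : ℕ} (hβ : 1 ≤ β) (ha : DifferentiableOn ℂ a Disc) (haP : a P ≠ 0)
    (hfac : ∀ z ∈ Disc, a0 z = (z - P) ^ β * a z) (hb : b0 P ≠ 0) :
    ∃ b : ℂ → ℂ, DifferentiableOn ℂ b Disc ∧ b P ≠ 0 ∧
      ∀ z ∈ Disc, Wr a0 b0 z = (z - P) ^ (β - 1) * b z := by
  have hopen : IsOpen Disc := Metric.isOpen_ball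
  have hda : DifferentiableOn ℂ (deriv a) Disc := ha.deriv hopen
  have hdb : DifferentiableOn ℂ (deriv b0) Disc := h.hB.deriv hopen
  refine ⟨fun z => (β * a z + (z - P) * deriv a z) * b0 z - (z - P) * a z * deriv b0 z,
    ?_, ?_, ?_⟩
  · exact ((((ha.const_mul (β : ℂ))).add ((differentiableOn_id.sub_const P).mul hda)).mul h.hB).sub
      (((differentiableOn_id.sub_const P).mul ha).mul hdb)
  · simp only [sub_self, zero_mul, add_zero, sub_zero]
    exact mul_ne_zero (mul_ne_zero (Nat.cast_ne_zero.2 (by omega)) haP) hb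
  · intro z hz
    obtain ⟨k, rfl⟩ : ∃ k, β = k + 1 := ⟨β - 1, by omega⟩
    have h2 : a0 =ᶠ[𝓝 z] fun y => (y - P) ^ (k + 1) * a y := by
      filter_upwards [hopen.mem_nhds hz] with y hy
      exact hfac y hy
    have h3 : HasDerivAt (fun y => (y - P) ^ (k + 1) * a y)
        ((((k + 1 : ℕ) : ℂ) * (z - P) ^ k * 1) * a z + (z - P) ^ (k + 1) * deriv a z) z := by
      have := ((hasDerivAt_id z).sub_const P).pow (k + 1)
      exact this.mul ((ha z hz).differentiableAt (hopen.mem_nhds hz)).hasDerivAt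
    unfold Wr
    rw [h2.deriv_eq, h3.deriv, hfac z hz, Nat.add_sub_cancel]
    push_cast
    ring

end Pool.Agent.H.MP_bfbbee_an.F4
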