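import Pool.Agent.H.MP_bfbbee_an.helper67.RadA
import Pool.Agent.H.MP_bfbbee_an.helper67.LocA

/-!
# Finiteness of the ramification modulo the maps preserving `f`, uniform radii
-/

set_option autoImplicit false

namespace Pool.Agent.H.MP_bfbbee_an.F4

open ComplexConjugate Filter Topology Complex
open scoped ContDiff

theorem RadB_ident {f : ℂ → ℂ} (hf : DifferentiableOn ℂ f Disc) {P : ℂ} (hP : P ∈ Disc)
    (hfr : ∃ᶠ z in 𝓝[≠] P, f z = 0) : ∀ z ∈ Disc, f z = 0 := by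
  have h1 := hf.analyticOnNhd Metric.isOpen_ball
  exact h1.eqOn_zero_of_preconnected_of_frequently_eq_zero
    (convex_ball (0 : ℂ) 1).isPreconnected hP hfr

/-- Finitely many zeros in smaller discs. -/
theorem RadB_finite {f : ℂ → ℂ} (hf : DifferentiableOn ℂ f Disc) (hne : ∃ z ∈ Disc, f z ≠ 0)
    {R : ℝ} (hR : R < 1) : {z : ℂ | ‖z‖ ≤ R ∧ f z = 0}.Finite := by
  by_contra hinf
  have hsub : {z : ℂ | ‖z‖ ≤ R ∧ f z = 0} ⊆ Metric.closedBall (0 : ℂ) R := fun z hz =>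
    mem_closedBall_zero_iff.2 hz.1
  obtain ⟨x, hx, hacc⟩ := Set.Infinite.exists_accPt_of_subset_isCompact hinf
    (isCompact_closedBall (0 : ℂ) R) hsub
  have hxD : x ∈ Disc := Metric.closedBall_subset_ball hR hx
  have h2 := accPt_iff_frequently_nhdsNE.1 hacc
  obtain ⟨z, hz, hz'⟩ := hne
  exact hz' (RadB_ident hf hxD (h2.mono fun y hy => hy.2) z hz)

/-- Neighbourhoods contain pseudo-hyperbolic discs. -/
theorem RadB_near {P : ℂ} (hP : P ∈ Disc) {p : ℂ → Prop} (hp : ∀ᶠ z in 𝓝 P, p z) :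
    ∃ r : ℝ, 0 < r ∧ ∀ z ∈ Disc, ‖mob 1 P z‖ < r → p z := by
  obtain ⟨ε, hε, h1⟩ := Metric.eventually_nhds_iff.1 hp
  refine ⟨ε / 2, by positivity, fun z hz hr => h1 ?_⟩
  rw [dist_eq_norm]
  have hD : ‖1 - conj P * z‖ ≤ 2 := by
    have h2 : ‖1 - conj P * z‖ ≤ ‖(1 : ℂ)‖ + ‖conj P * z‖ := norm_sub_le _ _
    rw [norm_one, norm_mul, Complex.norm_conj] at h2
    nlinarith [RadA_lt hz, RadA_lt hP, norm_nonneg z, norm_nonneg P]
  have hD0 : 0 < ‖1 - conj P * z‖ := norm_pos_iff.2 (den_ne (RadA_lt hP) (RadA_lt hz).le)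
  rw [RadA_pd, div_lt_iff₀ hD0] at hr
  nlinarith

theorem RadB_isolated {f : ℂ → ℂ} (hf : DifferentiableOn ℂ f Disc) (hne : ∃ z ∈ Disc, f z ≠ 0)
    {P : ℂ} (hP : P ∈ Disc) : ∀ᶠ z in 𝓝 P, z ≠ P → f z ≠ 0 := by
  have h1 := (hf.analyticOnNhd Metric.isOpen_ball P hP).eventually_eq_zero_or_eventually_ne_zero
  rcases h1 with h1 | h1
  · obtain ⟨z, hz, hz'⟩ := hne
    refine absurd (RadB_ident hf hP ?_ z hz) hz'
    exact (h1.filter_mono nhdsWithin_le_nhds).frequently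
  · exact eventually_nhdsWithin_iff.1 h1

theorem RadB_min (T : Finset ℂ) (p : ℂ → ℝ → Prop)
    (mono : ∀ P r r', p P r → 0 < r' → r' ≤ r → p P r')
    (h : ∀ P ∈ T, ∃ r : ℝ, 0 < r ∧ p P r) : ∃ r : ℝ, 0 < r ∧ ∀ P ∈ T, p P r := by
  classical
  induction T using Finset.induction_on with
  | empty => exact ⟨1, one_pos, by simp⟩
  | insert a T _ ih =>
    obtain ⟨r1, h1, h2⟩ := ih fun P hP => h P (Finset.mem_insert_of_mem hP)
    obtain ⟨r2, h3, h4⟩ := h a (Finset.mem_insert_self a T)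
    refine ⟨min r1 r2, lt_min h1 h3, fun P hP => ?_⟩
    rcases Finset.mem_insert.1 hP with rfl | hP
    · exact mono _ _ _ h4 (lt_min h1 h3) (min_le_right _ _)
    · exact mono _ _ _ (h2 P hP) (lt_min h1 h3) (min_le_left _ _)

theorem RadB_Wr_diff {A B : ℂ → ℂ} (h : Pair A B) : DifferentiableOn ℂ (Wr A B) Disc := by
  have hA := (h.hA.analyticOnNhd Metric.isOpen_ball).deriv.differentiableOn
  have hB := (h.hB.analyticOnNhd Metric.isOpen_ball).deriv.differentiableOn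
  unfold Wr
  exact (hA.mul h.hB).sub (h.hA.mul hB)

/-- Finitely many ramification points modulo the maps preserving `f`. -/
theorem ram_finite {A B : ℂ → ℂ} (h : Pair A B) (hne : ∃ z ∈ Disc, Wr A B z ≠ 0)
    (hco : CoPres A B) :
    ∃ T : Finset ℂ, (∀ P ∈ T, isRam A B P) ∧
      ∀ P, isRam A B P → ∃ w a : ℂ, Pres A B w a ∧ mob w a P ∈ T := by
  obtain ⟨R, hR, hm⟩ := hco
  have hfin := RadB_finite (RadB_Wr_diff h) hne hR
  refine ⟨hfin.toFinset, fun P hP => ?_, fun P hP => ?_⟩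
  · have h1 := (Set.Finite.mem_toFinset hfin).1 hP
    exact ⟨mem_ball_zero_iff.2 (h1.1.trans_lt hR), h1.2⟩
  · obtain ⟨w, a, h1, h2⟩ := hm P hP.1
    exact ⟨w, a, h1, (Set.Finite.mem_toFinset hfin).2 ⟨h2, (ram_pres h h1 hP).1.2⟩⟩

/-- One ramification point, first radius. -/
theorem RadB_one {A B : ℂ → ℂ} (h : Pair A B) (hne : ∃ z ∈ Disc, Wr A B z ≠ 0) {P : ℂ}
    (hP : isRam A B P) (hB : B P ≠ 0) :
    ∃ r : ℝ, 0 < r ∧ ∀ z ∈ Disc, ‖mob 1 P z‖ < r →
      (z ≠ P → Wr A B z ≠ 0 ∧ rA (A P / B P) A B z ≠ 0) ∧ rB (A P / B P) A B z ≠ 0 := by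
  obtain ⟨-, h1, h2⟩ := order_ge_two h hne hP.1 hP.2 hB
  have hp := pair_rot h (A P / B P)
  apply RadB_near hP.1
  have h3 := RadB_isolated (RadB_Wr_diff h) hne hP.1
  have h4 := RadB_isolated hp.hA h1 hP.1
  have h5 : ∀ᶠ z in 𝓝 P, rB (A P / B P) A B z ≠ 0 :=
    ((hp.hB.differentiableAt (Metric.isOpen_ball.mem_nhds hP.1)).continuousAt).eventually_ne h2
  filter_upwards [h3, h4, h5] with z e3 e4 e5
  exact ⟨fun hz => ⟨e3 hz, e4 hz⟩, e5⟩

/-- One ramification point, lower bound on the annulus. -/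
theorem RadB_two {A B : ℂ → ℂ} (h : Pair A B) {P : ℂ} (hP : isRam A B P) {r r0 : ℝ}
    (hr : r0 < r) (hr0 : 0 < r0) (hr1 : r0 < 1)
    (hone : ∀ z ∈ Disc, ‖mob 1 P z‖ < r →
      (z ≠ P → Wr A B z ≠ 0 ∧ rA (A P / B P) A B z ≠ 0) ∧ rB (A P / B P) A B z ≠ 0) :
    ∃ t : ℝ, 0 < t ∧ ∀ z ∈ Disc, ‖mob 1 P z‖ < r0 → r0 / 4 ≤ ‖mob 1 P z‖ →
      t * ‖rB (A P / B P) A B z‖ ≤ ‖rA (A P / B P) A B z‖ := by
  have hp := pair_rot h (A P / B P)
  have hK := pd_compact hP.1 hr1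
  set K : Set ℂ := {z : ℂ | z ∈ Disc ∧ ‖mob 1 P z‖ ≤ r0} with hKd
  have hKs : K ⊆ Disc := fun z hz => hz.1
  have hcl : IsClosed (K ∩ (fun z : ℂ => ‖mob 1 P z‖) ⁻¹' (Set.Ici (r0 / 4))) :=
    ((pd_cont hP.1).mono hKs).preimage_isClosed_of_isClosed hK.isClosed isClosed_Ici
  have hK2 : IsCompact (K ∩ (fun z : ℂ => ‖mob 1 P z‖) ⁻¹' (Set.Ici (r0 / 4))) :=
    hK.of_isClosed_subset hcl Set.inter_subset_left
  set S := K ∩ (fun z : ℂ => ‖mob 1 P z‖) ⁻¹' (Set.Ici (r0 / 4)) with hS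
  have hSp : ∀ z ∈ S, rA (A P / B P) A B z ≠ 0 ∧ rB (A P / B P) A B z ≠ 0 := by
    rintro z ⟨⟨hzD, hz1⟩, hz2⟩
    have hz2' : r0 / 4 ≤ ‖mob 1 P z‖ := hz2
    obtain ⟨e1, e2⟩ := hone z hzD (hz1.trans_lt hr)
    refine ⟨(e1 ?_).2, e2⟩
    rintro rfl
    rw [(pd_zero hzD hzD).2 rfl] at hz2'
    linarith
  have hcont : ContinuousOn (fun z => ‖rA (A P / B P) A B z‖ / ‖rB (A P / B P) A B z‖) S := by
    refine ContinuousOn.div ((hp.hA.continuousOn.mono fun z hz => hz.1.1).norm)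
      ((hp.hB.continuousOn.mono fun z hz => hz.1.1).norm) fun z hz => ?_
    exact norm_ne_zero_iff.2 (hSp z hz).2
  rcases S.eq_empty_or_nonempty with he | hne
  · refine ⟨1, one_pos, fun z hzD h1 h2 => ?_⟩
    have : z ∈ S := ⟨⟨hzD, h1.le⟩, h2⟩
    rw [he] at this
    exact absurd this (Set.notMem_empty z)
  · obtain ⟨z0, hz0, hmin⟩ := hK2.exists_isMinOn hne hcont
    refine ⟨‖rA (A P / B P) A B z0‖ / ‖rB (A P / B P) A B z0‖,
      div_pos (norm_pos_iff.2 (hSp z0 hz0).1) (norm_pos_iff.2 (hSp z0 hz0).2),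
      fun z hzD h1 h2 => ?_⟩
    have hzS : z ∈ S := ⟨⟨hzD, h1.le⟩, h2⟩
    have h3 : ‖rA (A P / B P) A B z0‖ / ‖rB (A P / B P) A B z0‖ ≤
        ‖rA (A P / B P) A B z‖ / ‖rB (A P / B P) A B z‖ := hmin hzS
    rwa [le_div_iff₀ (norm_pos_iff.2 (hSp z hzS).2)] at h3

/-- Uniform radii. -/
theorem rad_exists {A B : ℂ → ℂ} (h : Pair A B) (hne : ∃ z ∈ Disc, Wr A B z ≠ 0)
    (hco : CoPres A B) (hB : ∀ P, isRam A B P → B P ≠ 0) :
    ∃ r0 t1 : ℝ, 0 < r0 ∧ r0 < 1 ∧ 0 < t1 ∧ ∀ P, isRam A B P → ∀ z ∈ Disc, ‖mob 1 P z‖ < r0 →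
      (z ≠ P → Wr A B z ≠ 0 ∧ rA (A P / B P) A B z ≠ 0) ∧ rB (A P / B P) A B z ≠ 0 ∧
      (r0 / 4 ≤ ‖mob 1 P z‖ →
        t1 * ‖rB (A P / B P) A B z‖ ≤ ‖rA (A P / B P) A B z‖) := by
  obtain ⟨T, hT, hT'⟩ := ram_finite h hne hco
  obtain ⟨r1, h1, h2⟩ := RadB_min T (fun P r => ∀ z ∈ Disc, ‖mob 1 P z‖ < r →
      (z ≠ P → Wr A B z ≠ 0 ∧ rA (A P / B P) A B z ≠ 0) ∧ rB (A P / B P) A B z ≠ 0)
    (fun P r r' e1 _ e3 z hz hr => e1 z hz (hr.trans_le e3))
    (fun P hP => RadB_one h hne (hT P hP) (hB P (hT P hP)))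
  have hr0 : 0 < min r1 1 / 2 := by positivity
  have hr01 : min r1 1 / 2 < 1 := by
    have := min_le_right r1 1
    linarith
  have hr0r : min r1 1 / 2 < r1 := by
    have := min_le_left r1 1
    linarith
  set r0 := min r1 1 / 2 with hr0d
  obtain ⟨t1, h3, h4⟩ := RadB_min T (fun P t => ∀ z ∈ Disc, ‖mob 1 P z‖ < r0 →
      r0 / 4 ≤ ‖mob 1 P z‖ → t * ‖rB (A P / B P) A B z‖ ≤ ‖rA (A P / B P) A B z‖)
    (fun P t t' e1 _ e3 z hz hr hr' =>
      (mul_le_mul_of_nonneg_right e3 (norm_nonneg _)).trans (e1 z hz hr hr'))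
    (fun P hP => RadB_two h (hT P hP) hr0r hr0 hr01 (h2 P hP))
  refine ⟨r0, t1, hr0, hr01, h3, fun P hP z hz hzr => ?_⟩
  obtain ⟨w, a, hm, hmT⟩ := hT' P hP
  have hval := (ram_pres h hm hP).2
  set P' := mob w a P with hP'
  have hz' : mob w a z ∈ Disc := mob_mem hm.1 hm.2.1 hz
  have hpd : ‖mob 1 P' (mob w a z)‖ = ‖mob 1 P z‖ := pd_inv hm.1 hm.2.1 hz hP.1
  have hl : A P' / B P' = A P / B P := hval
  obtain ⟨e1, e2⟩ := h2 P' hmT (mob w a z) hz' (by rw [hpd]; exact hzr.trans hr0r)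
  have e3 := h4 P' hmT (mob w a z) hz' (by rw [hpd]; exact hzr)
  rw [hl] at e1 e2 e3
  rw [hpd] at e3
  have hp := pair_rot h (A P / B P)
  obtain ⟨m, hm0, hmA, hmB, hmW⟩ := pres_fac hp (pres_rot hm (A P / B P)) hz
  rw [hmA, hmB] at e3
  rw [hmB] at e2
  rw [hmA] at e1
  rw [Wr_rot h _ hz, Wr_rot h _ hz'] at hmW
  have hne' : z ≠ P → mob w a z ≠ P' := by
    intro hzP he
    apply hzP
    have := mob_inv hm.1 hm.2.1 (RadA_lt hz).le
    rw [he, hP', mob_inv hm.1 hm.2.1 (RadA_lt hP.1).le] at this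
    exact this.symm
  refine ⟨fun hzP => ?_, right_ne_zero_of_mul e2, fun hr => ?_⟩
  · obtain ⟨e4, e5⟩ := e1 (hne' hzP)
    refine ⟨fun h0 => ?_, right_ne_zero_of_mul e5⟩
    rw [h0, mul_zero] at hmW
    exact (mul_ne_zero e4 (mobd_ne hm.1 hm.2.1 (RadA_lt hz).le)) hmW
  · have e6 := e3 hr
    rw [norm_mul, norm_mul] at e6
    have hmn : 0 < ‖m‖ := norm_pos_iff.2 hm0
    refine le_of_mul_le_mul_left ?_ hmn
    calc ‖m‖ * (t1 * ‖rB (A P / B P) A B z‖) = t1 * (‖m‖ * ‖rB (A P / B P) A B z‖) := by ring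
      _ ≤ _ := e6

/-- Normalisation: after a linear change of the pair all critical values lie in the unit disc. -/
theorem norm_exists {A B : ℂ → ℂ} (h : Pair A B) (hne : ∃ z ∈ Disc, Wr A B z ≠ 0)
    (hco : CoPres A B) :
    ∃ A' B' : ℂ → ℂ, Pair A' B' ∧ (∀ w a : ℂ, Pres A' B' w a ↔ Pres A B w a) ∧
      (∀ z ∈ Disc, Wr A' B' z = 0 ↔ Wr A B z = 0) ∧
      ∀ P, isRam A' B' P → ‖A' P‖ < ‖B' P‖ := by
  classical
  obtain ⟨T, hT, hT'⟩ := ram_finite h hne hco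
  obtain ⟨s, hs⟩ := Infinite.exists_notMem_finset (T.image fun P => -A P / B P)
  have hs' : ∀ P ∈ T, A P + s * B P ≠ 0 := by
    intro P hP h0
    apply hs
    rw [Finset.mem_image]
    refine ⟨P, hP, ?_⟩
    have hB : B P ≠ 0 := by
      intro hB
      rcases h.ne P (hT P hP).1 with h1 | h1
      · rw [hB, mul_zero, add_zero] at h0
        exact h1 h0
      · exact h1 hB
    rw [div_eq_iff hB]
    linear_combination -h0
  obtain ⟨r, hr, hrT⟩ := RadB_min T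
    (fun P r => r * ‖-conj s * A P + B P‖ < ‖A P + s * B P‖)
    (fun P r r' e1 _ e3 => (mul_le_mul_of_nonneg_right e3 (norm_nonneg _)).trans_lt e1)
    (fun P hP => by
      have h1 : 0 < ‖A P + s * B P‖ := norm_pos_iff.2 (hs' P hP)
      refine ⟨‖A P + s * B P‖ / (‖-conj s * A P + B P‖ + 1), by positivity, ?_⟩
      rw [div_mul_eq_mul_div, div_lt_iff₀ (by positivity)]
      nlinarith [norm_nonneg (-conj s * A P + B P)])
  have hr0 : (r : ℂ) ≠ 0 := by exact_mod_cast hr.ne'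
  have hdet : (1 : ℂ) + conj s * s ≠ 0 := by
    rw [Complex.conj_mul']
    have : (1 : ℂ) + (‖s‖ : ℂ) ^ 2 = ((1 + ‖s‖ ^ 2 : ℝ) : ℂ) := by push_cast; ring
    rw [this, Ne, Complex.ofReal_eq_zero]
    positivity
  have hpair : Pair (fun z => (r : ℂ) * (-conj s * A z + B z)) (fun z => A z + s * B z) := by
    refine ⟨?_, ?_, fun z hz => ?_⟩
    · exact ((h.hA.const_mul _).add h.hB).const_mul _
    · exact h.hA.add (h.hB.const_mul _)
    · by_contra hcon
      push Not at hcon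
      obtain ⟨h1, h2⟩ := hcon
      have h3 : -conj s * A z + B z = 0 := (mul_eq_zero.1 h1).resolve_left hr0
      have h4 : (1 + conj s * s) * B z = 0 := by linear_combination h3 + conj s * h2
      have h5 : (1 + conj s * s) * A z = 0 := by linear_combination h2 - s * h3
      have hBz := (mul_eq_zero.1 h4).resolve_left hdet
      have hAz := (mul_eq_zero.1 h5).resolve_left hdet
      rcases h.ne z hz with h6 | h6
      · exact h6 hAz
      · exact h6 hBz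
  have hPres : ∀ w a : ℂ, Pres (fun z => (r : ℂ) * (-conj s * A z + B z))
      (fun z => A z + s * B z) w a ↔ Pres A B w a := by
    intro w a
    unfold Pres
    refine and_congr_right fun _ => and_congr_right fun _ => forall₂_congr fun z _ => ?_
    constructor
    · intro h1
      have h2 : (r : ℂ) * (1 + conj s * s) * (A (mob w a z) * B z - A z * B (mob w a z)) = 0 := by
        linear_combination -h1
      have h3 := (mul_eq_zero.1 h2).resolve_left (mul_ne_zero hr0 hdet)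
      exact sub_eq_zero.1 h3
    · intro h1
      linear_combination -((r : ℂ) * (1 + conj s * s)) * h1
  have hW : ∀ z ∈ Disc, Wr (fun z => (r : ℂ) * (-conj s * A z + B z)) (fun z => A z + s * B z) z =
      -((r : ℂ) * (1 + conj s * s)) * Wr A B z := by
    intro z hz
    have hA := (h.hA.differentiableAt (Metric.isOpen_ball.mem_nhds hz)).hasDerivAt
    have hB := (h.hB.differentiableAt (Metric.isOpen_ball.mem_nhds hz)).hasDerivAt
    have d1 : deriv (fun z => (r : ℂ) * (-conj s * A z + B z)) z =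
        (r : ℂ) * (-conj s * deriv A z + deriv B z) :=
      (((hA.const_mul (-conj s)).add hB).const_mul (r : ℂ)).deriv
    have d2 : deriv (fun z => A z + s * B z) z = deriv A z + s * deriv B z :=
      (hA.add (hB.const_mul s)).deriv
    unfold Wr
    rw [d1, d2]
    ring
  have hW' : ∀ z ∈ Disc, Wr (fun z => (r : ℂ) * (-conj s * A z + B z))
      (fun z => A z + s * B z) z = 0 ↔ Wr A B z = 0 := by
    intro z hz
    rw [hW z hz, mul_eq_zero, or_iff_right (neg_ne_zero.2 (mul_ne_zero hr0 hdet))]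
  refine ⟨_, _, hpair, hPres, hW', fun P hP => ?_⟩
  have hP2 : isRam A B P := ⟨hP.1, (hW' P hP.1).1 hP.2⟩
  obtain ⟨w, a, hm, hmT⟩ := hT' P hP2
  obtain ⟨m, hm0, hmA, hmB, -⟩ := pres_fac h hm hP.1
  have h1 := hrT _ hmT
  rw [hmA, hmB] at h1
  have e1 : -conj s * (m * A P) + m * B P = m * (-conj s * A P + B P) := by ring
  have e2 : m * A P + s * (m * B P) = m * (A P + s * B P) := by ring
  rw [e1, e2, norm_mul, norm_mul] at h1
  have hmn : 0 < ‖m‖ := norm_pos_iff.2 hm0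
  show ‖(r : ℂ) * (-conj s * A P + B P)‖ < ‖A P + s * B P‖
  rw [norm_mul, Complex.norm_real, Real.norm_eq_abs, abs_of_pos hr]
  refine lt_of_mul_lt_mul_left ?_ hmn.le
  calc ‖m‖ * (r * ‖-conj s * A P + B P‖) = r * (‖m‖ * ‖-conj s * A P + B P‖) := by ring
    _ < _ := h1

/-- `W` is not identically zero if `f` is not constant. -/
theorem Wr_ne_of_nonconst {A B : ℂ → ℂ} (h : Pair A B)
    (hne : ∃ z ∈ Disc, ∃ z' ∈ Disc, A z * B z' ≠ A z' * B z) :
    ∃ z ∈ Disc, Wr A B z ≠ 0 := by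
  by_contra hcon
  push Not at hcon
  obtain ⟨z, hz, z', hz', hzz⟩ := hne
  by_cases hB : ∀ y ∈ Disc, B y = 0
  · exact hzz (by rw [hB z hz, hB z' hz', mul_zero, mul_zero])
  · push Not at hB
    obtain ⟨z1, hz1, hB1⟩ := hB
    have hBc : ∀ᶠ y in 𝓝 z1, B y ≠ 0 :=
      ((h.hB.differentiableAt (Metric.isOpen_ball.mem_nhds hz1)).continuousAt).eventually_ne hB1
    have hDn : ∀ᶠ y in 𝓝 z1, y ∈ Disc := Metric.isOpen_ball.mem_nhds hz1
    obtain ⟨ε, hε, h1⟩ := Metric.eventually_nhds_iff.1 (hBc.and hDn)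
    have hd : ∀ y ∈ Metric.ball z1 ε, HasDerivAt (fun y => A y / B y) 0 y := by
      intro y hy
      obtain ⟨hy1, hy2⟩ := h1 (Metric.mem_ball.1 hy)
      have hA := (h.hA.differentiableAt (Metric.isOpen_ball.mem_nhds hy2)).hasDerivAt
      have hB := (h.hB.differentiableAt (Metric.isOpen_ball.mem_nhds hy2)).hasDerivAt
      have h2 := hA.div hB hy1
      have h3 : (deriv A y * B y - A y * deriv B y) / B y ^ 2 = 0 := by
        have h4 : deriv A y * B y - A y * deriv B y = 0 := hcon y hy2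
        rw [h4, zero_div]
      rw [h3] at h2
      exact h2
    have hconst : ∀ y ∈ Metric.ball z1 ε, A y / B y = A z1 / B z1 := by
      intro y hy
      exact Metric.isOpen_ball.is_const_of_deriv_eq_zero (convex_ball z1 ε).isPreconnected
        (fun x hx => (hd x hx).differentiableAt.differentiableWithinAt)
        (fun x hx => (hd x hx).deriv) hy (Metric.mem_ball_self hε)
    have hz0 : ∀ y ∈ Disc, A y - A z1 / B z1 * B y = 0 := by
      apply RadB_ident (f := fun y => A y - A z1 / B z1 * B y) (h.hA.sub (h.hB.const_mul _)) hz1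
      apply Filter.Eventually.frequently
      apply Filter.Eventually.filter_mono nhdsWithin_le_nhds
      filter_upwards [Metric.ball_mem_nhds z1 hε] with y hy
      have h2 := hconst y hy
      have h3 := (h1 (Metric.mem_ball.1 hy)).1
      rw [← h2, div_mul_cancel₀ _ h3, sub_self]
    apply hzz
    have e1 := hz0 z hz
    have e2 := hz0 z' hz'
    linear_combination B z' * e1 - B z * e2

end Pool.Agent.H.MP_bfbbee_an.F4
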