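import Pool.Agent.H.MP_bfbbee_an.helper67.GUni
import Pool.Agent.H.MP_bfbbee_an.helper67.RadB
import Pool.Agent.H.MP_bfbbee_an.helper67.LocN
import Pool.Agent.H.MP_bfbbee_an.helper67.DevE
import Pool.Agent.H.MP_bfbbee_an.helper67.ProfE

/-!
# Choice of the constants
-/

set_option autoImplicit false

namespace Pool.Agent.H.MP_bfbbee_an.F4

open ComplexConjugate Filter Topology Complex MeasureTheory
open scoped ContDiff ENNReal

theorem Const_cc_ne {l l' : ℂ} (hl : ‖l‖ < 1) (hl' : ‖l'‖ < 1) (hne : l ≠ l') : cc l l' ≠ 0 := by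
  unfold cc
  refine div_ne_zero (sub_ne_zero.2 (Ne.symm hne)) ?_
  intro h
  have h1 : conj l * l' = -1 := by linear_combination h
  have h2 := congrArg norm h1
  rw [norm_mul, Complex.norm_conj, norm_neg, norm_one] at h2
  nlinarith [norm_nonneg l, norm_nonneg l']

theorem Const_k0 (S : Finset ℂ) (hS : ∀ l ∈ S, ‖l‖ < 1) :
    ∃ k0 : ℝ, 0 < k0 ∧ ∀ l ∈ S, ∀ l' ∈ S, l ≠ l' → k0 ≤ ‖cc l l'‖ / (1 + ‖cc l l'‖ ^ 2) := by
  refine RadB_min S (fun l k => ∀ l' ∈ S, l ≠ l' → k ≤ ‖cc l l'‖ / (1 + ‖cc l l'‖ ^ 2))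
    (fun l r r' h1 _ h3 l' hl' hne => h3.trans (h1 l' hl' hne)) fun l hl => ?_
  refine RadB_min S (fun l' k => l ≠ l' → k ≤ ‖cc l l'‖ / (1 + ‖cc l l'‖ ^ 2))
    (fun l' r r' h1 _ h3 hne => h3.trans (h1 hne)) fun l' hl' => ?_
  by_cases hne : l = l'
  · exact ⟨1, one_pos, fun h => absurd hne h⟩
  · have h1 : 0 < ‖cc l l'‖ := norm_pos_iff.2 (Const_cc_ne (hS l hl) (hS l' hl') hne)
    exact ⟨_, by positivity, fun _ => le_rfl⟩

theorem Const_sep {k0 eta a2 a5 : ℝ} {c : ℂ} (hc : c ≠ 0) (_hk0 : 0 < k0)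
    (hk : k0 ≤ ‖c‖ / (1 + ‖c‖ ^ 2)) (_ha2 : 0 < a2)
    (hs : a5 + a2 < 2 * k0 * Real.sqrt ((eta - a2 ^ 2) / 2)) {j : ℝ} {n : ℂ}
    (hjn : j ^ 2 + ‖n‖ ^ 2 = 1) (hj : |j| < a2)
    (hre : -1 + eta < ((c / (‖c‖ : ℂ)) ^ 2 * n ^ 2).re) :
    a5 < |((1 - ‖c‖ ^ 2) * j - 2 * (c * n).re) / (1 + ‖c‖ ^ 2)| := by
  have hcn : 0 < ‖c‖ := norm_pos_iff.2 hc
  have hcn' : (‖c‖ : ℂ) ≠ 0 := by exact_mod_cast hcn.ne'
  obtain ⟨x, hx⟩ : ∃ x : ℂ, x = c / (‖c‖ : ℂ) * n := ⟨_, rfl⟩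
  have hx2 : (c / (‖c‖ : ℂ)) ^ 2 * n ^ 2 = x ^ 2 := by rw [hx]; ring
  have hcx : c * n = ((‖c‖ : ℝ) : ℂ) * x := by
    rw [hx]
    field_simp
  have hxn : ‖x‖ ^ 2 = ‖n‖ ^ 2 := by
    rw [hx, norm_mul, norm_div, Complex.norm_real, norm_norm, div_self hcn.ne', one_mul]
  have hxs : ‖x‖ ^ 2 = x.re ^ 2 + x.im ^ 2 := by
    rw [Complex.sq_norm, Complex.normSq_apply]
    ring
  have hre2 : (x ^ 2).re = x.re ^ 2 - x.im ^ 2 := by
    rw [sq, Complex.mul_re]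
    ring
  have hcnre : (c * n).re = ‖c‖ * x.re := by
    rw [hcx, Complex.re_ofReal_mul]
  rw [hx2, hre2] at hre
  have hj2 : j ^ 2 < a2 ^ 2 := by
    rw [← sq_abs j]
    exact pow_lt_pow_left₀ hj (abs_nonneg j) two_ne_zero
  have hy : (eta - a2 ^ 2) / 2 < x.re ^ 2 := by nlinarith
  have hy2 : Real.sqrt ((eta - a2 ^ 2) / 2) ≤ |x.re| := by
    rw [← Real.sqrt_sq_eq_abs]
    exact Real.sqrt_le_sqrt hy.le
  rw [hcnre, abs_div, abs_of_pos (show (0 : ℝ) < 1 + ‖c‖ ^ 2 by positivity),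
    lt_div_iff₀ (by positivity)]
  have h1 : 2 * ‖c‖ * |x.re| - |1 - ‖c‖ ^ 2| * |j| ≤
      |(1 - ‖c‖ ^ 2) * j - 2 * (‖c‖ * x.re)| := by
    have h2 : |2 * (‖c‖ * x.re)| - |(1 - ‖c‖ ^ 2) * j| ≤
        |(1 - ‖c‖ ^ 2) * j - 2 * (‖c‖ * x.re)| := by
      rw [abs_sub_comm]
      exact abs_sub_abs_le_abs_sub _ _
    rw [abs_mul, abs_mul, abs_mul, abs_of_pos (show (0 : ℝ) < 2 by norm_num),
      abs_of_pos hcn] at h2
    linarith
  have h3 : |1 - ‖c‖ ^ 2| ≤ 1 + ‖c‖ ^ 2 := by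
    rw [abs_le]
    constructor <;> nlinarith [sq_nonneg ‖c‖]
  have h4 : |1 - ‖c‖ ^ 2| * |j| ≤ (1 + ‖c‖ ^ 2) * a2 :=
    mul_le_mul h3 hj.le (abs_nonneg _) (by positivity)
  rw [le_div_iff₀ (by positivity)] at hk
  have h5 : k0 * (1 + ‖c‖ ^ 2) * Real.sqrt ((eta - a2 ^ 2) / 2) ≤ ‖c‖ * |x.re| :=
    mul_le_mul hk hy2 (Real.sqrt_nonneg _) hcn.le
  have h6 : (a5 + a2) * (1 + ‖c‖ ^ 2) <
      2 * k0 * Real.sqrt ((eta - a2 ^ 2) / 2) * (1 + ‖c‖ ^ 2) :=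
    mul_lt_mul_of_pos_right hs (by positivity)
  nlinarith

theorem Const_T0_le {a t : ℝ} (ha : 0 ≤ a) (hat : a ≤ t) : T0 (a ^ 2) ≤ t := by
  unfold T0
  rw [Real.sqrt_sq ha]
  have h0 := Real.sqrt_nonneg (1 - a ^ 2)
  refine (div_le_self ha ?_).trans hat
  linarith

theorem Const_cut {p q : ℝ} (hp : 0 < p) (hpq : p < q) :
    ∃ g : ℝ → ℝ, ContDiff ℝ ∞ g ∧ (∀ t, |t| ≤ p → g t = 1) ∧ ∀ t, q ≤ |t| → g t = 0 := by
  have hd : 0 < q ^ 2 - p ^ 2 := by nlinarith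
  refine ⟨fun t => Real.smoothTransition ((q ^ 2 - t ^ 2) / (q ^ 2 - p ^ 2)), ?_, fun t ht => ?_,
    fun t ht => ?_⟩
  · exact Real.smoothTransition.contDiff.comp
      ((contDiff_const.sub (contDiff_id.pow 2)).div_const _)
  · apply Real.smoothTransition.one_of_one_le
    rw [le_div_iff₀ hd]
    have : t ^ 2 ≤ p ^ 2 := sq_le_sq' (by linarith [abs_le.1 ht]) (abs_le.1 ht).2
    linarith
  · apply Real.smoothTransition.zero_of_nonpos
    apply div_nonpos_of_nonpos_of_nonneg _ hd.le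
    have : q ^ 2 ≤ t ^ 2 := by
      rw [← sq_abs t]
      exact pow_le_pow_left₀ (hp.trans hpq).le ht 2
    linarith

theorem Const_cut' {p q : ℝ} (hp : 0 < p) (hpq : p < q) :
    ∃ g : ℝ → ℝ, ContDiff ℝ ∞ g ∧ (∀ t, |t| ≤ p → g t = 0) ∧ ∀ t, q ≤ |t| → g t = 1 := by
  obtain ⟨g, h1, h2, h3⟩ := Const_cut hp hpq
  refine ⟨fun t => 1 - g t, contDiff_const.sub h1, fun t ht => ?_, fun t ht => ?_⟩
  · show 1 - g t = 0
    rw [h2 t ht, sub_self]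
  · show 1 - g t = 1
    rw [h3 t ht, sub_zero]

theorem Const_cX {eta : ℝ} (h : 0 < eta) :
    ∃ g : ℝ → ℝ, ContDiff ℝ ∞ g ∧ (∀ t, t ≤ -1 + eta → g t = 0) ∧
      ∀ t, -1 + 2 * eta ≤ t → g t = 1 := by
  refine ⟨fun t => Real.smoothTransition ((t + 1 - eta) / eta), ?_, fun t ht => ?_,
    fun t ht => ?_⟩
  · exact Real.smoothTransition.contDiff.comp
      (((contDiff_id.add contDiff_const).sub contDiff_const).div_const _)
  · apply Real.smoothTransition.zero_of_nonpos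
    apply div_nonpos_of_nonpos_of_nonneg _ h.le
    linarith
  · apply Real.smoothTransition.one_of_one_le
    rw [le_div_iff₀ h]
    linarith

theorem Const_prof {a2 a3 : ℝ} {mu : ℝ → ℝ} (hd : Dev a2 a3 mu) :
    ∃ G h : ℕ → ℝ → ℝ, ∀ β : ℕ, 1 ≤ β → ∃ δ, Prof β (a3 ^ 2) mu (G β) (h β) δ := by
  have h1 : ∀ β : ℕ, ∃ G h : ℝ → ℝ, 1 ≤ β → ∃ δ, Prof β (a3 ^ 2) mu G h δ := by
    intro β
    by_cases hβ : 1 ≤ β
    · obtain ⟨G, h, δ, hG⟩ := exists_prof hd hβ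
      exact ⟨G, h, fun _ => ⟨δ, hG⟩⟩
    · exact ⟨0, 0, fun h => absurd h hβ⟩
  choose G h hG using h1
  exact ⟨G, h, hG⟩

/-- The widths. -/
theorem Const_a {t1 s k0 r : ℝ} (ht1 : 0 < t1) (hs : 0 < s) (hk0 : 0 < k0) (hr : 1 < r) :
    ∃ a1 a2 a3 a4 a5 : ℝ, 0 < a1 ∧ a1 < a2 ∧ a2 < a3 ∧ a3 < a4 ∧ a4 < a5 ∧ a5 = r * a1 ∧
      a5 ^ 2 < 1 / 2 ∧ a4 ≤ t1 ∧ a5 ≤ s ∧
      a5 + a2 < 2 * k0 * Real.sqrt ((s ^ 2 - a2 ^ 2) / 2) := by
  obtain ⟨δ, hδ⟩ : ∃ δ : ℝ, δ = min (min (1 / 2) t1) (min (s / 2) (k0 * s / 4)) := ⟨_, rfl⟩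
  have hδ0 : 0 < δ := by rw [hδ]; positivity
  have h1 : δ ≤ 1 / 2 := by rw [hδ]; exact (min_le_left _ _).trans (min_le_left _ _)
  have h2 : δ ≤ t1 := by rw [hδ]; exact (min_le_left _ _).trans (min_le_right _ _)
  have h3 : δ ≤ s / 2 := by rw [hδ]; exact (min_le_right _ _).trans (min_le_left _ _)
  have h4 : δ ≤ k0 * s / 4 := by rw [hδ]; exact (min_le_right _ _).trans (min_le_right _ _)
  have hr0 : 0 < r := by linarith
  obtain ⟨κ, hκ⟩ : ∃ κ : ℝ, κ = δ / r := ⟨_, rfl⟩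
  have hκ0 : 0 < κ := by rw [hκ]; positivity
  have hκr : r * κ = δ := by rw [hκ]; field_simp
  have hκr' : κ < r * κ := by nlinarith
  refine ⟨κ, κ * ((3 + r) / 4), κ * ((2 + 2 * r) / 4), κ * ((1 + 3 * r) / 4), r * κ, hκ0,
    by nlinarith, by nlinarith, by nlinarith, by nlinarith, rfl, ?_, by nlinarith, ?_, ?_⟩
  · rw [hκr]; nlinarith
  · rw [hκr]; linarith
  · have ha2 : κ * ((3 + r) / 4) ≤ δ := by nlinarith
    have ha20 : 0 < κ * ((3 + r) / 4) := by positivity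
    have h5 : s / 2 ≤ Real.sqrt ((s ^ 2 - (κ * ((3 + r) / 4)) ^ 2) / 2) := by
      apply Real.le_sqrt_of_sq_le
      nlinarith
    have h6 : k0 * s ≤ 2 * k0 * Real.sqrt ((s ^ 2 - (κ * ((3 + r) / 4)) ^ 2) / 2) := by
      nlinarith
    rw [hκr]
    have h7 : 0 < k0 * s := by positivity
    linarith

theorem Const_sum (n : ℕ) {x1 x2 x3 ε : ℝ} (h1 : 0 ≤ x1) (h2 : 0 ≤ x2) (h3 : 0 ≤ x3)
    (h : (n + 1) * x1 + n * n * x2 + n * x3 < ε) :
    (n : ℝ≥0∞) * ENNReal.ofReal x1 + (n * n) * ENNReal.ofReal x2 +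
      (ENNReal.ofReal x1 + n * ENNReal.ofReal x3) < ENNReal.ofReal ε := by
  have hn : (0 : ℝ) ≤ n := Nat.cast_nonneg n
  have e1 : (n : ℝ≥0∞) = ENNReal.ofReal n := (ENNReal.ofReal_natCast n).symm
  rw [e1, ← ENNReal.ofReal_mul hn, ← ENNReal.ofReal_mul hn, ← ENNReal.ofReal_mul
    (mul_nonneg hn hn), ← ENNReal.ofReal_mul hn, ← ENNReal.ofReal_add (by positivity)
    (by positivity), ← ENNReal.ofReal_add (by positivity) (by positivity),
    ← ENNReal.ofReal_add (by positivity) (by positivity)]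
  have hε : 0 < ε := lt_of_le_of_lt (by positivity) h
  rw [ENNReal.ofReal_lt_ofReal_iff hε]
  linarith

/-- For a normalised pair there are data with all properties and small error terms. -/
theorem exists_cfg {A B : ℂ → ℂ} (h : Pair A B) (hne : ∃ z ∈ Disc, Wr A B z ≠ 0)
    (hco : CoPres A B) (hsm : ∀ P, isRam A B P → ‖A P‖ < ‖B P‖) {ε : ℝ} (hε : 0 < ε) :
    ∃ (D : Cfg) (e1 e2 e3 : ℝ≥0∞), D.A = A ∧ D.B = B ∧ D.Ok ∧ D.eta < 1 / 2 ∧
      (∀ L : ℂ, volume {θ : ℝ | θ ∈ Set.Icc 0 (2 * Real.pi) ∧ D.a1 ≤ |(dir θ * L).im| ∧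
        |(dir θ * L).im| ≤ D.a5} ≤ e1) ∧
      (∀ l ∈ D.S, ∀ l' ∈ D.S, l ≠ l' →
        ENNReal.ofReal (32 * Real.pi * (D.a5 + Real.sqrt D.eta) /
          (‖cc l l'‖ / (1 + ‖cc l l'‖ ^ 2))) ≤ e2) ∧
      (∀ P, isRam D.A D.B P →
        ENNReal.ofReal (16 * Real.pi * (D.ord P + 2) * Real.sqrt D.eta) ≤ e3) ∧
      D.S.card * e1 + (D.S.card * D.S.card) * e2 + (e1 + D.S.card * e3) < ENNReal.ofReal ε := by
  classical
  have hpi := Real.pi_pos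
  obtain ⟨T, hT, hT'⟩ := ram_finite h hne hco
  have hB : ∀ P, isRam A B P → B P ≠ 0 := by
    intro P hP h0
    have := hsm P hP
    rw [h0, norm_zero] at this
    exact absurd this (not_lt.2 (norm_nonneg _))
  obtain ⟨r0, t1, hr0, hr01, ht1, hrad⟩ := rad_exists h hne hco hB
  obtain ⟨S, hS⟩ : ∃ S : Finset ℂ, S = T.image fun P => A P / B P := ⟨_, rfl⟩
  have hmemS : ∀ P, isRam A B P → A P / B P ∈ S := by
    intro P hP
    obtain ⟨w, a, hm, hmT⟩ := hT' P hP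
    rw [hS, Finset.mem_image]
    exact ⟨_, hmT, (ram_pres h hm hP).2⟩
  have hltS : ∀ l ∈ S, ‖l‖ < 1 := by
    intro l hl
    rw [hS, Finset.mem_image] at hl
    obtain ⟨P, hP, rfl⟩ := hl
    rw [norm_div, div_lt_one (norm_pos_iff.2 (hB P (hT P hP)))]
    exact hsm P (hT P hP)
  obtain ⟨k0, hk0, hk⟩ := Const_k0 S hltS
  obtain ⟨n, hn⟩ : ∃ n : ℕ, n = S.card := ⟨_, rfl⟩
  obtain ⟨bm, hbm⟩ : ∃ bm : ℕ, bm = T.sup fun P => analyticOrderNatAt (rA (A P / B P) A B) P :=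
    ⟨_, rfl⟩
  obtain ⟨M, hM⟩ : ∃ M : ℝ, M = n * (16 * Real.pi * (bm + 2)) + n * n * (64 * Real.pi / k0) + 1 :=
    ⟨_, rfl⟩
  have hM0 : 0 < M := by rw [hM]; positivity
  obtain ⟨s, hs⟩ : ∃ s : ℝ, s = min (1 / 4) (ε / (8 * M)) := ⟨_, rfl⟩
  have hs0 : 0 < s := by rw [hs]; positivity
  have hs1 : s ≤ 1 / 4 := by rw [hs]; exact min_le_left _ _
  have hs2 : s * M ≤ ε / 8 := by
    have h1 : s ≤ ε / (8 * M) := by rw [hs]; exact min_le_right _ _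
    rw [le_div_iff₀ (by positivity)] at h1
    linarith
  have hx1 : 0 < ε / (8 * ((n : ℝ) + 1)) := by positivity
  obtain ⟨r, hr, hband⟩ := band_small hx1
  obtain ⟨a1, a2, a3, a4, a5, ha1, ha12, ha23, ha34, ha45, ha5, ha5h, ha4t, ha5s, hasep⟩ :=
    Const_a ht1 hs0 hk0 hr
  have ha2 : 0 < a2 := ha1.trans ha12
  have ha3 : 0 < a3 := ha2.trans ha23
  have ha4 : 0 < a4 := ha3.trans ha34
  have ha5' : 0 < a5 := ha4.trans ha45
  have ha3h : a3 ^ 2 < 1 / 2 :=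
    (pow_lt_pow_left₀ (ha34.trans ha45) ha3.le two_ne_zero).trans ha5h
  obtain ⟨mu, hmu⟩ := exists_dev ha2 ha23 ha3h
  obtain ⟨G, hh, hG⟩ := Const_prof hmu
  obtain ⟨cg, hcg1, hcg2, hcg3⟩ := Const_cut ha1 ha12
  obtain ⟨cG, hcG1, hcG2, hcG3⟩ := Const_cut' ha4 ha45
  have hs2' : 0 < s ^ 2 := by positivity
  obtain ⟨cX, hcX1, hcX2, hcX3⟩ := Const_cX hs2'
  obtain ⟨D, hD⟩ : ∃ D : Cfg, D = (⟨A, B, r0, a1, a2, a3, a4, a5, mu, G, hh, S, cg, cG, cX,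
    s ^ 2⟩ : Cfg) := ⟨_, rfl⟩
  have eA : D.A = A := by rw [hD]
  have eB : D.B = B := by rw [hD]
  have elv : ∀ P, D.lv P = A P / B P := by intro P; rw [Cfg.lv, eA, eB]
  have hOk : D.Ok := by
    subst hD
    exact
    { pair := h
      nz := hne
      small := hsm
      r0pos := hr0
      r0lt := hr01
      disc := by
        intro P hP z hz hzr
        obtain ⟨h1, h2, h3⟩ := hrad P hP z hz hzr
        refine ⟨h1, h2, fun h4 => le_trans ?_ (h3 h4)⟩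
        exact mul_le_mul_of_nonneg_right (Const_T0_le ha4.le ha4t) (norm_nonneg _)
      a1pos := ha1
      a12 := ha12
      a23 := ha23
      a34 := ha34
      a45 := ha45
      a5lt := ha5h
      dev := hmu
      prof := hG
      memS := hmemS
      ltS := hltS
      cgs := hcg1
      cg1 := hcg2
      cg0 := hcg3
      cGs := hcG1
      cG0 := hcG2
      cG1 := hcG3
      cXs := hcX1
      cX0 := hcX2
      cX1 := hcX3
      etapos := hs2'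
      sep := by
        intro l hl l' hl' hne' j n' hjn hj hre
        exact Const_sep (Const_cc_ne (hltS l hl) (hltS l' hl') hne') hk0 (hk l hl l' hl' hne') ha2
          hasep hjn hj hre }
  have eeta : D.eta = s ^ 2 := by rw [hD]
  have esq : Real.sqrt D.eta = s := by rw [eeta, Real.sqrt_sq hs0.le]
  have eS : D.S = S := by rw [hD]
  have ea1 : D.a1 = a1 := by rw [hD]
  have ea5 : D.a5 = a5 := by rw [hD]
  refine ⟨D, ENNReal.ofReal (ε / (8 * ((n : ℝ) + 1))), ENNReal.ofReal (64 * Real.pi * s / k0),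
    ENNReal.ofReal (16 * Real.pi * (bm + 2) * s), eA, eB, hOk, ?_, ?_, ?_, ?_, ?_⟩
  · rw [eeta]
    nlinarith
  · intro L
    rw [ea1, ea5, ha5]
    exact hband L a1 ha1
  · intro l hl l' hl' hne'
    rw [eS] at hl hl'
    rw [esq, ea5]
    apply ENNReal.ofReal_le_ofReal
    have h1 := hk l hl l' hl' hne'
    refine div_le_div₀ (by positivity) ?_ hk0 h1
    nlinarith
  · intro P hP
    rw [esq]
    apply ENNReal.ofReal_le_ofReal
    have hord : D.ord P ≤ bm := by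
      have hP' : isRam A B P := by rw [← eA, ← eB]; exact hP
      obtain ⟨w, a, hm, hmT⟩ := hT' P hP'
      have hm' : Pres D.A D.B w a := by rw [eA, eB]; exact hm
      obtain ⟨-, -, h3⟩ := Cfg.In_pres hOk hm' (Cfg.In_self hOk hP)
      rw [← h3, hbm]
      have h4 : D.ord (mob w a P) = analyticOrderNatAt
          (rA (A (mob w a P) / B (mob w a P)) A B) (mob w a P) := by
        rw [Cfg.ord, elv, eA, eB]
      rw [h4]
      exact Finset.le_sup (f := fun P => analyticOrderNatAt (rA (A P / B P) A B) P) hmT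
    have hord' : (D.ord P : ℝ) ≤ bm := by exact_mod_cast hord
    gcongr
  · rw [eS, ← hn]
    refine Const_sum n hx1.le (by positivity) (by positivity) ?_
    have h1 : ((n : ℝ) + 1) * (ε / (8 * ((n : ℝ) + 1))) = ε / 8 := by
      field_simp
    have h2 : (n : ℝ) * n * (64 * Real.pi * s / k0) + n * (16 * Real.pi * (bm + 2) * s) =
        s * (M - 1) := by
      rw [hM]
      ring
    rw [h1]
    nlinarith

end Pool.Agent.H.MP_bfbbee_an.F4
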