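import Pool.Agent.H.MP_bfbbee_an.helper67.Fd

/-!
# The Abel transform identity
-/

set_option autoImplicit false

namespace Pool.Agent.H.MP_bfbbee_an.F4

open ComplexConjugate Filter Topology Complex
open scoped ContDiff

private theorem DevA_sub (g : ℝ → ENNReal) {c : ℝ} (hc : 0 < c) :
    ∫⁻ x in Set.Ioi (0 : ℝ), g x = ∫⁻ x in Set.Ioi (0 : ℝ), ENNReal.ofReal c * g (c * x) := by
  have h1 := MeasureTheory.lintegral_image_eq_lintegral_abs_deriv_mul (s := Set.Ioi (0 : ℝ))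
    (f := fun x => c * x) (f' := fun _ => c) measurableSet_Ioi
    (fun x _ => by simpa using ((hasDerivAt_id x).const_mul c).hasDerivWithinAt)
    (fun x _ y _ h => mul_left_cancel₀ hc.ne' h) g
  have h2 : (fun x : ℝ => c * x) '' Set.Ioi (0 : ℝ) = Set.Ioi (0 : ℝ) := by
    ext y
    constructor
    · rintro ⟨x, hx, rfl⟩
      exact mul_pos hc hx
    · intro hy
      exact ⟨y / c, div_pos hy hc, by field_simp⟩
  rw [h2, abs_of_pos hc] at h1
  exact h1

private theorem DevA_int {j r : ℝ} (hj : 0 < j) :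
    ∫⁻ v in Set.Ioi (0 : ℝ), ENNReal.ofReal (j / (j ^ 2 * (1 + v ^ 2) + r ^ 2)) =
      ENNReal.ofReal (Real.pi / 2 / Real.sqrt (j ^ 2 + r ^ 2)) := by
  have ha0 : 0 < j ^ 2 + r ^ 2 := by positivity
  obtain ⟨a, ha⟩ : ∃ a, a = Real.sqrt (j ^ 2 + r ^ 2) := ⟨_, rfl⟩
  have hap : 0 < a := by rw [ha]; exact Real.sqrt_pos.2 ha0
  have ha2 : a ^ 2 = j ^ 2 + r ^ 2 := by rw [ha]; exact Real.sq_sqrt ha0.le
  have hder : ∀ x ∈ Set.Ici (0 : ℝ), HasDerivAt (fun v => Real.arctan (j * v / a) / a)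
      (j / (j ^ 2 * (1 + x ^ 2) + r ^ 2)) x := by
    intro x _
    have h1 : HasDerivAt (fun v => j * v / a) (j / a) x := by
      simpa using ((hasDerivAt_id x).const_mul j).div_const a
    have h2 := (h1.arctan).div_const a
    refine h2.congr_deriv ?_
    have h3 : j ^ 2 * (1 + x ^ 2) + r ^ 2 = a ^ 2 * (1 + (j * x / a) ^ 2) := by
      field_simp
      rw [ha2]
      ring
    rw [h3]
    have h4 : 0 < 1 + (j * x / a) ^ 2 := by positivity
    field_simp
  have hpos : ∀ x ∈ Set.Ioi (0 : ℝ), 0 ≤ j / (j ^ 2 * (1 + x ^ 2) + r ^ 2) := fun x _ => by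
    positivity
  have hlim : Tendsto (fun v => Real.arctan (j * v / a) / a) atTop (𝓝 (Real.pi / 2 / a)) := by
    refine Tendsto.div_const ?_ a
    refine (tendsto_nhds_of_tendsto_nhdsWithin Real.tendsto_arctan_atTop).comp ?_
    refine Tendsto.atTop_div_const hap ?_
    exact tendsto_id.const_mul_atTop hj
  have h5 := MeasureTheory.integral_Ioi_of_hasDerivAt_of_nonneg' hder hpos hlim
  have h6 := MeasureTheory.integrableOn_Ioi_deriv_of_nonneg' hder hpos hlim
  have h7 : Real.arctan (j * 0 / a) / a = 0 := by simp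
  rw [h7, sub_zero] at h5
  rw [← ha, ← h5, MeasureTheory.ofReal_integral_eq_lintegral_ofReal h6]
  exact (MeasureTheory.ae_restrict_iff' measurableSet_Ioi).2 (Filter.Eventually.of_forall hpos)

/-- The Abel transform identity. -/
theorem abel {φ : ℝ → ℝ} (hφ : Continuous φ) (h0 : ∀ x, 0 ≤ φ x) {R : ℝ}
    (hR : ∀ x, R ≤ x → φ x = 0) {j : ℝ} (hj : 0 < j) :
    ∫ k in Set.Ioi (0 : ℝ), (∫ y in Set.Ioi (0 : ℝ), j * φ (k ^ 2 + y ^ 2) / (j ^ 2 + k ^ 2)) =
      Real.pi / 2 * ∫ r in Set.Ioi (0 : ℝ), φ (r ^ 2) * r / Real.sqrt (j ^ 2 + r ^ 2) := by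
  have hFc : Continuous (fun z : ℝ × ℝ => j * φ (z.1 ^ 2 + z.2 ^ 2) / (j ^ 2 + z.1 ^ 2)) := by
    refine Continuous.div (by fun_prop) (by fun_prop) fun z => ?_
    positivity
  have hF0 : ∀ k y : ℝ, 0 ≤ j * φ (k ^ 2 + y ^ 2) / (j ^ 2 + k ^ 2) := fun k y =>
    div_nonneg (mul_nonneg hj.le (h0 _)) (by positivity)
  -- the left side
  have hL : ∫ k in Set.Ioi (0 : ℝ), (∫ y in Set.Ioi (0 : ℝ), j * φ (k ^ 2 + y ^ 2) / (j ^ 2 + k ^ 2)) =
      (∫⁻ k in Set.Ioi (0 : ℝ), ∫⁻ y in Set.Ioi (0 : ℝ),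
        ENNReal.ofReal (j * φ (k ^ 2 + y ^ 2) / (j ^ 2 + k ^ 2))).toReal := by
    rw [MeasureTheory.integral_eq_lintegral_of_nonneg_ae]
    · congr 1
      refine MeasureTheory.lintegral_congr fun k => ?_
      rw [MeasureTheory.ofReal_integral_eq_lintegral_ofReal]
      · refine MeasureTheory.Integrable.integrableOn ?_
        refine Continuous.integrable_of_hasCompactSupport
          (hFc.comp (Continuous.prodMk_right k)) ?_
        refine HasCompactSupport.intro (isCompact_Icc (a := -(|R| + 1)) (b := |R| + 1)) fun y hy => ?_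
        have h1 : R ≤ k ^ 2 + y ^ 2 := by
          have h2 : |R| + 1 < |y| := by
            by_contra hcon
            exact hy (abs_le.1 (not_lt.1 hcon))
          have h3 : |y| ≤ y ^ 2 := by
            rw [← sq_abs]
            nlinarith [abs_nonneg R, abs_nonneg y]
          have h4 := le_abs_self R
          nlinarith [sq_nonneg k]
        show j * φ (k ^ 2 + y ^ 2) / (j ^ 2 + k ^ 2) = 0
        rw [hR _ h1, mul_zero, zero_div]
      · exact Filter.Eventually.of_forall fun y => hF0 k y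
    · exact Filter.Eventually.of_forall fun k => MeasureTheory.integral_nonneg fun y => hF0 k y
    · exact (hFc.stronglyMeasurable.integral_prod_right'
        (ν := MeasureTheory.volume.restrict (Set.Ioi (0 : ℝ)))).aestronglyMeasurable
  have hRt : Real.pi / 2 * ∫ r in Set.Ioi (0 : ℝ), φ (r ^ 2) * r / Real.sqrt (j ^ 2 + r ^ 2) =
      (∫⁻ r in Set.Ioi (0 : ℝ), ENNReal.ofReal (φ (r ^ 2) * r) *
        ENNReal.ofReal (Real.pi / 2 / Real.sqrt (j ^ 2 + r ^ 2))).toReal := by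
    rw [← MeasureTheory.integral_const_mul, MeasureTheory.integral_eq_lintegral_of_nonneg_ae]
    · congr 1
      refine MeasureTheory.setLIntegral_congr_fun measurableSet_Ioi fun r hr => ?_
      have hr' : 0 ≤ φ (r ^ 2) * r := mul_nonneg (h0 _) (le_of_lt hr)
      show ENNReal.ofReal (Real.pi / 2 * (φ (r ^ 2) * r / Real.sqrt (j ^ 2 + r ^ 2))) = _
      rw [← ENNReal.ofReal_mul hr']
      congr 1
      ring
    · refine (MeasureTheory.ae_restrict_iff' measurableSet_Ioi).2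
        (Filter.Eventually.of_forall fun r hr => ?_)
      have hr' : 0 ≤ φ (r ^ 2) * r := mul_nonneg (h0 _) (le_of_lt hr)
      show 0 ≤ Real.pi / 2 * (φ (r ^ 2) * r / Real.sqrt (j ^ 2 + r ^ 2))
      positivity
    · refine (Continuous.aestronglyMeasurable ?_)
      refine continuous_const.mul (Continuous.div (by fun_prop) (by fun_prop) fun r => ?_)
      exact (Real.sqrt_pos.2 (by positivity)).ne'
  rw [hL, hRt]
  congr 1
  have hM : Measurable (fun z : ℝ × ℝ => ENNReal.ofReal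
      (j * φ (z.1 ^ 2 + z.2 ^ 2) / (j ^ 2 + z.1 ^ 2))) := hFc.measurable.ennreal_ofReal
  calc ∫⁻ k in Set.Ioi (0 : ℝ), ∫⁻ y in Set.Ioi (0 : ℝ),
        ENNReal.ofReal (j * φ (k ^ 2 + y ^ 2) / (j ^ 2 + k ^ 2))
      = ∫⁻ k in Set.Ioi (0 : ℝ), ∫⁻ v in Set.Ioi (0 : ℝ), ENNReal.ofReal k *
        ENNReal.ofReal (j * φ (k ^ 2 + (k * v) ^ 2) / (j ^ 2 + k ^ 2)) := by
        refine MeasureTheory.setLIntegral_congr_fun measurableSet_Ioi fun k hk => ?_
        exact DevA_sub (fun y => ENNReal.ofReal (j * φ (k ^ 2 + y ^ 2) / (j ^ 2 + k ^ 2))) hk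
    _ = ∫⁻ v in Set.Ioi (0 : ℝ), ∫⁻ k in Set.Ioi (0 : ℝ), ENNReal.ofReal k *
        ENNReal.ofReal (j * φ (k ^ 2 + (k * v) ^ 2) / (j ^ 2 + k ^ 2)) := by
        refine MeasureTheory.lintegral_lintegral_swap (Measurable.aemeasurable ?_)
        refine Measurable.mul (measurable_fst.ennreal_ofReal) ?_
        exact hM.comp (g := fun z : ℝ × ℝ => ENNReal.ofReal
          (j * φ (z.1 ^ 2 + z.2 ^ 2) / (j ^ 2 + z.1 ^ 2)))
          (f := fun z : ℝ × ℝ => (z.1, z.1 * z.2)) (by fun_prop)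
    _ = ∫⁻ v in Set.Ioi (0 : ℝ), ∫⁻ r in Set.Ioi (0 : ℝ), ENNReal.ofReal (φ (r ^ 2) * r) *
        ENNReal.ofReal (j / (j ^ 2 * (1 + v ^ 2) + r ^ 2)) := by
        refine MeasureTheory.setLIntegral_congr_fun measurableSet_Ioi fun v hv => ?_
        have hs0 : 0 < 1 + v ^ 2 := by positivity
        obtain ⟨s, hs⟩ : ∃ s, s = Real.sqrt (1 + v ^ 2) := ⟨_, rfl⟩
        have hsp : 0 < s := by rw [hs]; exact Real.sqrt_pos.2 hs0
        have hs2 : s ^ 2 = 1 + v ^ 2 := by rw [hs]; exact Real.sq_sqrt hs0.le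
        have h1 := DevA_sub (fun k => ENNReal.ofReal k *
          ENNReal.ofReal (j * φ (k ^ 2 + (k * v) ^ 2) / (j ^ 2 + k ^ 2))) (inv_pos.2 hsp)
        refine h1.trans ?_
        refine MeasureTheory.setLIntegral_congr_fun measurableSet_Ioi fun r hr => ?_
        have hr' : 0 < r := hr
        have hr2 : 0 ≤ φ (r ^ 2) * r := mul_nonneg (h0 _) (le_of_lt hr)
        show ENNReal.ofReal s⁻¹ * (ENNReal.ofReal (s⁻¹ * r) * ENNReal.ofReal
          (j * φ ((s⁻¹ * r) ^ 2 + (s⁻¹ * r * v) ^ 2) / (j ^ 2 + (s⁻¹ * r) ^ 2))) = _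
        rw [← ENNReal.ofReal_mul (by positivity), ← ENNReal.ofReal_mul (by positivity),
          ← ENNReal.ofReal_mul hr2]
        congr 1
        have e1 : (s⁻¹ * r) ^ 2 + (s⁻¹ * r * v) ^ 2 = r ^ 2 := by
          have : (s⁻¹ * r) ^ 2 + (s⁻¹ * r * v) ^ 2 = r ^ 2 * (1 + v ^ 2) / s ^ 2 := by
            field_simp
          rw [this, hs2]
          field_simp
        rw [e1, ← hs2]
        field_simp
    _ = ∫⁻ r in Set.Ioi (0 : ℝ), ∫⁻ v in Set.Ioi (0 : ℝ), ENNReal.ofReal (φ (r ^ 2) * r) *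
        ENNReal.ofReal (j / (j ^ 2 * (1 + v ^ 2) + r ^ 2)) := by
        refine MeasureTheory.lintegral_lintegral_swap (Measurable.aemeasurable ?_)
        refine Measurable.mul (Continuous.measurable ?_).ennreal_ofReal
          (Continuous.measurable ?_).ennreal_ofReal
        · fun_prop
        · refine Continuous.div (by fun_prop) (by fun_prop) fun z => ?_
          have : 0 < j ^ 2 * (1 + z.1 ^ 2) + z.2 ^ 2 := by positivity
          exact this.ne'
    _ = _ := by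
        refine MeasureTheory.lintegral_congr fun r => ?_
        rw [MeasureTheory.lintegral_const_mul' _ _ ENNReal.ofReal_ne_top, DevA_int hj]

end Pool.Agent.H.MP_bfbbee_an.F4
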