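import Pool.Agent.H.MP_bfbbee_an.Defs

/-!
# Pull-backs of the round metric: definitions

`(A, B)` is a pair of holomorphic functions on the disc without common zeros; `f = A / B`.
-/

set_option autoImplicit false

namespace Pool.Agent.H.MP_bfbbee_an.F4

open ComplexConjugate Filter Topology Complex
open scoped ContDiff

/-- A pair of holomorphic functions without common zeros. -/
structure Pair (A B : ℂ → ℂ) : Prop where
  hA : DifferentiableOn ℂ A Disc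
  hB : DifferentiableOn ℂ B Disc
  ne : ∀ z ∈ Disc, A z ≠ 0 ∨ B z ≠ 0

/-- The Wronskian `A' B - A B'`. -/
noncomputable def Wr (A B : ℂ → ℂ) (z : ℂ) : ℂ := deriv A z * B z - A z * deriv B z

/-- `|A|² + |B|²`. -/
noncomputable def Dn (A B : ℂ → ℂ) (z : ℂ) : ℝ := ‖A z‖ ^ 2 + ‖B z‖ ^ 2

/-- `√(1 + |l|²)` as a complex number. -/
noncomputable def sq1 (l : ℂ) : ℂ := ((Real.sqrt (1 + ‖l‖ ^ 2) : ℝ) : ℂ)

/-- First member of the rotated pair: the value `l` of `f` is moved to `0`. -/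
noncomputable def rA (l : ℂ) (A B : ℂ → ℂ) (z : ℂ) : ℂ := (A z - l * B z) / sq1 l

/-- Second member of the rotated pair. -/
noncomputable def rB (l : ℂ) (A B : ℂ → ℂ) (z : ℂ) : ℂ := (B z + conj l * A z) / sq1 l

/-- The unit complex number `e^{iθ} W / |W|`. -/
noncomputable def Zd (A B : ℂ → ℂ) (z : ℂ) (θ : ℝ) : ℂ := dir θ * (Wr A B z / (‖Wr A B z‖ : ℂ))

/-- Angular momentum about the point `0` of the sphere. -/
noncomputable def Jf (A B : ℂ → ℂ) (p : ℂ × ℝ) : ℝ :=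
  2 * (Zd A B p.1 p.2 * conj (A p.1 * B p.1)).im / Dn A B p.1

/-- The other two components of the angular momentum. -/
noncomputable def Nf (A B : ℂ → ℂ) (p : ℂ × ℝ) : ℂ :=
  I * (conj (Zd A B p.1 p.2) * B p.1 ^ 2 + Zd A B p.1 p.2 * conj (A p.1) ^ 2) / (Dn A B p.1 : ℂ)

/-- The Möbius map `mob w a` preserves `f = A / B`. -/
def Pres (A B : ℂ → ℂ) (w a : ℂ) : Prop :=
  ‖w‖ = 1 ∧ ‖a‖ < 1 ∧ ∀ z ∈ Disc, A (mob w a z) * B z = A z * B (mob w a z)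

/-- The geodesic vector field. -/
noncomputable def geoV (u : ℂ → ℝ) (p : ℂ × ℝ) : ℂ × ℝ :=
  (dir p.2 / (rho u p.1 : ℂ), kap u p.1 (dir p.2))

/-- `Q` has derivative `d` in the direction of the geodesic vector field at `p`. -/
def DerG {E : Type*} [NormedAddCommGroup E] [NormedSpace ℝ E] (u : ℂ → ℝ) (Q : ℂ × ℝ → E)
    (p : ℂ × ℝ) (d : E) : Prop :=
  ∃ Q' : ℂ × ℝ →L[ℝ] E, HasFDerivAt Q Q' p ∧ Q' (geoV u p) = d

/-- The factor of the round metric. -/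
noncomputable def rst (A B : ℂ → ℂ) (z : ℂ) : ℝ := 2 * ‖Wr A B z‖ / Dn A B z

/-- `M(q) = 1/√(1-q) + (β-1)(1 - q μ(q))`. -/
noncomputable def Mf (β : ℕ) (mu : ℝ → ℝ) (q : ℝ) : ℝ :=
  1 / Real.sqrt (1 - q) + ((β : ℝ) - 1) * (1 - q * mu q)

/-- `m(q) = (β - M(q))/q`. -/
noncomputable def mf (β : ℕ) (mu : ℝ → ℝ) (q : ℝ) : ℝ :=
  -1 / (Real.sqrt (1 - q) * (1 + Real.sqrt (1 - q))) + ((β : ℝ) - 1) * mu q

/-- `tan (r/2)` as a function of `q = (sin r)²`. -/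
noncomputable def T0 (q : ℝ) : ℝ := Real.sqrt q / (1 + Real.sqrt (1 - q))

/-- The phase `Ψ(j,k) = j ∫_0^k m(j² + y²) dy`. -/
noncomputable def Psi (β : ℕ) (mu : ℝ → ℝ) (j k : ℝ) : ℝ :=
  j * ∫ y in (0 : ℝ)..k, mf β mu (j ^ 2 + y ^ 2)

/-- The properties of the device function `μ` (with `N(q) = 1 - q μ(q)`). -/
structure Dev (a2 a3 : ℝ) (mu : ℝ → ℝ) : Prop where
  pos2 : 0 < a2
  lt3 : a2 < a3
  lth : a3 ^ 2 < 1 / 2
  smooth : ContDiff ℝ ∞ mu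
  nonneg : ∀ q, 0 ≤ 1 - q * mu q
  zero : ∀ q, a3 ^ 2 ≤ q → q * mu q = 1
  key : ∀ j, 0 < j → j < a2 →
    ∫ y in Set.Ioi (0 : ℝ), j * (1 - (j ^ 2 + y ^ 2) * mu (j ^ 2 + y ^ 2)) / (j ^ 2 + y ^ 2) =
      Real.pi / 2

/-- The properties of the profile functions `G`, `h` (`q = G x`, `h x = G x / x`), where
`x = t ^ (2/β)`, `t = |f|`. -/
structure Prof (β : ℕ) (b : ℝ) (mu : ℝ → ℝ) (G h : ℝ → ℝ) (δ : ℝ) : Prop where
  pos : 0 < δ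
  smooth : ContDiffOn ℝ ∞ h (Set.Ioo (-δ) (T0 (1 / 2) ^ (2 / (β : ℝ))))
  hpos : ∀ x ∈ Set.Ioo (-δ) (T0 (1 / 2) ^ (2 / (β : ℝ))), 0 < h x
  eq : ∀ x ∈ Set.Ioo (-δ) (T0 (1 / 2) ^ (2 / (β : ℝ))), G x = x * h x
  lt : ∀ x ∈ Set.Ioo (0 : ℝ) (T0 (1 / 2) ^ (2 / (β : ℝ))), G x < 1 / 2
  der : ∀ x ∈ Set.Ioo (0 : ℝ) (T0 (1 / 2) ^ (2 / (β : ℝ))),
    HasDerivAt G ((β : ℝ) * G x / (x * Mf β mu (G x))) x
  mono : StrictMonoOn G (Set.Ico (0 : ℝ) (T0 (1 / 2) ^ (2 / (β : ℝ))))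
  std : ∀ q ∈ Set.Ico b (1 / 2), G (T0 q ^ (2 / (β : ℝ))) = q

end Pool.Agent.H.MP_bfbbee_an.F4
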