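import Pool.Agent.H.MP_bfbbee_an.helper67.RadA

/-!
# Surface groups
-/

set_option autoImplicit false

namespace Pool.Agent.H.MP_bfbbee_an.F4

open ComplexConjugate Filter Topology Complex
open scoped ContDiff

/-- A group of Möbius maps of the disc (given by their parameters `(w, a)`, the map being
`mob w a`) which acts properly discontinuously, freely and cocompactly. -/
structure SurfaceGroup (G : Set (ℂ × ℂ)) : Prop where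
  par : ∀ g ∈ G, ‖g.1‖ = 1 ∧ ‖g.2‖ < 1
  one : ((1 : ℂ), (0 : ℂ)) ∈ G
  mul : ∀ g ∈ G, ∀ h ∈ G, ∃ k ∈ G, ∀ z ∈ Disc, mob k.1 k.2 z = mob g.1 g.2 (mob h.1 h.2 z)
  inv : ∀ g ∈ G, ∃ k ∈ G, ∀ z ∈ Disc, mob k.1 k.2 (mob g.1 g.2 z) = z
  disc : ∀ R : ℝ, R < 1 → {g | g ∈ G ∧ ‖g.2‖ ≤ R}.Finite
  free : ∀ g ∈ G, ∀ z ∈ Disc, mob g.1 g.2 z = z → g = (1, 0)
  cocompact : ∃ R : ℝ, R < 1 ∧ ∀ z ∈ Disc, ∃ g ∈ G, ‖mob g.1 g.2 z‖ ≤ R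

/-- The normalised kernel term. -/
noncomputable def kt (m : ℕ) (ζ : ℂ) (g : ℂ × ℂ) (z : ℂ) : ℂ :=
  mobd g.1 g.2 z ^ m * (((1 - ‖ζ‖ ^ 2 : ℝ) : ℂ) / (1 - conj ζ * mob g.1 g.2 z) ^ 2) ^ m

/-- The kernel Poincaré series of weight `2m`. -/
noncomputable def kth (G : Set (ℂ × ℂ)) (m : ℕ) (ζ z : ℂ) : ℂ := ∑' g : G, kt m ζ g z

/-- `1 - |mob 1 ζ z|²`. -/
noncomputable def kd (ζ z : ℂ) : ℝ := 1 - ‖mob 1 ζ z‖ ^ 2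

end Pool.Agent.H.MP_bfbbee_an.F4
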