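import Pool.Agent.H.MP_bfbbee_an.helper67.Fd
import Pool.Agent.H.MP_bfbbee_an.Base

/-!
# Infinitesimally invariant functions are first integrals
-/

set_option autoImplicit false

namespace Pool.Agent.H.MP_bfbbee_an.F4

open ComplexConjugate Filter Topology Complex
open scoped ContDiff

/-- The geodesic vector field is continuous. -/
theorem geoV_cont {u : ℂ → ℝ} (hu : ContDiffOn ℝ 1 u Disc) :
    ContinuousOn (geoV u) (Disc ×ˢ Set.univ) := by
  have hrho : ContDiffOn ℝ 1 (rho u) Disc := by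
    unfold rho
    exact (contDiffOn_const.mul hu.exp).div
      (contDiffOn_const.sub (contDiff_norm_sq ℝ).contDiffOn) (fun z hz => (q_pos hz).ne')
  have hphi : ContDiffOn ℝ 1 (phi u) Disc := by
    unfold phi
    exact hrho.log (fun z hz => (rho_pos u hz).ne')
  have hfst : Set.MapsTo (Prod.fst : ℂ × ℝ → ℂ) (Disc ×ˢ Set.univ) Disc := fun p hp => hp.1
  have h1 : ContinuousOn (fun p : ℂ × ℝ => rho u p.1) (Disc ×ˢ Set.univ) :=
    hrho.continuousOn.comp continuousOn_fst hfst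
  have h2 : ContinuousOn (fun p : ℂ × ℝ => fderiv ℝ (phi u) p.1) (Disc ×ˢ Set.univ) :=
    (hphi.continuousOn_fderiv_of_isOpen Metric.isOpen_ball le_rfl).comp continuousOn_fst hfst
  have hdir : Continuous dir := by
    unfold dir
    fun_prop
  have h3 : Continuous (fun p : ℂ × ℝ => dir p.2) := hdir.comp continuous_snd
  have h4 : ContinuousOn (fun p : ℂ × ℝ => dir p.2 / (rho u p.1 : ℂ)) (Disc ×ˢ Set.univ) := by
    refine h3.continuousOn.div (Complex.continuous_ofReal.comp_continuousOn h1) ?_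
    intro p hp
    exact Complex.ofReal_ne_zero.2 (rho_pos u hp.1).ne'
  have h5 : ContinuousOn (fun p : ℂ × ℝ => kap u p.1 (dir p.2)) (Disc ×ˢ Set.univ) := by
    unfold kap
    refine ContinuousOn.div (h2.clm_apply (continuous_const.mul h3).continuousOn) h1 ?_
    intro p hp
    exact (rho_pos u hp.1).ne'
  exact h4.prodMk h5

/-- If `F` is `C^1`, `2π`-periodic in the angle and `dF (geoV) = 0` at all points `(z, θ)` with
`z` outside a set `S` whose complement is dense in the disc, then `F` is a first integral.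
Proof: `dF (geoV)` is continuous, hence `0` everywhere; along a geodesic arc `F` has derivative
`0`. -/
theorem firstIntegral_of {u : ℂ → ℝ} {F : ℂ × ℝ → ℝ} (hu : ContDiffOn ℝ 1 u Disc)
    (hF : ContDiffOn ℝ 1 F (Disc ×ˢ Set.univ))
    (hper : ∀ z ∈ Disc, ∀ θ : ℝ, F (z, θ + 2 * Real.pi) = F (z, θ)) {S : Set ℂ}
    (hS : Disc ⊆ closure (Disc \ S))
    (h : ∀ z ∈ Disc, z ∉ S → ∀ θ : ℝ, fderiv ℝ F (z, θ) (geoV u (z, θ)) = 0) :
    FirstIntegral u F := by
  have hopen : IsOpen (Disc ×ˢ (Set.univ : Set ℝ)) := Metric.isOpen_ball.prod isOpen_univ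
  have hg : ContinuousOn (fun p : ℂ × ℝ => fderiv ℝ F p (geoV u p)) (Disc ×ˢ Set.univ) :=
    (hF.continuousOn_fderiv_of_isOpen hopen le_rfl).clm_apply (geoV_cont hu)
  have hzero : ∀ z ∈ Disc, ∀ θ : ℝ, fderiv ℝ F (z, θ) (geoV u (z, θ)) = 0 := by
    intro z hz θ
    have hc : ContinuousWithinAt (fun w : ℂ => fderiv ℝ F (w, θ) (geoV u (w, θ))) Disc z := by
      have h1 : ContinuousOn (fun w : ℂ => ((w, θ) : ℂ × ℝ)) Disc := by fun_prop
      exact (hg.comp h1 fun w hw => ⟨hw, Set.mem_univ θ⟩) z hz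
    have hne : (𝓝[Disc \ S] z).NeBot := mem_closure_iff_nhdsWithin_neBot.1 (hS hz)
    have h2 : Tendsto (fun w : ℂ => fderiv ℝ F (w, θ) (geoV u (w, θ))) (𝓝[Disc \ S] z)
        (𝓝 (fderiv ℝ F (z, θ) (geoV u (z, θ)))) :=
      hc.tendsto.mono_left (nhdsWithin_mono z Set.sdiff_subset)
    have h3 : Tendsto (fun w : ℂ => fderiv ℝ F (w, θ) (geoV u (w, θ))) (𝓝[Disc \ S] z)
        (𝓝 0) := by
      refine tendsto_const_nhds.congr' ?_
      filter_upwards [self_mem_nhdsWithin] with w hw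
      exact (h w hw.1 hw.2 θ).symm
    exact tendsto_nhds_unique h2 h3
  refine ⟨hF.continuousOn, hper, ?_⟩
  intro a b z θ hab hgeo
  have hd : ∀ t ∈ Set.Icc a b,
      HasDerivWithinAt (fun s => F (z s, θ s)) 0 (Set.Icc a b) t := by
    intro t ht
    obtain ⟨hz, h1, h2⟩ := hgeo t ht
    have h3 : HasDerivWithinAt (fun s => (z s, θ s)) (geoV u (z t, θ t)) (Set.Icc a b) t :=
      h1.prodMk h2
    have h4 : HasFDerivAt F (fderiv ℝ F (z t, θ t)) (z t, θ t) :=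
      ((hF.contDiffAt (hopen.mem_nhds ⟨hz, Set.mem_univ _⟩)).differentiableAt
        one_ne_zero).hasFDerivAt
    have h5 := h4.comp_hasDerivWithinAt t h3
    rw [hzero (z t) hz (θ t)] at h5
    exact h5
  have h6 := constant_of_derivWithin_zero
    (fun t ht => (hd t ht).differentiableWithinAt)
    (fun t ht => (hd t (Set.Ico_subset_Icc_self ht)).derivWithin
      (uniqueDiffOn_Icc (ht.1.trans_lt ht.2) t (Set.Ico_subset_Icc_self ht)))
    b (Set.right_mem_Icc.2 hab)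
  exact h6.symm

/-- Composition with a differentiable function. -/
theorem DerG.comp {E E' : Type*} [NormedAddCommGroup E] [NormedSpace ℝ E]
    [NormedAddCommGroup E'] [NormedSpace ℝ E'] {u : ℂ → ℝ} {Q : ℂ × ℝ → E} {p : ℂ × ℝ}
    (hQ : DerG u Q p 0) {Φ : E → E'} (hΦ : DifferentiableAt ℝ Φ (Q p)) :
    DerG u (fun x => Φ (Q x)) p 0 := by
  obtain ⟨Q', h1, h2⟩ := hQ
  refine ⟨(fderiv ℝ Φ (Q p)).comp Q', hΦ.hasFDerivAt.comp p h1, ?_⟩
  rw [ContinuousLinearMap.comp_apply, h2, map_zero]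

theorem DerG.prodMk {E E' : Type*} [NormedAddCommGroup E] [NormedSpace ℝ E]
    [NormedAddCommGroup E'] [NormedSpace ℝ E'] {u : ℂ → ℝ} {Q : ℂ × ℝ → E} {Q₁ : ℂ × ℝ → E'}
    {p : ℂ × ℝ} {d : E} {d₁ : E'} (hQ : DerG u Q p d) (hQ₁ : DerG u Q₁ p d₁) :
    DerG u (fun x => (Q x, Q₁ x)) p (d, d₁) := by
  obtain ⟨Q', h1, h2⟩ := hQ
  obtain ⟨Q₁', h3, h4⟩ := hQ₁
  refine ⟨Q'.prod Q₁', h1.prodMk h3, ?_⟩
  rw [ContinuousLinearMap.prod_apply, h2, h4]

theorem DerG.congr {E : Type*} [NormedAddCommGroup E] [NormedSpace ℝ E]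
    {u : ℂ → ℝ} {Q Q₁ : ℂ × ℝ → E} {p : ℂ × ℝ} {d : E} (hQ : DerG u Q p d)
    (h : Q₁ =ᶠ[𝓝 p] Q) : DerG u Q₁ p d := by
  obtain ⟨Q', h1, h2⟩ := hQ
  exact ⟨Q', h1.congr_of_eventuallyEq h, h2⟩

theorem DerG.fderiv_eq {E : Type*} [NormedAddCommGroup E] [NormedSpace ℝ E]
    {u : ℂ → ℝ} {Q : ℂ × ℝ → E} {p : ℂ × ℝ} {d : E} (hQ : DerG u Q p d) :
    fderiv ℝ Q p (geoV u p) = d := by
  obtain ⟨Q', h1, h2⟩ := hQ
  rw [h1.fderiv, h2]

end Pool.Agent.H.MP_bfbbee_an.F4
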