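import Pool.Agent.H.MP_bfbbee_an.helper67.DevB

/-!
# The phase
-/

set_option autoImplicit false

namespace Pool.Agent.H.MP_bfbbee_an.F4

open ComplexConjugate Filter Topology Complex
open scoped ContDiff

variable {a2 a3 : ℝ} {mu : ℝ → ℝ}

private theorem PsiA_mf_smooth (hd : Dev a2 a3 mu) (β : ℕ) {q : ℝ} (h : q < 1) :
    ContDiffAt ℝ ∞ (mf β mu) q := by
  have h1 : ContDiffAt ℝ ∞ (fun x : ℝ => Real.sqrt (1 - x)) q := by
    apply ContDiffAt.sqrt
    · exact contDiffAt_const.sub contDiffAt_id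
    · linarith
  have h2 : 0 < Real.sqrt (1 - q) := Real.sqrt_pos.2 (by linarith)
  have h3 : ContDiffAt ℝ ∞
      (fun x : ℝ => -1 / (Real.sqrt (1 - x) * (1 + Real.sqrt (1 - x)))) q := by
    apply ContDiffAt.div contDiffAt_const
    · exact h1.mul (contDiffAt_const.add h1)
    · positivity
  have h4 : ContDiffAt ℝ ∞ (fun x : ℝ => ((β : ℝ) - 1) * mu x) q :=
    contDiffAt_const.mul hd.smooth.contDiffAt
  exact h3.add h4

/-- A globally smooth function which agrees with `m` for `q ≤ r`. -/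
private theorem PsiA_cut (hd : Dev a2 a3 mu) (β : ℕ) {r : ℝ} (hr : r < 1) :
    ∃ g : ℝ → ℝ, ContDiff ℝ ∞ g ∧ ∀ q, q ≤ r → g q = mf β mu q := by
  obtain ⟨r2, hr2⟩ : ∃ r2, r2 = (r + 1) / 2 := ⟨_, rfl⟩
  have h1 : r < r2 := by rw [hr2]; linarith
  have h2 : r2 < 1 := by rw [hr2]; linarith
  refine ⟨fun q => Real.smoothTransition ((r2 - q) / (r2 - r)) * mf β mu q, ?_, fun q hq => ?_⟩
  · rw [contDiff_iff_contDiffAt]
    intro q
    by_cases hq : q < 1
    · apply ContDiffAt.mul _ (PsiA_mf_smooth hd β hq)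
      apply Real.smoothTransition.contDiff.contDiffAt.comp
      exact (contDiffAt_const.sub contDiffAt_id).div_const _
    · have h3 : (fun q => Real.smoothTransition ((r2 - q) / (r2 - r)) * mf β mu q) =ᶠ[𝓝 q]
          fun _ => (0 : ℝ) := by
        have h4 : r2 < q := lt_of_lt_of_le h2 (not_lt.1 hq)
        filter_upwards [lt_mem_nhds h4] with x hx
        have h5 : (r2 - x) / (r2 - r) ≤ 0 :=
          div_nonpos_of_nonpos_of_nonneg (by linarith) (by linarith)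
        rw [Real.smoothTransition.zero_of_nonpos h5, zero_mul]
      exact contDiffAt_const.congr_of_eventuallyEq h3
  · have h3 : 1 ≤ (r2 - q) / (r2 - r) := by
      rw [one_le_div (by linarith)]
      linarith
    show Real.smoothTransition ((r2 - q) / (r2 - r)) * mf β mu q = mf β mu q
    rw [Real.smoothTransition.one_of_one_le h3, one_mul]

/-- The phase is smooth on the unit disc of the `(j, k)`-plane. -/
theorem Psi_smooth (hd : Dev a2 a3 mu) (β : ℕ) {j k : ℝ} (h : j ^ 2 + k ^ 2 < 1) :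
    ContDiffAt ℝ ∞ (fun p : ℝ × ℝ => Psi β mu p.1 p.2) (j, k) := by
  obtain ⟨r, hr1, hr2⟩ := exists_between h
  obtain ⟨g, hg, hgm⟩ := PsiA_cut hd β hr2
  have h1 : ContDiff ℝ ∞ (fun p : (ℝ × ℝ) × ℝ => g (p.1.1 ^ 2 + (p.1.2 * p.2) ^ 2)) := by
    apply hg.comp
    exact (contDiff_fst.fst.pow 2).add ((contDiff_fst.snd.mul contDiff_snd).pow 2)
  have h2 := contDiff_param h1 0 1
  have h3 : ContDiff ℝ ∞ (fun p : ℝ × ℝ => p.1 * (p.2 *
      ∫ t in (0 : ℝ)..1, g (p.1 ^ 2 + (p.2 * t) ^ 2))) :=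
    contDiff_fst.mul (contDiff_snd.mul h2)
  refine h3.contDiffAt.congr_of_eventuallyEq ?_
  have h4 : ∀ᶠ p : ℝ × ℝ in 𝓝 (j, k), p.1 ^ 2 + p.2 ^ 2 < r := by
    have hc : Continuous fun p : ℝ × ℝ => p.1 ^ 2 + p.2 ^ 2 := by fun_prop
    exact hc.continuousAt.eventually (gt_mem_nhds hr1)
  filter_upwards [h4] with p hp
  show Psi β mu p.1 p.2 = _
  unfold Psi
  have h5 := intervalIntegral.mul_integral_comp_mul_left (a := (0 : ℝ)) (b := 1)
    (f := fun y => g (p.1 ^ 2 + y ^ 2)) p.2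
  rw [h5, mul_zero, mul_one]
  congr 1
  apply intervalIntegral.integral_congr
  intro y hy
  show mf β mu (p.1 ^ 2 + y ^ 2) = g (p.1 ^ 2 + y ^ 2)
  rw [hgm]
  have h6 : y ^ 2 ≤ p.2 ^ 2 := by
    rw [Set.mem_uIcc] at hy
    rcases hy with ⟨a, b⟩ | ⟨a, b⟩
    · exact pow_le_pow_left₀ a b 2
    · nlinarith
  linarith

/-- The derivative in `k`. -/
theorem Psi_deriv (hd : Dev a2 a3 mu) (β : ℕ) {j k : ℝ} (h : j ^ 2 + k ^ 2 < 1) :
    HasDerivAt (fun y : ℝ => Psi β mu j y) (j * mf β mu (j ^ 2 + k ^ 2)) k := by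
  have hc : ContinuousOn (fun y : ℝ => mf β mu (j ^ 2 + y ^ 2)) {y | j ^ 2 + y ^ 2 < 1} := by
    intro y hy
    have h1 := (PsiA_mf_smooth hd β hy).continuousAt
    have h2 : ContinuousAt (fun y : ℝ => j ^ 2 + y ^ 2) y := by fun_prop
    exact (ContinuousAt.comp (f := fun y : ℝ => j ^ 2 + y ^ 2) h1 h2).continuousWithinAt
  have ho : IsOpen {y : ℝ | j ^ 2 + y ^ 2 < 1} :=
    isOpen_lt (by fun_prop) continuous_const
  unfold Psi
  apply HasDerivAt.const_mul
  apply intervalIntegral.integral_hasDerivAt_right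
  · apply ContinuousOn.intervalIntegrable
    apply hc.mono
    intro y hy
    show j ^ 2 + y ^ 2 < 1
    have h6 : y ^ 2 ≤ k ^ 2 := by
      rw [Set.mem_uIcc] at hy
      rcases hy with ⟨a, b⟩ | ⟨a, b⟩
      · exact pow_le_pow_left₀ a b 2
      · nlinarith
    linarith
  · exact hc.stronglyMeasurableAtFilter ho k h
  · exact hc.continuousAt (ho.mem_nhds h)

theorem Psi_neg (β : ℕ) (mu : ℝ → ℝ) (j k : ℝ) : Psi β mu (-j) (-k) = Psi β mu j k := by
  unfold Psi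
  have h1 := intervalIntegral.integral_comp_neg (a := (0 : ℝ)) (b := -k)
    (f := fun y => mf β mu (j ^ 2 + y ^ 2))
  simp only [neg_sq, neg_neg, neg_zero] at h1 ⊢
  rw [h1, intervalIntegral.integral_symm]
  ring

/-- `q m(q) = β - M(q)`. -/
theorem mf_mul {β : ℕ} {q : ℝ} (h : q < 1) : q * mf β mu q = (β : ℝ) - Mf β mu q := by
  unfold mf Mf
  obtain ⟨s, hs⟩ : ∃ s, s = Real.sqrt (1 - q) := ⟨_, rfl⟩
  have h1 : 0 < s := by
    rw [hs]
    exact Real.sqrt_pos.2 (by linarith)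
  have h2 : s ^ 2 = 1 - q := by
    rw [hs]
    exact Real.sq_sqrt (by linarith)
  have h3 : q = 1 - s ^ 2 := by linarith
  rw [← hs, h3]
  have h4 : 1 + s ≠ 0 := by positivity
  have h5 : s ≠ 0 := h1.ne'
  field_simp
  ring

/-- `M > 0`. -/
theorem Mf_pos (hd : Dev a2 a3 mu) {β : ℕ} (hβ : 1 ≤ β) {q : ℝ} (h : q < 1) :
    0 < Mf β mu q := by
  unfold Mf
  have h1 : 0 < Real.sqrt (1 - q) := Real.sqrt_pos.2 (by linarith)
  have h2 : (0 : ℝ) ≤ (β : ℝ) - 1 := by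
    have h3 : (1 : ℝ) ≤ (β : ℝ) := by exact_mod_cast hβ
    linarith
  have h3 := mul_nonneg h2 (hd.nonneg q)
  have h4 : 0 < 1 / Real.sqrt (1 - q) := one_div_pos.2 h1
  linarith

end Pool.Agent.H.MP_bfbbee_an.F4
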