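import Pool.Agent.H.MP_bfbbee_an.helper67.Std

/-!
# The angular momenta are conserved by the round metric
-/

set_option autoImplicit false

namespace Pool.Agent.H.MP_bfbbee_an.F4

open ComplexConjugate Filter Topology Complex
open scoped ContDiff

variable {A B : ℂ → ℂ}

private theorem StdF_an {g : ℂ → ℂ} (h : DifferentiableOn ℂ g Disc) {z : ℂ} (hz : z ∈ Disc) :
    AnalyticAt ℂ g z := h.analyticAt (Metric.isOpen_ball.mem_nhds hz)

private theorem StdF_W_an (h : Pair A B) {z : ℂ} (hz : z ∈ Disc) : AnalyticAt ℂ (Wr A B) z := by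
  have hA := StdF_an h.hA hz
  have hB := StdF_an h.hB hz
  exact (hA.deriv.mul hB).sub (hA.mul hB.deriv)

private theorem StdF_smooth {g : ℂ → ℂ} {z : ℂ} (hg : AnalyticAt ℂ g z) (θ : ℝ) :
    ContDiffAt ℝ ∞ (fun p : ℂ × ℝ => g p.1) (z, θ) := by
  have h1 : ContDiffAt ℝ ∞ g z := (hg.contDiffAt).restrict_scalars ℝ
  exact h1.comp (z, θ) contDiffAt_fst

private theorem StdF_dir : ContDiff ℝ ∞ dir := by
  unfold dir
  exact (Complex.ofRealCLM.contDiff.mul contDiff_const).cexp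

private theorem StdF_Z (h : Pair A B) {z : ℂ} (hz : z ∈ Disc) (hW : Wr A B z ≠ 0) (θ : ℝ) :
    ContDiffAt ℝ ∞ (fun p : ℂ × ℝ => Zd A B p.1 p.2) (z, θ) := by
  unfold Zd
  have h1 : ContDiffAt ℝ ∞ (fun p : ℂ × ℝ => dir p.2) (z, θ) :=
    ContDiffAt.comp (g := dir) (f := Prod.snd) (z, θ) StdF_dir.contDiffAt contDiffAt_snd
  have h2 := StdF_smooth (StdF_W_an h hz) θ
  have h3 : ContDiffAt ℝ ∞ (fun p : ℂ × ℝ => ((‖Wr A B p.1‖ : ℝ) : ℂ)) (z, θ) :=
    (Complex.ofRealCLM.contDiff.contDiffAt (x := ‖Wr A B z‖)).comp (z, θ) (h2.norm ℝ hW)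
  have h4 := h3.inv (by simpa using hW)
  simp only [div_eq_mul_inv]
  exact h1.mul (h2.mul h4)

private theorem StdF_D (h : Pair A B) {z : ℂ} (hz : z ∈ Disc) (θ : ℝ) :
    ContDiffAt ℝ ∞ (fun p : ℂ × ℝ => Dn A B p.1) (z, θ) := by
  unfold Dn
  exact ((StdF_smooth (StdF_an h.hA hz) θ).norm_sq ℝ).add
    ((StdF_smooth (StdF_an h.hB hz) θ).norm_sq ℝ)

private theorem StdF_conj {g : ℂ × ℝ → ℂ} {p : ℂ × ℝ} (hg : ContDiffAt ℝ ∞ g p) :
    ContDiffAt ℝ ∞ (fun p => conj (g p)) p :=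
  (Complex.conjCLE.contDiff.contDiffAt (x := g p)).comp p hg

theorem J_smooth (h : Pair A B) {z : ℂ} (hz : z ∈ Disc) (hW : Wr A B z ≠ 0) (θ : ℝ) :
    ContDiffAt ℝ ∞ (Jf A B) (z, θ) := by
  have hA := StdF_smooth (StdF_an h.hA hz) θ
  have hB := StdF_smooth (StdF_an h.hB hz) θ
  have h1 : ContDiffAt ℝ ∞ (fun p : ℂ × ℝ =>
      (Zd A B p.1 p.2 * conj (A p.1 * B p.1)).im) (z, θ) :=
    (Complex.imCLM.contDiff.contDiffAt (x := Zd A B z θ * conj (A z * B z))).comp (z, θ)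
      ((StdF_Z h hz hW θ).mul (StdF_conj (hA.mul hB)))
  have h2 := (contDiffAt_const (c := (2 : ℝ))).mul h1
  exact h2.div (StdF_D h hz θ) (Dn_pos h hz).ne'

theorem N_smooth (h : Pair A B) {z : ℂ} (hz : z ∈ Disc) (hW : Wr A B z ≠ 0) (θ : ℝ) :
    ContDiffAt ℝ ∞ (Nf A B) (z, θ) := by
  have hA := StdF_smooth (StdF_an h.hA hz) θ
  have hB := StdF_smooth (StdF_an h.hB hz) θ
  have hZ := StdF_Z h hz hW θ
  have hD : ContDiffAt ℝ ∞ (fun p : ℂ × ℝ => ((Dn A B p.1 : ℝ) : ℂ)) (z, θ) :=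
    (Complex.ofRealCLM.contDiff.contDiffAt (x := Dn A B z)).comp (z, θ) (StdF_D h hz θ)
  have hD' := hD.inv (by simpa using (Dn_pos h hz).ne')
  unfold Nf
  simp only [div_eq_mul_inv]
  exact (contDiffAt_const.mul (((StdF_conj hZ).mul (hB.pow 2)).add
    (hZ.mul ((StdF_conj hA).pow 2)))).mul hD'

private theorem StdF_line (z v : ℂ) : HasDerivAt (fun s : ℝ => z + (s : ℂ) * v) v 0 := by
  have h1 := ((Complex.ofRealCLM.hasDerivAt (x := 0)).mul_const v).const_add z
  simpa using h1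

private theorem StdF_curve {E : Type*} [NormedAddCommGroup E] [NormedSpace ℝ E] {Q : ℂ × ℝ → E}
    {z v : ℂ} {θ k : ℝ} {d : E} (hQ : DifferentiableAt ℝ Q (z, θ))
    (hc : HasDerivAt (fun s : ℝ => Q (z + (s : ℂ) * v, θ + s * k)) d 0) :
    fderiv ℝ Q (z, θ) (v, k) = d := by
  have h1 : HasDerivAt (fun s : ℝ => ((z + (s : ℂ) * v, θ + s * k) : ℂ × ℝ)) (v, k) 0 := by
    refine HasDerivAt.prodMk (StdF_line z v) ?_
    simpa using ((hasDerivAt_id (0 : ℝ)).mul_const k).const_add θ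
  have h2 : HasFDerivAt Q (fderiv ℝ Q (z, θ)) (z + ((0 : ℝ) : ℂ) * v, θ + 0 * k) := by
    simpa using hQ.hasFDerivAt
  exact (h2.comp_hasDerivAt (0 : ℝ) h1).unique hc

private theorem StdF_hol {g : ℂ → ℂ} {z : ℂ} (hg : DifferentiableAt ℂ g z) (v : ℂ) :
    HasDerivAt (fun s : ℝ => g (z + (s : ℂ) * v)) (deriv g z * v) 0 := by
  have h2 : HasDerivAt g (deriv g z) (z + ((0 : ℝ) : ℂ) * v) := by
    simpa using hg.hasDerivAt
  exact h2.comp (0 : ℝ) (StdF_line z v)

private theorem StdF_conjD {g : ℝ → ℂ} {d : ℂ} (hg : HasDerivAt g d 0) :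
    HasDerivAt (fun s => conj (g s)) (conj d) 0 := hg.star

private theorem StdF_norm {w : ℝ → ℂ} {d : ℂ} (hw : HasDerivAt w d 0) (h0 : w 0 ≠ 0) :
    HasDerivAt (fun s => ‖w s‖) (‖w 0‖ * (d / w 0).re) 0 := by
  have h1 := hw.norm_sq
  have h2 := h1.sqrt (by simpa using h0)
  simp only [Real.sqrt_sq (norm_nonneg _)] at h2
  convert h2 using 1
  have h3 : ‖w 0‖ ≠ 0 := norm_ne_zero_iff.2 h0
  have h4 : (d / w 0).re = (d * conj (w 0)).re / ‖w 0‖ ^ 2 := by
    have h5 : d / w 0 = d * conj (w 0) / ((‖w 0‖ ^ 2 : ℝ) : ℂ) := by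
      have h6 : (w 0) * conj (w 0) = ((‖w 0‖ ^ 2 : ℝ) : ℂ) := by
        rw [Complex.mul_conj, Complex.normSq_eq_norm_sq]
      have h7 : conj (w 0) ≠ 0 := by simpa using h0
      rw [← h6]
      field_simp
    rw [h5, Complex.div_ofReal_re]
  rw [h4, Complex.inner]
  field_simp

/-- The derivative of `Zd` along a straight line. -/
private theorem StdF_Zc (h : Pair A B) {z : ℂ} (hz : z ∈ Disc) (hW : Wr A B z ≠ 0) (θ : ℝ)
    (v : ℂ) (k : ℝ) :
    HasDerivAt (fun s : ℝ => Zd A B (z + (s : ℂ) * v) (θ + s * k))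
      (I * ((k + (deriv (Wr A B) z * v / Wr A B z).im : ℝ) : ℂ) * Zd A B z θ) 0 := by
  have hw := StdF_hol (StdF_W_an h hz).differentiableAt v
  have hw0 : Wr A B (z + ((0 : ℝ) : ℂ) * v) = Wr A B z := by simp
  have hn := StdF_norm hw (by rw [hw0]; exact hW)
  simp only [hw0] at hn
  have hn' : HasDerivAt (fun s : ℝ => ((‖Wr A B (z + (s : ℂ) * v)‖ : ℝ) : ℂ))
      ((‖Wr A B z‖ * (deriv (Wr A B) z * v / Wr A B z).re : ℝ) : ℂ) 0 := hn.ofReal_comp
  have he : HasDerivAt (fun s : ℝ => dir (θ + s * k)) (dir θ * ((k : ℂ) * I)) 0 := by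
    have h1 : HasDerivAt (fun s : ℝ => ((θ + s * k : ℝ) : ℂ) * I) ((k : ℂ) * I) 0 := by
      have h2 : HasDerivAt (fun s : ℝ => θ + s * k) k 0 := by
        simpa using ((hasDerivAt_id (0 : ℝ)).mul_const k).const_add θ
      exact (h2.ofReal_comp).mul_const I
    have h3 := h1.cexp
    simpa [dir] using h3
  have hn0 : ((‖Wr A B z‖ : ℝ) : ℂ) ≠ 0 := by simpa using hW
  have h1 := he.mul (hw.div hn' (by simpa using hW))
  have h2 : (fun s : ℝ => Zd A B (z + (s : ℂ) * v) (θ + s * k)) =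
      (fun s : ℝ => dir (θ + s * k)) * ((fun s : ℝ => Wr A B (z + (s : ℂ) * v)) /
        fun s : ℝ => ((‖Wr A B (z + (s : ℂ) * v)‖ : ℝ) : ℂ)) := rfl
  rw [h2]
  refine h1.congr_deriv ?_
  simp only [Pi.div_apply, Complex.ofReal_zero, zero_mul, add_zero]
  unfold Zd
  obtain ⟨q, hq⟩ : ∃ q : ℂ, q = deriv (Wr A B) z * v / Wr A B z := ⟨_, rfl⟩
  have hq' : deriv (Wr A B) z * v = q * Wr A B z := by
    rw [hq]
    field_simp
  rw [← hq, hq']
  have hre : (q.re : ℂ) = q - (q.im : ℂ) * I := by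
    apply Complex.ext <;> simp
  push_cast
  rw [hre]
  field_simp
  ring

/-- The derivative of the complex momentum `Z conj(a b) / D` along a curve. -/
private theorem StdF_core {a b Z : ℝ → ℂ} {α β ζ : ℂ} (ha : HasDerivAt a α 0)
    (hb : HasDerivAt b β 0) (hZ : HasDerivAt Z ζ 0) {D : ℝ → ℝ}
    (hD : ∀ s, D s = ‖a s‖ ^ 2 + ‖b s‖ ^ 2) (hD0 : D 0 ≠ 0) :
    HasDerivAt (fun s => Z s * conj (a s * b s) / (D s : ℂ))
      (((ζ * conj (a 0 * b 0) + Z 0 * conj (α * b 0 + a 0 * β)) * (D 0 : ℂ) -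
        Z 0 * conj (a 0 * b 0) * (α * conj (a 0) + a 0 * conj α +
          (β * conj (b 0) + b 0 * conj β))) / (D 0 : ℂ) ^ 2) 0 ∧
    HasDerivAt (fun s => (conj (Z s) * b s ^ 2 + Z s * conj (a s) ^ 2) / (D s : ℂ))
      (((conj ζ * b 0 ^ 2 + conj (Z 0) * (2 * b 0 * β) +
        (ζ * conj (a 0) ^ 2 + Z 0 * (2 * conj (a 0) * conj α))) * (D 0 : ℂ) -
        (conj (Z 0) * b 0 ^ 2 + Z 0 * conj (a 0) ^ 2) * (α * conj (a 0) + a 0 * conj α +
          (β * conj (b 0) + b 0 * conj β))) / (D 0 : ℂ) ^ 2) 0 := by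
  have hDc : HasDerivAt (fun s => (D s : ℂ)) (α * conj (a 0) + a 0 * conj α +
      (β * conj (b 0) + b 0 * conj β)) 0 := by
    have h1 : (fun s => (D s : ℂ)) = fun s => a s * conj (a s) + b s * conj (b s) := by
      funext s
      rw [hD, Complex.mul_conj, Complex.mul_conj, Complex.normSq_eq_norm_sq,
        Complex.normSq_eq_norm_sq]
      push_cast
      rfl
    rw [h1]
    exact (ha.mul (StdF_conjD ha)).add (hb.mul (StdF_conjD hb))
  have hD0' : (D 0 : ℂ) ≠ 0 := by simpa using hD0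
  constructor
  · exact (hZ.mul (StdF_conjD (ha.mul hb))).div hDc hD0'
  · have h1 := ((StdF_conjD hZ).mul (hb.pow 2)).add (hZ.mul ((StdF_conjD ha).pow 2))
    have h2 := h1.div hDc hD0'
    refine HasDerivAt.congr_deriv (f := fun s => (conj (Z s) * b s ^ 2 +
      Z s * conj (a s) ^ 2) / (D s : ℂ)) h2 ?_
    simp

private theorem StdF_alg1 {a b a' b' ac bc a'c b'c v vc r n D : ℂ} (hD : D = a * ac + b * bc)
    (hD0 : D ≠ 0) (hn0 : n ≠ 0) (hv : v * vc = 1)
    (hn : n ^ 2 = (a' * b - a * b') * (a'c * bc - ac * b'c)) :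
    (((v * (a' * b - a * b') / n) * (v * (a' * ac + b' * bc) - vc * (a'c * a + b'c * b)) *
      r / D * (ac * bc) + (v * (a' * b - a * b') / n) *
        (a'c * vc * r * bc + ac * (b'c * vc * r))) * D -
      (v * (a' * b - a * b') / n) * (ac * bc) * (a' * v * r * ac + a * (a'c * vc * r) +
        (b' * v * r * bc + b * (b'c * vc * r)))) / D ^ 2 =
      r * n * (b * bc - a * ac) / D ^ 2 := by
  congr 1
  have h1 : (v * (a' * b - a * b') / n) * (v * (a' * ac + b' * bc) -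
      vc * (a'c * a + b'c * b)) * r / D * (ac * bc) * D =
      (v * (a' * b - a * b') / n) * (v * (a' * ac + b' * bc) -
      vc * (a'c * a + b'c * b)) * r * (ac * bc) := by
    field_simp
  rw [add_mul, h1]
  have h2 : r * n * (b * bc - a * ac) = r * (n ^ 2 / n) * (b * bc - a * ac) := by
    field_simp
  rw [h2, hn, hD]
  field_simp
  linear_combination (r * (a' * b - a * b') * (a'c * bc - ac * b'c) * (b * bc - a * ac)) * hv

private theorem StdF_alg2 {a b a' b' ac bc a'c b'c v vc r n D : ℂ} (hD : D = a * ac + b * bc)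
    (hD0 : D ≠ 0) (hn0 : n ≠ 0) :
    ((-(vc * (a'c * bc - ac * b'c) / n) * (v * (a' * ac + b' * bc) - vc * (a'c * a + b'c * b)) *
      r / D * b ^ 2 + (vc * (a'c * bc - ac * b'c) / n) * (2 * b * (b' * v * r)) +
      ((v * (a' * b - a * b') / n) * (v * (a' * ac + b' * bc) - vc * (a'c * a + b'c * b)) *
        r / D * ac ^ 2 + (v * (a' * b - a * b') / n) * (2 * ac * (a'c * vc * r)))) * D -
      ((vc * (a'c * bc - ac * b'c) / n) * b ^ 2 + (v * (a' * b - a * b') / n) * ac ^ 2) *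
        (a' * v * r * ac + a * (a'c * vc * r) + (b' * v * r * bc + b * (b'c * vc * r)))) / D ^ 2
      = 0 := by
  rw [div_eq_zero_iff]
  left
  have h2 : ∀ x y w u t : ℂ, (-x * y * r / D * b ^ 2 + w + (u * y * r / D * ac ^ 2 + t)) * D =
      (-x * y * r * b ^ 2 + u * y * r * ac ^ 2) + (w + t) * D := by
    intro x y w u t
    field_simp
    ring
  rw [h2, hD]
  field_simp
  ring

/-- The directional derivatives of `phi u`. -/
private theorem StdF_phi (h : Pair A B) {u : ℂ → ℝ} {z : ℂ} (hz : z ∈ Disc) (hW : Wr A B z ≠ 0)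
    (hu : ∀ᶠ y in 𝓝 z, rho u y = rst A B y) (v : ℂ) :
    fderiv ℝ (phi u) z v = (deriv (Wr A B) z * v / Wr A B z).re -
      2 * (v * (deriv A z * conj (A z) + deriv B z * conj (B z))).re / Dn A B z := by
  have h1 : phi u =ᶠ[𝓝 z] fun y => Real.log (rst A B y) := hu.mono fun y hy => by
    unfold phi
    rw [hy]
  rw [h1.fderiv_eq]
  have hDp := Dn_pos h hz
  have hn0 : ‖Wr A B z‖ ≠ 0 := norm_ne_zero_iff.2 hW
  have hr0 : rst A B z ≠ 0 := by
    unfold rst
    exact div_ne_zero (mul_ne_zero two_ne_zero hn0) hDp.ne'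
  have hd : DifferentiableAt ℝ (fun y => Real.log (rst A B y)) z := by
    have hA : ContDiffAt ℝ 1 A z := ((StdF_an h.hA hz).contDiffAt).restrict_scalars ℝ
    have hB : ContDiffAt ℝ 1 B z := ((StdF_an h.hB hz).contDiffAt).restrict_scalars ℝ
    have hw : ContDiffAt ℝ 1 (Wr A B) z := ((StdF_W_an h hz).contDiffAt).restrict_scalars ℝ
    have hD : ContDiffAt ℝ 1 (Dn A B) z := (hA.norm_sq ℝ).add (hB.norm_sq ℝ)
    have hr : ContDiffAt ℝ 1 (rst A B) z :=
      (contDiffAt_const.mul (hw.norm ℝ hW)).div hD hDp.ne'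
    exact (hr.log hr0).differentiableAt one_ne_zero
  have ha := StdF_hol (StdF_an h.hA hz).differentiableAt v
  have hb := StdF_hol (StdF_an h.hB hz).differentiableAt v
  have hw := StdF_hol (StdF_W_an h hz).differentiableAt v
  have hw0 : Wr A B (z + ((0 : ℝ) : ℂ) * v) = Wr A B z := by simp
  have ha0 : A (z + ((0 : ℝ) : ℂ) * v) = A z := by simp
  have hb0 : B (z + ((0 : ℝ) : ℂ) * v) = B z := by simp
  have hn := StdF_norm hw (by rw [hw0]; exact hW)
  have hD : HasDerivAt (fun s : ℝ => Dn A B (z + (s : ℂ) * v))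
      (2 * (v * (deriv A z * conj (A z) + deriv B z * conj (B z))).re) 0 := by
    have h2 := ha.norm_sq.add hb.norm_sq
    refine HasDerivAt.congr_deriv (f := fun s : ℝ => Dn A B (z + (s : ℂ) * v)) h2 ?_
    rw [ha0, hb0, Complex.inner, Complex.inner, ← mul_add, ← Complex.add_re]
    congr 2
    ring
  have hD0 : Dn A B (z + ((0 : ℝ) : ℂ) * v) = Dn A B z := by simp
  have hr := (hn.const_mul 2).div hD (by rw [hD0]; exact hDp.ne')
  have hlog := hr.log (by
    simp only [Pi.div_apply, hw0, hD0]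
    exact div_ne_zero (mul_ne_zero two_ne_zero hn0) hDp.ne')
  have hc : HasDerivAt (fun s : ℝ => Real.log (rst A B (z + (s : ℂ) * v)))
      ((deriv (Wr A B) z * v / Wr A B z).re -
        2 * (v * (deriv A z * conj (A z) + deriv B z * conj (B z))).re / Dn A B z) 0 := by
    refine HasDerivAt.congr_deriv (f := fun s : ℝ => Real.log (rst A B (z + (s : ℂ) * v)))
      hlog ?_
    simp only [Pi.div_apply, hw0, hD0]
    have := hDp.ne'
    field_simp
  have h3 : HasFDerivAt (fun y => Real.log (rst A B y))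
      (fderiv ℝ (fun y => Real.log (rst A B y)) z) (z + ((0 : ℝ) : ℂ) * v) := by
    simpa using hd.hasFDerivAt
  have h4 := h3.comp_hasDerivAt (0 : ℝ) (StdF_line z v)
  exact h4.unique hc

/-- The derivatives of `Jf` and `Nf` in the direction `(v, k)`. -/
private theorem StdF_JN (h : Pair A B) {z : ℂ} (hz : z ∈ Disc) (hW : Wr A B z ≠ 0) (θ : ℝ)
    (v : ℂ) (k : ℝ) (ζ : ℂ)
    (hζ : ζ = I * ((k + (deriv (Wr A B) z * v / Wr A B z).im : ℝ) : ℂ) * Zd A B z θ) :
    fderiv ℝ (Jf A B) (z, θ) (v, k) = 2 * (((ζ * conj (A z * B z) +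
        Zd A B z θ * conj (deriv A z * v * B z + A z * (deriv B z * v))) * (Dn A B z : ℂ) -
        Zd A B z θ * conj (A z * B z) * (deriv A z * v * conj (A z) +
          A z * conj (deriv A z * v) + (deriv B z * v * conj (B z) +
          B z * conj (deriv B z * v)))) / (Dn A B z : ℂ) ^ 2).im ∧
    fderiv ℝ (Nf A B) (z, θ) (v, k) = I * (((conj ζ * B z ^ 2 +
        conj (Zd A B z θ) * (2 * B z * (deriv B z * v)) +
        (ζ * conj (A z) ^ 2 + Zd A B z θ * (2 * conj (A z) * conj (deriv A z * v)))) *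
          (Dn A B z : ℂ) -
        (conj (Zd A B z θ) * B z ^ 2 + Zd A B z θ * conj (A z) ^ 2) *
          (deriv A z * v * conj (A z) +
          A z * conj (deriv A z * v) + (deriv B z * v * conj (B z) +
          B z * conj (deriv B z * v)))) / (Dn A B z : ℂ) ^ 2) := by
  have hDp := Dn_pos h hz
  have ha := StdF_hol (StdF_an h.hA hz).differentiableAt v
  have hb := StdF_hol (StdF_an h.hB hz).differentiableAt v
  have hZ := StdF_Zc h hz hW θ v k
  rw [← hζ] at hZ
  obtain ⟨h1, h2⟩ := StdF_core (D := fun s : ℝ => Dn A B (z + (s : ℂ) * v)) ha hb hZ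
    (fun s => rfl) (by simpa using hDp.ne')
  simp only [Complex.ofReal_zero, zero_mul, add_zero] at h1 h2
  constructor
  · refine StdF_curve ((J_smooth h hz hW θ).differentiableAt (by simp)) ?_
    have h3 := (Complex.imCLM.hasFDerivAt.comp_hasDerivAt (0 : ℝ) h1).const_mul 2
    refine HasDerivAt.congr_of_eventuallyEq h3 (Eventually.of_forall fun s => ?_)
    show 2 * _ / _ = 2 * (_ : ℂ).im
    rw [Complex.div_ofReal_im]
    ring
  · refine StdF_curve ((N_smooth h hz hW θ).differentiableAt (by simp)) ?_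
    have h3 := h2.const_mul I
    refine HasDerivAt.congr_of_eventuallyEq h3 (Eventually.of_forall fun s => ?_)
    show I * _ / _ = I * _
    rw [mul_div_assoc]

/-- `J` and `N` are conserved by the round metric.  Proof: let `V = e^{iθ}`, `D = |A|²+|B|²`,
`D_z = A' conj A + B' conj B`, `Z = V W/|W|`, `ρ = 2|W|/D`.  Along the geodesic vector field:
`z' = V/ρ`, `θ' = ∂_{iV} log ρ / ρ = (Re(iV W'/W) - 2 Re(iV D_z/D))/ρ`,
`(arg W)' = Im(V W'/W)/ρ`, so `Z' = (2 i Im(V D_z)/(D ρ)) Z`; `D' = 2 Re(V D_z)/ρ`;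
`(conj A)' = conj(A' V)/ρ`.  Hence
`ρ (Z conj(AB)/D)' = (Z conj V/D²) conj((A'B+AB')D - 2AB D_z) = |W| (|B|²-|A|²)/D²` (real), since
`(A'B+AB')D - 2AB D_z = W(|B|²-|A|²)` and `Z conj V conj W = |W|`; and
`ρ (Z conj A²/D)' = 2 |W| conj(A) B/D²`, `ρ (conj Z B²/D)' = - 2|W| conj(A) B/D²`. -/
theorem JN_flow (h : Pair A B) {u : ℂ → ℝ} {z : ℂ} (hz : z ∈ Disc) (hW : Wr A B z ≠ 0)
    (hu : ∀ᶠ y in 𝓝 z, rho u y = rst A B y) (θ : ℝ) :
    DerG u (Jf A B) (z, θ) 0 ∧ DerG u (Nf A B) (z, θ) 0 := by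
  have hDp := Dn_pos h hz
  obtain ⟨r, hr⟩ : ∃ r : ℝ, r = (rho u z)⁻¹ := ⟨_, rfl⟩
  have hv : dir θ / ((rho u z : ℝ) : ℂ) = dir θ * (r : ℂ) := by
    rw [hr]
    push_cast
    rw [div_eq_mul_inv]
  have hgeo : geoV u (z, θ) = (dir θ * (r : ℂ), kap u z (dir θ)) := by
    unfold geoV
    rw [hv]
  have hV : dir θ * conj (dir θ) = 1 := by
    rw [Complex.mul_conj, Complex.normSq_eq_norm_sq, norm_dir]
    simp
  have hnn : ((‖Wr A B z‖ : ℝ) : ℂ) ≠ 0 := by simpa using hW
  have hDc : ((Dn A B z : ℝ) : ℂ) ≠ 0 := by simpa using hDp.ne'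
  have hDeq : ((Dn A B z : ℝ) : ℂ) = A z * conj (A z) + B z * conj (B z) := by
    rw [Complex.mul_conj, Complex.mul_conj, Complex.normSq_eq_norm_sq,
      Complex.normSq_eq_norm_sq]
    unfold Dn
    push_cast
    rfl
  have hn2 : ((‖Wr A B z‖ : ℝ) : ℂ) ^ 2 = (deriv A z * B z - A z * deriv B z) *
      (conj (deriv A z) * conj (B z) - conj (A z) * conj (deriv B z)) := by
    have h1 : ((‖Wr A B z‖ : ℝ) : ℂ) ^ 2 = Wr A B z * conj (Wr A B z) := by
      rw [Complex.mul_conj, Complex.normSq_eq_norm_sq]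
      push_cast
      rfl
    rw [h1]
    unfold Wr
    simp only [map_sub, map_mul]
  -- the rotation speed
  have hk : I * ((kap u z (dir θ) + (deriv (Wr A B) z * (dir θ * (r : ℂ)) / Wr A B z).im : ℝ) : ℂ)
      = (dir θ * (deriv A z * conj (A z) + deriv B z * conj (B z)) -
        conj (dir θ) * (conj (deriv A z) * A z + conj (deriv B z) * B z)) * (r : ℂ) /
        (Dn A B z : ℂ) := by
    have h1 : kap u z (dir θ) + (deriv (Wr A B) z * (dir θ * (r : ℂ)) / Wr A B z).im =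
        2 * (dir θ * (deriv A z * conj (A z) + deriv B z * conj (B z))).im * r / Dn A B z := by
      unfold kap
      rw [StdF_phi h hz hW hu, div_eq_mul_inv, ← hr]
      have e1 : deriv (Wr A B) z * (I * dir θ) / Wr A B z =
          I * (deriv (Wr A B) z * dir θ / Wr A B z) := by ring
      have e2 : deriv (Wr A B) z * (dir θ * (r : ℂ)) / Wr A B z =
          (r : ℂ) * (deriv (Wr A B) z * dir θ / Wr A B z) := by ring
      have e3 : I * dir θ * (deriv A z * conj (A z) + deriv B z * conj (B z)) =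
          I * (dir θ * (deriv A z * conj (A z) + deriv B z * conj (B z))) := by ring
      rw [e1, e2, e3, Complex.I_mul_re, Complex.I_mul_re, Complex.im_ofReal_mul]
      ring
    rw [h1]
    have h2 := Complex.sub_conj (dir θ * (deriv A z * conj (A z) + deriv B z * conj (B z)))
    simp only [map_mul, map_add, Complex.conj_conj] at h2
    rw [h2]
    push_cast
    ring
  have hZ : Zd A B z θ = dir θ * (deriv A z * B z - A z * deriv B z) /
      ((‖Wr A B z‖ : ℝ) : ℂ) := by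
    unfold Zd
    rw [mul_div_assoc]
    rfl
  have hZc : conj (Zd A B z θ) = conj (dir θ) * (conj (deriv A z) * conj (B z) -
      conj (A z) * conj (deriv B z)) / ((‖Wr A B z‖ : ℝ) : ℂ) := by
    rw [hZ]
    simp only [map_div₀, map_mul, map_sub, Complex.conj_ofReal]
  obtain ⟨ζ, hζ⟩ : ∃ ζ : ℂ, ζ = I * ((kap u z (dir θ) +
    (deriv (Wr A B) z * (dir θ * (r : ℂ)) / Wr A B z).im : ℝ) : ℂ) * Zd A B z θ := ⟨_, rfl⟩
  obtain ⟨h1, h2⟩ := StdF_JN h hz hW θ (dir θ * (r : ℂ)) (kap u z (dir θ)) ζ hζ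
  rw [hk] at hζ
  have hζc : conj ζ = (conj (dir θ) * (conj (deriv A z) * A z + conj (deriv B z) * B z) -
      dir θ * (deriv A z * conj (A z) + deriv B z * conj (B z))) * (r : ℂ) /
        (Dn A B z : ℂ) * conj (Zd A B z θ) := by
    rw [hζ]
    simp only [map_div₀, map_mul, map_sub, map_add, Complex.conj_ofReal, Complex.conj_conj]
  refine ⟨⟨fderiv ℝ (Jf A B) (z, θ), ((J_smooth h hz hW θ).differentiableAt
    (by simp)).hasFDerivAt, ?_⟩, ⟨fderiv ℝ (Nf A B) (z, θ), ((N_smooth h hz hW θ).differentiableAt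
    (by simp)).hasFDerivAt, ?_⟩⟩
  · rw [hgeo, h1]
    have h3 := StdF_alg1 (r := (r : ℂ)) hDeq hDc hnn hV hn2
    have h4 : ((r : ℂ) * ((‖Wr A B z‖ : ℝ) : ℂ) * (B z * conj (B z) - A z * conj (A z)) /
        ((Dn A B z : ℝ) : ℂ) ^ 2) = ((r * ‖Wr A B z‖ * (‖B z‖ ^ 2 - ‖A z‖ ^ 2) /
          Dn A B z ^ 2 : ℝ) : ℂ) := by
      rw [Complex.mul_conj, Complex.mul_conj, Complex.normSq_eq_norm_sq,
        Complex.normSq_eq_norm_sq]
      push_cast
      rfl
    rw [h4] at h3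
    rw [mul_eq_zero]
    right
    rw [← Complex.ofReal_im (r * ‖Wr A B z‖ * (‖B z‖ ^ 2 - ‖A z‖ ^ 2) / Dn A B z ^ 2), ← h3]
    congr 2
    simp only [map_mul, map_add, Complex.conj_ofReal]
    rw [hζ, hZ]
    ring
  · rw [hgeo, h2]
    have h3 := StdF_alg2 (a' := deriv A z) (b' := deriv B z) (a'c := conj (deriv A z))
      (b'c := conj (deriv B z)) (v := dir θ) (vc := conj (dir θ)) (r := (r : ℂ)) hDeq hDc hnn
    rw [mul_eq_zero]
    right
    rw [← h3]
    congr 1
    simp only [map_mul, Complex.conj_ofReal]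
    rw [hζc, hζ, hZc, hZ]
    ring

/-- In every fibre `dJ ≠ 0` up to a null set (in fact at most two angles): the derivative with
respect to `θ` is `2 Re(Z conj(AB))/D`, which vanishes for at most two angles if `A z B z ≠ 0`;
if `A z = 0` (or `B z = 0`) the derivative with respect to `z` does not vanish. -/
theorem J_crit (h : Pair A B) {z : ℂ} (hz : z ∈ Disc) (hW : Wr A B z ≠ 0) :
    MeasureTheory.volume {θ : ℝ | θ ∈ Set.Icc 0 (2 * Real.pi) ∧
      fderiv ℝ (Jf A B) (z, θ) = 0} = 0 := by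
  have hDp := Dn_pos h hz
  have hDc : ((Dn A B z : ℝ) : ℂ) ≠ 0 := by simpa using hDp.ne'
  by_cases h0 : A z * B z = 0
  · have hempty : {θ : ℝ | θ ∈ Set.Icc 0 (2 * Real.pi) ∧ fderiv ℝ (Jf A B) (z, θ) = 0} = ∅ := by
      rw [Set.eq_empty_iff_forall_notMem]
      rintro θ ⟨-, hf⟩
      obtain ⟨c, hc⟩ : ∃ c : ℂ, c = deriv A z * B z + A z * deriv B z := ⟨_, rfl⟩
      have hc0 : c ≠ 0 := by
        intro h1
        apply hW
        unfold Wr
        rcases mul_eq_zero.1 h0 with h2 | h2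
        · rw [h2] at hc ⊢
          rw [h1] at hc
          linear_combination -hc
        · rw [h2] at hc ⊢
          rw [h1] at hc
          linear_combination hc
      have hZ0 : Zd A B z θ ≠ 0 := by
        intro h1
        have h2 := norm_Zd hW θ
        rw [h1, norm_zero] at h2
        exact zero_ne_one h2
      obtain ⟨v, hv⟩ : ∃ v : ℂ, v = conj (I / Zd A B z θ) / c := ⟨_, rfl⟩
      have h1 := (StdF_JN h hz hW θ v 0 _ rfl).1
      rw [hf] at h1
      have h3 : Zd A B z θ * conj (deriv A z * v * B z + A z * (deriv B z * v)) = I := by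
        have h4 : deriv A z * v * B z + A z * (deriv B z * v) = conj (I / Zd A B z θ) := by
          rw [hv]
          have h5 : deriv A z * (conj (I / Zd A B z θ) / c) * B z +
              A z * (deriv B z * (conj (I / Zd A B z θ) / c)) =
              (deriv A z * B z + A z * deriv B z) * (conj (I / Zd A B z θ) / c) := by ring
          rw [h5, ← hc]
          field_simp
        rw [h4, Complex.conj_conj]
        field_simp
      rw [h3, h0] at h1
      simp only [map_zero, mul_zero, zero_mul, zero_add, sub_zero] at h1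
      have h6 : I * ((Dn A B z : ℝ) : ℂ) / ((Dn A B z : ℝ) : ℂ) ^ 2 =
          (((Dn A B z)⁻¹ : ℝ) : ℂ) * I := by
        push_cast
        field_simp
      rw [h6, Complex.im_ofReal_mul, Complex.I_im, mul_one] at h1
      have h7 : (0 : ℝ) < 2 * (Dn A B z)⁻¹ := by positivity
      rw [← h1] at h7
      simp at h7
    rw [hempty]
    exact MeasureTheory.measure_empty
  · obtain ⟨c, hc⟩ : ∃ c : ℂ, c = Wr A B z / ((‖Wr A B z‖ : ℝ) : ℂ) * conj (A z * B z) :=
      ⟨_, rfl⟩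
    have hc0 : c ≠ 0 := by
      rw [hc]
      refine mul_ne_zero (div_ne_zero hW (by simpa using hW)) ?_
      rw [Ne, map_eq_zero]
      exact h0
    refine Set.Countable.measure_zero (Set.Countable.mono ?_ (Set.countable_range
      (fun k : ℤ => (2 * (k : ℝ) + 1) * Real.pi / 2 - Complex.arg c))) _
    rintro θ ⟨-, hf⟩
    have h1 := (StdF_JN h hz hW θ 0 1 _ rfl).1
    rw [hf] at h1
    simp only [mul_zero, zero_mul, zero_div, Complex.zero_im, add_zero, map_zero, sub_zero,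
      Complex.ofReal_one, mul_one] at h1
    have h2 : Zd A B z θ * conj (A z * B z) = dir θ * c := by
      rw [hc]
      unfold Zd
      ring
    have h3 : I * Zd A B z θ * conj (A z * B z) * ((Dn A B z : ℝ) : ℂ) /
        ((Dn A B z : ℝ) : ℂ) ^ 2 = (((Dn A B z)⁻¹ : ℝ) : ℂ) * (I * (dir θ * c)) := by
      rw [← h2]
      push_cast
      field_simp
    rw [h3, Complex.im_ofReal_mul, Complex.I_mul_im] at h1
    have h4 : (dir θ * c).re = 0 := by
      have h5 : (2 : ℝ) * ((Dn A B z)⁻¹ * (dir θ * c).re) = 0 := by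
        rw [← h1]
        simp
      have h6 : (Dn A B z)⁻¹ ≠ 0 := inv_ne_zero hDp.ne'
      simpa [h6] using h5
    have h5 : dir θ * c = ((‖c‖ : ℝ) : ℂ) * Complex.exp (((θ + Complex.arg c : ℝ) : ℂ) * I) := by
      conv_lhs => rw [← Complex.norm_mul_exp_arg_mul_I c]
      unfold dir
      push_cast
      rw [add_mul, Complex.exp_add]
      ring
    rw [h5, Complex.re_ofReal_mul, Complex.exp_ofReal_mul_I_re] at h4
    have h6 : Real.cos (θ + Complex.arg c) = 0 := by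
      rcases mul_eq_zero.1 h4 with h7 | h7
      · exact absurd (norm_eq_zero.1 h7) hc0
      · exact h7
    obtain ⟨k, hk⟩ := Real.cos_eq_zero_iff.1 h6
    refine ⟨k, ?_⟩
    show (2 * (k : ℝ) + 1) * Real.pi / 2 - Complex.arg c = θ
    linarith

end Pool.Agent.H.MP_bfbbee_an.F4
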