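import Pool.Agent.H.MP_bfbbee_an.helper67.GU
import Pool.Agent.H.MP_bfbbee_an.helper67.StdF
import Pool.Agent.H.MP_bfbbee_an.helper67.PsiA

/-!
# The first integral: local form, smoothness
-/

set_option autoImplicit false

namespace Pool.Agent.H.MP_bfbbee_an.F4

open ComplexConjugate Filter Topology Complex
open scoped ContDiff

namespace Cfg

variable {D : Cfg}

private theorem GF_dir : ContDiff ℝ ∞ dir := by
  unfold dir
  exact (Complex.ofRealCLM.contDiff.mul contDiff_const).cexp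

private theorem GF_Y (h : D.Ok) (l : ℂ) : ContDiff ℝ ∞ (D.Y l) := by
  unfold Y
  refine contDiff_prod fun l' _ => ?_
  exact h.cXs.comp (Complex.reCLM.contDiff.comp (contDiff_const.mul contDiff_id))

theorem Fout_smooth (h : D.Ok) {z : ℂ} (hz : z ∈ Disc) (hW : Wr D.A D.B z ≠ 0) (θ : ℝ) :
    ContDiffAt ℝ ∞ D.Fout (z, θ) := by
  have hJ : ∀ l, ContDiffAt ℝ ∞ (D.Jl l) (z, θ) := fun l =>
    J_smooth (pair_rot h.pair l) hz (by rw [Wr_rot h.pair l hz]; exact hW) θ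
  have hN : ∀ l, ContDiffAt ℝ ∞ (D.Nl l) (z, θ) := fun l =>
    N_smooth (pair_rot h.pair l) hz (by rw [Wr_rot h.pair l hz]; exact hW) θ
  unfold Fout
  refine ContDiffAt.add ((J_smooth h.pair hz hW θ).mul ?_) ?_
  · refine contDiffAt_prod fun l _ => ?_
    exact (h.cGs.contDiffAt (x := D.Jl l (z, θ))).comp (z, θ) (hJ l)
  · refine ContDiffAt.sum fun l _ => ?_
    refine ((hJ l).mul ?_).mul ?_
    · exact (h.cgs.contDiffAt (x := D.Jl l (z, θ))).comp (z, θ) (hJ l)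
    · exact ContDiffAt.comp (g := D.Y l) (f := fun p : ℂ × ℝ => D.Nl l p ^ 2) (z, θ)
        (GF_Y h l).contDiffAt ((hN l).pow 2)

private theorem GF_chi (h : D.Ok) (β : ℕ) (θ : ℝ) {L E : ℂ} (hL : ‖L‖ ^ 2 < 1)
    (hE : E ≠ 0) :
    ContDiffAt ℝ ∞ (fun x : ℝ × ℂ × ℂ => chi β D.mu x.1 x.2.1 x.2.2) (θ, L, E) := by
  have h1 : ContDiff ℝ ∞ (fun x : ℝ × ℂ × ℂ => dir x.1 * x.2.1) :=
    (GF_dir.comp contDiff_fst).mul (contDiff_fst.comp contDiff_snd)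
  have h2 : ContDiff ℝ ∞ (fun x : ℝ × ℂ × ℂ => dir (β * x.1)) :=
    GF_dir.comp (contDiff_const.mul contDiff_fst)
  have h3 : ContDiffAt ℝ ∞ (fun x : ℝ × ℂ × ℂ => x.2.2) (θ, L, E) :=
    (contDiff_snd.comp contDiff_snd).contDiffAt
  have h4 : ContDiffAt ℝ ∞ (fun x : ℝ × ℂ × ℂ => ((‖x.2.2‖ : ℝ) : ℂ)) (θ, L, E) :=
    (Complex.ofRealCLM.contDiff.contDiffAt (x := ‖E‖)).comp (θ, L, E) (h3.norm ℝ hE)
  have h5 := h4.inv (by simpa using hE)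
  have h6 : ContDiffAt ℝ ∞ (fun x : ℝ × ℂ × ℂ =>
      conj (dir (β * x.1) * (x.2.2 / (‖x.2.2‖ : ℂ)))) (θ, L, E) := by
    simp only [div_eq_mul_inv]
    exact (Complex.conjCLE.contDiff.contDiffAt (x := dir (β * θ) * (E * ((‖E‖ : ℝ) : ℂ)⁻¹))).comp
      (θ, L, E) (h2.contDiffAt.mul (h3.mul h5))
  have h7 : (dir θ * L).im ^ 2 + (dir θ * L).re ^ 2 < 1 := by
    have e1 : (dir θ * L).im ^ 2 + (dir θ * L).re ^ 2 = ‖dir θ * L‖ ^ 2 := by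
      rw [← Complex.normSq_eq_norm_sq, Complex.normSq_apply]
      ring
    rw [e1, norm_mul, norm_dir, one_mul]
    exact hL
  have h8 : ContDiffAt ℝ ∞ (fun x : ℝ × ℂ × ℂ => ((dir x.1 * x.2.1).im, (dir x.1 * x.2.1).re))
      (θ, L, E) :=
    ((Complex.imCLM.contDiff.comp h1).prodMk (Complex.reCLM.contDiff.comp h1)).contDiffAt
  have h9 : ContDiffAt ℝ ∞ (fun x : ℝ × ℂ × ℂ =>
      Psi β D.mu (dir x.1 * x.2.1).im (dir x.1 * x.2.1).re) (θ, L, E) :=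
    ContDiffAt.comp (g := fun p : ℝ × ℝ => Psi β D.mu p.1 p.2) (θ, L, E)
      (Psi_smooth h.dev β h7) h8
  have h10 : ContDiffAt ℝ ∞ (fun x : ℝ × ℂ × ℂ =>
      ((Psi β D.mu (dir x.1 * x.2.1).im (dir x.1 * x.2.1).re : ℝ) : ℂ)) (θ, L, E) :=
    (Complex.ofRealCLM.contDiff.contDiffAt (x := Psi β D.mu (dir θ * L).im (dir θ * L).re)).comp
      (θ, L, E) h9
  unfold chi
  exact h6.mul (contDiffAt_const.mul h10).cexp

/-- The cap form is smooth in `(θ, L, E)`. -/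
theorem Fk_smooth (h : D.Ok) (β : ℕ) (l : ℂ) (θ : ℝ) {L E : ℂ} (hL : ‖L‖ ^ 2 < 1)
    (hE : E ≠ 0) :
    ContDiffAt ℝ ∞ (fun x : ℝ × ℂ × ℂ => D.Fk β l x.1 x.2.1 x.2.2) (θ, L, E) := by
  have h1 : ContDiff ℝ ∞ (fun x : ℝ × ℂ × ℂ => dir x.1 * x.2.1) :=
    (GF_dir.comp contDiff_fst).mul (contDiff_fst.comp contDiff_snd)
  have h2 : ContDiff ℝ ∞ (fun x : ℝ × ℂ × ℂ => (dir x.1 * x.2.1).im) :=
    Complex.imCLM.contDiff.comp h1
  have h3 := GF_chi h β θ hL hE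
  have h4 : ContDiff ℝ ∞ (fun x : ℝ × ℂ × ℂ => ((1 - (dir x.1 * x.2.1).im ^ 2 : ℝ) : ℂ)) :=
    Complex.ofRealCLM.contDiff.comp (contDiff_const.sub (h2.pow 2))
  have h5 : ContDiffAt ℝ ∞ (fun x : ℝ × ℂ × ℂ =>
      -((1 - (dir x.1 * x.2.1).im ^ 2 : ℝ) : ℂ) * chi β D.mu x.1 x.2.1 x.2.2 ^ 2) (θ, L, E) :=
    h4.contDiffAt.neg.mul (h3.pow 2)
  unfold Fk
  refine (h2.contDiffAt.mul (h.cgs.comp h2).contDiffAt).mul ?_
  exact ContDiffAt.comp (g := D.Y l) (f := fun x : ℝ × ℂ × ℂ =>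
      -((1 - (dir x.1 * x.2.1).im ^ 2 : ℝ) : ℂ) * chi β D.mu x.1 x.2.1 x.2.2 ^ 2) (θ, L, E)
    (GF_Y h l).contDiffAt h5

theorem F_away (h : D.Ok) {z : ℂ} (hz : D.Away z) (θ : ℝ) :
    ∀ᶠ p in 𝓝 (z, θ), D.F p = D.Fout p := by
  have h1 := (Away_open h hz).eventually_nhds
  have h2 : Tendsto (Prod.fst : ℂ × ℝ → ℂ) (𝓝 (z, θ)) (𝓝 z) := continuousAt_fst
  filter_upwards [h2.eventually h1] with p hp
  have hy := hp.self_of_nhds
  have h3 : Tendsto (fun y => D.Fout (y, p.2)) (𝓝 p.1) (𝓝 (D.Fout (p.1, p.2))) := by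
    have h4 := (Fout_smooth h hy.1 (Away_W h hy) p.2).continuousAt
    exact ContinuousAt.comp (f := fun y : ℂ => (y, p.2)) h4
      (Continuous.prodMk_left p.2).continuousAt
  unfold F
  refine Tendsto.limUnder_eq ?_
  refine (h3.mono_left nhdsWithin_le_nhds).congr' ?_
  filter_upwards [nhdsWithin_le_nhds hp] with y hy'
  exact ((match_away h hy').2 p.2).symm

private theorem GF_ne (y P : ℂ) : ∀ᶠ y' in 𝓝[≠] y, y' ≠ P := by
  by_cases hyP : y = P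
  · rw [hyP]
    exact self_mem_nhdsWithin
  · exact nhdsWithin_le_nhds (isOpen_ne.mem_nhds hyP)

theorem F_cap (h : D.Ok) {P z : ℂ} {rl : ℂ → ℝ} {Ll El : ℂ → ℂ} (hR : D.Rep P rl Ll El)
    (hz : D.In P z) (θ : ℝ) :
    ∀ᶠ p in 𝓝 (z, θ), D.F p = D.Fk (D.ord P) (D.lv P) p.2 (Ll p.1) (El p.1) := by
  have h1 := (In_open h hz).eventually_nhds
  have h2 : Tendsto (Prod.fst : ℂ × ℝ → ℂ) (𝓝 (z, θ)) (𝓝 z) := continuousAt_fst
  filter_upwards [h2.eventually h1] with p hp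
  have hy := hp.self_of_nhds
  have hL : ‖Ll p.1‖ ^ 2 < 1 := (hR.lt p.1 hy).trans (by norm_num)
  have h3 : Tendsto (fun y => D.Fk (D.ord P) (D.lv P) p.2 (Ll y) (El y)) (𝓝 p.1)
      (𝓝 (D.Fk (D.ord P) (D.lv P) p.2 (Ll p.1) (El p.1))) := by
    have h4 := (Fk_smooth h (D.ord P) (D.lv P) p.2 hL (hR.ne p.1 hy)).continuousAt
    exact ContinuousAt.comp (f := fun y : ℂ => (p.2, Ll y, El y)) h4
      (continuousAt_const.prodMk ((hR.s2 p.1 hy).continuousAt.prodMk (hR.s3 p.1 hy).continuousAt))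
  unfold F
  refine Tendsto.limUnder_eq ?_
  refine (h3.mono_left nhdsWithin_le_nhds).congr' ?_
  filter_upwards [nhdsWithin_le_nhds hp, GF_ne p.1 P] with y hy1 hy2
  rw [Ft_In h hy1]
  have e2 := hR.eq2 y hy1 hy2
  have e3 := hR.eq3 y hy1 hy2
  unfold Lc at e2
  unfold Ec at e3
  unfold Fin
  rw [e2, e3]

theorem F_smooth (h : D.Ok) : ContDiffOn ℝ ∞ D.F (Disc ×ˢ Set.univ) := by
  rintro ⟨z, θ⟩ ⟨hz, -⟩
  refine ContDiffAt.contDiffWithinAt ?_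
  rcases In_or_Away h hz with ⟨P, hP⟩ | hA
  · obtain ⟨rl, Ll, El, hR⟩ := exists_rep h hP.1
    refine ContDiffAt.congr_of_eventuallyEq ?_ (F_cap h hR hP θ)
    have hL : ‖Ll z‖ ^ 2 < 1 := (hR.lt z hP).trans (by norm_num)
    have h1 := Fk_smooth h (D.ord P) (D.lv P) θ hL (hR.ne z hP)
    have h2 : ContDiffAt ℝ ∞ (fun p : ℂ × ℝ => (p.2, Ll p.1, El p.1)) (z, θ) :=
      contDiffAt_snd.prodMk ((ContDiffAt.comp (g := Ll) (f := Prod.fst) (z, θ) (hR.s2 z hP)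
        contDiffAt_fst).prodMk (ContDiffAt.comp (g := El) (f := Prod.fst) (z, θ) (hR.s3 z hP)
        contDiffAt_fst))
    exact ContDiffAt.comp (g := fun x : ℝ × ℂ × ℂ => D.Fk (D.ord P) (D.lv P) x.1 x.2.1 x.2.2)
      (z, θ) h1 h2
  · exact (Fout_smooth h hA.1 (Away_W h hA) θ).congr_of_eventuallyEq (F_away h hA θ)

private theorem GF_Fk_per (β : ℕ) (l : ℂ) (θ : ℝ) (L E : ℂ) :
    D.Fk β l (θ + 2 * Real.pi) L E = D.Fk β l θ L E := by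
  have h1 := Base_dir_add_two_pi θ
  have h2 : dir (β * (θ + 2 * Real.pi)) = dir (β * θ) := by
    symm
    rw [dir_eq_iff]
    refine ⟨β, ?_⟩
    push_cast
    ring
  unfold Fk chi
  rw [h1, h2]

private theorem GF_Fout_per (y : ℂ) (θ : ℝ) :
    D.Fout (y, θ + 2 * Real.pi) = D.Fout (y, θ) := by
  unfold Fout Jl Nl
  simp only [J_per, N_per]

private theorem GF_Ft_per (y : ℂ) (θ : ℝ) :
    D.Ft (y, θ + 2 * Real.pi) = D.Ft (y, θ) := by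
  unfold Ft
  by_cases hc : ∃ P, D.In P y
  · rw [dif_pos (show ∃ P, D.In P (y, θ + 2 * Real.pi).1 from hc),
      dif_pos (show ∃ P, D.In P (y, θ).1 from hc)]
    unfold Fin
    exact GF_Fk_per _ _ _ _ _
  · rw [dif_neg (show ¬ ∃ P, D.In P (y, θ + 2 * Real.pi).1 from hc),
      dif_neg (show ¬ ∃ P, D.In P (y, θ).1 from hc)]
    exact GF_Fout_per _ _

theorem F_per (h : D.Ok) {z : ℂ} (hz : z ∈ Disc) (θ : ℝ) :
    D.F (z, θ + 2 * Real.pi) = D.F (z, θ) := by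
  unfold F
  simp only [GF_Ft_per]

end Cfg

end Pool.Agent.H.MP_bfbbee_an.F4
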