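import Pool.Agent.H.MP_bfbbee_an.helper67.Ld
import Pool.Agent.H.MP_bfbbee_an.helper67.Flow
import Pool.Agent.H.MP_bfbbee_an.helper67.PsiA

/-!
# Conserved quantities of the modified metric
-/

set_option autoImplicit false

namespace Pool.Agent.H.MP_bfbbee_an.F4

open ComplexConjugate Filter Topology Complex
open scoped ContDiff

section LocF_general

variable {F E E' : Type*} [NormedAddCommGroup F] [NormedSpace ℝ F] [NormedAddCommGroup E]
  [NormedSpace ℝ E] [NormedAddCommGroup E'] [NormedSpace ℝ E']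

/-- `Q` is differentiable at `p` and has the derivative `d` in the direction `V`. -/
def LocF_DV (Q : F → E) (p V : F) (d : E) : Prop :=
  ∃ Q' : F →L[ℝ] E, HasFDerivAt Q Q' p ∧ Q' V = d

theorem LocF_congr {Q Q₁ : F → E} {p V : F} {d : E} (h : LocF_DV Q p V d)
    (he : Q₁ =ᶠ[𝓝 p] Q) : LocF_DV Q₁ p V d := by
  obtain ⟨Q', h1, h2⟩ := h
  exact ⟨Q', h1.congr_of_eventuallyEq he, h2⟩

theorem LocF_val {Q : F → E} {p V : F} {d d' : E} (h : LocF_DV Q p V d) (he : d = d') :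
    LocF_DV Q p V d' := he ▸ h

theorem LocF_comp {Q : F → E} {p V : F} {d : E} {Φ : E → E'} {Φ' : E →L[ℝ] E'}
    (h : LocF_DV Q p V d) (hΦ : HasFDerivAt Φ Φ' (Q p)) :
    LocF_DV (fun x => Φ (Q x)) p V (Φ' d) := by
  obtain ⟨Q', h1, h2⟩ := h
  refine ⟨Φ'.comp Q', hΦ.comp p h1, ?_⟩
  rw [ContinuousLinearMap.comp_apply, h2]

theorem LocF_clm (L : E →L[ℝ] E') {Q : F → E} {p V : F} {d : E} (h : LocF_DV Q p V d) :
    LocF_DV (fun x => L (Q x)) p V (L d) := LocF_comp h L.hasFDerivAt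

theorem LocF_prod {Q : F → E} {R : F → E'} {p V : F} {d : E} {e : E'} (h : LocF_DV Q p V d)
    (h' : LocF_DV R p V e) : LocF_DV (fun x => (Q x, R x)) p V (d, e) := by
  obtain ⟨Q', h1, h2⟩ := h
  obtain ⟨R', h3, h4⟩ := h'
  refine ⟨Q'.prod R', h1.prodMk h3, ?_⟩
  rw [ContinuousLinearMap.prod_apply, h2, h4]

theorem LocF_real {Q : F → ℝ} {p V : F} {d : ℝ} {Φ : ℝ → ℝ} {c : ℝ} (h : LocF_DV Q p V d)
    (hΦ : HasDerivAt Φ c (Q p)) : LocF_DV (fun x => Φ (Q x)) p V (c * d) := by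
  refine LocF_val (LocF_comp h hΦ.hasFDerivAt) ?_
  simp [mul_comm]

theorem LocF_mulR {Q R : F → ℝ} {p V : F} {d e : ℝ} (h : LocF_DV Q p V d)
    (h' : LocF_DV R p V e) : LocF_DV (fun x => Q x * R x) p V (Q p * e + R p * d) := by
  obtain ⟨Q', h1, h2⟩ := h
  obtain ⟨R', h3, h4⟩ := h'
  refine ⟨_, h1.mul h3, ?_⟩
  simp [h2, h4]

theorem LocF_mulC {Q R : F → ℂ} {p V : F} {d e : ℂ} (h : LocF_DV Q p V d)
    (h' : LocF_DV R p V e) : LocF_DV (fun x => Q x * R x) p V (Q p * e + R p * d) := by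
  obtain ⟨Q', h1, h2⟩ := h
  obtain ⟨R', h3, h4⟩ := h'
  refine ⟨_, h1.mul h3, ?_⟩
  simp [h2, h4]

theorem LocF_fderiv {Q : F → E} {p V : F} {d : E} (h : LocF_DV Q p V d) :
    fderiv ℝ Q p V = d := by
  obtain ⟨Q', h1, h2⟩ := h
  rw [h1.fderiv, h2]

theorem LocF_holo {h : ℂ → ℂ} {c z V : ℂ} (hh : HasDerivAt h c z) : LocF_DV h z V (c * V) := by
  refine ⟨_, hh.hasFDerivAt.restrictScalars ℝ, ?_⟩
  simp [mul_comm]

theorem LocF_fst {Q : ℂ → E} {p V : ℂ × ℝ} {d : E} (h : LocF_DV Q p.1 V.1 d) :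
    LocF_DV (fun x : ℂ × ℝ => Q x.1) p V d := by
  obtain ⟨Q', h1, h2⟩ := h
  refine ⟨Q'.comp (ContinuousLinearMap.fst ℝ ℂ ℝ), h1.comp p hasFDerivAt_fst, ?_⟩
  simpa using h2

theorem LocF_dir (c : ℝ) (p V : ℂ × ℝ) :
    LocF_DV (fun x : ℂ × ℝ => dir (c * x.2)) p V (I * (c * V.2 : ℝ) * dir (c * p.2)) := by
  have h0 : HasDerivAt (fun t : ℝ => dir (c * t)) (I * c * dir (c * p.2)) p.2 := by
    have h1 : HasDerivAt (fun t : ℝ => ((c * t : ℝ) : ℂ) * I) ((c : ℂ) * I) p.2 := by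
      have h2 : HasDerivAt (fun t : ℝ => ((c * t : ℝ) : ℂ)) ((c : ℝ) : ℂ) p.2 := by
        have h3 : HasDerivAt (fun t : ℝ => c * t) c p.2 := by
          simpa using (hasDerivAt_id p.2).const_mul c
        exact h3.ofReal_comp
      exact h2.mul_const I
    have h4 := h1.cexp
    refine h4.congr_deriv ?_
    unfold dir
    ring
  refine ⟨_, h0.hasFDerivAt.comp p hasFDerivAt_snd, ?_⟩
  simp
  ring

theorem LocF_norm {Q : F → ℂ} {p V : F} {d : ℂ} (h : LocF_DV Q p V d) (h0 : Q p ≠ 0) :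
    LocF_DV (fun x => ‖Q x‖) p V (‖Q p‖ * (d / Q p).re) := by
  obtain ⟨Q', h1, h2⟩ := h
  have hn : ‖Q p‖ ^ 2 ≠ 0 := by positivity
  have h3 := h1.norm_sq.sqrt hn
  have h4 : (fun x => ‖Q x‖) = fun x => Real.sqrt (‖Q x‖ ^ 2) := by
    funext x
    rw [Real.sqrt_sq (norm_nonneg _)]
  rw [h4]
  refine ⟨_, h3, ?_⟩
  have h5 : ‖Q p‖ ≠ 0 := norm_ne_zero_iff.2 h0
  have h6 : (d / Q p).re = (conj (Q p) * d).re / ‖Q p‖ ^ 2 := by
    have h7 : d / Q p = conj (Q p) * d / ((‖Q p‖ ^ 2 : ℝ) : ℂ) := by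
      have h8 : ((‖Q p‖ ^ 2 : ℝ) : ℂ) = conj (Q p) * Q p := by
        rw [← Complex.normSq_eq_conj_mul_self, Complex.normSq_eq_norm_sq]
      rw [h8]
      have h9 : conj (Q p) ≠ 0 := by simpa using h0
      field_simp
    rw [h7, Complex.div_ofReal_re]
  rw [h6]
  simp only [ContinuousLinearMap.smul_apply, ContinuousLinearMap.comp_apply, h2,
    innerSL_apply_apply, Real.sqrt_sq (norm_nonneg _), smul_eq_mul, Complex.inner]
  rw [mul_comm d (conj (Q p))]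
  simp only [nsmul_eq_mul]
  field_simp
  norm_num

end LocF_general

/-- algebra for the derivative of `xi` -/
theorem LocF_alg1 {v g g' : ℂ} {q ρ M : ℝ} (hv : ‖v‖ = 1) (hg : g ≠ 0) (hρ : 0 < ρ) (hM : 0 < M)
    (hq : 0 < q) (hρ2 : ρ ^ 2 = q * ‖g‖ ^ 2) {κ : ℝ}
    (hκ : κ = ((g * (I * v)).re / M + (g' * (I * v) / g).re) / ρ) :
    v * (g * ((q / ρ : ℝ) : ℂ)) *
      (g' * (v / (ρ : ℂ)) / g + (((g * (v / (ρ : ℂ))).re / M - (g' * (v / (ρ : ℂ)) / g).re : ℝ) : ℂ)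
        + I * (κ : ℂ)) = ((1 / M : ℝ) : ℂ) := by
  obtain ⟨A, hA⟩ : ∃ A, A = g * v := ⟨_, rfl⟩
  obtain ⟨B, hB⟩ : ∃ B, B = g' * v / g := ⟨_, rfl⟩
  have hρc : (ρ : ℂ) ≠ 0 := Complex.ofReal_ne_zero.2 hρ.ne'
  have hMc : (M : ℂ) ≠ 0 := Complex.ofReal_ne_zero.2 hM.ne'
  have e1 : g * (v / (ρ : ℂ)) = A / (ρ : ℂ) := by rw [hA]; ring
  have e2 : g' * (v / (ρ : ℂ)) / g = B / (ρ : ℂ) := by rw [hB]; ring
  have e3 : g * (I * v) = I * A := by rw [hA]; ring
  have e4 : g' * (I * v) / g = I * B := by rw [hB]; ring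
  have e5 : (I * A).re = -A.im := by simp
  have e6 : (I * B).re = -B.im := by simp
  have hn : ‖A‖ ^ 2 = ‖g‖ ^ 2 := by rw [hA, norm_mul, hv, mul_one]
  have hAA : A * conj A = ((‖g‖ ^ 2 : ℝ) : ℂ) := by
    rw [Complex.mul_conj, Complex.normSq_eq_norm_sq, hn]
  have e7 : B / (ρ : ℂ) + ((A.re / ρ / M - B.re / ρ : ℝ) : ℂ) + I * (κ : ℂ) =
      conj A / ((ρ * M : ℝ) : ℂ) := by
    have h1 : κ = (-A.im / M + -B.im) / ρ := by rw [hκ, e3, e4, e5, e6]
    have h2 : B = (B.re : ℂ) + (B.im : ℂ) * I := (Complex.re_add_im B).symm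
    have h3 : conj A = (A.re : ℂ) - (A.im : ℂ) * I := by
      apply Complex.ext <;> simp
    rw [h3, h1]
    conv_lhs => rw [h2]
    push_cast
    simp only [Complex.add_re, Complex.add_im, Complex.ofReal_re, Complex.ofReal_im,
      Complex.mul_re, Complex.mul_im, Complex.I_re, Complex.I_im]
    field_simp
    push_cast
    ring
  rw [e1, e2, Complex.div_ofReal_re, Complex.div_ofReal_re, e7]
  have e8 : v * (g * ((q / ρ : ℝ) : ℂ)) * (conj A / ((ρ * M : ℝ) : ℂ)) =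
      (A * conj A) * ((q / ρ : ℝ) : ℂ) / ((ρ * M : ℝ) : ℂ) := by
    rw [hA]; ring
  rw [e8, hAA, ← Complex.ofReal_mul, ← Complex.ofReal_div]
  congr 1
  have h0 : 0 < ‖g‖ := norm_pos_iff.2 hg
  field_simp
  rw [hρ2]
  ring

/-- `ξ = e^{iθ} Λ` has the real derivative `1/M(q)` along the geodesic vector field (so its
imaginary part is conserved), and `χ` is conserved. -/
theorem xi_flow {β : ℕ} (hβ : 1 ≤ β) {a0 b0 : ℂ → ℂ} (h : Pair a0 b0) {a2 a3 : ℝ}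
    {mu G hh : ℝ → ℝ} {δ : ℝ} (hd : Dev a2 a3 mu) (hp : Prof β (a3 ^ 2) mu G hh δ)
    {u : ℂ → ℝ} {z : ℂ} (hz : z ∈ Disc) (hW : Wr a0 b0 z ≠ 0) (ha : a0 z ≠ 0) (hb : b0 z ≠ 0)
    (hx : ‖a0 z‖ < T0 (1 / 2) * ‖b0 z‖)
    (hu : ∀ᶠ y in 𝓝 z, rho u y = rhoO β G a0 b0 y) (θ : ℝ) :
    DerG u (fun p : ℂ × ℝ => dir p.2 * LamO β G a0 b0 p.1) (z, θ)
        ((1 / Mf β mu (G (xo β a0 b0 z)) : ℝ) : ℂ) ∧
      DerG u (fun p : ℂ × ℝ => chi β mu p.2 (LamO β G a0 b0 p.1) (EO β a0 b0 p.1)) (z, θ) 0 := by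
  have hβ0 : (0 : ℝ) < β := by exact_mod_cast hβ
  have hDo : IsOpen Disc := Metric.isOpen_ball
  have hDn : Disc ∈ 𝓝 z := hDo.mem_nhds hz
  have hda : HasDerivAt a0 (deriv a0 z) z := (h.hA.differentiableAt hDn).hasDerivAt
  have hdb : HasDerivAt b0 (deriv b0 z) z := (h.hB.differentiableAt hDn).hasDerivAt
  have hda2 : DifferentiableAt ℂ (deriv a0) z := (h.hA.deriv hDo).differentiableAt hDn
  have hdb2 : DifferentiableAt ℂ (deriv b0) z := (h.hB.deriv hDo).differentiableAt hDn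
  have hdW : DifferentiableAt ℂ (Wr a0 b0) z := by
    unfold Wr
    exact (hda2.mul hdb.differentiableAt).sub (hda.differentiableAt.mul hdb2)
  obtain ⟨g, hg⟩ : ∃ g : ℂ → ℂ, g = fun y => Wr a0 b0 y / (a0 y * b0 y) := ⟨_, rfl⟩
  obtain ⟨f, hf⟩ : ∃ f : ℂ → ℂ, f = fun y => a0 y / b0 y := ⟨_, rfl⟩
  have hgz : g z = Wr a0 b0 z / (a0 z * b0 z) := by rw [hg]
  have hfz : f z = a0 z / b0 z := by rw [hf]
  have hg0 : g z ≠ 0 := by
    rw [hgz]
    exact div_ne_zero hW (mul_ne_zero ha hb)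
  have hf0 : f z ≠ 0 := by
    rw [hfz]
    exact div_ne_zero ha hb
  have hgd : HasDerivAt g (deriv g z) z := by
    have : DifferentiableAt ℂ g z := by
      rw [hg]
      exact hdW.div (hda.differentiableAt.mul hdb.differentiableAt) (mul_ne_zero ha hb)
    exact this.hasDerivAt
  obtain ⟨g', hg'⟩ : ∃ g' : ℂ, g' = deriv g z := ⟨_, rfl⟩
  rw [← hg'] at hgd
  have hfd : HasDerivAt f (g z * f z) z := by
    rw [hgz, hfz, hf]
    refine (hda.div hdb hb).congr_deriv ?_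
    unfold Wr
    field_simp
  -- the value of `x`
  obtain ⟨x, hxd⟩ : ∃ x, x = xo β a0 b0 z := ⟨_, rfl⟩
  have hxf : ∀ y, xo β a0 b0 y = ‖f y‖ ^ (2 / (β : ℝ)) := by
    intro y
    unfold xo
    rw [hf]
    simp only [norm_div]
  have hfn : 0 < ‖f z‖ := norm_pos_iff.2 hf0
  have hbn : 0 < ‖b0 z‖ := norm_pos_iff.2 hb
  have hx0 : 0 < x := by
    rw [hxd, hxf]
    exact Real.rpow_pos_of_pos hfn _
  have hx1 : x < T0 (1 / 2) ^ (2 / (β : ℝ)) := by
    rw [hxd, hxf]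
    apply Real.rpow_lt_rpow hfn.le _ (by positivity)
    rw [hfz, norm_div, div_lt_iff₀ hbn]
    exact hx
  obtain ⟨q, hqd⟩ : ∃ q, q = G x := ⟨_, rfl⟩
  have hxm : x ∈ Set.Ioo (-δ) (T0 (1 / 2) ^ (2 / (β : ℝ))) := by
    have := hp.pos
    exact ⟨by linarith, hx1⟩
  have hq0 : 0 < q := by
    rw [hqd, hp.eq x hxm]
    exact mul_pos hx0 (hp.hpos x hxm)
  have hq1 : q < 1 := by
    have := hp.lt x ⟨hx0, hx1⟩
    rw [hqd]
    linarith
  obtain ⟨M, hMd⟩ : ∃ M, M = Mf β mu q := ⟨_, rfl⟩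
  have hM : 0 < M := by
    rw [hMd]
    exact Mf_pos hd hβ hq1
  have hxq : G (xo β a0 b0 z) = q := by rw [hqd, hxd]
  -- directional derivatives in the plane
  have hX : ∀ V : ℂ, LocF_DV (xo β a0 b0) z V ((2 / β) * x * (g z * V).re) := by
    intro V
    have h1 := LocF_norm (LocF_holo (V := V) hfd) hf0
    have h2 := LocF_real h1 (Real.hasDerivAt_rpow_const (p := 2 / (β : ℝ)) (Or.inl hfn.ne'))
    have h3 : xo β a0 b0 = fun y => ‖f y‖ ^ (2 / (β : ℝ)) := funext hxf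
    rw [h3]
    refine LocF_val h2 ?_
    have h4 : g z * f z * V / f z = g z * V := by field_simp
    rw [h4, hxd, hxf, Real.rpow_sub_one hfn.ne']
    field_simp
  have hQ : ∀ V : ℂ, LocF_DV (fun y => G (xo β a0 b0 y)) z V (2 * q / M * (g z * V).re) := by
    intro V
    have h1 := hp.der x ⟨hx0, hx1⟩
    rw [← hqd, ← hMd, hxd] at h1
    refine LocF_val (LocF_real (hX V) h1) ?_
    rw [← hxd]
    field_simp
  have hsq : 0 < Real.sqrt q := Real.sqrt_pos.2 hq0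
  have hsq2 : Real.sqrt q ^ 2 = q := Real.sq_sqrt hq0.le
  have hS : ∀ V : ℂ, LocF_DV (fun y => Real.sqrt (G (xo β a0 b0 y))) z V
      (Real.sqrt q / M * (g z * V).re) := by
    intro V
    have h1 : HasDerivAt Real.sqrt (1 / (2 * Real.sqrt (G (xo β a0 b0 z)))) (G (xo β a0 b0 z)) :=
      Real.hasDerivAt_sqrt (by rw [hxq]; exact hq0.ne')
    refine LocF_val (LocF_real (hQ V) h1) ?_
    rw [hxq]
    field_simp
    rw [hsq2]
  have hN : ∀ V : ℂ, LocF_DV (fun y => ‖g y‖) z V (‖g z‖ * (g' * V / g z).re) := fun V =>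
    LocF_norm (LocF_holo hgd) hg0
  have hrg : rhoO β G a0 b0 = fun y => Real.sqrt (G (xo β a0 b0 y)) * ‖g y‖ := by
    funext y
    unfold rhoO
    rw [hg]
    simp only [norm_div, norm_mul]
  have hgn : 0 < ‖g z‖ := norm_pos_iff.2 hg0
  obtain ⟨ρ, hρd⟩ : ∃ ρ, ρ = Real.sqrt q * ‖g z‖ := ⟨_, rfl⟩
  have hρ : 0 < ρ := by rw [hρd]; positivity
  have hρO : rhoO β G a0 b0 z = ρ := by
    rw [hrg, hρd]
    simp only [hxq]
  have hρu : rho u z = ρ := by rw [hu.self_of_nhds, hρO]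
  have hρ2 : ρ ^ 2 = q * ‖g z‖ ^ 2 := by rw [hρd, mul_pow, hsq2]
  have hR : ∀ V : ℂ, LocF_DV (rhoO β G a0 b0) z V
      (ρ * ((g z * V).re / M + (g' * V / g z).re)) := by
    intro V
    rw [hrg]
    refine LocF_val (LocF_mulR (hS V) (hN V)) ?_
    rw [hxq, hρd]
    ring
  have hphi : ∀ V : ℂ, LocF_DV (phi u) z V ((g z * V).re / M + (g' * V / g z).re) := by
    intro V
    have h1 : LocF_DV (rho u) z V (ρ * ((g z * V).re / M + (g' * V / g z).re)) :=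
      LocF_congr (hR V) hu
    have h2 : HasDerivAt Real.log (rho u z)⁻¹ (rho u z) :=
      Real.hasDerivAt_log (by rw [hρu]; exact hρ.ne')
    refine LocF_val (LocF_real h1 h2) ?_
    rw [hρu]
    field_simp
  obtain ⟨v, hvd⟩ : ∃ v, v = dir θ := ⟨_, rfl⟩
  have hv : ‖v‖ = 1 := by rw [hvd]; exact norm_dir θ
  obtain ⟨κ, hκd⟩ : ∃ κ, κ = ((g z * (I * v)).re / M + (g' * (I * v) / g z).re) / ρ := ⟨_, rfl⟩
  have hκ : kap u z (dir θ) = κ := by
    unfold kap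
    rw [LocF_fderiv (hphi (I * dir θ)), hρu, hκd, hvd]
  have hgeo : geoV u (z, θ) = (v / (ρ : ℂ), κ) := by
    unfold geoV
    dsimp only
    rw [hκ, hρu, ← hvd]
  -- the derivative of `Λ`
  obtain ⟨L, hLd⟩ : ∃ L, L = g z * ((q / ρ : ℝ) : ℂ) := ⟨_, rfl⟩
  have hLO : LamO β G a0 b0 z = L := by
    unfold LamO
    rw [hxq, hρO, hLd, hgz]
  have hLam : ∀ V : ℂ, LocF_DV (LamO β G a0 b0) z V
      (L * (g' * V / g z + (((g z * V).re / M - (g' * V / g z).re : ℝ) : ℂ))) := by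
    intro V
    have h1 : HasDerivAt (fun t : ℝ => t⁻¹) (-(rhoO β G a0 b0 z ^ 2)⁻¹) (rhoO β G a0 b0 z) :=
      hasDerivAt_inv (by rw [hρO]; exact hρ.ne')
    have h2 := LocF_mulR (hQ V) (LocF_real (hR V) h1)
    have h3 := LocF_clm Complex.ofRealCLM h2
    have h4 := LocF_mulC (LocF_holo (V := V) hgd) h3
    have h5 : LamO β G a0 b0 = fun y => g y *
        Complex.ofRealCLM (G (xo β a0 b0 y) * (rhoO β G a0 b0 y)⁻¹) := by
      funext y
      unfold LamO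
      rw [hg, Complex.ofRealCLM_apply, div_eq_mul_inv (G _)]
    rw [h5]
    refine LocF_val h4 ?_
    rw [hxq, hρO, hLd]
    simp only [Complex.ofRealCLM_apply]
    have hρc : (ρ : ℂ) ≠ 0 := Complex.ofReal_ne_zero.2 hρ.ne'
    have hMc : (M : ℂ) ≠ 0 := Complex.ofReal_ne_zero.2 hM.ne'
    push_cast
    field_simp
    ring
  have hdir : LocF_DV (fun p : ℂ × ℝ => dir p.2) (z, θ) (v / (ρ : ℂ), κ) (I * (κ : ℂ) * v) := by
    have h1 := LocF_dir 1 (z, θ) (v / (ρ : ℂ), κ)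
    simp only [one_mul] at h1
    rw [← hvd] at h1
    exact h1
  have hxi : LocF_DV (fun p : ℂ × ℝ => dir p.2 * LamO β G a0 b0 p.1) (z, θ) (v / (ρ : ℂ), κ)
      ((1 / M : ℝ) : ℂ) := by
    refine LocF_val (LocF_mulC hdir (LocF_fst (p := (z, θ)) (V := (v / (ρ : ℂ), κ))
      (hLam (v / (ρ : ℂ))))) ?_
    rw [← LocF_alg1 (g' := g') hv hg0 hρ hM hq0 hρ2 hκd, ← hLd]
    simp only [← hvd, hLO]
    ring
  refine ⟨?_, ?_⟩
  · obtain ⟨Q', h1, h2⟩ := hxi
    refine ⟨Q', h1, ?_⟩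
    rw [hgeo, h2, hxq, hMd]
  · -- the derivative of `E`
    have hgβ : HasDerivAt (fun y => g y ^ β * f y)
        (g z ^ β * f z * ((β : ℂ) * g' / g z + g z)) z := by
      have h1 := (hgd.pow β).mul hfd
      refine h1.congr_deriv ?_
      have h2 : g z ^ β = g z ^ (β - 1) * g z := by
        rw [← pow_succ]
        congr 1
        omega
      simp only [Pi.pow_apply]
      rw [h2]
      field_simp
    have hEe : EO β a0 b0 =ᶠ[𝓝 z] fun y => g y ^ β * f y := by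
      have h1 : ∀ᶠ y in 𝓝 z, a0 y ≠ 0 := hda.continuousAt.eventually_ne ha
      have h2 : ∀ᶠ y in 𝓝 z, b0 y ≠ 0 := hdb.continuousAt.eventually_ne hb
      filter_upwards [h1, h2] with y hy1 hy2
      unfold EO
      rw [hg, hf]
      dsimp only
      have h3 : a0 y ^ β = a0 y ^ (β - 1) * a0 y := by
        rw [← pow_succ]
        congr 1
        omega
      rw [div_pow, mul_pow, h3, pow_succ (b0 y) β]
      field_simp
    obtain ⟨E, hEd⟩ : ∃ E, E = g z ^ β * f z := ⟨_, rfl⟩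
    have hE0 : E ≠ 0 := by
      rw [hEd]
      exact mul_ne_zero (pow_ne_zero _ hg0) hf0
    have hEz : EO β a0 b0 z = E := by rw [hEe.self_of_nhds, hEd]
    have hEO : ∀ V : ℂ, LocF_DV (EO β a0 b0) z V (E * ((β : ℂ) * g' / g z + g z) * V) := by
      intro V
      refine LocF_val (LocF_congr (LocF_holo (V := V) hgβ) hEe) ?_
      rw [hEd]
    -- the derivative of `E/|E|`
    have hEn : ∀ V : ℂ, LocF_DV (fun y => EO β a0 b0 y / (‖EO β a0 b0 y‖ : ℂ)) z V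
        (E / (‖E‖ : ℂ) * (I * ((((β : ℂ) * g' / g z + g z) * V).im : ℂ))) := by
      intro V
      have h0 : EO β a0 b0 z ≠ 0 := by rw [hEz]; exact hE0
      have h1 := LocF_norm (hEO V) h0
      have h2 : HasDerivAt (fun t : ℝ => t⁻¹) (-(‖EO β a0 b0 z‖ ^ 2)⁻¹) ‖EO β a0 b0 z‖ :=
        hasDerivAt_inv (norm_ne_zero_iff.2 h0)
      have h3 := LocF_clm Complex.ofRealCLM (LocF_real h1 h2)
      have h4 := LocF_mulC (hEO V) h3
      have h5 : (fun y => EO β a0 b0 y / (‖EO β a0 b0 y‖ : ℂ)) = fun y => EO β a0 b0 y *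
          Complex.ofRealCLM (‖EO β a0 b0 y‖⁻¹) := by
        funext y
        rw [Complex.ofRealCLM_apply, Complex.ofReal_inv, div_eq_mul_inv]
      rw [h5]
      refine LocF_val h4 ?_
      rw [hEz]
      simp only [Complex.ofRealCLM_apply]
      obtain ⟨C, hC⟩ : ∃ C, C = ((β : ℂ) * g' / g z + g z) * V := ⟨_, rfl⟩
      have h6 : E * ((β : ℂ) * g' / g z + g z) * V / E = C := by
        rw [hC]
        field_simp
      have h7 : E * ((β : ℂ) * g' / g z + g z) * V = E * C := by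
        rw [hC]
        ring
      rw [h6, h7, ← hC]
      have hEn0 : (‖E‖ : ℂ) ≠ 0 := Complex.ofReal_ne_zero.2 (norm_ne_zero_iff.2 hE0)
      have h8 : (C.im : ℂ) * I = C - (C.re : ℂ) := by
        apply Complex.ext <;> simp
      push_cast
      rw [mul_comm I, h8]
      field_simp
      ring
    obtain ⟨r, hr⟩ : ∃ r : ℝ, r = β * κ + (((β : ℂ) * g' / g z + g z) * (v / (ρ : ℂ))).im :=
      ⟨_, rfl⟩
    have hU : LocF_DV (fun p : ℂ × ℝ => dir (β * p.2) * (EO β a0 b0 p.1 / (‖EO β a0 b0 p.1‖ : ℂ)))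
        (z, θ) (v / (ρ : ℂ), κ) (dir (β * θ) * (E / (‖E‖ : ℂ)) * (I * (r : ℂ))) := by
      refine LocF_val (LocF_mulC (LocF_dir β (z, θ) (v / (ρ : ℂ), κ))
        (LocF_fst (p := (z, θ)) (V := (v / (ρ : ℂ), κ)) (hEn (v / (ρ : ℂ))))) ?_
      dsimp only
      rw [hEz, hr]
      push_cast
      ring
    have hUc := LocF_clm (Complex.conjCLE : ℂ →L[ℝ] ℂ) hU
    -- the derivative of `Ψ`
    obtain ⟨ξ, hξ⟩ : ∃ ξ, ξ = dir θ * LamO β G a0 b0 z := ⟨_, rfl⟩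
    have hξL : ξ = g z * v * ((q / ρ : ℝ) : ℂ) := by
      rw [hξ, hLO, hLd, ← hvd]
      ring
    have hξq : ξ.im ^ 2 + ξ.re ^ 2 = q := by
      have h1 : ‖ξ‖ ^ 2 = q := by
        rw [hξL, norm_mul, norm_mul, hv, mul_one, Complex.norm_real, Real.norm_of_nonneg
          (by positivity), mul_pow, div_pow, hρ2]
        field_simp
      rw [← h1, Complex.sq_norm, Complex.normSq_apply]
      ring
    have hPr := LocF_prod (LocF_clm Complex.imCLM hxi) (LocF_clm Complex.reCLM hxi)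
    have hPd : DifferentiableAt ℝ (fun p : ℝ × ℝ => Psi β mu p.1 p.2) (ξ.im, ξ.re) :=
      (Psi_smooth hd β (by rw [hξq]; exact hq1)).differentiableAt (by simp)
    obtain ⟨Ψ', hΨ⟩ : ∃ Ψ' : ℝ × ℝ →L[ℝ] ℝ, HasFDerivAt (fun p : ℝ × ℝ => Psi β mu p.1 p.2) Ψ'
      (ξ.im, ξ.re) := ⟨_, hPd.hasFDerivAt⟩
    have hΨ1 : Ψ' (0, 1) = ξ.im * mf β mu q := by
      have h1 : HasDerivAt (fun y : ℝ => ((ξ.im, y) : ℝ × ℝ)) ((0 : ℝ), (1 : ℝ)) ξ.re :=
        (hasDerivAt_const _ _).prodMk (hasDerivAt_id _)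
      have h2 : HasDerivAt (fun y : ℝ => Psi β mu ξ.im y) (Ψ' (0, 1)) ξ.re :=
        HasFDerivAt.comp_hasDerivAt (f := fun y : ℝ => ((ξ.im, y) : ℝ × ℝ)) ξ.re hΨ h1
      have h3 := Psi_deriv hd β (j := ξ.im) (k := ξ.re) (by rw [hξq]; exact hq1)
      rw [hξq] at h3
      exact h2.unique h3
    have hΨM : Ψ' (0, 1 / M) = ξ.im * mf β mu q / M := by
      have h1 : ((0 : ℝ), 1 / M) = (1 / M) • ((0 : ℝ), (1 : ℝ)) := by simp
      rw [h1, map_smul, hΨ1, smul_eq_mul]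
      ring
    have hP : LocF_DV (fun p : ℂ × ℝ => Psi β mu (dir p.2 * LamO β G a0 b0 p.1).im
        (dir p.2 * LamO β G a0 b0 p.1).re) (z, θ) (v / (ρ : ℂ), κ) (ξ.im * mf β mu q / M) := by
      have h1 : HasFDerivAt (fun p : ℝ × ℝ => Psi β mu p.1 p.2) Ψ'
          (Complex.imCLM (dir (z, θ).2 * LamO β G a0 b0 (z, θ).1),
            Complex.reCLM (dir (z, θ).2 * LamO β G a0 b0 (z, θ).1)) := by
        have h2 : (Complex.imCLM (dir (z, θ).2 * LamO β G a0 b0 (z, θ).1),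
            Complex.reCLM (dir (z, θ).2 * LamO β G a0 b0 (z, θ).1)) = (ξ.im, ξ.re) := by
          rw [hξ]
          rfl
        rw [h2]
        exact hΨ
      refine LocF_val (LocF_comp hPr h1) ?_
      rw [← hΨM]
      simp
    have hexp : LocF_DV (fun p : ℂ × ℝ => Complex.exp (-I * (Psi β mu
        (dir p.2 * LamO β G a0 b0 p.1).im (dir p.2 * LamO β G a0 b0 p.1).re : ℂ))) (z, θ)
        (v / (ρ : ℂ), κ) (Complex.exp (-I * (Psi β mu ξ.im ξ.re : ℂ)) *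
          (-I * ((ξ.im * mf β mu q / M : ℝ) : ℂ))) := by
      have h1 : ∀ t : ℝ, HasDerivAt (fun t : ℝ => Complex.exp (-I * (t : ℂ)))
          (Complex.exp (-I * (t : ℂ)) * -I) t := by
        intro t
        have h2 : HasDerivAt (fun t : ℝ => -I * (t : ℂ)) (-I) t := by
          have h3 := (hasDerivAt_id t).ofReal_comp.const_mul (-I)
          simpa using h3
        exact h2.cexp
      refine LocF_val (LocF_comp (Φ := fun t : ℝ => Complex.exp (-I * (t : ℂ))) hP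
        (h1 _).hasFDerivAt) ?_
      simp only [ContinuousLinearMap.smulRight_apply, ContinuousLinearMap.toSpanSingleton_apply,
        ← hξ]
      rw [Complex.real_smul]
      ring
    have hfin := LocF_mulC hUc hexp
    have hrc : r + ξ.im * mf β mu q / M = 0 := by
      obtain ⟨A, hA⟩ : ∃ A, A = g z * v := ⟨_, rfl⟩
      obtain ⟨B, hB⟩ : ∃ B, B = g' * v / g z := ⟨_, rfl⟩
      have e3 : g z * (I * v) = I * A := by rw [hA]; ring
      have e4 : g' * (I * v) / g z = I * B := by rw [hB]; ring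
      have e5 : (I * A).re = -A.im := by simp
      have e6 : (I * B).re = -B.im := by simp
      have e7 : ((β : ℂ) * g' / g z + g z) * (v / (ρ : ℂ)) = ((β : ℝ) * B + A) / (ρ : ℂ) := by
        rw [hA, hB]
        push_cast
        ring
      have e8 : r = β * ((-A.im / M + -B.im) / ρ) + (β * B.im + A.im) / ρ := by
        rw [hr, e7, Complex.div_ofReal_im, hκd, e3, e4, e5, e6, Complex.add_im,
          Complex.im_ofReal_mul]
      have e9 : ξ.im = A.im * (q / ρ) := by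
        rw [hξL, ← hA, Complex.im_mul_ofReal]
      have e10 : q * mf β mu q = (β : ℝ) - M := by rw [mf_mul hq1, hMd]
      have e11 : ξ.im * mf β mu q / M = A.im * (q * mf β mu q) / (ρ * M) := by
        rw [e9]
        field_simp
      rw [e11, e8, e10]
      field_simp
      ring
    have hchi : LocF_DV (fun p : ℂ × ℝ => chi β mu p.2 (LamO β G a0 b0 p.1) (EO β a0 b0 p.1))
        (z, θ) (v / (ρ : ℂ), κ) 0 := by
      refine LocF_val hfin ?_
      have h1 : ξ.im * mf β mu q / M = -r := by linarith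
      rw [h1]
      simp only [← hξ, hEz]
      simp
      ring
    obtain ⟨Q', h1, h2⟩ := hchi
    exact ⟨Q', h1, by rw [hgeo, h2]⟩

end Pool.Agent.H.MP_bfbbee_an.F4
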