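import Pool.Agent.H.MP_bfbbee_an.helper67.GF
import Pool.Agent.H.MP_bfbbee_an.helper67.LocF

/-!
# The first integral is conserved and invariant
-/

set_option autoImplicit false

namespace Pool.Agent.H.MP_bfbbee_an.F4

open ComplexConjugate Filter Topology Complex
open scoped ContDiff

/-- Composition with a continuous linear map. -/
private theorem GI_lin {E E' : Type*} [NormedAddCommGroup E] [NormedSpace ℝ E]
    [NormedAddCommGroup E'] [NormedSpace ℝ E'] {u : ℂ → ℝ} {Q : ℂ × ℝ → E} {p : ℂ × ℝ} {d : E}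
    (hQ : DerG u Q p d) (T : E →L[ℝ] E') : DerG u (fun x => T (Q x)) p (T d) := by
  obtain ⟨Q', h1, h2⟩ := hQ
  refine ⟨T.comp Q', T.hasFDerivAt.comp p h1, ?_⟩
  rw [ContinuousLinearMap.comp_apply, h2]

private theorem GI_const {u : ℂ → ℝ} {p : ℂ × ℝ} (c : ℝ) : DerG u (fun _ => c) p 0 :=
  ⟨0, hasFDerivAt_const c p, by simp⟩

private theorem GI_pair {E E' : Type*} [NormedAddCommGroup E] [NormedSpace ℝ E]
    [NormedAddCommGroup E'] [NormedSpace ℝ E'] {u : ℂ → ℝ} {Q : ℂ × ℝ → E} {Q₁ : ℂ × ℝ → E'}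
    {p : ℂ × ℝ} (hQ : DerG u Q p 0) (hQ₁ : DerG u Q₁ p 0) :
    DerG u (fun x => (Q x, Q₁ x)) p 0 := hQ.prodMk hQ₁

private theorem GI_mul {u : ℂ → ℝ} {Q Q₁ : ℂ × ℝ → ℝ} {p : ℂ × ℝ} (hQ : DerG u Q p 0)
    (hQ₁ : DerG u Q₁ p 0) : DerG u (fun x => Q x * Q₁ x) p 0 :=
  (GI_pair hQ hQ₁).comp (Φ := fun y : ℝ × ℝ => y.1 * y.2) (by fun_prop)

private theorem GI_add {u : ℂ → ℝ} {Q Q₁ : ℂ × ℝ → ℝ} {p : ℂ × ℝ} (hQ : DerG u Q p 0)
    (hQ₁ : DerG u Q₁ p 0) : DerG u (fun x => Q x + Q₁ x) p 0 :=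
  (GI_pair hQ hQ₁).comp (Φ := fun y : ℝ × ℝ => y.1 + y.2) (by fun_prop)

private theorem GI_prod {u : ℂ → ℝ} {p : ℂ × ℝ} {ι : Type*} (s : Finset ι)
    {Q : ι → ℂ × ℝ → ℝ} (h : ∀ i ∈ s, DerG u (Q i) p 0) :
    DerG u (fun x => ∏ i ∈ s, Q i x) p 0 := by
  classical
  induction s using Finset.induction_on with
  | empty => simpa using GI_const 1
  | insert a s ha ih =>
    simp only [Finset.prod_insert ha]
    exact GI_mul (h a (Finset.mem_insert_self a s))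
      (ih fun i hi => h i (Finset.mem_insert_of_mem hi))

private theorem GI_sum {u : ℂ → ℝ} {p : ℂ × ℝ} {ι : Type*} (s : Finset ι)
    {Q : ι → ℂ × ℝ → ℝ} (h : ∀ i ∈ s, DerG u (Q i) p 0) :
    DerG u (fun x => ∑ i ∈ s, Q i x) p 0 := by
  classical
  induction s using Finset.induction_on with
  | empty => simpa using GI_const 0
  | insert a s ha ih =>
    simp only [Finset.sum_insert ha]
    exact GI_add (h a (Finset.mem_insert_self a s))
      (ih fun i hi => h i (Finset.mem_insert_of_mem hi))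

namespace Cfg

variable {D : Cfg}

private theorem GI_diff {f : ℝ → ℝ} (hf : ContDiff ℝ ∞ f) (t : ℝ) : DifferentiableAt ℝ f t :=
  hf.contDiffAt.differentiableAt (by simp)

private theorem GI_comp {u : ℂ → ℝ} {Q : ℂ × ℝ → ℝ} {p : ℂ × ℝ} {f : ℝ → ℝ}
    (hf : ContDiff ℝ ∞ f) (hQ : DerG u Q p 0) : DerG u (fun x => f (Q x)) p 0 :=
  hQ.comp (GI_diff hf _)

theorem Fout_flow (h : D.Ok) {z : ℂ} (hz : D.Away z) (θ : ℝ) :
    DerG D.u D.Fout (z, θ) 0 := by
  have hW := Away_W h hz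
  have hu := rho_away h hz
  have hJ := (JN_flow h.pair hz.1 hW hu θ).1
  have hrot : ∀ l, DerG D.u (D.Jl l) (z, θ) 0 ∧ DerG D.u (D.Nl l) (z, θ) 0 := by
    intro l
    have hu' : ∀ᶠ y in 𝓝 z, rho D.u y = rst (rA l D.A D.B) (rB l D.A D.B) y := by
      filter_upwards [hu, Away_open h hz] with y hy hy1
      rw [hy, rst, rst, Wr_rot h.pair l hy1.1, Dn_rot]
    exact JN_flow (pair_rot h.pair l) hz.1 (by rwa [Wr_rot h.pair l hz.1]) hu' θ
  refine GI_add (GI_mul hJ (GI_prod _ fun l _ => GI_comp h.cGs (hrot l).1))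
    (GI_sum _ fun l _ => ?_)
  refine GI_mul (GI_mul (hrot l).1 (GI_comp h.cgs (hrot l).1)) (GI_prod _ fun l' _ => ?_)
  refine GI_comp h.cXs ?_
  have h1 : DifferentiableAt ℝ (fun n : ℂ => (cc l l' / (‖cc l l'‖ : ℂ)) ^ 2 * n ^ 2)
      (D.Nl l (z, θ)) := by fun_prop
  exact (hrot l).2.comp
    (Φ := fun n : ℂ => ((cc l l' / (‖cc l l'‖ : ℂ)) ^ 2 * n ^ 2).re)
    (Complex.reCLM.differentiableAt.comp _ h1)

theorem Fin_flow (h : D.Ok) {P z : ℂ} (hz : D.In P z) (hne : z ≠ P) (θ : ℝ) :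
    DerG D.u (D.Fin P) (z, θ) 0 := by
  obtain ⟨hW, ha, hb, hx, hβ⟩ := In_ne h hz hne
  obtain ⟨δ, hp⟩ := h.prof _ hβ
  have hzD := hz.2.1
  obtain ⟨h1, h2⟩ := xi_flow hβ (pair_rot h.pair (D.lv P)) h.dev hp hzD
    (by rwa [Wr_rot h.pair _ hzD]) ha hb hx (rho_cap h hz hne) θ
  have hj := GI_lin h1 Complex.imCLM
  rw [Complex.imCLM_apply, Complex.ofReal_im] at hj
  simp only [Complex.imCLM_apply] at hj
  refine GI_mul (GI_mul hj (GI_comp h.cgs hj)) (GI_prod _ fun l' _ => GI_comp h.cXs ?_)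
  have h3 := GI_pair hj h2
  exact h3.comp (Φ := fun y : ℝ × ℂ => ((cc (D.lv P) l' / (‖cc (D.lv P) l'‖ : ℂ)) ^ 2 *
    (-((1 - y.1 ^ 2 : ℝ) : ℂ) * y.2 ^ 2)).re)
    (Complex.reCLM.differentiableAt.comp _ ((((Complex.ofRealCLM.differentiableAt.comp _
      (by fun_prop : DifferentiableAt ℝ (fun y : ℝ × ℂ => 1 - y.1 ^ 2) _)).neg).mul
        (by fun_prop)).const_mul _))

/-- Near a point of a cap, outside the centre, `F` is `Fin`. -/
private theorem GI_cap (h : D.Ok) {P z : ℂ} (hz : D.In P z) (hne : z ≠ P) (θ : ℝ) :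
    D.F =ᶠ[𝓝 (z, θ)] D.Fin P := by
  obtain ⟨rl, Ll, El, hR⟩ := exists_rep h hz.1
  have h1 := F_cap h hR hz θ
  have h2 : ∀ᶠ y in 𝓝 z, D.In P y ∧ y ≠ P := (In_open h hz).and (isOpen_ne.mem_nhds hne)
  have h3 : ∀ᶠ p : ℂ × ℝ in 𝓝 (z, θ), D.In P p.1 ∧ p.1 ≠ P := by
    have hc : Tendsto (Prod.fst : ℂ × ℝ → ℂ) (𝓝 (z, θ)) (𝓝 z) := continuous_fst.tendsto _
    exact hc.eventually h2
  filter_upwards [h1, h3] with p hp hq
  rw [hp, ← hR.eq2 _ hq.1 hq.2, ← hR.eq3 _ hq.1 hq.2]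
  rfl

theorem F_first (h : D.Ok) : FirstIntegral D.u D.F := by
  refine firstIntegral_of ((u_smooth h).of_le (by simp)) ((F_smooth h).of_le (by simp))
    (fun z hz θ => F_per h hz θ) (dense_compl h) fun z hz hW θ => ?_
  have hW' : Wr D.A D.B z ≠ 0 := hW
  rcases In_or_Away h hz with ⟨P, hP⟩ | ha
  · have hne : z ≠ P := by
      rintro rfl
      exact hW' hP.1.2
    exact ((Fin_flow h hP hne θ).congr (GI_cap h hP hne θ)).fderiv_eq
  · exact ((Fout_flow h ha θ).congr (F_away h ha θ)).fderiv_eq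

/-- Invariance at the points with `W ≠ 0`. -/
private theorem GI_inv (h : D.Ok) {w a : ℂ} (hm : Pres D.A D.B w a) {z : ℂ} (hz : z ∈ Disc)
    (hW : Wr D.A D.B z ≠ 0) {θ θ' : ℝ}
    (hθ : dir θ' = dir θ * (mobd w a z / (‖mobd w a z‖ : ℂ))) :
    D.F (mob w a z, θ') = D.F (z, θ) := by
  rcases In_or_Away h hz with ⟨P, hP⟩ | ha
  · have hne : z ≠ P := by
      rintro rfl
      exact hW hP.1.2
    have hne' : mob w a z ≠ mob w a P := by
      intro he
      apply hne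
      have h1 := mob_inv hm.1 hm.2.1 (RadA_lt hz).le
      have h2 := mob_inv hm.1 hm.2.1 (RadA_lt hP.1.1).le
      rw [← h1, he, h2]
    obtain ⟨hP', hlv, hord⟩ := In_pres h hm hP
    obtain ⟨_, hra, hrb, hx, hβ⟩ := In_ne h hP hne
    obtain ⟨rl, Ll, El, hR⟩ := exists_rep h hP.1
    obtain ⟨_, h2⟩ := pres_mod (mu := D.mu) hβ (pair_rot h.pair (D.lv P)) (pres_rot hm (D.lv P)) hz
      (by rwa [Wr_rot h.pair _ hz]) hra hrb (hR.gpos z hP hne)
    obtain ⟨h3, h4⟩ := h2 θ θ' hθ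
    rw [(GI_cap h hP' hne' θ').self_of_nhds, (GI_cap h hP hne θ).self_of_nhds]
    simp only [Fin, Fk, hlv, hord]
    unfold ra rb
    rw [h3, h4]
  · have ha' := Away_pres h hm ha
    rw [(F_away h ha' θ').self_of_nhds, (F_away h ha θ).self_of_nhds]
    have h1 := (pres_J h.pair hm hz hW hθ).1
    have h2 : ∀ l, D.Jl l (mob w a z, θ') = D.Jl l (z, θ) ∧
        D.Nl l (mob w a z, θ') = D.Nl l (z, θ) := fun l =>
      pres_J (pair_rot h.pair l) (pres_rot hm l) hz (by rwa [Wr_rot h.pair l hz]) hθ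
    simp only [Fout, h1, (h2 _).1, (h2 _).2]

theorem F_fsym (h : D.Ok) {w a : ℂ} (hm : Pres D.A D.B w a) : FSym D.F w a := by
  intro z hz θ θ' hθ
  have hw := hm.1
  have ha := hm.2.1
  -- the filter of points with `W ≠ 0`
  have hcl : z ∈ closure (Disc \ {z | Wr D.A D.B z = 0}) := dense_compl h hz
  have : (𝓝[Disc \ {z | Wr D.A D.B z = 0}] z).NeBot := mem_closure_iff_nhdsWithin_neBot.1 hcl
  set l : Filter ℂ := 𝓝[Disc \ {z | Wr D.A D.B z = 0}] z with hl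
  have hlz : l ≤ 𝓝 z := nhdsWithin_le_nhds
  -- the unit derivative
  set v : ℂ → ℂ := fun y => mobd w a y / (‖mobd w a y‖ : ℂ) with hv
  have hd0 : mobd w a z ≠ 0 := mobd_ne hw ha (RadA_lt hz).le
  have hdc : ContinuousAt (mobd w a) z := by
    have hden := den_ne ha (RadA_lt hz).le
    unfold mobd
    exact ContinuousAt.div (by fun_prop) (by fun_prop) (pow_ne_zero 2 hden)
  have hvc : ContinuousAt v z := by
    refine hdc.div ?_ ?_
    · exact Complex.continuous_ofReal.continuousAt.comp hdc.norm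
    · simpa using hd0
  have hv1 : ∀ y ∈ Disc, ‖v y‖ = 1 := by
    intro y hy
    have h0 : mobd w a y ≠ 0 := mobd_ne hw ha (RadA_lt hy).le
    rw [hv]
    simp only
    rw [norm_div, Complex.norm_real, norm_norm, div_self (norm_ne_zero_iff.2 h0)]
  have hex : ∀ y : ℂ, ∃ t : ℝ, y ∈ Disc → dir t = dir θ * v y ∧
      |t - θ'| ≤ 2 * ‖dir θ * v y - dir θ'‖ := by
    intro y
    by_cases hy : y ∈ Disc
    · obtain ⟨t, ht1, ht2⟩ := exists_near (θ := θ') (v := dir θ * v y)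
        (by rw [norm_mul, norm_dir, hv1 y hy, one_mul])
      exact ⟨t, fun _ => ⟨ht1, ht2⟩⟩
    · exact ⟨0, fun h => absurd h hy⟩
  choose t ht using hex
  have hmem : ∀ᶠ y in l, y ∈ Disc ∧ Wr D.A D.B y ≠ 0 := by
    rw [hl]
    filter_upwards [self_mem_nhdsWithin] with y hy
    exact ⟨hy.1, hy.2⟩
  have htt : Tendsto t l (𝓝 θ') := by
    rw [tendsto_iff_norm_sub_tendsto_zero]
    have h1 : Tendsto (fun y => 2 * ‖dir θ * v y - dir θ'‖) l (𝓝 0) := by
      have h2 : Tendsto (fun y => 2 * ‖dir θ * v y - dir θ'‖) (𝓝 z)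
          (𝓝 (2 * ‖dir θ * v z - dir θ'‖)) :=
        (((hvc.const_mul (dir θ)).sub continuousAt_const).norm).const_mul 2
      have h3 : dir θ * v z - dir θ' = 0 := by rw [hθ, sub_self]
      rw [h3, norm_zero, mul_zero] at h2
      exact h2.mono_left hlz
    refine squeeze_zero' (Eventually.of_forall fun y => norm_nonneg _) ?_ h1
    filter_upwards [hmem] with y hy
    exact (ht y hy.1).2
  have hF := (F_smooth h).continuousOn
  have hopen : IsOpen (Disc ×ˢ (Set.univ : Set ℝ)) := Metric.isOpen_ball.prod isOpen_univ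
  have hmz : mob w a z ∈ Disc := mob_mem hw ha hz
  have hc1 : ContinuousAt D.F (mob w a z, θ') := hF.continuousAt (hopen.mem_nhds ⟨hmz, trivial⟩)
  have hc2 : ContinuousAt D.F (z, θ) := hF.continuousAt (hopen.mem_nhds ⟨hz, trivial⟩)
  have hmc : Tendsto (mob w a) l (𝓝 (mob w a z)) :=
    ((mob_hasDerivAt ha (RadA_lt hz).le).continuousAt).tendsto.mono_left hlz
  have hL1 : Tendsto (fun y => D.F (mob w a y, t y)) l (𝓝 (D.F (mob w a z, θ'))) :=
    hc1.tendsto.comp (hmc.prodMk_nhds htt)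
  have hL2 : Tendsto (fun y => D.F (y, θ)) l (𝓝 (D.F (z, θ))) :=
    hc2.tendsto.comp ((tendsto_id.mono_left hlz).prodMk_nhds tendsto_const_nhds)
  refine tendsto_nhds_unique hL1 (hL2.congr' ?_)
  filter_upwards [hmem] with y hy
  exact (GI_inv h hm hy.1 hy.2 (ht y hy.1).1).symm

end Cfg

end Pool.Agent.H.MP_bfbbee_an.F4
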