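import Pool.Agent.H.MP_bfbbee_an.helper67.PsiA

/-!
# The scattering identity
-/

set_option autoImplicit false

namespace Pool.Agent.H.MP_bfbbee_an.F4

open ComplexConjugate Filter Topology Complex
open scoped ContDiff

variable {a2 a3 : ℝ} {mu : ℝ → ℝ}

private def PsiS_St (β : ℕ) (mu : ℝ → ℝ) (j k : ℝ) : Prop :=
  Complex.exp (-2 * I * (Psi β mu j k : ℂ)) * ((1 - j ^ 2 : ℝ) : ℂ) *
        ((j ^ 2 + k ^ 2 : ℝ) : ℂ) ^ (β + 1) =
      -(((k : ℂ) + I * j) ^ 2) ^ β *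
        ((j * Real.sqrt (1 - (j ^ 2 + k ^ 2)) : ℝ) + I * k) ^ 2

private theorem PsiS_neg_left (β : ℕ) (mu : ℝ → ℝ) (j k : ℝ) :
    Psi β mu (-j) k = -Psi β mu j k := by
  unfold Psi
  rw [neg_sq]
  ring

private theorem PsiS_neg_right (β : ℕ) (mu : ℝ → ℝ) (j k : ℝ) :
    Psi β mu j (-k) = -Psi β mu j k := by
  have h1 := Psi_neg β mu (-j) k
  rw [neg_neg] at h1
  rw [h1, PsiS_neg_left]

private theorem PsiS_conj {β : ℕ} {mu : ℝ → ℝ} {j k : ℝ} (h : PsiS_St β mu j k) :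
    Complex.exp (-2 * -I * (Psi β mu j k : ℂ)) * ((1 - j ^ 2 : ℝ) : ℂ) *
        ((j ^ 2 + k ^ 2 : ℝ) : ℂ) ^ (β + 1) =
      -(((k : ℂ) + -I * j) ^ 2) ^ β *
        ((j * Real.sqrt (1 - (j ^ 2 + k ^ 2)) : ℝ) + -I * k) ^ 2 := by
  unfold PsiS_St at h
  have h1 := congrArg (starRingEnd ℂ) h
  simp only [map_mul, map_pow, map_neg, map_add, ← Complex.exp_conj, Complex.conj_ofReal,
    Complex.conj_I, map_ofNat] at h1
  exact h1

private theorem PsiS_flip1 {β : ℕ} {mu : ℝ → ℝ} {j k : ℝ} (h : PsiS_St β mu j k) :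
    PsiS_St β mu (-j) k := by
  have h1 := PsiS_conj h
  unfold PsiS_St
  rw [PsiS_neg_left, neg_sq]
  have e1 : -2 * I * ((-Psi β mu j k : ℝ) : ℂ) = -2 * -I * (Psi β mu j k : ℂ) := by
    push_cast; ring
  have e2 : (k : ℂ) + I * ((-j : ℝ) : ℂ) = (k : ℂ) + -I * j := by push_cast; ring
  have e3 : (((-j * Real.sqrt (1 - (j ^ 2 + k ^ 2)) : ℝ) : ℂ) + I * k) ^ 2 =
      (((j * Real.sqrt (1 - (j ^ 2 + k ^ 2)) : ℝ) : ℂ) + -I * k) ^ 2 := by push_cast; ring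
  rw [e1, e2, e3]
  exact h1

private theorem PsiS_flip2 {β : ℕ} {mu : ℝ → ℝ} {j k : ℝ} (h : PsiS_St β mu j k) :
    PsiS_St β mu j (-k) := by
  have h1 := PsiS_conj h
  unfold PsiS_St
  rw [PsiS_neg_right, neg_sq]
  have e1 : -2 * I * ((-Psi β mu j k : ℝ) : ℂ) = -2 * -I * (Psi β mu j k : ℂ) := by
    push_cast; ring
  have e2 : (((-k : ℝ) : ℂ) + I * j) ^ 2 = ((k : ℂ) + -I * j) ^ 2 := by push_cast; ring
  have e3 : ((j * Real.sqrt (1 - (j ^ 2 + k ^ 2)) : ℝ) : ℂ) + I * ((-k : ℝ) : ℂ) =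
      ((j * Real.sqrt (1 - (j ^ 2 + k ^ 2)) : ℝ) : ℂ) + -I * k := by push_cast; ring
  rw [e1, e2, e3]
  exact h1

private theorem PsiS_deriv1 {j : ℝ} (hj : 0 < j) (y : ℝ) :
    HasDerivAt (fun y : ℝ => Real.arctan (y / j)) (j / (j ^ 2 + y ^ 2)) y := by
  have h1 : HasDerivAt (fun y : ℝ => y / j) (1 / j) y := (hasDerivAt_id y).div_const j
  have h2 := h1.arctan
  convert h2 using 1
  have h3 : (0 : ℝ) < j ^ 2 + y ^ 2 := by positivity
  field_simp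

private theorem PsiS_deriv2 {j y : ℝ} (hj : 0 < j) (h : j ^ 2 + y ^ 2 < 1) :
    HasDerivAt (fun y : ℝ => Real.arctan (y / (j * Real.sqrt (1 - (j ^ 2 + y ^ 2)))))
      (j / ((j ^ 2 + y ^ 2) * Real.sqrt (1 - (j ^ 2 + y ^ 2)))) y := by
  have hpos : 0 < 1 - (j ^ 2 + y ^ 2) := by linarith
  have hR : HasDerivAt (fun y : ℝ => Real.sqrt (1 - (j ^ 2 + y ^ 2)))
      (-(2 * y) / (2 * Real.sqrt (1 - (j ^ 2 + y ^ 2)))) y := by
    have h0 : HasDerivAt (fun y : ℝ => 1 - (j ^ 2 + y ^ 2)) (-(2 * y)) y := by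
      have h1 := ((hasDerivAt_pow 2 y).const_add (j ^ 2)).const_sub 1
      simpa using h1
    exact h0.sqrt hpos.ne'
  have hS : 0 < Real.sqrt (1 - (j ^ 2 + y ^ 2)) := Real.sqrt_pos.mpr hpos
  have hne : j * Real.sqrt (1 - (j ^ 2 + y ^ 2)) ≠ 0 := by positivity
  have hS2 : Real.sqrt (1 - (j ^ 2 + y ^ 2)) ^ 2 = 1 - (j ^ 2 + y ^ 2) := Real.sq_sqrt hpos.le
  set S := Real.sqrt (1 - (j ^ 2 + y ^ 2)) with hSdef
  have hjy : 0 < j ^ 2 + y ^ 2 := by positivity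
  have hj1 : 0 < 1 - j ^ 2 := by nlinarith [sq_nonneg y]
  have e1 : (1 * (j * S) - y * (j * (-(2 * y) / (2 * S)))) / (j * S) ^ 2 =
      (1 - j ^ 2) / (j * S ^ 3) := by
    rw [div_eq_div_iff (by positivity) (by positivity)]
    have : y * (j * (-(2 * y) / (2 * S))) = -(j * y ^ 2) / S := by
      field_simp
    rw [this]
    field_simp
    linear_combination hS2
  have e2 : 1 + (y / (j * S)) ^ 2 = (j ^ 2 + y ^ 2) * (1 - j ^ 2) / (j * S) ^ 2 := by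
    rw [div_pow, eq_div_iff (by positivity)]
    field_simp
    linear_combination j ^ 2 * hS2
  have h1 : HasDerivAt (fun y : ℝ => y / (j * Real.sqrt (1 - (j ^ 2 + y ^ 2))))
      ((1 * (j * S) - y * (j * (-(2 * y) / (2 * S)))) / (j * S) ^ 2) y :=
    (hasDerivAt_id' y).div (hR.const_mul j) hne
  have h2 := h1.arctan
  convert h2 using 1
  rw [e1, ← hSdef, e2]
  field_simp

/-- The value of the phase. -/
private theorem PsiS_val (hd : Dev a2 a3 mu) {β : ℕ} {j k : ℝ} (hj0 : 0 < j)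
    (hj : j < a2) (hk : 0 < k) (h3 : a3 ^ 2 ≤ j ^ 2 + k ^ 2) (h1 : j ^ 2 + k ^ 2 < 1) :
    Psi β mu j k = β * Real.arctan (k / j) -
      Real.arctan (k / (j * Real.sqrt (1 - (j ^ 2 + k ^ 2)))) - ((β : ℝ) - 1) * (Real.pi / 2) := by
  set f : ℝ → ℝ := fun y => (β : ℝ) * (j / (j ^ 2 + y ^ 2)) -
    j / ((j ^ 2 + y ^ 2) * Real.sqrt (1 - (j ^ 2 + y ^ 2))) with hf
  set g : ℝ → ℝ := fun y => j * (1 - (j ^ 2 + y ^ 2) * mu (j ^ 2 + y ^ 2)) / (j ^ 2 + y ^ 2)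
    with hg
  have hmu : Continuous mu := hd.smooth.continuous
  have hlt : ∀ y ∈ Set.uIcc 0 k, j ^ 2 + y ^ 2 < 1 := by
    intro y hy
    rw [Set.uIcc_of_le hk.le] at hy
    have : y ^ 2 ≤ k ^ 2 := pow_le_pow_left₀ hy.1 hy.2 2
    linarith
  have hpos : ∀ y : ℝ, 0 < j ^ 2 + y ^ 2 := fun y => by positivity
  have hfi : IntervalIntegrable f MeasureTheory.volume 0 k := by
    apply ContinuousOn.intervalIntegrable
    have c1 : ContinuousOn (fun y : ℝ => (β : ℝ) * (j / (j ^ 2 + y ^ 2))) (Set.uIcc 0 k) := by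
      apply Continuous.continuousOn
      refine continuous_const.mul (continuous_const.div (by fun_prop) fun y => (hpos y).ne')
    have c2 : ContinuousOn (fun y : ℝ => j / ((j ^ 2 + y ^ 2) *
        Real.sqrt (1 - (j ^ 2 + y ^ 2)))) (Set.uIcc 0 k) := by
      refine continuousOn_const.div (by fun_prop) fun y hy => ?_
      have : 0 < Real.sqrt (1 - (j ^ 2 + y ^ 2)) := Real.sqrt_pos.mpr (by linarith [hlt y hy])
      exact (mul_pos (hpos y) this).ne'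
    exact c1.sub c2
  have hgc : Continuous g := by
    refine Continuous.div ?_ (by fun_prop) fun y => (hpos y).ne'
    fun_prop
  have hgi : IntervalIntegrable (fun y => ((β : ℝ) - 1) * g y) MeasureTheory.volume 0 k :=
    (continuous_const.mul hgc).intervalIntegrable 0 k
  have e0 : Psi β mu j k = ∫ y in (0 : ℝ)..k, (f y - ((β : ℝ) - 1) * g y) := by
    unfold Psi
    rw [← intervalIntegral.integral_const_mul]
    refine intervalIntegral.integral_congr fun y hy => ?_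
    have hq := hpos y
    have hq1 := hlt y hy
    simp only [hf, hg]
    unfold mf
    set q := j ^ 2 + y ^ 2 with hqd
    have hS : 0 < Real.sqrt (1 - q) := Real.sqrt_pos.mpr (by linarith)
    have hS2 : Real.sqrt (1 - q) ^ 2 = 1 - q := Real.sq_sqrt (by linarith)
    set S := Real.sqrt (1 - q) with hSd
    have hq' : q = 1 - S ^ 2 := by linarith
    have e1 : -1 / (S * (1 + S)) = 1 / q - 1 / (q * S) := by
      rw [div_sub_div _ _ hq.ne' (by positivity), div_eq_div_iff (by positivity) (by positivity)]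
      rw [hq']
      ring
    rw [e1]
    field_simp
    ring
  have e1 : ∫ y in (0 : ℝ)..k, f y = β * Real.arctan (k / j) -
      Real.arctan (k / (j * Real.sqrt (1 - (j ^ 2 + k ^ 2)))) := by
    have hder : ∀ y ∈ Set.uIcc 0 k, HasDerivAt (fun y : ℝ => (β : ℝ) * Real.arctan (y / j) -
        Real.arctan (y / (j * Real.sqrt (1 - (j ^ 2 + y ^ 2))))) (f y) y := fun y hy =>
      ((PsiS_deriv1 hj0 y).const_mul (β : ℝ)).sub (PsiS_deriv2 hj0 (hlt y hy))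
    rw [intervalIntegral.integral_eq_sub_of_hasDerivAt hder hfi]
    simp
  have e2 : ∫ y in (0 : ℝ)..k, g y = Real.pi / 2 := by
    rw [← hd.key j hj0 hj, intervalIntegral.integral_of_le hk.le]
    symm
    refine MeasureTheory.setIntegral_eq_of_subset_of_forall_sdiff_eq_zero measurableSet_Ioi
      (fun y hy => hy.1) fun y hy => ?_
    have hyk : k < y := by
      by_contra hc
      exact hy.2 ⟨hy.1, not_lt.mp hc⟩
    have : k ^ 2 ≤ y ^ 2 := pow_le_pow_left₀ hk.le hyk.le 2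
    rw [hd.zero (j ^ 2 + y ^ 2) (by linarith)]
    simp
  rw [e0, intervalIntegral.integral_sub hfi hgi, intervalIntegral.integral_const_mul, e1, e2]

private theorem PsiS_exp (t : ℝ) :
    Complex.exp (2 * I * (Real.arctan t : ℂ)) * (1 + (t : ℂ) ^ 2) = (1 + I * t) ^ 2 := by
  have h1 : Complex.exp (2 * I * (Real.arctan t : ℂ)) =
      (Complex.exp ((Real.arctan t : ℂ) * I)) ^ 2 := by
    rw [← Complex.exp_nat_mul]
    congr 1
    push_cast
    ring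
  have hs : 0 < Real.sqrt (1 + t ^ 2) := Real.sqrt_pos.mpr (by positivity)
  have hs2 : Real.sqrt (1 + t ^ 2) ^ 2 = 1 + t ^ 2 := Real.sq_sqrt (by positivity)
  have h2 : Complex.exp ((Real.arctan t : ℂ) * I) = (1 + I * t) / (Real.sqrt (1 + t ^ 2) : ℂ) := by
    rw [Complex.exp_mul_I, ← Complex.ofReal_cos, ← Complex.ofReal_sin, Real.cos_arctan,
      Real.sin_arctan]
    push_cast
    ring
  have hs2c : (Real.sqrt (1 + t ^ 2) : ℂ) ^ 2 = 1 + (t : ℂ) ^ 2 := by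
    rw [← Complex.ofReal_pow, hs2]
    push_cast
    ring
  have hne : (1 : ℂ) + (t : ℂ) ^ 2 ≠ 0 := by
    rw [← hs2c]
    have : (Real.sqrt (1 + t ^ 2) : ℂ) ≠ 0 := by exact_mod_cast hs.ne'
    exact pow_ne_zero 2 this
  rw [h1, h2, div_pow, hs2c, div_mul_cancel₀ _ hne]

private theorem PsiS_core (hd : Dev a2 a3 mu) {β : ℕ} (hβ : 1 ≤ β) {j k : ℝ} (hj0 : 0 < j)
    (hj : j < a2) (hk : 0 < k) (h3 : a3 ^ 2 ≤ j ^ 2 + k ^ 2) (h1 : j ^ 2 + k ^ 2 < 1) :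
    PsiS_St β mu j k := by
  obtain ⟨b, rfl⟩ : ∃ b, β = b + 1 := ⟨β - 1, by omega⟩
  unfold PsiS_St
  rw [PsiS_val hd hj0 hj hk h3 h1]
  have hpos : 0 < 1 - (j ^ 2 + k ^ 2) := by linarith
  have hS : 0 < Real.sqrt (1 - (j ^ 2 + k ^ 2)) := Real.sqrt_pos.mpr hpos
  have hS2 : Real.sqrt (1 - (j ^ 2 + k ^ 2)) ^ 2 = 1 - (j ^ 2 + k ^ 2) := Real.sq_sqrt hpos.le
  set S := Real.sqrt (1 - (j ^ 2 + k ^ 2)) with hSd
  set A := Real.arctan (k / j) with hA
  set B := Real.arctan (k / (j * S)) with hB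
  have hjc : (j : ℂ) ≠ 0 := by exact_mod_cast hj0.ne'
  have hSc : (S : ℂ) ≠ 0 := by exact_mod_cast hS.ne'
  have hS2c : (S : ℂ) ^ 2 = 1 - ((j : ℂ) ^ 2 + (k : ℂ) ^ 2) := by exact_mod_cast hS2
  -- the two exponentials
  have hX : Complex.exp (-2 * I * (A : ℂ)) * ((j : ℂ) ^ 2 + (k : ℂ) ^ 2) = (j - I * k) ^ 2 := by
    have h4 := PsiS_exp (-(k / j))
    rw [Real.arctan_neg, ← hA] at h4
    have h5 : 2 * I * ((-A : ℝ) : ℂ) = -2 * I * (A : ℂ) := by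
      rw [Complex.ofReal_neg]
      ring
    rw [h5] at h4
    have h6 : (1 : ℂ) + (((-(k / j) : ℝ)) : ℂ) ^ 2 = ((j : ℂ) ^ 2 + (k : ℂ) ^ 2) / (j : ℂ) ^ 2 := by
      push_cast
      field_simp
    have h7 : (1 : ℂ) + I * ((-(k / j) : ℝ) : ℂ) = (j - I * k) / j := by
      push_cast
      field_simp
      ring
    rw [h6, h7, div_pow, mul_div_assoc', div_left_inj' (pow_ne_zero 2 hjc)] at h4
    exact h4
  have hY : Complex.exp (2 * I * (B : ℂ)) * ((j : ℂ) ^ 2 * (S : ℂ) ^ 2 + (k : ℂ) ^ 2) =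
      (j * S + I * k) ^ 2 := by
    have h4 := PsiS_exp (k / (j * S))
    have h6 : (1 : ℂ) + ((k / (j * S) : ℝ) : ℂ) ^ 2 =
        ((j : ℂ) ^ 2 * (S : ℂ) ^ 2 + (k : ℂ) ^ 2) / ((j : ℂ) * S) ^ 2 := by
      push_cast
      field_simp
    have h7 : (1 : ℂ) + I * ((k / (j * S) : ℝ) : ℂ) = (j * S + I * k) / (j * S) := by
      push_cast
      field_simp
    rw [← hB, h6, h7, div_pow, mul_div_assoc',
      div_left_inj' (pow_ne_zero 2 (mul_ne_zero hjc hSc))] at h4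
    exact h4
  have hE : Complex.exp (-2 * I * (((((b + 1 : ℕ) : ℝ) * A - B -
      (((b + 1 : ℕ) : ℝ) - 1) * (Real.pi / 2) : ℝ)) : ℂ)) =
      Complex.exp (-2 * I * (A : ℂ)) ^ (b + 1) * Complex.exp (2 * I * (B : ℂ)) * (-1) ^ b := by
    rw [← Complex.exp_pi_mul_I, ← Complex.exp_nat_mul, ← Complex.exp_nat_mul, ← Complex.exp_add,
      ← Complex.exp_add]
    congr 1
    push_cast
    ring
  rw [hE]
  have hq : (j : ℂ) ^ 2 * (S : ℂ) ^ 2 + (k : ℂ) ^ 2 =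
      (1 - (j : ℂ) ^ 2) * ((j : ℂ) ^ 2 + (k : ℂ) ^ 2) := by
    rw [hS2c]
    ring
  rw [hq] at hY
  have hK : ((k : ℂ) + I * j) ^ 2 = -(j - I * k) ^ 2 := by
    linear_combination ((j : ℂ) ^ 2 + (k : ℂ) ^ 2) * I_sq
  rw [hK, ← hX]
  push_cast
  rw [← hY]
  have hm : (-(Complex.exp (-2 * I * (A : ℂ)) * ((j : ℂ) ^ 2 + (k : ℂ) ^ 2))) ^ (b + 1) =
      (-1) ^ (b + 1) * (Complex.exp (-2 * I * (A : ℂ)) * ((j : ℂ) ^ 2 + (k : ℂ) ^ 2)) ^ (b + 1) :=
    neg_pow _ _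
  rw [hm, mul_pow]
  ring

/-- The scattering identity. -/
theorem Psi_star (hd : Dev a2 a3 mu) {β : ℕ} (hβ : 1 ≤ β) {j k : ℝ} (hj : |j| < a2)
    (h3 : a3 ^ 2 ≤ j ^ 2 + k ^ 2) (h1 : j ^ 2 + k ^ 2 < 1) :
    Complex.exp (-2 * I * (Psi β mu j k : ℂ)) * ((1 - j ^ 2 : ℝ) : ℂ) *
        ((j ^ 2 + k ^ 2 : ℝ) : ℂ) ^ (β + 1) =
      -(((k : ℂ) + I * j) ^ 2) ^ β *
        ((j * Real.sqrt (1 - (j ^ 2 + k ^ 2)) : ℝ) + I * k) ^ 2 := by
  change PsiS_St β mu j k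
  have hk : k ≠ 0 := by
    rintro rfl
    have h4 : j ^ 2 < a2 ^ 2 := sq_lt_sq' (by linarith [neg_abs_le j]) (by linarith [le_abs_self j])
    have h5 : a2 ^ 2 < a3 ^ 2 := pow_lt_pow_left₀ hd.lt3 hd.pos2.le (by norm_num)
    nlinarith
  rcases lt_trichotomy j 0 with hj0 | hj0 | hj0
  · have hj' : -j < a2 := by rwa [abs_of_neg hj0] at hj
    rcases lt_or_gt_of_ne hk with hk0 | hk0
    · have h4 := PsiS_core hd hβ (j := -j) (k := -k) (by linarith) hj' (by linarith)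
        (by rw [neg_sq, neg_sq]; exact h3) (by rw [neg_sq, neg_sq]; exact h1)
      have h5 := PsiS_flip1 (PsiS_flip2 h4)
      rwa [neg_neg, neg_neg] at h5
    · have h4 := PsiS_core hd hβ (j := -j) (k := k) (by linarith) hj' hk0
        (by rw [neg_sq]; exact h3) (by rw [neg_sq]; exact h1)
      have h5 := PsiS_flip1 h4
      rwa [neg_neg] at h5
  · subst hj0
    unfold PsiS_St Psi
    have hI : (I * (k : ℂ)) ^ 2 = -(k : ℂ) ^ 2 := by
      rw [mul_pow, I_sq]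
      ring
    simp only [zero_mul, Complex.ofReal_zero, mul_zero, Complex.exp_zero, add_zero, zero_add, hI]
    push_cast
    ring
  · have hj' : j < a2 := by rwa [abs_of_pos hj0] at hj
    rcases lt_or_gt_of_ne hk with hk0 | hk0
    · have h4 := PsiS_core hd hβ (j := j) (k := -k) hj0 hj' (by linarith)
        (by rw [neg_sq]; exact h3) (by rw [neg_sq]; exact h1)
      have h5 := PsiS_flip2 h4
      rwa [neg_neg] at h5
    · exact PsiS_core hd hβ hj0 hj' hk0 h3 h1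

end Pool.Agent.H.MP_bfbbee_an.F4
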