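import Pool.Agent.H.MP_bfbbee_an.helper67.Ld
import Pool.Agent.H.MP_bfbbee_an.helper67.Std
import Pool.Agent.H.MP_bfbbee_an.helper67.PsiS

/-!
# Matching with the round metric, invariance
-/

set_option autoImplicit false

namespace Pool.Agent.H.MP_bfbbee_an.F4

open ComplexConjugate Filter Topology Complex
open scoped ContDiff

variable {β : ℕ} {a0 b0 : ℂ → ℂ} {a2 a3 δ : ℝ} {mu G hh : ℝ → ℝ}

/-! ### the function `T0` -/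

private theorem LocS_T0_mono {p q : ℝ} (hp : 0 ≤ p) (hpq : p < q) : T0 p < T0 q := by
  unfold T0
  have h1 : Real.sqrt p < Real.sqrt q := Real.sqrt_lt_sqrt hp hpq
  have h2 : Real.sqrt (1 - q) ≤ Real.sqrt (1 - p) := Real.sqrt_le_sqrt (by linarith)
  have h3 : 0 ≤ Real.sqrt (1 - q) := Real.sqrt_nonneg _
  have h4 : 0 ≤ Real.sqrt p := Real.sqrt_nonneg _
  rw [div_lt_div_iff₀ (by linarith) (by linarith)]
  nlinarith

private theorem LocS_T0_sq {t : ℝ} (h0 : 0 ≤ t) (h1 : t < 1) :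
    Real.sqrt ((2 * t / (1 + t ^ 2)) ^ 2) = 2 * t / (1 + t ^ 2) ∧
      Real.sqrt (1 - (2 * t / (1 + t ^ 2)) ^ 2) = (1 - t ^ 2) / (1 + t ^ 2) ∧
      T0 ((2 * t / (1 + t ^ 2)) ^ 2) = t ∧ (2 * t / (1 + t ^ 2)) ^ 2 < 1 := by
  have hD : 0 < 1 + t ^ 2 := by positivity
  have e1 : Real.sqrt ((2 * t / (1 + t ^ 2)) ^ 2) = 2 * t / (1 + t ^ 2) :=
    Real.sqrt_sq (by positivity)
  have e2 : 1 - (2 * t / (1 + t ^ 2)) ^ 2 = ((1 - t ^ 2) / (1 + t ^ 2)) ^ 2 := by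
    field_simp
    ring
  have hpos : 0 < (1 - t ^ 2) / (1 + t ^ 2) := div_pos (by nlinarith) hD
  have e3 : Real.sqrt (1 - (2 * t / (1 + t ^ 2)) ^ 2) = (1 - t ^ 2) / (1 + t ^ 2) := by
    rw [e2]
    exact Real.sqrt_sq hpos.le
  refine ⟨e1, e3, ?_, ?_⟩
  · unfold T0
    rw [e1, e3]
    field_simp
    ring
  · have h3 : 0 < ((1 - t ^ 2) / (1 + t ^ 2)) ^ 2 := by positivity
    linarith

private theorem LocS_T0_half : T0 (1 / 2) < 1 := by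
  unfold T0
  have h1 : Real.sqrt (1 - 1 / 2) = Real.sqrt (1 / 2) := by norm_num
  rw [h1]
  have h2 : 0 ≤ Real.sqrt (1 / 2) := Real.sqrt_nonneg _
  rw [div_lt_one (by linarith)]
  linarith

private theorem LocS_T0_pos {q : ℝ} (hq : 0 < q) : 0 < T0 q := by
  unfold T0
  have h1 := Real.sqrt_pos.2 hq
  have h2 : 0 ≤ Real.sqrt (1 - q) := Real.sqrt_nonneg _
  exact div_pos h1 (by linarith)

/-! ### algebra -/

private theorem LocS_conj {x : ℂ} (h : ‖x‖ = 1) : conj x = x⁻¹ := (Complex.inv_eq_conj h).symm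

private theorem LocS_ne {x : ℂ} (h : ‖x‖ = 1) : x ≠ 0 := by
  intro h0
  rw [h0, norm_zero] at h
  exact zero_ne_one h

private theorem LocS_unit {x : ℂ} (h : x ≠ 0) :
    ‖x / (‖x‖ : ℂ)‖ = 1 ∧ x = (‖x‖ : ℂ) * (x / (‖x‖ : ℂ)) := by
  have h1 : (‖x‖ : ℂ) ≠ 0 := by exact_mod_cast norm_ne_zero_iff.2 h
  constructor
  · rw [norm_div, Complex.norm_real, norm_norm, div_self (norm_ne_zero_iff.2 h)]
  · field_simp

private theorem LocS_alg {A B D : ℝ} (hA : 0 < A) (hB : 0 < B) (hD : D = A ^ 2 + B ^ 2)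
    {α b Z : ℂ} (hα : ‖α‖ = 1) (hb : ‖b‖ = 1) (hZ : ‖Z‖ = 1) {ξ : ℂ}
    (hξ : ξ = ((2 / D : ℝ) : ℂ) * (Z * conj ((A : ℂ) * α * ((B : ℂ) * b)))) :
    I * (conj Z * ((B : ℂ) * b) ^ 2 + Z * conj ((A : ℂ) * α) ^ 2) / (D : ℂ) *
        ((2 * A * B / D : ℝ) : ℂ) =
      b / α * (((ξ.im * ((B ^ 2 - A ^ 2) / D) : ℝ) : ℂ) + I * (ξ.re : ℂ)) := by
  have hDp : 0 < D := by rw [hD]; positivity
  have hDc : (D : ℂ) ≠ 0 := by exact_mod_cast hDp.ne'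
  have hα0 := LocS_ne hα
  have hb0 := LocS_ne hb
  have hZ0 := LocS_ne hZ
  have hcξ : conj ξ = ((2 / D : ℝ) : ℂ) * (Z⁻¹ * ((A : ℂ) * α * ((B : ℂ) * b))) := by
    rw [hξ, map_mul, map_mul, Complex.conj_conj, Complex.conj_ofReal, LocS_conj hZ]
  have hξ' : ξ = ((2 / D : ℝ) : ℂ) * (Z * ((A : ℂ) * α⁻¹ * ((B : ℂ) * b⁻¹))) := by
    rw [hξ, map_mul, map_mul, map_mul, Complex.conj_ofReal, Complex.conj_ofReal, LocS_conj hα,
      LocS_conj hb]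
  have hre : (ξ.re : ℂ) = (ξ + conj ξ) / 2 := Complex.re_eq_add_conj ξ
  have him : (ξ.im : ℂ) = (ξ - conj ξ) / (2 * I) := Complex.im_eq_sub_conj ξ
  have hDc2 : (D : ℂ) = (A : ℂ) ^ 2 + (B : ℂ) ^ 2 := by rw [hD]; push_cast; ring
  rw [map_mul, Complex.conj_ofReal, LocS_conj hα, LocS_conj hZ]
  rw [Complex.ofReal_mul, him, hre, hcξ, hξ']
  push_cast
  have hI : (I : ℂ) ≠ 0 := Complex.I_ne_zero
  have hI2 : I ^ 2 = -1 := Complex.I_sq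
  field_simp
  rw [hDc2]
  linear_combination (-((B : ℂ) * A ^ 3 * b ^ 2 * α ^ 2) + (B : ℂ) * A ^ 3 * Z ^ 2 +
    (B : ℂ) ^ 3 * A * b ^ 2 * α ^ 2 - (B : ℂ) ^ 3 * A * Z ^ 2) * hI2

private theorem LocS_dir_mul (β : ℕ) (θ : ℝ) : dir (β * θ) = dir θ ^ β := by
  unfold dir
  rw [← Complex.exp_nat_mul]
  congr 1
  push_cast
  ring

/-- The final algebra. -/
private theorem LocS_fin (hβ : 1 ≤ β) {α b om e : ℂ} (hα : ‖α‖ = 1) (hb : ‖b‖ = 1) (hω : ‖om‖ = 1)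
    (he : ‖e‖ = 1) {N Y ξ P : ℂ} {q s : ℝ} (hq : q = s ^ 2) (hs : s ≠ 0) {j : ℝ}
    (hN : N * (s : ℂ) = b / α * Y) (hξ : ξ = (s : ℂ) * (e * om / (α * b)))
    (hP : P * ((1 - j ^ 2 : ℝ) : ℂ) * (q : ℂ) ^ (β + 1) = -(ξ ^ 2) ^ β * Y ^ 2) :
    N ^ 2 = -((1 - j ^ 2 : ℝ) : ℂ) *
      (conj (e ^ β * (om ^ β / (α ^ (β - 1) * b ^ (β + 1)))) ^ 2 * P) := by
  obtain ⟨n, rfl⟩ : ∃ n, β = n + 1 := ⟨β - 1, by omega⟩
  have hα0 := LocS_ne hα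
  have hb0 := LocS_ne hb
  have hω0 := LocS_ne hω
  have he0 := LocS_ne he
  have hsc : (s : ℂ) ≠ 0 := by exact_mod_cast hs
  have hqc : (q : ℂ) = (s : ℂ) ^ 2 := by rw [hq]; push_cast; ring
  have hX : conj (e ^ (n + 1) * (om ^ (n + 1) / (α ^ (n + 1 - 1) * b ^ (n + 1 + 1)))) =
      α ^ n * b ^ (n + 2) / (e ^ (n + 1) * om ^ (n + 1)) := by
    simp only [map_mul, map_div₀, map_pow, LocS_conj hα, LocS_conj hb, LocS_conj hω,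
      LocS_conj he, Nat.add_sub_cancel, inv_pow]
    field_simp
  rw [hX]
  have hXζ : α ^ n * b ^ (n + 2) / (e ^ (n + 1) * om ^ (n + 1)) *
      (e * om / (α * b)) ^ (n + 1) = b / α := by
    rw [div_pow, mul_pow, mul_pow]
    field_simp
    ring
  generalize α ^ n * b ^ (n + 2) / (e ^ (n + 1) * om ^ (n + 1)) = X at hXζ ⊢
  generalize e * om / (α * b) = ζ at hξ hXζ
  have hqne : (q : ℂ) ^ (n + 1 + 1) ≠ 0 := by
    rw [hqc]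
    exact pow_ne_zero _ (pow_ne_zero _ hsc)
  apply mul_right_cancel₀ hqne
  have h1 : N ^ 2 * (q : ℂ) = (b / α) ^ 2 * Y ^ 2 := by
    rw [hqc, ← mul_pow, hN, mul_pow]
  have h2 : (ξ ^ 2) ^ (n + 1) = (q : ℂ) ^ (n + 1) * (ζ ^ (n + 1)) ^ 2 := by
    rw [hξ, hqc]
    ring
  rw [h2] at hP
  calc N ^ 2 * (q : ℂ) ^ (n + 1 + 1) = (N ^ 2 * (q : ℂ)) * (q : ℂ) ^ (n + 1) := by ring
    _ = ((b / α) ^ 2 * Y ^ 2) * (q : ℂ) ^ (n + 1) := by rw [h1]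
    _ = (X * ζ ^ (n + 1)) ^ 2 * Y ^ 2 * (q : ℂ) ^ (n + 1) := by rw [hXζ]
    _ = X ^ 2 * ((q : ℂ) ^ (n + 1) * (ζ ^ (n + 1)) ^ 2 * Y ^ 2) := by ring
    _ = X ^ 2 * (-(P * ((1 - j ^ 2 : ℝ) : ℂ) * (q : ℂ) ^ (n + 1 + 1))) := by rw [hP]; ring
    _ = _ := by ring

private theorem LocS_E {W a b : ℂ} {A B w : ℝ} (hA : 0 < A) (hB : 0 < B) (hw : 0 < w) {α c om : ℂ}
    (hα : ‖α‖ = 1) (hc : ‖c‖ = 1) (hω : ‖om‖ = 1) (h1 : a = (A : ℂ) * α) (h2 : b = (B : ℂ) * c)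
    (h3 : W = (w : ℂ) * om) (m n k : ℕ) :
    W ^ m / (a ^ n * b ^ k) / ((‖W ^ m / (a ^ n * b ^ k)‖ : ℝ) : ℂ) = om ^ m / (α ^ n * c ^ k) := by
  have hAc : (A : ℂ) ≠ 0 := by exact_mod_cast hA.ne'
  have hBc : (B : ℂ) ≠ 0 := by exact_mod_cast hB.ne'
  have hwc : (w : ℂ) ≠ 0 := by exact_mod_cast hw.ne'
  have hα0 := LocS_ne hα
  have hc0 := LocS_ne hc
  have hn : ‖W ^ m / (a ^ n * b ^ k)‖ = w ^ m / (A ^ n * B ^ k) := by
    rw [h1, h2, h3, norm_div, norm_mul, norm_pow, norm_pow, norm_pow, norm_mul, norm_mul, norm_mul,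
      hα, hc, hω, Complex.norm_real, Complex.norm_real, Complex.norm_real, Real.norm_of_nonneg hA.le,
      Real.norm_of_nonneg hB.le, Real.norm_of_nonneg hw.le, mul_one, mul_one, mul_one]
  rw [hn, h1, h2, h3]
  push_cast
  simp only [mul_pow]
  field_simp

/-- Outside the cap the modified metric is the round metric, `Im ξ = J` and
`N² = -(1 - J²) χ²` if `|J| < a2`. -/
theorem match_std (hβ : 1 ≤ β) (h : Pair a0 b0) (hd : Dev a2 a3 mu)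
    (hp : Prof β (a3 ^ 2) mu G hh δ) {z : ℂ} (hz : z ∈ Disc) (hW : Wr a0 b0 z ≠ 0)
    (hb : b0 z ≠ 0) (h3 : T0 (a3 ^ 2) * ‖b0 z‖ ≤ ‖a0 z‖) (hx : ‖a0 z‖ < T0 (1 / 2) * ‖b0 z‖) :
    rhoO β G a0 b0 z = rst a0 b0 z ∧
    a3 ^ 2 ≤ G (xo β a0 b0 z) ∧
    ∀ θ : ℝ, (dir θ * LamO β G a0 b0 z).im = Jf a0 b0 (z, θ) ∧
      ‖LamO β G a0 b0 z‖ ^ 2 = G (xo β a0 b0 z) ∧
      (|Jf a0 b0 (z, θ)| < a2 →
        Nf a0 b0 (z, θ) ^ 2 = -((1 - Jf a0 b0 (z, θ) ^ 2 : ℝ) : ℂ) *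
          chi β mu θ (LamO β G a0 b0 z) (EO β a0 b0 z) ^ 2) := by
  have ha3 : 0 < a3 := hd.pos2.trans hd.lt3
  have hB : 0 < ‖b0 z‖ := norm_pos_iff.2 hb
  have hA : 0 < ‖a0 z‖ := lt_of_lt_of_le (mul_pos (LocS_T0_pos (by positivity)) hB) h3
  have ha : a0 z ≠ 0 := norm_pos_iff.1 hA
  have hw : 0 < ‖Wr a0 b0 z‖ := norm_pos_iff.2 hW
  obtain ⟨hα, hα2⟩ := LocS_unit ha
  obtain ⟨hc, hc2⟩ := LocS_unit hb
  obtain ⟨hω, hω2⟩ := LocS_unit hW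
  -- the value of `q`
  obtain ⟨t, ht⟩ : ∃ t, t = ‖a0 z‖ / ‖b0 z‖ := ⟨_, rfl⟩
  have ht0 : 0 < t := by rw [ht]; positivity
  have ht3 : T0 (a3 ^ 2) ≤ t := by rw [ht, le_div_iff₀ hB]; exact h3
  have hth : t < T0 (1 / 2) := by rw [ht, div_lt_iff₀ hB]; exact hx
  have ht1 : t < 1 := hth.trans LocS_T0_half
  obtain ⟨e1, e2, e3, e4⟩ := LocS_T0_sq ht0.le ht1
  have hq3 : a3 ^ 2 ≤ (2 * t / (1 + t ^ 2)) ^ 2 := by
    by_contra hlt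
    have := LocS_T0_mono (by positivity) (not_le.1 hlt)
    rw [e3] at this
    linarith
  have hqh : (2 * t / (1 + t ^ 2)) ^ 2 < 1 / 2 := by
    by_contra hlt
    rcases (not_lt.1 hlt).eq_or_lt with h5 | h5
    · rw [← h5] at e3
      linarith
    · have := LocS_T0_mono (by norm_num) h5
      rw [e3] at this
      linarith
  have hG : G (xo β a0 b0 z) = (2 * t / (1 + t ^ 2)) ^ 2 := by
    have h5 := hp.std _ ⟨hq3, hqh⟩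
    rw [e3, ht] at h5
    rw [ht]
    exact h5
  obtain ⟨D, hD⟩ : ∃ D, D = ‖a0 z‖ ^ 2 + ‖b0 z‖ ^ 2 := ⟨_, rfl⟩
  have hDp : 0 < D := by rw [hD]; positivity
  have hDn : Dn a0 b0 z = D := by rw [hD]; rfl
  obtain ⟨s, hs⟩ : ∃ s, s = 2 * ‖a0 z‖ * ‖b0 z‖ / D := ⟨_, rfl⟩
  have hs0 : 0 < s := by rw [hs]; positivity
  have hst : 2 * t / (1 + t ^ 2) = s := by
    rw [hs, ht, hD]
    field_simp
    ring
  have hS : (1 - t ^ 2) / (1 + t ^ 2) = (‖b0 z‖ ^ 2 - ‖a0 z‖ ^ 2) / D := by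
    rw [ht, hD]
    field_simp
    ring
  rw [hst] at hG e1 e2 e4 hq3
  rw [hS] at e2
  have hsq : Real.sqrt (G (xo β a0 b0 z)) = s := by rw [hG]; exact e1
  have hrho : rhoO β G a0 b0 z = s * (‖Wr a0 b0 z‖ / (‖a0 z‖ * ‖b0 z‖)) := by
    unfold rhoO
    rw [hsq]
  have hrho' : rhoO β G a0 b0 z = rst a0 b0 z := by
    rw [hrho, hs]
    unfold rst
    rw [hDn]
    field_simp
  have hLam : LamO β G a0 b0 z = ((2 / D : ℝ) : ℂ) *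
      (Wr a0 b0 z / (‖Wr a0 b0 z‖ : ℂ) * conj (a0 z * b0 z)) := by
    have h5 : G (xo β a0 b0 z) / rhoO β G a0 b0 z = s * (‖a0 z‖ * ‖b0 z‖) / ‖Wr a0 b0 z‖ := by
      rw [hG, hrho]
      field_simp
    unfold LamO
    rw [h5, hs]
    have hac : (‖a0 z‖ : ℂ) ≠ 0 := by exact_mod_cast hA.ne'
    have hbc : (‖b0 z‖ : ℂ) ≠ 0 := by exact_mod_cast hB.ne'
    have hwc : (‖Wr a0 b0 z‖ : ℂ) ≠ 0 := by exact_mod_cast hw.ne'
    have hDc : (D : ℂ) ≠ 0 := by exact_mod_cast hDp.ne'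
    have h6 : a0 z * b0 z * conj (a0 z * b0 z) = (‖a0 z‖ : ℂ) ^ 2 * (‖b0 z‖ : ℂ) ^ 2 := by
      rw [Complex.mul_conj, Complex.normSq_eq_norm_sq, norm_mul]
      push_cast
      ring
    push_cast
    rw [div_mul_eq_mul_div, div_eq_iff (mul_ne_zero ha hb)]
    field_simp
    linear_combination (-(1 : ℂ)) * h6
  have hξ : ∀ θ, dir θ * LamO β G a0 b0 z =
      ((2 / D : ℝ) : ℂ) * (Zd a0 b0 z θ * conj (a0 z * b0 z)) := by
    intro θ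
    rw [hLam]
    unfold Zd
    ring
  have him : ∀ θ, (dir θ * LamO β G a0 b0 z).im = Jf a0 b0 (z, θ) := by
    intro θ
    rw [hξ θ, Complex.im_ofReal_mul]
    unfold Jf
    rw [hDn]
    ring
  have hnorm : ‖LamO β G a0 b0 z‖ = s := by
    rw [hLam, norm_mul, norm_mul, hω, one_mul, Complex.norm_real, Real.norm_of_nonneg (by positivity),
      RCLike.norm_conj, norm_mul, hs]
    ring
  refine ⟨hrho', by rw [hG]; exact hq3, fun θ => ⟨him θ, by rw [hnorm, hG], fun hJ => ?_⟩⟩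
  -- the identity for `N`
  have hZ : ‖Zd a0 b0 z θ‖ = 1 := norm_Zd hW θ
  obtain ⟨ξ, hξd⟩ : ∃ ξ, ξ = dir θ * LamO β G a0 b0 z := ⟨_, rfl⟩
  have hξn : ‖ξ‖ = s := by rw [hξd, norm_mul, norm_dir, one_mul, hnorm]
  have hjk : ξ.im ^ 2 + ξ.re ^ 2 = s ^ 2 := by
    rw [← hξn, ← Complex.normSq_eq_norm_sq, Complex.normSq_apply]
    ring
  have hj : ξ.im = Jf a0 b0 (z, θ) := by rw [hξd]; exact him θ
  have h5 := LocS_alg hA hB hD hα hc hZ (ξ := ξ) (by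
    rw [← hα2, ← hc2, hξd]
    exact hξ θ)
  rw [← hα2, ← hc2] at h5
  have hstar := Psi_star hd hβ (j := ξ.im) (k := ξ.re) (by rw [hj]; exact hJ)
    (by rw [hjk]; exact hq3) (by rw [hjk]; exact e4)
  rw [hjk, e2] at hstar
  have hN : Nf a0 b0 (z, θ) * (s : ℂ) = (b0 z / (‖b0 z‖ : ℂ)) / (a0 z / (‖a0 z‖ : ℂ)) *
      (((ξ.im * ((‖b0 z‖ ^ 2 - ‖a0 z‖ ^ 2) / D) : ℝ) : ℂ) + I * (ξ.re : ℂ)) := by
    rw [← h5, hs]
    unfold Nf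
    rw [hDn]
  have hξs : ξ = (s : ℂ) * (dir θ * (Wr a0 b0 z / (‖Wr a0 b0 z‖ : ℂ)) /
      (a0 z / (‖a0 z‖ : ℂ) * (b0 z / (‖b0 z‖ : ℂ)))) := by
    have h6 : conj (a0 z * b0 z) = ((‖a0 z‖ * ‖b0 z‖ : ℝ) : ℂ) *
        ((a0 z / (‖a0 z‖ : ℂ))⁻¹ * (b0 z / (‖b0 z‖ : ℂ))⁻¹) := by
      nth_rewrite 1 [hα2, hc2]
      rw [map_mul, map_mul, map_mul, Complex.conj_ofReal, Complex.conj_ofReal, LocS_conj hα,
        LocS_conj hc]
      push_cast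
      ring
    rw [hξd, hξ θ, h6, hs]
    unfold Zd
    have hα0 := LocS_ne hα
    have hc0 := LocS_ne hc
    generalize a0 z / (‖a0 z‖ : ℂ) = x1 at hα0 ⊢
    generalize b0 z / (‖b0 z‖ : ℂ) = x2 at hc0 ⊢
    generalize Wr a0 b0 z / (‖Wr a0 b0 z‖ : ℂ) = x3
    push_cast
    field_simp
  have hre : ((ξ.re : ℂ) + I * (ξ.im : ℂ)) = ξ := by
    rw [mul_comm I]
    exact Complex.re_add_im ξ
  rw [hre] at hstar
  have h7 := LocS_fin hβ hα hc hω (norm_dir θ) (q := s ^ 2) (s := s) rfl hs0.ne' hN hξs hstar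
  rw [h7, ← hj]
  congr 1
  unfold chi
  rw [mul_pow, ← hξd, LocS_dir_mul]
  have h8 : EO β a0 b0 z / ((‖EO β a0 b0 z‖ : ℝ) : ℂ) =
      (Wr a0 b0 z / (‖Wr a0 b0 z‖ : ℂ)) ^ β / ((a0 z / (‖a0 z‖ : ℂ)) ^ (β - 1) *
        (b0 z / (‖b0 z‖ : ℂ)) ^ (β + 1)) :=
    LocS_E hA hB hw hα hc hω hα2 hc2 hω2 β (β - 1) (β + 1)
  rw [h8]
  congr 1
  rw [← Complex.exp_nat_mul]
  congr 1
  push_cast
  ring

/-- Invariance of the modified metric and of `ξ`, `χ` under Möbius maps which preserve `f`. -/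
theorem pres_mod (hβ : 1 ≤ β) (h : Pair a0 b0) {w a : ℂ} (hm : Pres a0 b0 w a) {z : ℂ}
    (hz : z ∈ Disc) (hW : Wr a0 b0 z ≠ 0) (ha : a0 z ≠ 0) (hb : b0 z ≠ 0)
    (hG : 0 < G (xo β a0 b0 z)) :
    rhoO β G a0 b0 (mob w a z) * ‖mobd w a z‖ = rhoO β G a0 b0 z ∧
    ∀ θ θ' : ℝ, dir θ' = dir θ * (mobd w a z / (‖mobd w a z‖ : ℂ)) →
      dir θ' * LamO β G a0 b0 (mob w a z) = dir θ * LamO β G a0 b0 z ∧
      chi β mu θ' (LamO β G a0 b0 (mob w a z)) (EO β a0 b0 (mob w a z)) =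
        chi β mu θ (LamO β G a0 b0 z) (EO β a0 b0 z) := by
  obtain ⟨m, hm0, hmA, hmB, hmW⟩ := pres_fac h hm hz
  have hmd : mobd w a z ≠ 0 := by
    intro h0
    rw [h0, mul_zero] at hmW
    exact mul_ne_zero (pow_ne_zero 2 hm0) hW hmW.symm
  have hWm : Wr a0 b0 (mob w a z) = m ^ 2 * Wr a0 b0 z / mobd w a z := by
    rw [eq_div_iff hmd, hmW]
  have hmn : 0 < ‖m‖ := norm_pos_iff.2 hm0
  have hA : 0 < ‖a0 z‖ := norm_pos_iff.2 ha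
  have hB : 0 < ‖b0 z‖ := norm_pos_iff.2 hb
  have hw : 0 < ‖Wr a0 b0 z‖ := norm_pos_iff.2 hW
  have hv : 0 < ‖mobd w a z‖ := norm_pos_iff.2 hmd
  have hxo : xo β a0 b0 (mob w a z) = xo β a0 b0 z := by
    unfold xo
    rw [hmA, hmB, norm_mul, norm_mul, mul_div_mul_left _ _ hmn.ne']
  have hrho : rhoO β G a0 b0 (mob w a z) * ‖mobd w a z‖ = rhoO β G a0 b0 z := by
    unfold rhoO
    rw [hxo, hmA, hmB, hWm, norm_div, norm_mul, norm_mul, norm_mul, norm_pow]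
    field_simp
  have hr0 : 0 < rhoO β G a0 b0 z := by
    unfold rhoO
    exact mul_pos (Real.sqrt_pos.2 hG) (by positivity)
  refine ⟨hrho, fun θ θ' hθ => ?_⟩
  have hrho' : rhoO β G a0 b0 (mob w a z) = rhoO β G a0 b0 z / ‖mobd w a z‖ := by
    rw [eq_div_iff hv.ne', hrho]
  have hrc : (rhoO β G a0 b0 z : ℂ) ≠ 0 := by exact_mod_cast hr0.ne'
  have hvc : (‖mobd w a z‖ : ℂ) ≠ 0 := by exact_mod_cast hv.ne'
  have hL : dir θ' * LamO β G a0 b0 (mob w a z) = dir θ * LamO β G a0 b0 z := by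
    unfold LamO
    rw [hxo, hmA, hmB, hWm, hrho', hθ]
    push_cast
    field_simp
  refine ⟨hL, ?_⟩
  have hE : EO β a0 b0 (mob w a z) = EO β a0 b0 z / mobd w a z ^ β := by
    unfold EO
    rw [hmA, hmB, hWm]
    obtain ⟨n, rfl⟩ : ∃ n, β = n + 1 := ⟨β - 1, by omega⟩
    simp only [Nat.add_sub_cancel, div_pow, mul_pow]
    field_simp
    ring
  have hE0 : EO β a0 b0 z ≠ 0 := by
    unfold EO
    exact div_ne_zero (pow_ne_zero _ hW) (mul_ne_zero (pow_ne_zero _ ha) (pow_ne_zero _ hb))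
  have hEc : (‖EO β a0 b0 z‖ : ℂ) ≠ 0 := by exact_mod_cast (norm_pos_iff.2 hE0).ne'
  unfold chi
  rw [hL, hE, LocS_dir_mul, LocS_dir_mul, hθ, norm_div, norm_pow, mul_pow, div_pow]
  congr 2
  push_cast
  field_simp

end Pool.Agent.H.MP_bfbbee_an.F4
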