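import Pool.Agent.H.MP_bfbbee_an.helper67.GUni
import Pool.Agent.H.MP_bfbbee_an.helper67.LocS

/-!
# Matching of the two definitions
-/

set_option autoImplicit false

namespace Pool.Agent.H.MP_bfbbee_an.F4

open ComplexConjugate Filter Topology Complex
open scoped ContDiff

namespace Cfg

variable {D : Cfg}

/-- Separation of the bands. -/
theorem sep_J (h : D.Ok) {l l' : ℂ} (hl : l ∈ D.S) (hl' : l' ∈ D.S) (hne : l ≠ l') {z : ℂ}
    (hz : z ∈ Disc) (hW : Wr D.A D.B z ≠ 0) (θ : ℝ) (hJ : |D.Jl l (z, θ)| < D.a2)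
    (hY : -1 + D.eta < ((cc l l' / (‖cc l l'‖ : ℂ)) ^ 2 * D.Nl l (z, θ) ^ 2).re) :
    D.a5 < |D.Jl l' (z, θ)| := by
  have hk : 1 + conj l * l' ≠ 0 := by
    intro h0
    have h1 : conj l * l' = -1 := by linear_combination h0
    have h2 := congrArg norm h1
    rw [norm_mul, Complex.norm_conj, norm_neg, norm_one] at h2
    have h3 := h.ltS l hl
    have h4 := h.ltS l' hl'
    nlinarith [norm_nonneg l, norm_nonneg l']
  have hW' : Wr (rA l D.A D.B) (rB l D.A D.B) z ≠ 0 := by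
    rwa [Wr_rot h.pair l hz]
  have h1 := h.sep l hl l' hl' hne (D.Jl l (z, θ)) (D.Nl l (z, θ))
    (J_sq_add (pair_rot h.pair l) hz hW' θ) hJ hY
  have h2 : D.Jl l' (z, θ) = ((1 - ‖cc l l'‖ ^ 2) * D.Jl l (z, θ) -
      2 * (cc l l' * D.Nl l (z, θ)).re) / (1 + ‖cc l l'‖ ^ 2) := J_change h.pair hk rfl hz hW θ
  rw [h2]
  exact h1

/-- In the band of `l` the outer first integral has a simple form. -/
theorem Fout_band (h : D.Ok) {l : ℂ} (hl : l ∈ D.S) {z : ℂ} (hz : z ∈ Disc)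
    (hW : Wr D.A D.B z ≠ 0) (θ : ℝ) (hJ : |D.Jl l (z, θ)| ≤ D.a4) :
    D.Fout (z, θ) = D.Jl l (z, θ) * D.cg (D.Jl l (z, θ)) * D.Y l (D.Nl l (z, θ) ^ 2) := by
  unfold Fout
  rw [Finset.prod_eq_zero hl (h.cG0 _ hJ), mul_zero, zero_add]
  refine Finset.sum_eq_single l (fun l' hl' hne => ?_) (fun hn => absurd hl hn)
  by_contra hcon
  have h1 : D.cg (D.Jl l' (z, θ)) ≠ 0 := fun h0 => hcon (by rw [h0, mul_zero, zero_mul])
  have h2 : D.Y l' (D.Nl l' (z, θ) ^ 2) ≠ 0 := fun h0 => hcon (by rw [h0, mul_zero])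
  have h3 : |D.Jl l' (z, θ)| < D.a2 := by
    by_contra hc
    exact h1 (h.cg0 _ (not_lt.1 hc))
  have h4 : -1 + D.eta < ((cc l' l / (‖cc l' l‖ : ℂ)) ^ 2 * D.Nl l' (z, θ) ^ 2).re := by
    by_contra hc
    apply h2
    unfold Y
    exact Finset.prod_eq_zero (Finset.mem_erase.2 ⟨Ne.symm hne, hl⟩) (h.cX0 _ (not_lt.1 hc))
  have h5 := sep_J h hl' hl hne hz hW θ h3 h4
  have h6 := h.a45
  linarith

private theorem GMat_T0_nonneg (q : ℝ) : 0 ≤ T0 q := by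
  unfold T0
  positivity

private theorem GMat_G (h : D.Ok) {P z : ℂ} (hP : D.In P z) (hβ : 1 ≤ D.ord P) {δ : ℝ}
    (hprof : Prof (D.ord P) (D.a3 ^ 2) D.mu (D.G (D.ord P)) (D.h (D.ord P)) δ) :
    D.G (D.ord P) (xo (D.ord P) (D.ra (D.lv P)) (D.rb (D.lv P)) z) < D.a4 ^ 2 := by
  have e1 := h.a1pos
  have e2 := h.a12
  have e3 := h.a23
  have e4 := h.a34
  have e5 := h.a45
  have e6 := h.a5lt
  have h1 := hprof.std (D.a4 ^ 2) ⟨by nlinarith, by nlinarith⟩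
  have hβ' : (0 : ℝ) < 2 / (D.ord P : ℝ) := by
    have : (0 : ℝ) < D.ord P := by exact_mod_cast hβ
    positivity
  have h2 := (h.disc P hP.1 z hP.2.1 hP.2.2.1).2.1
  have h3 : ‖D.ra (D.lv P) z‖ / ‖D.rb (D.lv P) z‖ < T0 (D.a4 ^ 2) := by
    rw [div_lt_iff₀ (norm_pos_iff.2 h2)]
    exact hP.2.2.2
  have h4 : T0 (D.a4 ^ 2) < T0 (1 / 2) := T0_mono (by positivity) (by nlinarith) (by norm_num)
  have h0 : 0 ≤ ‖D.ra (D.lv P) z‖ / ‖D.rb (D.lv P) z‖ := by positivity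
  have h5 : xo (D.ord P) (D.ra (D.lv P)) (D.rb (D.lv P)) z < T0 (D.a4 ^ 2) ^ (2 / (D.ord P : ℝ)) :=
    Real.rpow_lt_rpow h0 h3 hβ'
  have h6 : T0 (D.a4 ^ 2) ^ (2 / (D.ord P : ℝ)) < T0 (1 / 2) ^ (2 / (D.ord P : ℝ)) :=
    Real.rpow_lt_rpow (GMat_T0_nonneg _) h4 hβ'
  have h7 : 0 ≤ xo (D.ord P) (D.ra (D.lv P)) (D.rb (D.lv P)) z := Real.rpow_nonneg h0 _
  have h8 : D.G (D.ord P) (xo (D.ord P) (D.ra (D.lv P)) (D.rb (D.lv P)) z) <
      D.G (D.ord P) (T0 (D.a4 ^ 2) ^ (2 / (D.ord P : ℝ))) :=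
    hprof.mono ⟨h7, h5.trans h6⟩ ⟨h7.trans h5.le, h6⟩ h5
  rwa [h1] at h8

/-- Away from the modified regions the metric is the round metric and the first integral is
the outer one. -/
theorem match_away (h : D.Ok) {z : ℂ} (hz : D.Away z) :
    D.rt z = rst D.A D.B z ∧ ∀ θ : ℝ, D.Ft (z, θ) = D.Fout (z, θ) := by
  have hzD := hz.1
  have hWz := Away_W h hz
  by_cases hex : ∃ P, D.In P z
  · obtain ⟨P, hP⟩ := hex
    have hne : z ≠ P := fun he => hWz (by rw [he]; exact hP.1.2)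
    obtain ⟨-, -, hb, hx, hβ⟩ := In_ne h hP hne
    obtain ⟨δ, hprof⟩ := h.prof (D.ord P) hβ
    have hW' : Wr (rA (D.lv P) D.A D.B) (rB (D.lv P) D.A D.B) z ≠ 0 := by
      rwa [Wr_rot h.pair _ hzD]
    obtain ⟨hm1, hm2, hm3⟩ := match_std hβ (pair_rot h.pair (D.lv P)) h.dev hprof hzD hW' hb
      (hz.2 P hP.1 hP.2.2.1).le hx
    constructor
    · rw [rt_In h hP]
      refine Eq.trans hm1 ?_
      unfold rst
      rw [Wr_rot h.pair _ hzD, Dn_rot]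
    · intro θ
      rw [Ft_In h hP]
      obtain ⟨h1, h2, h3⟩ := hm3 θ
      have h4 : D.Jl (D.lv P) (z, θ) = (dir θ * LamO (D.ord P) (D.G (D.ord P)) (D.ra (D.lv P))
        (D.rb (D.lv P)) z).im := h1.symm
      have hG := GMat_G h hP hβ hprof
      have hj : |D.Jl (D.lv P) (z, θ)| ≤ D.a4 := by
        have h5 : |D.Jl (D.lv P) (z, θ)| ≤ ‖LamO (D.ord P) (D.G (D.ord P)) (D.ra (D.lv P))
            (D.rb (D.lv P)) z‖ := by
          rw [h4]
          refine (Complex.abs_im_le_norm _).trans ?_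
          rw [norm_mul, norm_dir, one_mul]
        refine h5.trans ?_
        have h6 : 0 ≤ D.a4 := by
          have e1 := h.a1pos
          have e2 := h.a12
          have e3 := h.a23
          have e4 := h.a34
          linarith
        refine le_of_sq_le_sq (α := ℝ) ?_ h6
        exact (h2.trans_lt hG).le
      rw [Fout_band h (h.memS P hP.1) hzD hWz θ hj]
      unfold Fin Fk
      simp only
      rw [← h4]
      by_cases hc : |D.Jl (D.lv P) (z, θ)| < D.a2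
      · have h5 : D.Nl (D.lv P) (z, θ) ^ 2 = -((1 - D.Jl (D.lv P) (z, θ) ^ 2 : ℝ) : ℂ) *
            chi (D.ord P) D.mu θ (LamO (D.ord P) (D.G (D.ord P)) (D.ra (D.lv P))
              (D.rb (D.lv P)) z) (EO (D.ord P) (D.ra (D.lv P)) (D.rb (D.lv P)) z) ^ 2 := h3 hc
        rw [h5]
      · rw [h.cg0 _ (not_lt.1 hc), mul_zero, zero_mul, zero_mul]
  · refine ⟨?_, fun θ => ?_⟩
    · unfold rt
      rw [dif_neg hex]
    · unfold Ft
      rw [dif_neg hex]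

end Cfg

end Pool.Agent.H.MP_bfbbee_an.F4
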