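import Pool.Agent.H.MP_bfbbee_an.helper67.Ld
import Pool.Agent.H.MP_bfbbee_an.helper67.Std

/-!
# Smooth local representatives of the modified metric near a ramification point
-/

set_option autoImplicit false

namespace Pool.Agent.H.MP_bfbbee_an.F4

open ComplexConjugate Filter Topology Complex
open scoped ContDiff

/-- Holomorphic functions on the disc are smooth. -/
private theorem LocB_smooth {f : ℂ → ℂ} (hf : DifferentiableOn ℂ f Disc) {z : ℂ} (hz : z ∈ Disc) :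
    ContDiffAt ℝ ∞ f z := by
  have h1 : ContDiffAt ℂ ∞ f z :=
    ((hf.contDiffOn (n := ∞) Metric.isOpen_ball).contDiffAt (Metric.isOpen_ball.mem_nhds hz))
  exact h1.restrict_scalars ℝ

private theorem LocB_div {f g : ℂ → ℂ} {z : ℂ} (hf : ContDiffAt ℝ ∞ f z)
    (hg : ContDiffAt ℝ ∞ g z) (h : g z ≠ 0) : ContDiffAt ℝ ∞ (fun y => f y / g y) z := by
  have h1 : (fun y => f y / g y) = fun y => f y * (g y)⁻¹ := by
    funext y; exact div_eq_mul_inv _ _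
  rw [h1]
  exact hf.mul (hg.inv h)

/-- The function `|z - P|² (|a|/|b0|)^(2/β)`. -/
private noncomputable def LocB_x (β : ℕ) (P : ℂ) (a b0 : ℂ → ℂ) (z : ℂ) : ℝ :=
  ‖z - P‖ ^ 2 * (‖a z‖ / ‖b0 z‖) ^ (2 / (β : ℝ))

private noncomputable def LocB_r (β : ℕ) (P : ℂ) (a b0 b : ℂ → ℂ) (h : ℝ → ℝ) (z : ℂ) : ℝ :=
  Real.sqrt (h (LocB_x β P a b0 z)) * (‖a z‖ / ‖b0 z‖) ^ (1 / (β : ℝ)) *
    (‖b z‖ / (‖a z‖ * ‖b0 z‖))

private noncomputable def LocB_F (β : ℕ) (P : ℂ) (a b0 b : ℂ → ℂ) (h : ℝ → ℝ) (z : ℂ) : ℂ :=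
  b z / (a z * b0 z) *
    (((‖a z‖ / ‖b0 z‖) ^ (2 / (β : ℝ)) * h (LocB_x β P a b0 z) / LocB_r β P a b0 b h z : ℝ) : ℂ)

private noncomputable def LocB_L (β : ℕ) (P : ℂ) (a b0 b : ℂ → ℂ) (h : ℝ → ℝ) (z : ℂ) : ℂ :=
  conj (z - P) * LocB_F β P a b0 b h z

/-- Local smooth representatives of `rhoO`, `LamO`, `EO` across the ramification point. -/
theorem local_rep {β : ℕ} (hβ : 1 ≤ β) {P : ℂ} {a0 b0 a b : ℂ → ℂ}
    (ha : DifferentiableOn ℂ a Disc) (hb : DifferentiableOn ℂ b Disc)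
    (hb0 : DifferentiableOn ℂ b0 Disc)
    (hfac : ∀ z ∈ Disc, a0 z = (z - P) ^ β * a z)
    (hW : ∀ z ∈ Disc, Wr a0 b0 z = (z - P) ^ (β - 1) * b z)
    {c : ℝ} {mu G h : ℝ → ℝ} {δ : ℝ} (hp : Prof β c mu G h δ) :
    ∃ (rl : ℂ → ℝ) (Ll El : ℂ → ℂ), ∀ z ∈ Disc, a z ≠ 0 → b z ≠ 0 → b0 z ≠ 0 →
      ‖a0 z‖ < T0 (1 / 2) * ‖b0 z‖ →
        ContDiffAt ℝ ∞ rl z ∧ 0 < rl z ∧ ContDiffAt ℝ ∞ Ll z ∧ ContDiffAt ℝ ∞ El z ∧
        El z ≠ 0 ∧ ‖Ll z‖ ^ 2 < 1 / 2 ∧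
        (z ≠ P → rhoO β G a0 b0 z = rl z ∧ LamO β G a0 b0 z = Ll z ∧ EO β a0 b0 z = El z ∧
          ‖Ll z‖ ^ 2 = G (xo β a0 b0 z) ∧ 0 < G (xo β a0 b0 z)) ∧
        (z = P → Ll z = 0 ∧ ∃ k : ℂ, k ≠ 0 ∧ ∀ v : ℂ, fderiv ℝ Ll z v = k * conj v) := by
  have hβ0 : (β : ℝ) ≠ 0 := Nat.cast_ne_zero.2 (by omega)
  have hβpos : (0 : ℝ) < β := Nat.cast_pos.2 (by omega)
  refine ⟨LocB_r β P a b0 b h, LocB_L β P a b0 b h,
    fun z => b z ^ β / (a z ^ (β - 1) * b0 z ^ (β + 1)), ?_⟩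
  intro z hz haz hbz hb0z hlt
  have na : 0 < ‖a z‖ := norm_pos_iff.2 haz
  have nb : 0 < ‖b z‖ := norm_pos_iff.2 hbz
  have nb0 : 0 < ‖b0 z‖ := norm_pos_iff.2 hb0z
  -- `x = xo`
  have hxo : xo β a0 b0 z = LocB_x β P a b0 z := by
    unfold xo LocB_x
    rw [hfac z hz, norm_mul, norm_pow, mul_div_assoc,
      Real.mul_rpow (by positivity) (by positivity), ← Real.rpow_natCast (‖z - P‖) β,
      ← Real.rpow_mul (norm_nonneg _)]
    congr 1
    rw [mul_div_cancel₀ _ hβ0]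
    exact Real.rpow_natCast _ 2
  have hT : (0 : ℝ) < T0 (1 / 2) ^ (2 / (β : ℝ)) := by
    apply Real.rpow_pos_of_pos
    unfold T0
    have : 0 < Real.sqrt (1 / 2) := Real.sqrt_pos.2 (by norm_num)
    positivity
  have hx0 : 0 ≤ LocB_x β P a b0 z := by
    unfold LocB_x; positivity
  have hxlt : LocB_x β P a b0 z < T0 (1 / 2) ^ (2 / (β : ℝ)) := by
    rw [← hxo]
    unfold xo
    apply Real.rpow_lt_rpow (by positivity) _ (by positivity)
    rw [div_lt_iff₀ nb0]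
    exact hlt
  have hmem : LocB_x β P a b0 z ∈ Set.Ioo (-δ) (T0 (1 / 2) ^ (2 / (β : ℝ))) :=
    ⟨by linarith [hp.pos], hxlt⟩
  have hhpos : 0 < h (LocB_x β P a b0 z) := hp.hpos _ hmem
  -- smoothness
  have sa := LocB_smooth ha hz
  have sb := LocB_smooth hb hz
  have sb0 := LocB_smooth hb0 hz
  have sna : ContDiffAt ℝ ∞ (fun y => ‖a y‖) z := sa.norm ℝ haz
  have snb : ContDiffAt ℝ ∞ (fun y => ‖b y‖) z := sb.norm ℝ hbz
  have snb0 : ContDiffAt ℝ ∞ (fun y => ‖b0 y‖) z := sb0.norm ℝ hb0z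
  have sq : ContDiffAt ℝ ∞ (fun y => ‖a y‖ / ‖b0 y‖) z := sna.div snb0 nb0.ne'
  have sqp : ∀ p : ℝ, ContDiffAt ℝ ∞ (fun y => (‖a y‖ / ‖b0 y‖) ^ p) z := fun p =>
    sq.rpow_const_of_ne (div_pos na nb0).ne'
  have sz : ContDiffAt ℝ ∞ (fun y : ℂ => y - P) z := contDiffAt_id.sub contDiffAt_const
  have sx : ContDiffAt ℝ ∞ (LocB_x β P a b0) z := (sz.norm_sq ℝ).mul (sqp _)
  have sh : ContDiffAt ℝ ∞ (fun y => h (LocB_x β P a b0 y)) z := by
    have h1 : ContDiffAt ℝ ∞ h (LocB_x β P a b0 z) :=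
      hp.smooth.contDiffAt (Ioo_mem_nhds hmem.1 hmem.2)
    exact h1.comp z sx
  have sr : ContDiffAt ℝ ∞ (LocB_r β P a b0 b h) z :=
    ((sh.sqrt hhpos.ne').mul (sqp _)).mul (snb.div (sna.mul snb0) (mul_pos na nb0).ne')
  have hq1 : 0 < (‖a z‖ / ‖b0 z‖) ^ (1 / (β : ℝ)) := Real.rpow_pos_of_pos (div_pos na nb0) _
  have hq2 : (‖a z‖ / ‖b0 z‖) ^ (2 / (β : ℝ)) = ((‖a z‖ / ‖b0 z‖) ^ (1 / (β : ℝ))) ^ 2 := by
    rw [← Real.rpow_natCast, ← Real.rpow_mul (div_pos na nb0).le]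
    congr 1
    push_cast
    ring
  have hrpos : 0 < LocB_r β P a b0 b h z := by
    unfold LocB_r
    have := Real.sqrt_pos.2 hhpos
    positivity
  have sF : ContDiffAt ℝ ∞ (LocB_F β P a b0 b h) z := by
    have h1 : ContDiffAt ℝ ∞ (fun y => b y / (a y * b0 y)) z :=
      LocB_div sb (sa.mul sb0) (mul_ne_zero haz hb0z)
    have h2 : ContDiffAt ℝ ∞ (fun y => (‖a y‖ / ‖b0 y‖) ^ (2 / (β : ℝ)) *
        h (LocB_x β P a b0 y) / LocB_r β P a b0 b h y) z :=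
      ((sqp _).mul sh).div sr hrpos.ne'
    have h3 : ContDiffAt ℝ ∞ (fun y => (((‖a y‖ / ‖b0 y‖) ^ (2 / (β : ℝ)) *
        h (LocB_x β P a b0 y) / LocB_r β P a b0 b h y : ℝ) : ℂ)) z :=
      Complex.ofRealCLM.contDiff.contDiffAt.comp z h2
    exact h1.mul h3
  have sconj : ContDiffAt ℝ ∞ (fun y : ℂ => conj (y - P)) z :=
    Complex.conjCLE.contDiff.contDiffAt.comp z sz
  have sL : ContDiffAt ℝ ∞ (LocB_L β P a b0 b h) z := sconj.mul sF
  have sE : ContDiffAt ℝ ∞ (fun z => b z ^ β / (a z ^ (β - 1) * b0 z ^ (β + 1))) z :=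
    LocB_div (sb.pow β) ((sa.pow (β - 1)).mul (sb0.pow (β + 1)))
      (mul_ne_zero (pow_ne_zero _ haz) (pow_ne_zero _ hb0z))
  have hEne : b z ^ β / (a z ^ (β - 1) * b0 z ^ (β + 1)) ≠ 0 :=
    div_ne_zero (pow_ne_zero _ hbz) (mul_ne_zero (pow_ne_zero _ haz) (pow_ne_zero _ hb0z))
  have hFne : LocB_F β P a b0 b h z ≠ 0 := by
    unfold LocB_F
    refine mul_ne_zero (div_ne_zero hbz (mul_ne_zero haz hb0z)) ?_
    rw [Complex.ofReal_ne_zero]
    exact (div_pos (mul_pos (by rw [hq2]; positivity) hhpos) hrpos).ne'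
  -- the norm of `L`
  have hnL : ‖LocB_L β P a b0 b h z‖ ^ 2 = LocB_x β P a b0 z * h (LocB_x β P a b0 z) := by
    have h1 : ‖LocB_L β P a b0 b h z‖ =
        ‖z - P‖ * (‖a z‖ / ‖b0 z‖) ^ (1 / (β : ℝ)) * Real.sqrt (h (LocB_x β P a b0 z)) := by
      unfold LocB_L LocB_F
      rw [norm_mul, norm_mul, norm_div, norm_mul, RCLike.norm_conj, Complex.norm_real,
        Real.norm_of_nonneg (div_pos (mul_pos (by rw [hq2]; positivity) hhpos) hrpos).le, hq2]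
      unfold LocB_r
      have hs := Real.sqrt_pos.2 hhpos
      have hs2 := Real.mul_self_sqrt hhpos.le
      set s := Real.sqrt (h (LocB_x β P a b0 z)) with hsdef
      rw [← hs2]
      field_simp
    rw [h1, mul_pow, mul_pow, ← hq2, Real.sq_sqrt hhpos.le]
    unfold LocB_x
    ring
  have hGx : G (LocB_x β P a b0 z) = LocB_x β P a b0 z * h (LocB_x β P a b0 z) := hp.eq _ hmem
  have hlt2 : ‖LocB_L β P a b0 b h z‖ ^ 2 < 1 / 2 := by
    rw [hnL]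
    rcases hx0.eq_or_lt with h0 | h0
    · rw [← h0, zero_mul]; norm_num
    · rw [← hGx]
      exact hp.lt _ ⟨h0, hxlt⟩
  refine ⟨sr, hrpos, sL, sE, hEne, hlt2, ?_, ?_⟩
  · intro hzP
    have hzP0 : z - P ≠ 0 := sub_ne_zero.2 hzP
    have nz : 0 < ‖z - P‖ := norm_pos_iff.2 hzP0
    have hxpos : 0 < LocB_x β P a b0 z := by
      unfold LocB_x
      rw [hq2]
      positivity
    obtain ⟨k, hk⟩ : ∃ k, β = k + 1 := ⟨β - 1, by omega⟩
    have hrho : rhoO β G a0 b0 z = LocB_r β P a b0 b h z := by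
      unfold rhoO
      rw [hxo, hGx]
      have h1 : Real.sqrt (LocB_x β P a b0 z * h (LocB_x β P a b0 z)) =
          ‖z - P‖ * (‖a z‖ / ‖b0 z‖) ^ (1 / (β : ℝ)) * Real.sqrt (h (LocB_x β P a b0 z)) := by
        rw [Real.sqrt_mul hx0]
        congr 1
        have : LocB_x β P a b0 z = (‖z - P‖ * (‖a z‖ / ‖b0 z‖) ^ (1 / (β : ℝ))) ^ 2 := by
          unfold LocB_x
          rw [hq2, mul_pow]
        rw [this, Real.sqrt_sq (by positivity)]
      rw [h1, hW z hz, hfac z hz, norm_mul, norm_mul, norm_pow, norm_pow]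
      unfold LocB_r
      have h2 : ‖z - P‖ ^ β = ‖z - P‖ ^ (β - 1) * ‖z - P‖ := by
        rw [← pow_succ]
        congr 1
        omega
      rw [h2]
      have h3 : ‖z - P‖ ^ (β - 1) ≠ 0 := pow_ne_zero _ nz.ne'
      field_simp
    refine ⟨hrho, ?_, ?_, ?_, ?_⟩
    · unfold LamO
      rw [hrho, hxo, hGx, hW z hz, hfac z hz]
      unfold LocB_L LocB_F
      have h2 : (z - P) ^ β = (z - P) ^ (β - 1) * (z - P) := by
        rw [← pow_succ]
        congr 1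
        omega
      have h3 : (z - P) ^ (β - 1) ≠ 0 := pow_ne_zero _ hzP0
      have h4 : LocB_x β P a b0 z * h (LocB_x β P a b0 z) / LocB_r β P a b0 b h z =
          ‖z - P‖ ^ 2 * ((‖a z‖ / ‖b0 z‖) ^ (2 / (β : ℝ)) * h (LocB_x β P a b0 z) /
            LocB_r β P a b0 b h z) := by
        conv_lhs => rw [show LocB_x β P a b0 z * h (LocB_x β P a b0 z) =
          (‖z - P‖ ^ 2 * (‖a z‖ / ‖b0 z‖) ^ (2 / (β : ℝ))) * h (LocB_x β P a b0 z) from rfl]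
        ring
      rw [h4, Complex.ofReal_mul]
      have h5 : ((‖z - P‖ ^ 2 : ℝ) : ℂ) = (z - P) * conj (z - P) := by
        rw [Complex.mul_conj, Complex.normSq_eq_norm_sq]
      rw [h5, h2]
      field_simp
    · unfold EO
      rw [hW z hz, hfac z hz, mul_pow, mul_pow, ← pow_mul, ← pow_mul, mul_comm (β - 1) β]
      have h3 : (z - P) ^ (β * (β - 1)) ≠ 0 := pow_ne_zero _ hzP0
      rw [mul_assoc, mul_div_mul_left _ _ h3]
    · rw [hnL, hxo, hGx]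
    · rw [hxo, hGx]
      exact mul_pos hxpos hhpos
  · intro hzP
    refine ⟨?_, LocB_F β P a b0 b h z, hFne, ?_⟩
    · unfold LocB_L
      rw [hzP, sub_self, map_zero, zero_mul]
    · intro v
      have h1 : HasFDerivAt (fun y : ℂ => conj (y - P)) (Complex.conjCLE : ℂ →L[ℝ] ℂ) z := by
        have h2 : HasFDerivAt (fun y : ℂ => y - P) (ContinuousLinearMap.id ℝ ℂ) z :=
          (hasFDerivAt_id z).sub_const P
        have h3 := (Complex.conjCLE : ℂ →L[ℝ] ℂ).hasFDerivAt.comp z h2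
        rw [ContinuousLinearMap.comp_id] at h3
        exact h3
      have h2 : HasFDerivAt (LocB_F β P a b0 b h) (fderiv ℝ (LocB_F β P a b0 b h) z) z :=
        (sF.differentiableAt (by simp)).hasFDerivAt
      have h3 := h1.mul h2
      have h4 : HasFDerivAt (LocB_L β P a b0 b h) _ z := h3
      rw [h4.fderiv]
      simp [hzP]

end Pool.Agent.H.MP_bfbbee_an.F4
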