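import Pool.Agent.H.MP_bfbbee_an.helper67.GMat
import Pool.Agent.H.MP_bfbbee_an.helper67.LocB
import Pool.Agent.H.MP_bfbbee_an.helper67.LocA
import Pool.Agent.H.MP_bfbbee_an.Base

/-!
# The conformal exponent is smooth and invariant
-/

set_option autoImplicit false

namespace Pool.Agent.H.MP_bfbbee_an.F4

open ComplexConjugate Filter Topology Complex
open scoped ContDiff

namespace Cfg

variable {D : Cfg}

/-- `LamO` in the cap of `P`. -/
noncomputable def Lc (D : Cfg) (P z : ℂ) : ℂ :=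
  LamO (D.ord P) (D.G (D.ord P)) (D.ra (D.lv P)) (D.rb (D.lv P)) z

/-- `EO` in the cap of `P`. -/
noncomputable def Ec (D : Cfg) (P z : ℂ) : ℂ := EO (D.ord P) (D.ra (D.lv P)) (D.rb (D.lv P)) z

/-- Smooth representatives in the cap of `P`. -/
structure Rep (D : Cfg) (P : ℂ) (rl : ℂ → ℝ) (Ll El : ℂ → ℂ) : Prop where
  s1 : ∀ z, D.In P z → ContDiffAt ℝ ∞ rl z
  pos : ∀ z, D.In P z → 0 < rl z
  s2 : ∀ z, D.In P z → ContDiffAt ℝ ∞ Ll z
  s3 : ∀ z, D.In P z → ContDiffAt ℝ ∞ El z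
  ne : ∀ z, D.In P z → El z ≠ 0
  lt : ∀ z, D.In P z → ‖Ll z‖ ^ 2 < 1 / 2
  eq1 : ∀ z, D.In P z → z ≠ P → D.rin P z = rl z
  eq2 : ∀ z, D.In P z → z ≠ P → D.Lc P z = Ll z
  eq3 : ∀ z, D.In P z → z ≠ P → D.Ec P z = El z
  eq4 : ∀ z, D.In P z → z ≠ P →
    ‖Ll z‖ ^ 2 = D.G (D.ord P) (xo (D.ord P) (D.ra (D.lv P)) (D.rb (D.lv P)) z)
  gpos : ∀ z, D.In P z → z ≠ P →
    0 < D.G (D.ord P) (xo (D.ord P) (D.ra (D.lv P)) (D.rb (D.lv P)) z)
  zero : D.In P P → Ll P = 0 ∧ ∃ k : ℂ, k ≠ 0 ∧ ∀ v : ℂ, fderiv ℝ Ll P v = k * conj v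

private theorem GU_BP (h : D.Ok) {P : ℂ} (hP : isRam D.A D.B P) : D.B P ≠ 0 := by
  intro h0
  have h1 := h.small P hP
  rw [h0, norm_zero] at h1
  exact absurd h1 (not_lt.2 (norm_nonneg _))

private theorem GU_raP (h : D.Ok) {P : ℂ} (hP : isRam D.A D.B P) : D.ra (D.lv P) P = 0 := by
  have h1 := GU_BP h hP
  unfold ra rA lv
  rw [div_mul_cancel₀ _ h1, sub_self, zero_div]

private theorem GU_T0 : 0 < T0 (1 / 2) := by
  unfold T0
  have := Real.sqrt_pos.mpr (show (0 : ℝ) < 1 / 2 by norm_num)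
  positivity

theorem exists_rep (h : D.Ok) {P : ℂ} (hP : isRam D.A D.B P) :
    ∃ (rl : ℂ → ℝ) (Ll El : ℂ → ℂ), D.Rep P rl Ll El := by
  have hB := GU_BP h hP
  obtain ⟨ho, hne, hrB⟩ := order_ge_two h.pair h.nz hP.1 hP.2 hB
  have hpr := pair_rot h.pair (D.lv P)
  have hβ : 1 ≤ D.ord P := by
    have : 2 ≤ D.ord P := ho
    omega
  obtain ⟨a, had, haP, hfac⟩ := factor hpr.hA hP.1 hne
  obtain ⟨b, hbd, hbP, hWf⟩ := factor_Wr hpr hP.1 hβ had haP hfac hrB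
  obtain ⟨δ, hprof⟩ := h.prof (D.ord P) hβ
  obtain ⟨rl, Ll, El, hL⟩ := local_rep hβ had hbd hpr.hB hfac hWf hprof
  refine ⟨rl, Ll, El, ?_⟩
  have key : ∀ z, D.In P z → z ∈ Disc ∧ a z ≠ 0 ∧ b z ≠ 0 ∧ D.rb (D.lv P) z ≠ 0 ∧
      ‖D.ra (D.lv P) z‖ < T0 (1 / 2) * ‖D.rb (D.lv P) z‖ := by
    intro z hz
    by_cases hzP : z = P
    · subst hzP
      refine ⟨hP.1, haP, hbP, hrB, ?_⟩
      rw [GU_raP h hP, norm_zero]
      exact mul_pos GU_T0 (norm_pos_iff.2 hrB)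
    · obtain ⟨h1, h2, h3, h4, -⟩ := In_ne h hz hzP
      have hzD := hz.2.1
      refine ⟨hzD, ?_, ?_, h3, h4⟩
      · intro h0
        apply h2
        have h5 := hfac z hzD
        rw [h0, mul_zero] at h5
        exact h5
      · intro h0
        apply h1
        have h5 := hWf z hzD
        rw [h0, mul_zero, Wr_rot h.pair _ hzD] at h5
        exact h5
  have all := fun z (hz : D.In P z) =>
    hL z (key z hz).1 (key z hz).2.1 (key z hz).2.2.1 (key z hz).2.2.2.1 (key z hz).2.2.2.2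
  exact
    { s1 := fun z hz => (all z hz).1
      pos := fun z hz => (all z hz).2.1
      s2 := fun z hz => (all z hz).2.2.1
      s3 := fun z hz => (all z hz).2.2.2.1
      ne := fun z hz => (all z hz).2.2.2.2.1
      lt := fun z hz => (all z hz).2.2.2.2.2.1
      eq1 := fun z hz hne => ((all z hz).2.2.2.2.2.2.1 hne).1
      eq2 := fun z hz hne => ((all z hz).2.2.2.2.2.2.1 hne).2.1
      eq3 := fun z hz hne => ((all z hz).2.2.2.2.2.2.1 hne).2.2.1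
      eq4 := fun z hz hne => ((all z hz).2.2.2.2.2.2.1 hne).2.2.2.1
      gpos := fun z hz hne => ((all z hz).2.2.2.2.2.2.1 hne).2.2.2.2
      zero := fun hz => (all P hz).2.2.2.2.2.2.2 rfl }

private theorem GU_disc {z : ℂ} (hz : z ∈ Disc) : ∀ᶠ y in 𝓝 z, y ∈ Disc :=
  Metric.isOpen_ball.mem_nhds hz

private theorem GU_cdW {A B : ℂ → ℂ} (h : Pair A B) {z : ℂ} (hz : z ∈ Disc) :
    ContDiffAt ℝ ∞ (Wr A B) z := by
  have hA : AnalyticAt ℂ A z := (h.hA.analyticOnNhd Metric.isOpen_ball) z hz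
  have hB : AnalyticAt ℂ B z := (h.hB.analyticOnNhd Metric.isOpen_ball) z hz
  have hW : AnalyticAt ℂ (Wr A B) z := (hA.deriv.mul hB).sub (hA.mul hB.deriv)
  exact (hW.contDiffAt (n := ∞)).restrict_scalars ℝ

private theorem GU_cdrst {A B : ℂ → ℂ} (h : Pair A B) {z : ℂ} (hz : z ∈ Disc)
    (hW : Wr A B z ≠ 0) : ContDiffAt ℝ ∞ (rst A B) z := by
  have hA : AnalyticAt ℂ A z := (h.hA.analyticOnNhd Metric.isOpen_ball) z hz
  have hB : AnalyticAt ℂ B z := (h.hB.analyticOnNhd Metric.isOpen_ball) z hz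
  have hA' : ContDiffAt ℝ ∞ A z := (hA.contDiffAt (n := ∞)).restrict_scalars ℝ
  have hB' : ContDiffAt ℝ ∞ B z := (hB.contDiffAt (n := ∞)).restrict_scalars ℝ
  have hD : ContDiffAt ℝ ∞ (Dn A B) z := (hA'.norm_sq ℝ).add (hB'.norm_sq ℝ)
  exact (contDiffAt_const.mul ((GU_cdW h hz).norm ℝ hW)).div hD (Dn_pos h hz).ne'

private theorem GU_log {g : ℂ → ℝ} {z : ℂ} (hz : z ∈ Disc) (hg : ContDiffAt ℝ ∞ g z)
    (h0 : 0 < g z) : ContDiffAt ℝ ∞ (fun y : ℂ => Real.log (g y * (1 - ‖y‖ ^ 2) / 2)) z := by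
  have h1 : ContDiffAt ℝ ∞ (fun y : ℂ => g y * (1 - ‖y‖ ^ 2) / 2) z :=
    (hg.mul (contDiffAt_const.sub (contDiff_norm_sq ℝ).contDiffAt)).div_const 2
  refine h1.log ?_
  have h2 := q_pos hz
  have h3 : 0 < g z * (1 - ‖z‖ ^ 2) / 2 := by positivity
  exact h3.ne'

private theorem GU_lim {g : ℂ → ℝ} {y : ℂ} (hc : ContinuousAt g y)
    (he : ∀ᶠ x in 𝓝[≠] y, D.ut x = g x) : D.u y = g y := by
  unfold u
  refine Filter.Tendsto.limUnder_eq ?_
  have h1 : Tendsto g (𝓝[≠] y) (𝓝 (g y)) := hc.tendsto.mono_left nhdsWithin_le_nhds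
  refine h1.congr' ?_
  filter_upwards [he] with x hx
  exact hx.symm

theorem rst_pos (h : D.Ok) {z : ℂ} (hz : z ∈ Disc) (hW : Wr D.A D.B z ≠ 0) :
    0 < rst D.A D.B z := by
  unfold rst
  exact div_pos (mul_pos two_pos (norm_pos_iff.2 hW)) (Dn_pos h.pair hz)

theorem u_away (h : D.Ok) {z : ℂ} (hz : D.Away z) :
    ∀ᶠ y in 𝓝 z, D.u y = Real.log (rst D.A D.B y * (1 - ‖y‖ ^ 2) / 2) := by
  filter_upwards [eventually_eventually_nhds.2 (Away_open h hz)] with y hy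
  have hyA : D.Away y := hy.self_of_nhds
  have hyW := Away_W h hyA
  refine GU_lim (g := fun y => Real.log (rst D.A D.B y * (1 - ‖y‖ ^ 2) / 2))
    (GU_log hyA.1 (GU_cdrst h.pair hyA.1 hyW) (rst_pos h hyA.1 hyW)).continuousAt ?_
  filter_upwards [hy.filter_mono nhdsWithin_le_nhds] with x hx
  unfold ut
  rw [(match_away h hx).1]

theorem u_cap (h : D.Ok) {P z : ℂ} {rl : ℂ → ℝ} {Ll El : ℂ → ℂ} (hR : D.Rep P rl Ll El)
    (hz : D.In P z) : ∀ᶠ y in 𝓝 z, D.u y = Real.log (rl y * (1 - ‖y‖ ^ 2) / 2) := by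
  filter_upwards [eventually_eventually_nhds.2 (In_open h hz)] with y hy
  have hyI : D.In P y := hy.self_of_nhds
  refine GU_lim (g := fun y => Real.log (rl y * (1 - ‖y‖ ^ 2) / 2))
    (GU_log hyI.2.1 (hR.s1 y hyI) (hR.pos y hyI)).continuousAt ?_
  have hnP : ∀ᶠ x in 𝓝[≠] y, x ≠ P := by
    by_cases hyP : y = P
    · subst hyP
      exact self_mem_nhdsWithin
    · have h0 : ∀ᶠ x in 𝓝 y, x ≠ P := isOpen_ne.mem_nhds hyP
      exact h0.filter_mono nhdsWithin_le_nhds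
  filter_upwards [hy.filter_mono nhdsWithin_le_nhds, hnP] with x hx hxP
  unfold ut
  rw [rt_In h hx, hR.eq1 x hx hxP]

theorem u_smooth (h : D.Ok) : ContDiffOn ℝ ∞ D.u Disc := by
  intro z hz
  apply ContDiffAt.contDiffWithinAt
  rcases In_or_Away h hz with ⟨P, hI⟩ | hA
  · obtain ⟨rl, Ll, El, hR⟩ := exists_rep h hI.1
    exact (GU_log hz (hR.s1 z hI) (hR.pos z hI)).congr_of_eventuallyEq (u_cap h hR hI)
  · have hW := Away_W h hA
    exact (GU_log hz (GU_cdrst h.pair hz hW) (rst_pos h hz hW)).congr_of_eventuallyEq (u_away h hA)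

private theorem GU_rho {y : ℂ} {c : ℝ} (hy : y ∈ Disc) (hc : 0 < c)
    (hu : D.u y = Real.log (c * (1 - ‖y‖ ^ 2) / 2)) : rho D.u y = c := by
  have h1 := q_pos hy
  unfold rho
  rw [hu, Real.exp_log (by positivity)]
  field_simp

theorem rho_away (h : D.Ok) {z : ℂ} (hz : D.Away z) :
    ∀ᶠ y in 𝓝 z, rho D.u y = rst D.A D.B y := by
  filter_upwards [u_away h hz, Away_open h hz] with y hy hyA
  exact GU_rho hyA.1 (rst_pos h hyA.1 (Away_W h hyA)) hy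

theorem rho_cap (h : D.Ok) {P z : ℂ} (hz : D.In P z) (hne : z ≠ P) :
    ∀ᶠ y in 𝓝 z, rho D.u y = D.rin P y := by
  obtain ⟨rl, Ll, El, hR⟩ := exists_rep h hz.1
  have hnP : ∀ᶠ x in 𝓝 z, x ≠ P := isOpen_ne.mem_nhds hne
  filter_upwards [u_cap h hR hz, In_open h hz, hnP] with y hy hyI hyP
  rw [hR.eq1 y hyI hyP]
  exact GU_rho hyI.2.1 (hR.pos y hyI) hy

private theorem GU_val (h : D.Ok) {P z : ℂ} (hz : D.In P z) (hne : z ≠ P) :
    D.u z = Real.log (D.rin P z * (1 - ‖z‖ ^ 2) / 2) := by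
  obtain ⟨rl, Ll, El, hR⟩ := exists_rep h hz.1
  rw [(u_cap h hR hz).self_of_nhds, hR.eq1 z hz hne]

private theorem GU_gpos (h : D.Ok) {P z : ℂ} (hz : D.In P z) (hne : z ≠ P) :
    0 < D.G (D.ord P) (xo (D.ord P) (D.ra (D.lv P)) (D.rb (D.lv P)) z) := by
  obtain ⟨rl, Ll, El, hR⟩ := exists_rep h hz.1
  exact hR.gpos z hz hne

private theorem GU_sym_pt (h : D.Ok) {w a : ℂ} (hm : Pres D.A D.B w a) {z : ℂ} (hz : z ∈ Disc)
    (hW : Wr D.A D.B z ≠ 0) : D.u (mob w a z) = D.u z := by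
  have hz1 : ‖z‖ ≤ 1 := (RadA_lt hz).le
  have e1 := one_sub_mob hm.1 hm.2.1 hz1
  rcases In_or_Away h hz with ⟨P, hI⟩ | hA
  · have hzP : z ≠ P := by
      rintro rfl
      exact hW hI.1.2
    obtain ⟨hI', hl, ho⟩ := In_pres h hm hI
    have hzP' : mob w a z ≠ mob w a P := by
      intro he
      apply hzP
      have h1 := mob_inv hm.1 hm.2.1 hz1
      have h2 := mob_inv hm.1 hm.2.1 (RadA_lt hI.1.1).le
      rw [← h1, ← h2, he]
    obtain ⟨-, h2, h3, -, h5⟩ := In_ne h hI hzP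
    have hW' : Wr (D.ra (D.lv P)) (D.rb (D.lv P)) z ≠ 0 := by
      unfold ra rb
      rw [Wr_rot h.pair _ hz]
      exact hW
    have h6 := (pres_mod h5 (pair_rot h.pair (D.lv P)) (pres_rot hm (D.lv P)) hz hW' h2 h3
      (mu := D.mu) (GU_gpos h hI hzP)).1
    have h7 : D.rin (mob w a P) (mob w a z) * ‖mobd w a z‖ = D.rin P z := by
      unfold rin
      rw [hl, ho]
      exact h6
    rw [GU_val h hI hzP, GU_val h hI' hzP', e1, ← h7]
    congr 2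
    ring
  · have hA' := Away_pres h hm hA
    rw [(u_away h hA).self_of_nhds, (u_away h hA').self_of_nhds, e1, ← pres_rst h.pair hm hz]
    congr 2
    ring

theorem u_sym (h : D.Ok) {w a : ℂ} (hm : Pres D.A D.B w a) : Sym D.u w a := by
  refine ⟨hm.1, hm.2.1, fun z hz => ?_⟩
  have hcl := dense_compl h hz
  have hcu : ContinuousOn D.u Disc := (u_smooth h).continuousOn
  have hmz := mob_mem hm.1 hm.2.1 hz
  have hc1 : ContinuousAt D.u z := hcu.continuousAt (Metric.isOpen_ball.mem_nhds hz)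
  have hc2 : ContinuousAt (fun y => D.u (mob w a y)) z :=
    ContinuousAt.comp (g := D.u) (hcu.continuousAt (Metric.isOpen_ball.mem_nhds hmz))
      (mob_hasDerivAt hm.2.1 (RadA_lt hz).le).continuousAt
  have : (𝓝[Disc \ {z | Wr D.A D.B z = 0}] z).NeBot := mem_closure_iff_nhdsWithin_neBot.1 hcl
  refine tendsto_nhds_unique_of_eventuallyEq (l := 𝓝[Disc \ {z | Wr D.A D.B z = 0}] z)
    (hc2.tendsto.mono_left nhdsWithin_le_nhds) (hc1.tendsto.mono_left nhdsWithin_le_nhds) ?_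
  filter_upwards [self_mem_nhdsWithin] with y hy
  exact GU_sym_pt h hm hy.1 hy.2

end Cfg

end Pool.Agent.H.MP_bfbbee_an.F4
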