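import Pool.Agent.H.MP_bfbbee_an.helper67.Gd
import Pool.Agent.H.MP_bfbbee_an.helper67.LocA

/-!
# The caps are disjoint; the two kinds of regions cover the disc
-/

set_option autoImplicit false

namespace Pool.Agent.H.MP_bfbbee_an.F4

open ComplexConjugate Filter Topology Complex
open scoped ContDiff

namespace Cfg

variable {D : Cfg}

theorem T0_mono {p q : ℝ} (h0 : 0 ≤ p) (h : p < q) (h1 : q ≤ 1) : T0 p < T0 q := by
  unfold T0
  have hp : 0 < 1 + Real.sqrt (1 - p) := by positivity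
  have hq : 0 < 1 + Real.sqrt (1 - q) := by positivity
  calc Real.sqrt p / (1 + Real.sqrt (1 - p)) < Real.sqrt q / (1 + Real.sqrt (1 - p)) :=
        div_lt_div_of_pos_right (Real.sqrt_lt_sqrt h0 h) hp
    _ ≤ Real.sqrt q / (1 + Real.sqrt (1 - q)) := by
        refine div_le_div_of_nonneg_left (Real.sqrt_nonneg _) hq ?_
        have := Real.sqrt_le_sqrt (by linarith : 1 - q ≤ 1 - p)
        linarith

private theorem GUni_T0_nonneg (q : ℝ) : 0 ≤ T0 q := by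
  unfold T0
  positivity

private theorem GUni_T0_pos {q : ℝ} (h : 0 < q) : 0 < T0 q := by
  unfold T0
  have := Real.sqrt_pos.mpr h
  positivity

private theorem GUni_34 (h : D.Ok) : T0 (D.a3 ^ 2) < T0 (D.a4 ^ 2) := by
  have h1 := h.a1pos
  have h2 := h.a12
  have h3 := h.a23
  have h4 := h.a34
  have h5 := h.a45
  have h6 := h.a5lt
  refine T0_mono (by positivity) (by nlinarith) (by nlinarith)

private theorem GUni_4half (h : D.Ok) : T0 (D.a4 ^ 2) < T0 (1 / 2) := by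
  have h1 := h.a1pos
  have h2 := h.a12
  have h3 := h.a23
  have h4 := h.a34
  have h5 := h.a45
  have h6 := h.a5lt
  refine T0_mono (by positivity) (by nlinarith) (by norm_num)

private theorem GUni_4pos (h : D.Ok) : 0 < T0 (D.a4 ^ 2) :=
  (GUni_T0_nonneg _).trans_lt (GUni_34 h)

private theorem GUni_self {P : ℂ} (hP : P ∈ Disc) : ‖mob 1 P P‖ = 0 := (pd_zero hP hP).2 rfl

private theorem GUni_BP (h : D.Ok) {P : ℂ} (hP : isRam D.A D.B P) : D.B P ≠ 0 := by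
  intro h0
  have h1 := h.small P hP
  rw [h0, norm_zero] at h1
  exact absurd h1 (not_lt.2 (norm_nonneg _))

private theorem GUni_raP (h : D.Ok) {P : ℂ} (hP : isRam D.A D.B P) : D.ra (D.lv P) P = 0 := by
  have h1 := GUni_BP h hP
  unfold ra rA lv
  rw [div_mul_cancel₀ _ h1, sub_self, zero_div]

private theorem GUni_ca (h : D.Ok) (l : ℂ) {z : ℂ} (hz : z ∈ Disc) : ContinuousAt (D.ra l) z :=
  ((pair_rot h.pair l).hA.differentiableAt (Metric.isOpen_ball.mem_nhds hz)).continuousAt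

private theorem GUni_cb (h : D.Ok) (l : ℂ) {z : ℂ} (hz : z ∈ Disc) : ContinuousAt (D.rb l) z :=
  ((pair_rot h.pair l).hB.differentiableAt (Metric.isOpen_ball.mem_nhds hz)).continuousAt

private theorem GUni_Disc {z : ℂ} (hz : z ∈ Disc) : ∀ᶠ y in 𝓝 z, y ∈ Disc :=
  Metric.isOpen_ball.mem_nhds hz

private theorem GUni_pd {P z : ℂ} (hP : P ∈ Disc) (hz : z ∈ Disc) {r : ℝ}
    (hr : ‖mob 1 P z‖ < r) : ∀ᶠ y in 𝓝 z, ‖mob 1 P y‖ < r :=
  ((pd_cont hP).continuousAt (Metric.isOpen_ball.mem_nhds hz)).eventually_lt_const hr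

/-- Different ramification points are far apart. -/
theorem ram_sep (h : D.Ok) {P P' : ℂ} (hP : isRam D.A D.B P) (hP' : isRam D.A D.B P')
    (hd : ‖mob 1 P P'‖ < D.r0) : P = P' := by
  by_contra hne
  exact ((h.disc P hP P' hP'.1 hd).1 (Ne.symm hne)).1 hP'.2

/-- In a cap one is close to the centre. -/
theorem In_close (h : D.Ok) {P z : ℂ} (hz : D.In P z) : ‖mob 1 P z‖ < D.r0 / 4 := by
  obtain ⟨h1, h2, h3, h4⟩ := hz
  by_contra hc
  have h5 := (h.disc P h1 z h2 h3).2.2 (not_lt.1 hc)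
  linarith

/-- The caps are disjoint. -/
theorem In_unique (h : D.Ok) {P P' z : ℂ} (hz : D.In P z) (hz' : D.In P' z) : P = P' := by
  have h1 := In_close h hz
  have h2 := In_close h hz'
  have h3 := pd_triangle hz.2.1 hz.1.1 hz'.1.1
  have h4 := h.r0pos
  exact ram_sep h hz.1 hz'.1 (by linarith)

/-- Caps are open. -/
theorem In_open (h : D.Ok) {P z : ℂ} (hz : D.In P z) : ∀ᶠ y in 𝓝 z, D.In P y := by
  obtain ⟨h1, h2, h3, h4⟩ := hz
  have h5 : ∀ᶠ y in 𝓝 z, ‖D.ra (D.lv P) y‖ < T0 (D.a4 ^ 2) * ‖D.rb (D.lv P) y‖ :=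
    (GUni_ca h (D.lv P) h2).norm.eventually_lt
      (continuousAt_const.mul (GUni_cb h (D.lv P) h2).norm) h4
  filter_upwards [GUni_Disc h2, GUni_pd h1.1 h2 h3, h5] with y hy1 hy2 hy3
  exact ⟨h1, hy1, hy2, hy3⟩

/-- The cap contains its centre. -/
theorem In_self (h : D.Ok) {P : ℂ} (hP : isRam D.A D.B P) : D.In P P := by
  have h0 : ‖mob 1 P P‖ < D.r0 := by
    rw [GUni_self hP.1]
    exact h.r0pos
  refine ⟨hP, hP.1, h0, ?_⟩
  rw [GUni_raP h hP, norm_zero]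
  exact mul_pos (GUni_4pos h) (norm_pos_iff.2 (h.disc P hP P hP.1 h0).2.1)

/-- Every point is in a cap or away from the modified regions. -/
theorem In_or_Away (h : D.Ok) {z : ℂ} (hz : z ∈ Disc) : (∃ P, D.In P z) ∨ D.Away z := by
  by_cases hc : ∃ P, D.In P z
  · exact Or.inl hc
  · right
    refine ⟨hz, fun P hP hd => ?_⟩
    have h1 : ¬ ‖D.ra (D.lv P) z‖ < T0 (D.a4 ^ 2) * ‖D.rb (D.lv P) z‖ := fun hlt =>
      hc ⟨P, hP, hz, hd, hlt⟩
    refine lt_of_lt_of_le ?_ (not_lt.1 h1)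
    exact mul_lt_mul_of_pos_right (GUni_34 h) (norm_pos_iff.2 (h.disc P hP z hz hd).2.1)

/-- Being away is an open condition. -/
theorem Away_open (h : D.Ok) {z : ℂ} (hz : D.Away z) : ∀ᶠ y in 𝓝 z, D.Away y := by
  obtain ⟨hzD, hzA⟩ := hz
  have hr0 := h.r0pos
  have hN1 : ∀ᶠ y in 𝓝 z, ‖mob 1 z y‖ < D.r0 / 8 :=
    GUni_pd hzD hzD (by rw [GUni_self hzD]; linarith)
  -- a ramification point near `y` is near `z`
  have key : ∀ y ∈ Disc, ‖mob 1 z y‖ < D.r0 / 8 → ∀ P', isRam D.A D.B P' →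
      ‖mob 1 P' y‖ < D.r0 →
      T0 (D.a3 ^ 2) * ‖D.rb (D.lv P') y‖ < ‖D.ra (D.lv P') y‖ ∨
        ‖mob 1 P' z‖ < D.r0 / 2 := by
    intro y hy hy1 P' hP' hd
    rcases le_or_gt (D.r0 / 4) ‖mob 1 P' y‖ with h1 | h1
    · left
      have h2 := h.disc P' hP' y hy hd
      refine lt_of_lt_of_le ?_ (h2.2.2 h1)
      exact mul_lt_mul_of_pos_right (GUni_34 h) (norm_pos_iff.2 h2.2.1)
    · right
      have h2 := pd_triangle hy hP'.1 hzD
      linarith
  by_cases hc : ∃ P, isRam D.A D.B P ∧ ‖mob 1 P z‖ < D.r0 / 2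
  · obtain ⟨P, hP, hPz⟩ := hc
    have h1 := hzA P hP (by linarith)
    have hN2 : ∀ᶠ y in 𝓝 z, T0 (D.a3 ^ 2) * ‖D.rb (D.lv P) y‖ < ‖D.ra (D.lv P) y‖ :=
      (continuousAt_const.mul (GUni_cb h (D.lv P) hzD).norm).eventually_lt
        (GUni_ca h (D.lv P) hzD).norm h1
    filter_upwards [GUni_Disc hzD, hN1, hN2] with y hy1 hy2 hy3
    refine ⟨hy1, fun P' hP' hd => ?_⟩
    rcases key y hy1 hy2 P' hP' hd with h2 | h2
    · exact h2
    · have h3 := pd_triangle hzD hP.1 hP'.1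
      have h4 : P = P' := ram_sep h hP hP' (by linarith)
      rw [← h4]
      exact hy3
  · filter_upwards [GUni_Disc hzD, hN1] with y hy1 hy2
    refine ⟨hy1, fun P' hP' hd => ?_⟩
    rcases key y hy1 hy2 P' hP' hd with h2 | h2
    · exact h2
    · exact absurd ⟨P', hP', h2⟩ hc

/-- Points away are not ramification points. -/
theorem Away_W (h : D.Ok) {z : ℂ} (hz : D.Away z) : Wr D.A D.B z ≠ 0 := by
  intro hW
  have hP : isRam D.A D.B z := ⟨hz.1, hW⟩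
  have h1 := hz.2 z hP (by rw [GUni_self hz.1]; exact h.r0pos)
  rw [GUni_raP h hP, norm_zero] at h1
  exact absurd h1 (not_lt.2 (mul_nonneg (GUni_T0_nonneg _) (norm_nonneg _)))

/-- The values of the functions in a cap. -/
theorem rt_In (h : D.Ok) {P z : ℂ} (hz : D.In P z) : D.rt z = D.rin P z := by
  have hex : ∃ P, D.In P z := ⟨P, hz⟩
  rw [rt, dif_pos hex, In_unique h hex.choose_spec hz]

theorem Ft_In (h : D.Ok) {P z : ℂ} (hz : D.In P z) (θ : ℝ) : D.Ft (z, θ) = D.Fin P (z, θ) := by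
  have hex : ∃ P, D.In P (z, θ).1 := ⟨P, hz⟩
  rw [Ft, dif_pos hex, In_unique h hex.choose_spec hz]

/-- In a cap, off the centre. -/
theorem In_ne (h : D.Ok) {P z : ℂ} (hz : D.In P z) (hne : z ≠ P) :
    Wr D.A D.B z ≠ 0 ∧ D.ra (D.lv P) z ≠ 0 ∧ D.rb (D.lv P) z ≠ 0 ∧
      ‖D.ra (D.lv P) z‖ < T0 (1 / 2) * ‖D.rb (D.lv P) z‖ ∧ 1 ≤ D.ord P := by
  obtain ⟨h1, h2, h3, h4⟩ := hz
  have h5 := h.disc P h1 z h2 h3
  refine ⟨(h5.1 hne).1, (h5.1 hne).2, h5.2.1, ?_, ?_⟩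
  · refine h4.trans ?_
    exact mul_lt_mul_of_pos_right (GUni_4half h) (norm_pos_iff.2 h5.2.1)
  · have h6 := (order_ge_two h.pair h.nz h1.1 h1.2 (GUni_BP h h1)).1
    have h7 : 2 ≤ D.ord P := h6
    omega

private theorem GUni_W_an (h : Pair D.A D.B) : AnalyticOnNhd ℂ (Wr D.A D.B) Disc := by
  intro z hz
  have hA : AnalyticAt ℂ D.A z := h.hA.analyticAt (Metric.isOpen_ball.mem_nhds hz)
  have hB : AnalyticAt ℂ D.B z := h.hB.analyticAt (Metric.isOpen_ball.mem_nhds hz)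
  exact (hA.deriv.mul hB).sub (hA.mul hB.deriv)

/-- The ramification points are nowhere dense. -/
theorem dense_compl (h : D.Ok) : Disc ⊆ closure (Disc \ {z | Wr D.A D.B z = 0}) := by
  intro z hz
  have hW := GUni_W_an h.pair
  have h1 : ∀ᶠ y in 𝓝[≠] z, Wr D.A D.B y ≠ 0 := by
    rcases (hW z hz).eventually_eq_zero_or_eventually_ne_zero with h2 | h2
    · exfalso
      obtain ⟨y, hy, hy0⟩ := h.nz
      have h3 := hW.eqOn_zero_of_preconnected_of_eventuallyEq_zero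
        (convex_ball (0 : ℂ) 1).isPreconnected hz h2
      exact hy0 (h3 hy)
    · exact h2
  rw [mem_closure_iff_frequently]
  have h2 : ∀ᶠ y in 𝓝[≠] z, y ∈ Disc \ {z | Wr D.A D.B z = 0} := by
    filter_upwards [h1, mem_nhdsWithin_of_mem_nhds (GUni_Disc hz)] with y hy1 hy2
    exact ⟨hy2, hy1⟩
  exact h2.frequently.filter_mono nhdsWithin_le_nhds

/-- The common factor for the rotated pair. -/
private theorem GUni_fac (h : D.Ok) {w a : ℂ} (hm : Pres D.A D.B w a) (l : ℂ) {z : ℂ}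
    (hz : z ∈ Disc) : ∃ m : ℂ, m ≠ 0 ∧ D.ra l (mob w a z) = m * D.ra l z ∧
      D.rb l (mob w a z) = m * D.rb l z := by
  obtain ⟨m, h1, h2, h3, -⟩ := pres_fac (pair_rot h.pair l) (pres_rot hm l) hz
  exact ⟨m, h1, h2, h3⟩

private theorem GUni_lv (h : D.Ok) {w a : ℂ} (hm : Pres D.A D.B w a) {P : ℂ}
    (hP : isRam D.A D.B P) : isRam D.A D.B (mob w a P) ∧ D.lv (mob w a P) = D.lv P :=
  ram_pres h.pair hm hP

/-- The order is invariant. -/
private theorem GUni_ord (h : D.Ok) {w a : ℂ} (hm : Pres D.A D.B w a) {P : ℂ}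
    (hP : isRam D.A D.B P) : D.ord (mob w a P) = D.ord P := by
  obtain ⟨hR, hl⟩ := GUni_lv h hm hP
  have hPn : ‖P‖ ≤ 1 := (RadA_lt hP.1).le
  have hmD : mob w a P ∈ Disc := hR.1
  set l := D.lv P with hld
  have hpair := pair_rot h.pair l
  have hpres := pres_rot hm l
  have anA : ∀ z ∈ Disc, AnalyticAt ℂ (rA l D.A D.B) z := fun z hz =>
    hpair.hA.analyticAt (Metric.isOpen_ball.mem_nhds hz)
  have anB : ∀ z ∈ Disc, AnalyticAt ℂ (rB l D.A D.B) z := fun z hz =>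
    hpair.hB.analyticAt (Metric.isOpen_ball.mem_nhds hz)
  have hmobD : DifferentiableOn ℂ (mob w a) Disc := fun z hz =>
    (mob_hasDerivAt hm.2.1 (RadA_lt hz).le).differentiableAt.differentiableWithinAt
  have anM : AnalyticAt ℂ (mob w a) P := hmobD.analyticAt (Metric.isOpen_ball.mem_nhds hP.1)
  have hder : deriv (mob w a) P ≠ 0 := by
    rw [(mob_hasDerivAt hm.2.1 hPn).deriv]
    exact mobd_ne hm.1 hm.2.1 hPn
  have hrbP : rB l D.A D.B P ≠ 0 :=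
    (h.disc P hP P hP.1 (by rw [GUni_self hP.1]; exact h.r0pos)).2.1
  have hrbM : rB l D.A D.B (mob w a P) ≠ 0 := by
    obtain ⟨m, hm0, -, hmb⟩ := GUni_fac h hm l hP.1
    have h1 : rB l D.A D.B (mob w a P) = m * rB l D.A D.B P := hmb
    rw [h1]
    exact mul_ne_zero hm0 hrbP
  have e1 := analyticOrderAt_comp_of_deriv_ne_zero (f := rA l D.A D.B) anM hder
  have anAc : AnalyticAt ℂ (rA l D.A D.B ∘ mob w a) P := (anA _ hmD).comp anM
  have anBc : AnalyticAt ℂ (rB l D.A D.B ∘ mob w a) P := (anB _ hmD).comp anM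
  have hcr : (rA l D.A D.B ∘ mob w a) * rB l D.A D.B =ᶠ[𝓝 P]
      rA l D.A D.B * (rB l D.A D.B ∘ mob w a) := by
    filter_upwards [GUni_Disc hP.1] with z hz
    exact hpres.2.2 z hz
  have e2 := analyticOrderAt_congr hcr
  rw [analyticOrderAt_mul anAc (anB P hP.1), analyticOrderAt_mul (anA P hP.1) anBc,
    (anB P hP.1).analyticOrderAt_eq_zero.2 hrbP, anBc.analyticOrderAt_eq_zero.2 hrbM,
    add_zero, add_zero, e1] at e2
  unfold ord analyticOrderNatAt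
  rw [hl, e2]

/-- Invariance of the caps. -/
theorem In_pres (h : D.Ok) {w a : ℂ} (hm : Pres D.A D.B w a) {P z : ℂ} (hz : D.In P z) :
    D.In (mob w a P) (mob w a z) ∧ D.lv (mob w a P) = D.lv P ∧ D.ord (mob w a P) = D.ord P := by
  obtain ⟨h1, h2, h3, h4⟩ := hz
  obtain ⟨hR, hl⟩ := GUni_lv h hm h1
  refine ⟨⟨hR, mob_mem hm.1 hm.2.1 h2, ?_, ?_⟩, hl, GUni_ord h hm h1⟩
  · rw [pd_inv hm.1 hm.2.1 h2 h1.1]
    exact h3
  · obtain ⟨m, hm0, hma, hmb⟩ := GUni_fac h hm (D.lv P) h2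
    rw [hl, hma, hmb, norm_mul, norm_mul]
    have h5 : 0 < ‖m‖ := norm_pos_iff.2 hm0
    have h6 := mul_lt_mul_of_pos_left h4 h5
    calc ‖m‖ * ‖D.ra (D.lv P) z‖ < ‖m‖ * (T0 (D.a4 ^ 2) * ‖D.rb (D.lv P) z‖) := h6
      _ = T0 (D.a4 ^ 2) * (‖m‖ * ‖D.rb (D.lv P) z‖) := by ring

theorem Away_pres (h : D.Ok) {w a : ℂ} (hm : Pres D.A D.B w a) {z : ℂ} (hz : D.Away z) :
    D.Away (mob w a z) := by
  obtain ⟨hzD, hzA⟩ := hz
  refine ⟨mob_mem hm.1 hm.2.1 hzD, fun P' hP' hd => ?_⟩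
  obtain ⟨hP, -⟩ := GUni_lv h (pres_inv hm) hP'
  have hback : mob w a (mob ((starRingEnd ℂ) w) (-(w * a)) P') = P' :=
    mob_inv' hm.1 hm.2.1 (RadA_lt hP'.1).le
  set P := mob ((starRingEnd ℂ) w) (-(w * a)) P' with hPd
  obtain ⟨-, hl⟩ := GUni_lv h hm hP
  rw [hback] at hl
  have h1 : ‖mob 1 P z‖ < D.r0 := by
    rw [← pd_inv hm.1 hm.2.1 hzD hP.1, hback]
    exact hd
  have h2 := hzA P hP h1
  obtain ⟨m, hm0, hma, hmb⟩ := GUni_fac h hm (D.lv P) hzD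
  rw [hl, hma, hmb, norm_mul, norm_mul]
  have h5 : 0 < ‖m‖ := norm_pos_iff.2 hm0
  have h6 := mul_lt_mul_of_pos_left h2 h5
  calc T0 (D.a3 ^ 2) * (‖m‖ * ‖D.rb (D.lv P) z‖) =
        ‖m‖ * (T0 (D.a3 ^ 2) * ‖D.rb (D.lv P) z‖) := by ring
    _ < ‖m‖ * ‖D.ra (D.lv P) z‖ := h6

end Cfg

end Pool.Agent.H.MP_bfbbee_an.F4
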