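import Pool.Agent.H.MP_bfbbee_an.helper67.Fd

/-!
# The modified metric near a ramification point: definitions

`(a0, b0)` is a (rotated) pair, `t = |a0|/|b0|`, `x = t^(2/β)`, `q = G x`.
-/

set_option autoImplicit false

namespace Pool.Agent.H.MP_bfbbee_an.F4

open ComplexConjugate Filter Topology Complex
open scoped ContDiff

/-- `x = (|a0|/|b0|)^(2/β)`. -/
noncomputable def xo (β : ℕ) (a0 b0 : ℂ → ℂ) (z : ℂ) : ℝ := (‖a0 z‖ / ‖b0 z‖) ^ (2 / (β : ℝ))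

/-- The factor of the modified metric (at points where `a0, b0 ≠ 0`). -/
noncomputable def rhoO (β : ℕ) (G : ℝ → ℝ) (a0 b0 : ℂ → ℂ) (z : ℂ) : ℝ :=
  Real.sqrt (G (xo β a0 b0 z)) * (‖Wr a0 b0 z‖ / (‖a0 z‖ * ‖b0 z‖))

/-- `Λ = g q / ρ`, `g = W/(a0 b0)`. -/
noncomputable def LamO (β : ℕ) (G : ℝ → ℝ) (a0 b0 : ℂ → ℂ) (z : ℂ) : ℂ :=
  Wr a0 b0 z / (a0 z * b0 z) * ((G (xo β a0 b0 z) / rhoO β G a0 b0 z : ℝ) : ℂ)

/-- `E = W^β / (a0^(β-1) b0^(β+1))`. -/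
noncomputable def EO (β : ℕ) (a0 b0 : ℂ → ℂ) (z : ℂ) : ℂ :=
  Wr a0 b0 z ^ β / (a0 z ^ (β - 1) * b0 z ^ (β + 1))

/-- `χ` as a function of `θ, Λ, E`. -/
noncomputable def chi (β : ℕ) (mu : ℝ → ℝ) (θ : ℝ) (L E : ℂ) : ℂ :=
  conj (dir (β * θ) * (E / (‖E‖ : ℂ))) *
    Complex.exp (-I * (Psi β mu (dir θ * L).im (dir θ * L).re : ℂ))

end Pool.Agent.H.MP_bfbbee_an.F4
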