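import Pool.Agent.H.MP_bfbbee_an.helper67.RadA
import Pool.Agent.H.MP_bfbbee_an.helper67.Ld

/-!
# The metric and the first integral: global definitions
-/

set_option autoImplicit false

namespace Pool.Agent.H.MP_bfbbee_an.F4

open ComplexConjugate Filter Topology Complex
open scoped ContDiff

/-- All data of the construction. -/
structure Cfg where
  A : ℂ → ℂ
  B : ℂ → ℂ
  r0 : ℝ
  a1 : ℝ
  a2 : ℝ
  a3 : ℝ
  a4 : ℝ
  a5 : ℝ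
  mu : ℝ → ℝ
  G : ℕ → ℝ → ℝ
  h : ℕ → ℝ → ℝ
  S : Finset ℂ
  cg : ℝ → ℝ
  cG : ℝ → ℝ
  cX : ℝ → ℝ
  eta : ℝ

/-- The direction `c/|c|`, `c = (l' - l)/(1 + conj l l')`. -/
noncomputable def cc (l l' : ℂ) : ℂ := (l' - l) / (1 + conj l * l')

namespace Cfg

/-- The critical value at `P`. -/
noncomputable def lv (D : Cfg) (P : ℂ) : ℂ := D.A P / D.B P

/-- The ramification index at `P`. -/
noncomputable def ord (D : Cfg) (P : ℂ) : ℕ := analyticOrderNatAt (rA (D.lv P) D.A D.B) P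

/-- The rotated pair. -/
noncomputable def ra (D : Cfg) (l : ℂ) : ℂ → ℂ := rA l D.A D.B

/-- The rotated pair. -/
noncomputable def rb (D : Cfg) (l : ℂ) : ℂ → ℂ := rB l D.A D.B

/-- `z` lies in the disc of `P` and `|f_P z| < T0 (r²)`. -/
def InR (D : Cfg) (r : ℝ) (P z : ℂ) : Prop :=
  isRam D.A D.B P ∧ z ∈ Disc ∧ ‖mob 1 P z‖ < D.r0 ∧
    ‖D.ra (D.lv P) z‖ < T0 (r ^ 2) * ‖D.rb (D.lv P) z‖

/-- `z` lies in the (open) cap of `P`. -/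
def In (D : Cfg) (P z : ℂ) : Prop := D.InR D.a4 P z

/-- `z` lies outside the modified regions. -/
def Away (D : Cfg) (z : ℂ) : Prop :=
  z ∈ Disc ∧ ∀ P, isRam D.A D.B P → ‖mob 1 P z‖ < D.r0 →
    T0 (D.a3 ^ 2) * ‖D.rb (D.lv P) z‖ < ‖D.ra (D.lv P) z‖

/-- The factor of the metric inside the cap of `P`. -/
noncomputable def rin (D : Cfg) (P z : ℂ) : ℝ :=
  rhoO (D.ord P) (D.G (D.ord P)) (D.ra (D.lv P)) (D.rb (D.lv P)) z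

open Classical in
/-- The factor of the metric, outside the ramification points. -/
noncomputable def rt (D : Cfg) (z : ℂ) : ℝ :=
  if h : ∃ P, D.In P z then D.rin h.choose z else rst D.A D.B z

/-- The conformal exponent, outside the ramification points. -/
noncomputable def ut (D : Cfg) (z : ℂ) : ℝ := Real.log (D.rt z * (1 - ‖z‖ ^ 2) / 2)

/-- The conformal exponent. -/
noncomputable def u (D : Cfg) (z : ℂ) : ℝ := limUnder (𝓝[≠] z) D.ut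

/-- Angular momentum about the value `l`. -/
noncomputable def Jl (D : Cfg) (l : ℂ) (p : ℂ × ℝ) : ℝ := Jf (D.ra l) (D.rb l) p

/-- The other components. -/
noncomputable def Nl (D : Cfg) (l : ℂ) (p : ℂ × ℝ) : ℂ := Nf (D.ra l) (D.rb l) p

/-- The cut-off which avoids the other bands. -/
noncomputable def Y (D : Cfg) (l : ℂ) (om : ℂ) : ℝ :=
  ∏ l' ∈ D.S.erase l, D.cX ((cc l l' / (‖cc l l'‖ : ℂ)) ^ 2 * om).re

/-- The first integral outside the caps. -/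
noncomputable def Fout (D : Cfg) (p : ℂ × ℝ) : ℝ :=
  Jf D.A D.B p * ∏ l ∈ D.S, D.cG (D.Jl l p) +
    ∑ l ∈ D.S, D.Jl l p * D.cg (D.Jl l p) * D.Y l (D.Nl l p ^ 2)

/-- The first integral in the caps, as a function of `θ, Λ, E`. -/
noncomputable def Fk (D : Cfg) (β : ℕ) (l : ℂ) (θ : ℝ) (L E : ℂ) : ℝ :=
  (dir θ * L).im * D.cg (dir θ * L).im *
    D.Y l (-((1 - (dir θ * L).im ^ 2 : ℝ) : ℂ) * chi β D.mu θ L E ^ 2)

/-- The first integral in the cap of `P`. -/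
noncomputable def Fin (D : Cfg) (P : ℂ) (p : ℂ × ℝ) : ℝ :=
  D.Fk (D.ord P) (D.lv P) p.2
    (LamO (D.ord P) (D.G (D.ord P)) (D.ra (D.lv P)) (D.rb (D.lv P)) p.1)
    (EO (D.ord P) (D.ra (D.lv P)) (D.rb (D.lv P)) p.1)

open Classical in
/-- The first integral, outside the ramification points. -/
noncomputable def Ft (D : Cfg) (p : ℂ × ℝ) : ℝ :=
  if h : ∃ P, D.In P p.1 then D.Fin h.choose p else D.Fout p

/-- The first integral. -/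
noncomputable def F (D : Cfg) (p : ℂ × ℝ) : ℝ := limUnder (𝓝[≠] p.1) (fun y => D.Ft (y, p.2))

/-- The properties of the data. -/
structure Ok (D : Cfg) : Prop where
  pair : Pair D.A D.B
  nz : ∃ z ∈ Disc, Wr D.A D.B z ≠ 0
  small : ∀ P, isRam D.A D.B P → ‖D.A P‖ < ‖D.B P‖
  r0pos : 0 < D.r0
  r0lt : D.r0 < 1
  disc : ∀ P, isRam D.A D.B P → ∀ z ∈ Disc, ‖mob 1 P z‖ < D.r0 →
    (z ≠ P → Wr D.A D.B z ≠ 0 ∧ D.ra (D.lv P) z ≠ 0) ∧ D.rb (D.lv P) z ≠ 0 ∧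
      (D.r0 / 4 ≤ ‖mob 1 P z‖ → T0 (D.a4 ^ 2) * ‖D.rb (D.lv P) z‖ ≤ ‖D.ra (D.lv P) z‖)
  a1pos : 0 < D.a1
  a12 : D.a1 < D.a2
  a23 : D.a2 < D.a3
  a34 : D.a3 < D.a4
  a45 : D.a4 < D.a5
  a5lt : D.a5 ^ 2 < 1 / 2
  dev : Dev D.a2 D.a3 D.mu
  prof : ∀ β : ℕ, 1 ≤ β → ∃ δ, Prof β (D.a3 ^ 2) D.mu (D.G β) (D.h β) δ
  memS : ∀ P, isRam D.A D.B P → D.lv P ∈ D.S
  ltS : ∀ l ∈ D.S, ‖l‖ < 1
  cgs : ContDiff ℝ ∞ D.cg
  cg1 : ∀ t, |t| ≤ D.a1 → D.cg t = 1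
  cg0 : ∀ t, D.a2 ≤ |t| → D.cg t = 0
  cGs : ContDiff ℝ ∞ D.cG
  cG0 : ∀ t, |t| ≤ D.a4 → D.cG t = 0
  cG1 : ∀ t, D.a5 ≤ |t| → D.cG t = 1
  cXs : ContDiff ℝ ∞ D.cX
  cX0 : ∀ t, t ≤ -1 + D.eta → D.cX t = 0
  cX1 : ∀ t, -1 + 2 * D.eta ≤ t → D.cX t = 1
  etapos : 0 < D.eta
  sep : ∀ l ∈ D.S, ∀ l' ∈ D.S, l ≠ l' → ∀ (j : ℝ) (n : ℂ), j ^ 2 + ‖n‖ ^ 2 = 1 → |j| < D.a2 →
    -1 + D.eta < ((cc l l' / (‖cc l l'‖ : ℂ)) ^ 2 * n ^ 2).re →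
    D.a5 < |((1 - ‖cc l l'‖ ^ 2) * j - 2 * (cc l l' * n).re) / (1 + ‖cc l l'‖ ^ 2)|

end Cfg

end Pool.Agent.H.MP_bfbbee_an.F4
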