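import Pool.Agent.H.MP_bfbbee_an.helper67.GF
import Pool.Agent.H.MP_bfbbee_an.helper67.Amp

/-!
# Measure of the critical angles away from the caps
-/

set_option autoImplicit false

namespace Pool.Agent.H.MP_bfbbee_an.F4

open ComplexConjugate Filter Topology Complex MeasureTheory
open scoped ContDiff ENNReal

namespace Cfg

variable {D : Cfg}

private theorem MeA_k (h : D.Ok) {l l' : ℂ} (hl : l ∈ D.S) (hl' : l' ∈ D.S) :
    1 + conj l * l' ≠ 0 := by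
  intro h0
  have h1 : conj l * l' = -1 := by linear_combination h0
  have h2 := congrArg norm h1
  rw [norm_mul, Complex.norm_conj, norm_neg, norm_one] at h2
  have h3 := h.ltS l hl
  have h4 := h.ltS l' hl'
  nlinarith [norm_nonneg l, norm_nonneg l']

private theorem MeA_cc (h : D.Ok) {l l' : ℂ} (hl : l ∈ D.S) (hl' : l' ∈ D.S) (hne : l ≠ l') :
    cc l l' ≠ 0 := div_ne_zero (sub_ne_zero.2 (Ne.symm hne)) (MeA_k h hl hl')

private theorem MeA_W (h : D.Ok) {z : ℂ} (hz : z ∈ Disc) (hW : Wr D.A D.B z ≠ 0) (l : ℂ) :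
    Wr (rA l D.A D.B) (rB l D.A D.B) z ≠ 0 := by
  rwa [Wr_rot h.pair l hz]

private theorem MeA_re (v n : ℂ) (hv : ‖v‖ = 1) :
    (v ^ 2 * n ^ 2).re = 2 * (v * n).re ^ 2 - ‖n‖ ^ 2 := by
  have h1 : ‖n‖ ^ 2 = (v * n).re ^ 2 + (v * n).im ^ 2 := by
    have h2 : ‖v * n‖ ^ 2 = (v * n).re ^ 2 + (v * n).im ^ 2 := by
      rw [Complex.sq_norm, Complex.normSq_apply]
      ring
    rwa [norm_mul, hv, one_mul] at h2
  rw [h1, ← mul_pow, pow_two (v * n), Complex.mul_re]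
  ring

private theorem MeA_bound {C j y : ℝ} (hC : 0 ≤ C) :
    |((1 - C ^ 2) * j - 2 * (C * y)) / (1 + C ^ 2)| ≤ |j| + |y| := by
  have h0 : 0 < 1 + C ^ 2 := by positivity
  rw [abs_div, abs_of_pos h0, div_le_iff₀ h0]
  have h1 : |1 - C ^ 2| ≤ 1 + C ^ 2 := by
    rw [abs_le]
    constructor <;> nlinarith [sq_nonneg C]
  have h2 : 2 * C ≤ 1 + C ^ 2 := by nlinarith [sq_nonneg (C - 1)]
  calc |(1 - C ^ 2) * j - 2 * (C * y)| ≤ |(1 - C ^ 2) * j| + |2 * (C * y)| := abs_sub _ _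
    _ = |1 - C ^ 2| * |j| + 2 * C * |y| := by
        rw [abs_mul, abs_mul, abs_mul, abs_two, abs_of_nonneg hC]
        ring
    _ ≤ (1 + C ^ 2) * |j| + (1 + C ^ 2) * |y| := by
        have := mul_le_mul_of_nonneg_right h1 (abs_nonneg j)
        have := mul_le_mul_of_nonneg_right h2 (abs_nonneg y)
        linarith
    _ = (|j| + |y|) * (1 + C ^ 2) := by ring

/-- If the angular momentum about `l` is small, the one about `l'` is not. -/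
private theorem MeA_free (h : D.Ok) {l l' : ℂ} (hl : l ∈ D.S) (hl' : l' ∈ D.S) (hne : l ≠ l')
    {z : ℂ} (hz : z ∈ Disc) (hW : Wr D.A D.B z ≠ 0) (θ : ℝ)
    (hJ : |D.Jl l (z, θ)| < D.a1)
    (hd2 : ¬ (|D.Jl l (z, θ)| ≤ D.a5 + Real.sqrt D.eta ∧
      |D.Jl l' (z, θ)| ≤ D.a5 + Real.sqrt D.eta)) :
    -1 + 2 * D.eta < ((cc l l' / (‖cc l l'‖ : ℂ)) ^ 2 * D.Nl l (z, θ) ^ 2).re := by
  by_contra hcon
  have e1 := h.a12
  have e2 := h.a23
  have e3 := h.a34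
  have e4 := h.a45
  have e0 := Real.sqrt_nonneg D.eta
  apply hd2
  refine ⟨by linarith, ?_⟩
  have hc := MeA_cc h hl hl' hne
  have hcn : 0 < ‖cc l l'‖ := norm_pos_iff.2 hc
  have hv : ‖cc l l' / (‖cc l l'‖ : ℂ)‖ = 1 := by
    rw [norm_div, Complex.norm_real, norm_norm, div_self hcn.ne']
  rw [MeA_re _ _ hv, not_lt] at hcon
  have hJN : D.Jl l (z, θ) ^ 2 + ‖D.Nl l (z, θ)‖ ^ 2 = 1 :=
    J_sq_add (pair_rot h.pair l) hz (MeA_W h hz hW l) θ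
  have hy : |(cc l l' / (‖cc l l'‖ : ℂ) * D.Nl l (z, θ)).re| ≤ Real.sqrt D.eta := by
    apply Real.abs_le_sqrt
    nlinarith [sq_nonneg (D.Jl l (z, θ))]
  have h2 : D.Jl l' (z, θ) = ((1 - ‖cc l l'‖ ^ 2) * D.Jl l (z, θ) -
      2 * (cc l l' * D.Nl l (z, θ)).re) / (1 + ‖cc l l'‖ ^ 2) :=
    J_change h.pair (MeA_k h hl hl') rfl hz hW θ
  have h3 : (cc l l' * D.Nl l (z, θ)).re =
      ‖cc l l'‖ * (cc l l' / (‖cc l l'‖ : ℂ) * D.Nl l (z, θ)).re := by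
    rw [← Complex.re_ofReal_mul, ← mul_assoc, mul_div_cancel₀]
    exact Complex.ofReal_ne_zero.2 hcn.ne'
  rw [h2, h3]
  refine (MeA_bound hcn.le).trans ?_
  linarith

private theorem MeA_key (h : D.Ok) {z : ℂ} (hz : D.Away z) (θ : ℝ)
    (hd1 : ∀ l ∈ D.S, ¬ (D.a1 ≤ |D.Jl l (z, θ)| ∧ |D.Jl l (z, θ)| ≤ D.a5))
    (hd2 : ∀ l ∈ D.S, ∀ l' ∈ D.S, l ≠ l' → ¬ (|D.Jl l (z, θ)| ≤ D.a5 + Real.sqrt D.eta ∧
      |D.Jl l' (z, θ)| ≤ D.a5 + Real.sqrt D.eta))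
    (hd3 : fderiv ℝ (Jf D.A D.B) (z, θ) ≠ 0)
    (hd4 : ∀ l ∈ D.S, fderiv ℝ (D.Jl l) (z, θ) ≠ 0) : fderiv ℝ D.F (z, θ) ≠ 0 := by
  have hzD := hz.1
  have hWz := Away_W h hz
  have e1 := h.a12
  have e2 := h.a23
  have e3 := h.a34
  have e4 := h.a45
  have hF := F_away h hz θ
  have hJc : ∀ l, ContinuousAt (D.Jl l) (z, θ) := fun l =>
    (J_smooth (pair_rot h.pair l) hzD (MeA_W h hzD hWz l) θ).continuousAt
  have hNc : ∀ l, ContinuousAt (D.Nl l) (z, θ) := fun l =>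
    (N_smooth (pair_rot h.pair l) hzD (MeA_W h hzD hWz l) θ).continuousAt
  by_cases hall : ∀ l ∈ D.S, D.a5 < |D.Jl l (z, θ)|
  · have h1 : ∀ᶠ p in 𝓝 (z, θ), ∀ l ∈ D.S, D.a5 < |D.Jl l p| := by
      rw [Filter.eventually_all_finset]
      intro l hl
      exact (hJc l).abs.eventually_const_lt (hall l hl)
    have h2 : D.F =ᶠ[𝓝 (z, θ)] Jf D.A D.B := by
      filter_upwards [hF, h1] with p hp1 hp2
      rw [hp1]
      unfold Fout
      rw [Finset.prod_eq_one fun l hl => h.cG1 _ (hp2 l hl).le, mul_one,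
        Finset.sum_eq_zero fun l hl => by
          rw [h.cg0 _ (by linarith [hp2 l hl]), mul_zero, zero_mul], add_zero]
    rw [h2.fderiv_eq]
    exact hd3
  · push Not at hall
    obtain ⟨l, hl, hle⟩ := hall
    have hJ : |D.Jl l (z, θ)| < D.a1 := by
      by_contra hc
      exact hd1 l hl ⟨not_lt.1 hc, hle⟩
    have h1 : ∀ᶠ p in 𝓝 (z, θ), |D.Jl l p| < D.a1 := (hJc l).abs.eventually_lt_const hJ
    have h2 : ∀ᶠ p in 𝓝 (z, θ), ∀ l' ∈ D.S.erase l,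
        -1 + 2 * D.eta < ((cc l l' / (‖cc l l'‖ : ℂ)) ^ 2 * D.Nl l p ^ 2).re := by
      rw [Filter.eventually_all_finset]
      intro l' hl'
      have h3 := MeA_free h hl (Finset.mem_of_mem_erase hl') (Ne.symm (Finset.ne_of_mem_erase hl'))
        hzD hWz θ hJ (hd2 l hl l' (Finset.mem_of_mem_erase hl')
          (Ne.symm (Finset.ne_of_mem_erase hl')))
      have h4 : ContinuousAt (fun p => ((cc l l' / (‖cc l l'‖ : ℂ)) ^ 2 * D.Nl l p ^ 2).re)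
          (z, θ) := Complex.continuous_re.continuousAt.comp
            (continuousAt_const.mul ((hNc l).pow 2))
      exact h4.eventually_const_lt h3
    have h5 : ∀ᶠ p : ℂ × ℝ in 𝓝 (z, θ), D.Away p.1 :=
      (continuous_fst.tendsto (z, θ)).eventually (Away_open h hz)
    have h6 : D.F =ᶠ[𝓝 (z, θ)] D.Jl l := by
      filter_upwards [hF, h1, h2, h5] with p hp1 hp2 hp3 hp4
      have h7 := Fout_band h hl hp4.1 (Away_W h hp4) p.2
        (by linarith : |D.Jl l (p.1, p.2)| ≤ D.a4)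
      rw [Prod.mk.eta] at h7
      rw [hp1, h7, h.cg1 _ hp2.le, mul_one]
      have h8 : D.Y l (D.Nl l p ^ 2) = 1 := by
        unfold Y
        exact Finset.prod_eq_one fun l' hl' => h.cX1 _ (hp3 l' hl').le
      rw [h8, mul_one]
    rw [h6.fderiv_eq]
    exact hd4 l hl

/-- Away from the modified regions. -/
theorem meas_away (h : D.Ok) {e1 e2 : ℝ≥0∞}
    (h1 : ∀ L : ℂ, volume {θ : ℝ | θ ∈ Set.Icc 0 (2 * Real.pi) ∧ D.a1 ≤ |(dir θ * L).im| ∧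
      |(dir θ * L).im| ≤ D.a5} ≤ e1)
    (h2 : ∀ l ∈ D.S, ∀ l' ∈ D.S, l ≠ l' →
      ENNReal.ofReal (32 * Real.pi * (D.a5 + Real.sqrt D.eta) /
        (‖cc l l'‖ / (1 + ‖cc l l'‖ ^ 2))) ≤ e2)
    {z : ℂ} (hz : D.Away z) :
    volume {θ : ℝ | θ ∈ Set.Icc 0 (2 * Real.pi) ∧ fderiv ℝ D.F (z, θ) = 0} ≤
      D.S.card * e1 + (D.S.card * D.S.card) * e2 := by
  classical
  have hzD := hz.1
  have hWz := Away_W h hz
  have e0 := Real.sqrt_nonneg D.eta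
  have ed : 0 ≤ D.a5 + Real.sqrt D.eta := by
    have e1 := h.a1pos
    have e2 := h.a12
    have e3 := h.a23
    have e4 := h.a34
    have e5 := h.a45
    linarith
  set A1 : ℂ → Set ℝ := fun l => {θ : ℝ | θ ∈ Set.Icc 0 (2 * Real.pi) ∧
    D.a1 ≤ |D.Jl l (z, θ)| ∧ |D.Jl l (z, θ)| ≤ D.a5} with hA1
  set A2 : ℂ × ℂ → Set ℝ := fun x => {θ : ℝ | x.1 ≠ x.2 ∧ θ ∈ Set.Icc 0 (2 * Real.pi) ∧
    |D.Jl x.1 (z, θ)| ≤ D.a5 + Real.sqrt D.eta ∧ |D.Jl x.2 (z, θ)| ≤ D.a5 + Real.sqrt D.eta}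
    with hA2
  set A3 : Set ℝ := {θ : ℝ | θ ∈ Set.Icc 0 (2 * Real.pi) ∧
    fderiv ℝ (Jf D.A D.B) (z, θ) = 0} with hA3
  set A4 : ℂ → Set ℝ := fun l => {θ : ℝ | θ ∈ Set.Icc 0 (2 * Real.pi) ∧
    fderiv ℝ (D.Jl l) (z, θ) = 0} with hA4
  have hsub : {θ : ℝ | θ ∈ Set.Icc 0 (2 * Real.pi) ∧ fderiv ℝ D.F (z, θ) = 0} ⊆
      ((⋃ l ∈ D.S, A1 l) ∪ (⋃ x ∈ D.S ×ˢ D.S, A2 x)) ∪ (A3 ∪ ⋃ l ∈ D.S, A4 l) := by
    rintro θ ⟨hθ, hf⟩
    by_contra hcon
    simp only [Set.mem_union, Set.mem_iUnion, not_or, not_exists] at hcon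
    obtain ⟨⟨c1, c2⟩, c3, c4⟩ := hcon
    refine MeA_key h hz θ (fun l hl hc => c1 l hl ⟨hθ, hc⟩) (fun l hl l' hl' hne hc => ?_)
      (fun hc => c3 ⟨hθ, hc⟩) (fun l hl hc => c4 l hl ⟨hθ, hc⟩) hf
    exact c2 (l, l') (Finset.mem_product.2 ⟨hl, hl'⟩) ⟨hne, hθ, hc⟩
  have m1 : volume (⋃ l ∈ D.S, A1 l) ≤ D.S.card * e1 := by
    refine (measure_biUnion_finset_le _ _).trans ?_
    refine (Finset.sum_le_sum (g := fun _ => e1) fun l hl => ?_).trans (le_of_eq ?_)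
    · have h4 : ∀ θ : ℝ, D.Jl l (z, θ) = _ := fun θ => J_amp z θ
      simp only [hA1, h4]
      exact h1 _
    · rw [Finset.sum_const, nsmul_eq_mul]
  have m2 : volume (⋃ x ∈ D.S ×ˢ D.S, A2 x) ≤ (D.S.card * D.S.card) * e2 := by
    refine (measure_biUnion_finset_le _ _).trans ?_
    refine (Finset.sum_le_sum (g := fun _ => e2) fun x hx => ?_).trans (le_of_eq ?_)
    · obtain ⟨hx1, hx2⟩ := Finset.mem_product.1 hx
      by_cases hne : x.1 = x.2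
      · have h4 : A2 x = ∅ := by
          rw [Set.eq_empty_iff_forall_notMem]
          rintro θ ⟨h5, -⟩
          exact h5 hne
        rw [h4, measure_empty]
        exact zero_le
      · refine le_trans ?_ ((two_small h.pair (MeA_k h hx1 hx2) rfl (MeA_cc h hx1 hx2 hne) hzD hWz
          ed).trans (h2 x.1 hx1 x.2 hx2 hne))
        refine measure_mono ?_
        rintro θ ⟨-, h5⟩
        exact h5
    · rw [Finset.sum_const, nsmul_eq_mul, Finset.card_product, Nat.cast_mul]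
  have m3 : volume A3 = 0 := J_crit h.pair hzD hWz
  have m4 : volume (⋃ l ∈ D.S, A4 l) = 0 := by
    refine le_antisymm ((measure_biUnion_finset_le _ _).trans (le_of_eq ?_)) bot_le
    refine Finset.sum_eq_zero fun l _ => ?_
    exact J_crit (pair_rot h.pair l) hzD (MeA_W h hzD hWz l)
  calc volume {θ : ℝ | θ ∈ Set.Icc 0 (2 * Real.pi) ∧ fderiv ℝ D.F (z, θ) = 0}
      ≤ volume (((⋃ l ∈ D.S, A1 l) ∪ (⋃ x ∈ D.S ×ˢ D.S, A2 x)) ∪ (A3 ∪ ⋃ l ∈ D.S, A4 l)) :=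
        measure_mono hsub
    _ ≤ (volume (⋃ l ∈ D.S, A1 l) + volume (⋃ x ∈ D.S ×ˢ D.S, A2 x)) +
        (volume A3 + volume (⋃ l ∈ D.S, A4 l)) :=
        (measure_union_le _ _).trans (add_le_add (measure_union_le _ _) (measure_union_le _ _))
    _ = volume (⋃ l ∈ D.S, A1 l) + volume (⋃ x ∈ D.S ×ˢ D.S, A2 x) := by
        rw [m3, m4, add_zero, add_zero]
    _ ≤ D.S.card * e1 + (D.S.card * D.S.card) * e2 := add_le_add m1 m2

end Cfg

end Pool.Agent.H.MP_bfbbee_an.F4
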