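import Pool.Agent.H.MP_bfbbee_an.helper67.PsiA

/-!
# Monotonicity of the phase on the fibres
-/

set_option autoImplicit false

namespace Pool.Agent.H.MP_bfbbee_an.F4

open ComplexConjugate Filter Topology Complex
open scoped ContDiff

variable {a2 a3 : ℝ} {mu : ℝ → ℝ}

/-- The integrand `j N(q) / q` with `q = j² + y²`. -/
private noncomputable def fN (mu : ℝ → ℝ) (j y : ℝ) : ℝ :=
  j * (1 - (j ^ 2 + y ^ 2) * mu (j ^ 2 + y ^ 2)) / (j ^ 2 + y ^ 2)

private theorem fN_cont (hd : Dev a2 a3 mu) {j : ℝ} (hj : 0 < j) : Continuous (fN mu j) := by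
  have h1 : Continuous mu := hd.smooth.continuous
  unfold fN
  refine Continuous.div ?_ (by fun_prop) fun y => (by positivity)
  fun_prop

private theorem fN_nonneg (hd : Dev a2 a3 mu) {j : ℝ} (hj : 0 < j) (y : ℝ) : 0 ≤ fN mu j y := by
  unfold fN
  exact div_nonneg (mul_nonneg hj.le (hd.nonneg _)) (by positivity)

private theorem fN_zero (hd : Dev a2 a3 mu) (j : ℝ) {y : ℝ} (hy : 1 ≤ y) : fN mu j y = 0 := by
  unfold fN
  have h1 := hd.lth
  rw [hd.zero (j ^ 2 + y ^ 2) (by nlinarith [sq_nonneg j])]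
  simp

private theorem fN_key (hd : Dev a2 a3 mu) {j : ℝ} (hj : 0 < j) (hj2 : j < a2) :
    ∫ y in (0 : ℝ)..1, fN mu j y = Real.pi / 2 := by
  have h1 : ∫ y in Set.Ioi (0 : ℝ), fN mu j y = Real.pi / 2 := hd.key j hj hj2
  rw [← h1, intervalIntegral.integral_of_le zero_le_one]
  refine (MeasureTheory.setIntegral_eq_of_subset_of_forall_sdiff_eq_zero measurableSet_Ioi
    (fun y hy => hy.1) fun y hy => fN_zero hd j ?_).symm
  by_contra hcon
  exact hy.2 ⟨hy.1, (not_le.1 hcon).le⟩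

/-- Part of the integral beyond `k`. -/
private noncomputable def TT (mu : ℝ → ℝ) (j k : ℝ) : ℝ := ∫ y in k..1, fN mu j y

private theorem TT_nonneg (hd : Dev a2 a3 mu) {j k : ℝ} (hj : 0 < j) (hk : k ≤ 1) :
    0 ≤ TT mu j k :=
  intervalIntegral.integral_nonneg hk fun y _ => fN_nonneg hd hj y

private theorem TT_add (hd : Dev a2 a3 mu) {j k : ℝ} (hj : 0 < j) (hj2 : j < a2) :
    (∫ y in (0 : ℝ)..k, fN mu j y) + TT mu j k = Real.pi / 2 := by
  have h1 := fN_cont hd hj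
  rw [← fN_key hd hj hj2]
  exact intervalIntegral.integral_add_adjacent_intervals (h1.intervalIntegrable _ _)
    (h1.intervalIntegrable _ _)

private theorem TT_le (hd : Dev a2 a3 mu) {j k : ℝ} (hj : 0 < j) (hj2 : j < a2) (hk : 0 ≤ k) :
    TT mu j k ≤ Real.pi / 2 := by
  have h1 := TT_add hd hj hj2 (k := k)
  have h2 : 0 ≤ ∫ y in (0 : ℝ)..k, fN mu j y :=
    intervalIntegral.integral_nonneg hk fun y _ => fN_nonneg hd hj y
  linarith

private theorem TT_mono (hd : Dev a2 a3 mu) {j₁ j₂ k₁ k₂ : ℝ} (hj : 0 < j₁) (hjj : j₁ ≤ j₂)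
    (hk : 0 < k₂) (hk1 : 0 < k₁) (hk2 : k₂ ≤ 1) (h : j₁ ^ 2 + k₁ ^ 2 = j₂ ^ 2 + k₂ ^ 2) :
    TT mu j₁ k₁ ≤ TT mu j₂ k₂ := by
  have hj2 : 0 < j₂ := hj.trans_le hjj
  set D : ℝ := j₂ ^ 2 - j₁ ^ 2 with hD
  have hD0 : 0 ≤ D := by nlinarith
  have hpos : ∀ y : ℝ, 0 < y → 0 < y ^ 2 + D := fun y hy => by positivity
  have e1 : Real.sqrt (k₂ ^ 2 + D) = k₁ := by
    have h1 : k₂ ^ 2 + D = k₁ ^ 2 := by rw [hD]; linarith
    rw [h1, Real.sqrt_sq hk1.le]
  have e2 : 1 ≤ Real.sqrt (1 ^ 2 + D) := Real.le_sqrt_of_sq_le (by linarith)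
  have hcov : ∫ y in k₂..1, (fN mu j₁ ∘ fun y => Real.sqrt (y ^ 2 + D)) y *
      (y / Real.sqrt (y ^ 2 + D)) = ∫ z in k₁..Real.sqrt (1 ^ 2 + D), fN mu j₁ z := by
    rw [← e1]
    refine intervalIntegral.integral_comp_mul_deriv (f := fun y => Real.sqrt (y ^ 2 + D))
      (f' := fun y => y / Real.sqrt (y ^ 2 + D)) (fun y hy => ?_) ?_ (fN_cont hd hj)
    · have hy0 : 0 < y := by
        rw [Set.uIcc_of_le hk2] at hy
        exact hk.trans_le hy.1
      have h2 : HasDerivAt (fun y : ℝ => y ^ 2 + D) (2 * y) y := by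
        simpa using ((hasDerivAt_id y).pow 2).add_const D
      have h3 := h2.sqrt (hpos y hy0).ne'
      have h4 : 2 * y / (2 * Real.sqrt (y ^ 2 + D)) = y / Real.sqrt (y ^ 2 + D) :=
        mul_div_mul_left _ _ two_ne_zero
      rwa [h4] at h3
    · refine ContinuousOn.div continuousOn_id (by fun_prop) fun y hy => ?_
      have hy0 : 0 < y := by
        rw [Set.uIcc_of_le hk2] at hy
        exact hk.trans_le hy.1
      exact (Real.sqrt_pos.2 (hpos y hy0)).ne'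
  have hsplit : ∫ z in k₁..Real.sqrt (1 ^ 2 + D), fN mu j₁ z = TT mu j₁ k₁ := by
    have h1 := fN_cont hd hj
    have h2 : ∫ z in (1 : ℝ)..Real.sqrt (1 ^ 2 + D), fN mu j₁ z = 0 := by
      have h3 : ∫ z in (1 : ℝ)..Real.sqrt (1 ^ 2 + D), fN mu j₁ z =
          ∫ z in (1 : ℝ)..Real.sqrt (1 ^ 2 + D), (0 : ℝ) := by
        refine intervalIntegral.integral_congr fun y hy => ?_
        rw [Set.uIcc_of_le e2] at hy
        exact fN_zero hd j₁ hy.1
      rw [h3]
      simp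
    have h3 := intervalIntegral.integral_add_adjacent_intervals
      (h1.intervalIntegrable (μ := MeasureTheory.volume) k₁ 1)
      (h1.intervalIntegrable 1 (Real.sqrt (1 ^ 2 + D)))
    rw [h2, add_zero] at h3
    exact h3.symm
  rw [← hsplit, ← hcov]
  refine intervalIntegral.integral_mono_on hk2 ?_ ((fN_cont hd hj2).intervalIntegrable _ _)
    fun y hy => ?_
  · refine ContinuousOn.intervalIntegrable ?_
    rw [Set.uIcc_of_le hk2]
    refine ContinuousOn.mul (((fN_cont hd hj).comp (by fun_prop)).continuousOn)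
      (ContinuousOn.div continuousOn_id (by fun_prop) fun y hy => ?_)
    exact (Real.sqrt_pos.2 (hpos y (hk.trans_le hy.1))).ne'
  · have hy0 : 0 < y := hk.trans_le hy.1
    have h1 : Real.sqrt (y ^ 2 + D) ^ 2 = y ^ 2 + D := Real.sq_sqrt (hpos y hy0).le
    have h2 : 0 < Real.sqrt (y ^ 2 + D) := Real.sqrt_pos.2 (hpos y hy0)
    have h3 : y ≤ Real.sqrt (y ^ 2 + D) := Real.le_sqrt_of_sq_le (by linarith)
    have h4 : y / Real.sqrt (y ^ 2 + D) ≤ 1 := (div_le_one h2).2 h3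
    have h5 : fN mu j₁ (Real.sqrt (y ^ 2 + D)) ≤ fN mu j₂ y := by
      unfold fN
      have h6 : j₁ ^ 2 + Real.sqrt (y ^ 2 + D) ^ 2 = j₂ ^ 2 + y ^ 2 := by
        rw [h1, hD]; ring
      rw [h6]
      exact div_le_div_of_nonneg_right (mul_le_mul_of_nonneg_right hjj (hd.nonneg _))
        (by positivity)
    calc (fN mu j₁ ∘ fun y => Real.sqrt (y ^ 2 + D)) y * (y / Real.sqrt (y ^ 2 + D))
        = fN mu j₁ (Real.sqrt (y ^ 2 + D)) * (y / Real.sqrt (y ^ 2 + D)) := rfl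
      _ ≤ fN mu j₁ (Real.sqrt (y ^ 2 + D)) * 1 :=
        mul_le_mul_of_nonneg_left h4 (fN_nonneg hd hj _)
      _ ≤ fN mu j₂ y := by rwa [mul_one]

private theorem psiM_alg1 {j y S : ℝ} (hj : 0 < j) (h2 : 0 < S)
    (h4 : S ^ 2 = 1 - (j ^ 2 + y ^ 2)) (h8 : (0 : ℝ) < 1 - j ^ 2) :
    1 / (1 + (y / (j * S)) ^ 2) *
      ((1 * (j * S) - y * (j * (-(2 * y) / (2 * S)))) / (j * S) ^ 2) =
      j / ((j ^ 2 + y ^ 2) * S) := by
  have h6 : (0 : ℝ) < j ^ 2 + y ^ 2 := by positivity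
  have e3 : 1 + (y / (j * S)) ^ 2 = ((j ^ 2 + y ^ 2) * (1 - j ^ 2)) / (j * S) ^ 2 := by
    rw [eq_div_iff (by positivity), add_mul, div_pow, div_mul_cancel₀ _ (by positivity), mul_pow]
    linear_combination j ^ 2 * h4
  have e4 : 1 * (j * S) - y * (j * (-(2 * y) / (2 * S))) = j * (1 - j ^ 2) / S := by
    rw [eq_div_iff h2.ne']
    have e5 : -(2 * y) / (2 * S) * S = - y := by field_simp
    linear_combination j * h4 - y * j * e5
  rw [e3, e4]
  field_simp

private theorem psiM_alg2 {j y S : ℝ} (m be : ℝ) (hj : 0 < j) (h2 : 0 < S)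
    (h4 : S ^ 2 = 1 - (j ^ 2 + y ^ 2)) :
    j * (-1 / (S * (1 + S)) + (be - 1) * m) =
      be * (j / (j ^ 2 + y ^ 2)) - j / ((j ^ 2 + y ^ 2) * S) -
        (be - 1) * (j * (1 - (j ^ 2 + y ^ 2) * m) / (j ^ 2 + y ^ 2)) := by
  have h6 : (0 : ℝ) < j ^ 2 + y ^ 2 := by positivity
  have h7 : j ^ 2 + y ^ 2 = (1 - S) * (1 + S) := by linear_combination h4
  rw [h7] at h6 ⊢
  have h8 : 0 < 1 - S := by
    by_contra hc
    nlinarith
  field_simp
  ring

/-- The phase for `j > 0`. -/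
private theorem Psi_form (hd : Dev a2 a3 mu) (β : ℕ) {j k : ℝ} (hj : 0 < j) (hj2 : j < a2)
    (hk : 0 < k) (h1 : j ^ 2 + k ^ 2 < 1) :
    Psi β mu j k = β * Real.arctan (k / j) -
      Real.arctan (k / (j * Real.sqrt (1 - (j ^ 2 + k ^ 2)))) -
      ((β : ℝ) - 1) * (Real.pi / 2 - TT mu j k) := by
  have hlt : ∀ y ∈ Set.uIcc 0 k, j ^ 2 + y ^ 2 < 1 := by
    intro y hy
    rw [Set.uIcc_of_le hk.le] at hy
    nlinarith [hy.1, hy.2]
  have hs : ∀ y ∈ Set.uIcc 0 k, 0 < Real.sqrt (1 - (j ^ 2 + y ^ 2)) := fun y hy =>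
    Real.sqrt_pos.2 (by linarith [hlt y hy])
  set g : ℝ → ℝ := fun y => β * (j / (j ^ 2 + y ^ 2)) -
    j / ((j ^ 2 + y ^ 2) * Real.sqrt (1 - (j ^ 2 + y ^ 2))) with hg
  have hgc : ContinuousOn g (Set.uIcc 0 k) := by
    rw [hg]
    refine ContinuousOn.sub (Continuous.continuousOn ?_) (ContinuousOn.div continuousOn_const
      (Continuous.continuousOn (by fun_prop)) fun y hy => ?_)
    · exact continuous_const.mul (continuous_const.div (by fun_prop) fun y => (by positivity))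
    · exact (mul_pos (by positivity) (hs y hy)).ne'
  have hder : ∀ y ∈ Set.uIcc 0 k, HasDerivAt (fun y => β * Real.arctan (y / j) -
      Real.arctan (y / (j * Real.sqrt (1 - (j ^ 2 + y ^ 2))))) (g y) y := by
    intro y hy
    have h2 := hs y hy
    have h3 := hlt y hy
    have h4 : Real.sqrt (1 - (j ^ 2 + y ^ 2)) ^ 2 = 1 - (j ^ 2 + y ^ 2) :=
      Real.sq_sqrt (by linarith)
    have hA : HasDerivAt (fun y : ℝ => y / j) (1 / j) y := (hasDerivAt_id y).div_const j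
    have hB : HasDerivAt (fun y : ℝ => 1 - (j ^ 2 + y ^ 2)) (-(2 * y)) y := by
      have := (((hasDerivAt_id y).pow 2).const_add (j ^ 2)).const_sub 1
      simpa using this
    have hC := (hB.sqrt (by linarith : 1 - (j ^ 2 + y ^ 2) ≠ 0)).const_mul j
    have hE := ((hasDerivAt_id y).div hC (mul_pos hj h2).ne').arctan
    refine ((hA.arctan.const_mul (β : ℝ)).sub hE).congr_deriv ?_
    rw [hg]
    have h8 : (0 : ℝ) < 1 - j ^ 2 := by nlinarith
    have e1 : (β : ℝ) * (1 / (1 + (y / j) ^ 2) * (1 / j)) = β * (j / (j ^ 2 + y ^ 2)) := by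
      field_simp
    have e2 := psiM_alg1 hj h2 h4 h8
    exact congrArg₂ (fun a b : ℝ => a - b) e1 e2
  have hint : ∫ y in (0 : ℝ)..k, g y = β * Real.arctan (k / j) -
      Real.arctan (k / (j * Real.sqrt (1 - (j ^ 2 + k ^ 2)))) := by
    rw [intervalIntegral.integral_eq_sub_of_hasDerivAt hder hgc.intervalIntegrable]
    simp
  have hcongr : ∀ y ∈ Set.uIcc 0 k, j * mf β mu (j ^ 2 + y ^ 2) =
      g y - ((β : ℝ) - 1) * fN mu j y := by
    intro y hy
    have h2 := hs y hy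
    have h3 := hlt y hy
    have h4 : Real.sqrt (1 - (j ^ 2 + y ^ 2)) ^ 2 = 1 - (j ^ 2 + y ^ 2) :=
      Real.sq_sqrt (by linarith)
    exact psiM_alg2 (mu (j ^ 2 + y ^ 2)) (β : ℝ) hj h2 h4
  have hPsi : Psi β mu j k = ∫ y in (0 : ℝ)..k, (g y - ((β : ℝ) - 1) * fN mu j y) := by
    rw [Psi, ← intervalIntegral.integral_const_mul]
    exact intervalIntegral.integral_congr hcongr
  have h5 := TT_add hd hj hj2 (k := k)
  rw [hPsi, intervalIntegral.integral_sub hgc.intervalIntegrable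
    (((fN_cont hd hj).intervalIntegrable _ _).const_mul _), hint,
    intervalIntegral.integral_const_mul, ← h5]
  ring

/-- The phase on the circle of radius `s`, first quadrant. -/
private theorem Psi_circ (hd : Dev a2 a3 mu) (β : ℕ) {s α : ℝ} (hs0 : 0 < s)
    (hs : s ^ 2 < 1 / 2) (h1 : 0 < α) (h2 : α < Real.pi / 2) (hj : s * Real.sin α < a2) :
    β * α + Psi β mu (s * Real.sin α) (s * Real.cos α) =
      Real.arctan (Real.sqrt (1 - s ^ 2) * Real.tan α) +
        ((β : ℝ) - 1) * TT mu (s * Real.sin α) (s * Real.cos α) := by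
  have hsin : 0 < Real.sin α := Real.sin_pos_of_pos_of_lt_pi h1 (by linarith [Real.pi_pos])
  have hcos : 0 < Real.cos α := Real.cos_pos_of_mem_Ioo ⟨by linarith, h2⟩
  have hq : (s * Real.sin α) ^ 2 + (s * Real.cos α) ^ 2 = s ^ 2 := by
    have := Real.sin_sq_add_cos_sq α
    linear_combination s ^ 2 * this
  have hc : 0 < Real.sqrt (1 - s ^ 2) := Real.sqrt_pos.2 (by linarith)
  rw [Psi_form hd β (mul_pos hs0 hsin) hj (mul_pos hs0 hcos) (by rw [hq]; linarith), hq]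
  have ht : 0 < Real.tan α := Real.tan_pos_of_pos_of_lt_pi_div_two h1 h2
  have e1 : Real.arctan (s * Real.cos α / (s * Real.sin α)) = Real.pi / 2 - α := by
    have h3 : s * Real.cos α / (s * Real.sin α) = (Real.tan α)⁻¹ := by
      rw [Real.tan_eq_sin_div_cos, inv_div, mul_div_mul_left _ _ hs0.ne']
    rw [h3, Real.arctan_inv_of_pos ht, Real.arctan_tan (by linarith) h2]
  have e2 : Real.arctan (s * Real.cos α / (s * Real.sin α * Real.sqrt (1 - s ^ 2))) =
      Real.pi / 2 - Real.arctan (Real.sqrt (1 - s ^ 2) * Real.tan α) := by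
    have h3 : s * Real.cos α / (s * Real.sin α * Real.sqrt (1 - s ^ 2)) =
        (Real.sqrt (1 - s ^ 2) * Real.tan α)⁻¹ := by
      rw [Real.tan_eq_sin_div_cos]
      field_simp
    rw [h3, Real.arctan_inv_of_pos (mul_pos hc ht)]
  rw [e1, e2]
  ring

private theorem psiM_arctan {c : ℝ} (hc : 1 / 2 ≤ c) (hc1 : c ≤ 1) {α₁ α₂ : ℝ}
    (h1 : -(Real.pi / 2) < α₁) (h12 : α₁ ≤ α₂) (h2 : α₂ < Real.pi / 2) :
    (α₂ - α₁) / 2 ≤ Real.arctan (c * Real.tan α₂) - Real.arctan (c * Real.tan α₁) := by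
  have hmono : MonotoneOn (fun x => Real.arctan (c * Real.tan x) - x / 2)
      (Set.Ioo (-(Real.pi / 2)) (Real.pi / 2)) := by
    have hder : ∀ x ∈ Set.Ioo (-(Real.pi / 2)) (Real.pi / 2),
        HasDerivAt (fun x => Real.arctan (c * Real.tan x) - x / 2)
          (1 / (1 + (c * Real.tan x) ^ 2) * (c * (1 / Real.cos x ^ 2)) - 1 / 2) x := by
      intro x hx
      have hcos := Real.cos_pos_of_mem_Ioo hx
      exact (((Real.hasDerivAt_tan hcos.ne').const_mul c).arctan).sub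
        ((hasDerivAt_id x).div_const 2)
    refine monotoneOn_of_deriv_nonneg (convex_Ioo _ _)
      (fun x hx => (hder x hx).continuousAt.continuousWithinAt)
      (fun x hx => ?_) fun x hx => ?_
    · rw [interior_Ioo] at hx
      exact (hder x hx).differentiableAt.differentiableWithinAt
    · rw [interior_Ioo] at hx
      rw [(hder x hx).deriv]
      have hcos := Real.cos_pos_of_mem_Ioo hx
      have h3 : 1 / (1 + (c * Real.tan x) ^ 2) * (c * (1 / Real.cos x ^ 2)) =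
          c / (Real.cos x ^ 2 + c ^ 2 * Real.sin x ^ 2) := by
        rw [Real.tan_eq_sin_div_cos]
        field_simp
      have h4 := Real.sin_sq_add_cos_sq x
      have h5 : 0 < Real.cos x ^ 2 + c ^ 2 * Real.sin x ^ 2 := by positivity
      have h6 : Real.cos x ^ 2 + c ^ 2 * Real.sin x ^ 2 ≤ 1 := by
        have h7 : c ^ 2 ≤ 1 := by nlinarith
        nlinarith [sq_nonneg (Real.sin x)]
      rw [h3, sub_nonneg, le_div_iff₀ h5]
      linarith
  have h3 := hmono ⟨h1, h12.trans_lt h2⟩ ⟨h1.trans_le h12, h2⟩ h12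
  simp only at h3
  linarith

/-- The phase is odd. -/
private theorem psiM_odd (β : ℕ) (mu : ℝ → ℝ) (s α : ℝ) :
    β * -α + Psi β mu (s * Real.sin (-α)) (s * Real.cos (-α)) =
      -(β * α + Psi β mu (s * Real.sin α) (s * Real.cos α)) := by
  rw [Real.sin_neg, Real.cos_neg, mul_neg s, Psi, Psi, neg_sq]
  ring

private theorem psiM_zero (β : ℕ) (mu : ℝ → ℝ) (s : ℝ) :
    β * (0 : ℝ) + Psi β mu (s * Real.sin 0) (s * Real.cos 0) = 0 := by
  rw [Real.sin_zero, Psi]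
  ring

/-- The case `0 ≤ α₁`. -/
private theorem psiM_pos (hd : Dev a2 a3 mu) {β : ℕ} (hβ : 1 ≤ β) {s : ℝ} (hs0 : 0 < s)
    (hs : s ^ 2 < 1 / 2) {α₁ α₂ : ℝ} (h1 : 0 ≤ α₁) (h12 : α₁ ≤ α₂)
    (h2 : α₂ < Real.pi / 2) (hj2 : |s * Real.sin α₂| < a2) :
    (α₂ - α₁) / 2 ≤ (β * α₂ + Psi β mu (s * Real.sin α₂) (s * Real.cos α₂)) -
        (β * α₁ + Psi β mu (s * Real.sin α₁) (s * Real.cos α₁)) ∧
      β * α₂ + Psi β mu (s * Real.sin α₂) (s * Real.cos α₂) ≤ β * (Real.pi / 2) := by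
  have hb : (1 : ℝ) ≤ β := by exact_mod_cast hβ
  have hs1 : s ≤ 1 := by nlinarith
  have hc1 : Real.sqrt (1 - s ^ 2) ≤ 1 := Real.sqrt_le_one.2 (by nlinarith)
  have hc : 1 / 2 ≤ Real.sqrt (1 - s ^ 2) := Real.le_sqrt_of_sq_le (by linarith)
  rcases (h1.trans h12).eq_or_lt with h3 | h3
  · -- both are zero
    have h4 : α₁ = 0 := le_antisymm (by linarith) h1
    rw [← h3, h4, psiM_zero]
    refine ⟨by norm_num, ?_⟩
    have := Real.pi_pos
    positivity
  have hsin2 : 0 < Real.sin α₂ := Real.sin_pos_of_pos_of_lt_pi h3 (by linarith [Real.pi_pos])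
  have hcos2 : 0 < Real.cos α₂ := Real.cos_pos_of_mem_Ioo ⟨by linarith, h2⟩
  have hj2' : s * Real.sin α₂ < a2 := (le_abs_self _).trans_lt hj2
  have hk2 : s * Real.cos α₂ ≤ 1 := by nlinarith [Real.cos_le_one α₂]
  have hP2 := Psi_circ hd β hs0 hs h3 h2 hj2'
  have hT2 : 0 ≤ TT mu (s * Real.sin α₂) (s * Real.cos α₂) :=
    TT_nonneg hd (mul_pos hs0 hsin2) hk2
  have hT2' : TT mu (s * Real.sin α₂) (s * Real.cos α₂) ≤ Real.pi / 2 :=
    TT_le hd (mul_pos hs0 hsin2) hj2' (mul_pos hs0 hcos2).le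
  constructor
  · rcases h1.eq_or_lt with h4 | h4
    · rw [← h4, psiM_zero, hP2]
      have h5 := psiM_arctan hc hc1 (α₁ := 0) (by linarith [Real.pi_pos]) h3.le h2
      rw [Real.tan_zero, mul_zero, Real.arctan_zero] at h5
      nlinarith
    · have hsin1 : 0 < Real.sin α₁ :=
        Real.sin_pos_of_pos_of_lt_pi h4 (by linarith [Real.pi_pos])
      have hcos1 : 0 < Real.cos α₁ := Real.cos_pos_of_mem_Ioo ⟨by linarith, by linarith⟩
      have hle : Real.sin α₁ ≤ Real.sin α₂ :=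
        Real.sin_le_sin_of_le_of_le_pi_div_two (by linarith) h2.le h12
      have hjj : s * Real.sin α₁ ≤ s * Real.sin α₂ := mul_le_mul_of_nonneg_left hle hs0.le
      have hP1 := Psi_circ hd β hs0 hs h4 (h12.trans_lt h2) (hjj.trans_lt hj2')
      have hT : TT mu (s * Real.sin α₁) (s * Real.cos α₁) ≤
          TT mu (s * Real.sin α₂) (s * Real.cos α₂) := by
        refine TT_mono hd (mul_pos hs0 hsin1) hjj (mul_pos hs0 hcos2) (mul_pos hs0 hcos1) hk2 ?_
        have e1 := Real.sin_sq_add_cos_sq α₁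
        have e2 := Real.sin_sq_add_cos_sq α₂
        linear_combination s ^ 2 * (e1 - e2)
      rw [hP1, hP2]
      have h5 := psiM_arctan hc hc1 (by linarith) h12 h2
      nlinarith
  · rw [hP2]
    have h5 := Real.arctan_lt_pi_div_two (Real.sqrt (1 - s ^ 2) * Real.tan α₂)
    nlinarith

/-- On the half circle `cos > 0` the phase `β α + Ψ(s sin α, s cos α)` is increasing with rate
at least `1/2` and its total increment is at most `β π`. -/
theorem Psi_mono (hd : Dev a2 a3 mu) {β : ℕ} (hβ : 1 ≤ β) {s : ℝ} (hs0 : 0 ≤ s)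
    (hs : s ^ 2 < 1 / 2) {α₁ α₂ : ℝ} (h1 : -(Real.pi / 2) < α₁) (h12 : α₁ ≤ α₂)
    (h2 : α₂ < Real.pi / 2) (hj1 : |s * Real.sin α₁| < a2) (hj2 : |s * Real.sin α₂| < a2) :
    (α₂ - α₁) / 2 ≤ (β * α₂ + Psi β mu (s * Real.sin α₂) (s * Real.cos α₂)) -
        (β * α₁ + Psi β mu (s * Real.sin α₁) (s * Real.cos α₁)) ∧
      (β * α₂ + Psi β mu (s * Real.sin α₂) (s * Real.cos α₂)) -
        (β * α₁ + Psi β mu (s * Real.sin α₁) (s * Real.cos α₁)) ≤ β * Real.pi := by
  have hb : (1 : ℝ) ≤ β := by exact_mod_cast hβ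
  have hpi := Real.pi_pos
  rcases hs0.eq_or_lt with h0 | h0
  · have h3 : ∀ x : ℝ, Psi β mu (s * Real.sin x) (s * Real.cos x) = 0 := by
      intro x
      rw [← h0, zero_mul, Psi, zero_mul]
    rw [h3, h3]
    constructor <;> nlinarith
  have hz := psiM_zero β mu s
  have hj1' : |s * Real.sin (-α₁)| < a2 := by
    rwa [Real.sin_neg, mul_neg, abs_neg]
  have hj2' : |s * Real.sin (-α₂)| < a2 := by
    rwa [Real.sin_neg, mul_neg, abs_neg]
  have ho1 := psiM_odd β mu s α₁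
  have ho2 := psiM_odd β mu s α₂
  rcases le_total 0 α₁ with h3 | h3
  · have h4 := psiM_pos hd hβ h0 hs h3 h12 h2 hj2
    have h5 := psiM_pos hd hβ h0 hs le_rfl h3 (h12.trans_lt h2) hj1
    rw [hz] at h5
    refine ⟨h4.1, ?_⟩
    nlinarith [h4.2, h5.1]
  · rcases le_total α₂ 0 with h4 | h4
    · have h5 := psiM_pos hd hβ h0 hs (neg_nonneg.2 h4) (neg_le_neg h12) (by linarith) hj1'
      have h6 := psiM_pos hd hβ h0 hs le_rfl (neg_nonneg.2 h4) (by linarith) hj2'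
      rw [hz] at h6
      rw [ho1, ho2] at h5
      rw [ho2] at h6
      refine ⟨by linarith [h5.1], ?_⟩
      nlinarith [h5.2, h6.1]
    · have h5 := psiM_pos hd hβ h0 hs le_rfl h4 h2 hj2
      have h6 := psiM_pos hd hβ h0 hs le_rfl (neg_nonneg.2 h3) (by linarith) hj1'
      rw [hz] at h5 h6
      rw [ho1] at h6
      refine ⟨by linarith [h5.1, h6.1], ?_⟩
      nlinarith [h5.2, h6.2]

end Pool.Agent.H.MP_bfbbee_an.F4
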