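import Pool.Agent.H.MP_bfbbee_an.helper67.Ld
import Pool.Agent.H.MP_bfbbee_an.helper67.LocN
import Pool.Agent.H.MP_bfbbee_an.helper67.PsiM
import Pool.Agent.H.MP_bfbbee_an.helper67.PsiA

/-!
# The phase in the fibres of a cap
-/

set_option autoImplicit false

namespace Pool.Agent.H.MP_bfbbee_an.F4

open ComplexConjugate Filter Topology Complex MeasureTheory
open scoped ContDiff

private theorem PhM_dir (a : ℝ) : dir a = ((Real.cos a : ℝ) : ℂ) + ((Real.sin a : ℝ) : ℂ) * I := by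
  unfold dir
  rw [Complex.exp_mul_I]
  push_cast
  ring

private theorem PhM_re (a : ℝ) : (dir a).re = Real.cos a := by
  rw [PhM_dir]
  simp only [Complex.add_re, Complex.ofReal_im, Complex.mul_re, Complex.ofReal_re, Complex.I_re,
    Complex.I_im]
  ring

private theorem PhM_im (a : ℝ) : (dir a).im = Real.sin a := by
  rw [PhM_dir]
  simp only [Complex.add_im, Complex.ofReal_im, Complex.mul_im, Complex.ofReal_re, Complex.I_re,
    Complex.I_im]
  ring

private theorem PhM_add (a b : ℝ) : dir (a + b) = dir a * dir b := by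
  unfold dir
  rw [← Complex.exp_add]
  congr 1
  push_cast
  ring

private theorem PhM_conj (a : ℝ) : conj (dir a) = dir (-a) := by
  rw [PhM_dir, PhM_dir, map_add, map_mul, Complex.conj_ofReal, Complex.conj_ofReal, Complex.conj_I,
    Real.cos_neg, Real.sin_neg]
  push_cast
  ring

private theorem PhM_arg (z : ℂ) : z = (‖z‖ : ℂ) * dir (arg z) := by
  unfold dir
  exact (Complex.norm_mul_exp_arg_mul_I z).symm

private theorem PhM_polar (θ : ℝ) (L : ℂ) : dir θ * L = (‖L‖ : ℂ) * dir (θ + arg L) := by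
  conv_lhs => rw [PhM_arg L]
  rw [PhM_add]
  ring

private theorem PhM_exp (x : ℝ) : Complex.exp (-I * (x : ℂ)) = dir (-x) := by
  unfold dir
  congr 1
  push_cast
  ring

/-- The phase on the circle of radius `s`. -/
private noncomputable def phPh (β : ℕ) (mu : ℝ → ℝ) (s α : ℝ) : ℝ :=
  β * α + Psi β mu (s * Real.sin α) (s * Real.cos α)

private theorem PhM_shift (β : ℕ) (mu : ℝ → ℝ) (s α : ℝ) (m : ℤ) :
    phPh β mu s (m * Real.pi + α) = β * (m * Real.pi) + phPh β mu s α := by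
  have h : Psi β mu (s * Real.sin (m * Real.pi + α)) (s * Real.cos (m * Real.pi + α)) =
      Psi β mu (s * Real.sin α) (s * Real.cos α) := by
    rw [add_comm (m * Real.pi) α, Real.sin_add_int_mul_pi, Real.cos_add_int_mul_pi]
    rcases Int.even_or_odd m with hm | hm
    · rw [hm.neg_one_zpow, one_mul, one_mul]
    · rw [hm.neg_one_zpow, ← Psi_neg]
      congr 1 <;> ring
  unfold phPh
  rw [h]
  ring

private theorem PhM_point {a2 : ℝ} (mu : ℝ → ℝ) (β : ℕ) {L E g : ℂ} (hL : ‖L‖ ^ 2 < 1 / 2)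
    (hE : E ≠ 0) (hg : ‖g‖ = 1) {eta : ℝ} (h0 : 0 < eta) (h1 : eta < 1 / 2) {θ : ℝ}
    (h2 : |(dir θ * L).im| < a2)
    (h3 : (g ^ 2 * (-((1 - (dir θ * L).im ^ 2 : ℝ) : ℂ) * chi β mu θ L E ^ 2)).re ≤
      -1 + 2 * eta) :
    |‖L‖ * Real.sin (θ + arg L)| < a2 ∧
      |Real.sin (phPh β mu ‖L‖ (θ + arg L) - (arg g + β * arg L - arg E))| ≤ Real.sqrt eta := by
  have him : (dir θ * L).im = ‖L‖ * Real.sin (θ + arg L) := by
    rw [PhM_polar, Complex.im_ofReal_mul, PhM_im]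
  have hre : (dir θ * L).re = ‖L‖ * Real.cos (θ + arg L) := by
    rw [PhM_polar, Complex.re_ofReal_mul, PhM_re]
  obtain ⟨P, hP⟩ : ∃ P, P = Psi β mu (‖L‖ * Real.sin (θ + arg L)) (‖L‖ * Real.cos (θ + arg L)) :=
    ⟨_, rfl⟩
  have hchi : chi β mu θ L E = dir (-(β * θ + arg E + P)) := by
    have hE0 : (‖E‖ : ℂ) ≠ 0 := by exact_mod_cast (norm_ne_zero_iff.2 hE)
    have h4 : E / (‖E‖ : ℂ) = dir (arg E) := by
      conv_lhs => rw [PhM_arg E]
      rw [norm_mul, Complex.norm_real, norm_norm, norm_dir, mul_one]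
      field_simp
    rw [chi, h4, ← PhM_add, PhM_conj, him, hre, ← hP, PhM_exp, ← PhM_add]
    congr 1
    ring
  have hg1 : g = dir (arg g) := by
    conv_lhs => rw [PhM_arg g]
    rw [hg]
    norm_num
  have hval : (g ^ 2 * (-((1 - (dir θ * L).im ^ 2 : ℝ) : ℂ) * chi β mu θ L E ^ 2)).re =
      -(1 - (dir θ * L).im ^ 2) * Real.cos (2 * (β * θ + arg E + P - arg g)) := by
    have h5 : g ^ 2 * (-((1 - (dir θ * L).im ^ 2 : ℝ) : ℂ) * chi β mu θ L E ^ 2) =
        ((-(1 - (dir θ * L).im ^ 2) : ℝ) : ℂ) *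
          dir (-(2 * (β * θ + arg E + P - arg g))) := by
      have h6 : dir (-(2 * (β * θ + arg E + P - arg g))) = g ^ 2 * chi β mu θ L E ^ 2 := by
        rw [hchi]
        conv_rhs => rw [hg1]
        rw [pow_two, pow_two, ← PhM_add, ← PhM_add, ← PhM_add]
        congr 1
        ring
      rw [h6]
      push_cast
      ring
    rw [h5, Complex.re_ofReal_mul, PhM_re, Real.cos_neg]
  rw [him] at h2 hval h3
  rw [hval] at h3
  refine ⟨h2, ?_⟩
  have h7 : (‖L‖ * Real.sin (θ + arg L)) ^ 2 ≤ ‖L‖ ^ 2 := by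
    rw [mul_pow]
    have := Real.sin_sq_le_one (θ + arg L)
    nlinarith [sq_nonneg ‖L‖]
  have h8 : phPh β mu ‖L‖ (θ + arg L) - (arg g + β * arg L - arg E) =
      β * θ + arg E + P - arg g := by
    unfold phPh
    rw [← hP]
    ring
  rw [h8]
  obtain ⟨ψ, hψ⟩ : ∃ ψ, ψ = β * θ + arg E + P - arg g := ⟨_, rfl⟩
  rw [← hψ] at h3 ⊢
  obtain ⟨q, hq⟩ : ∃ q, q = (‖L‖ * Real.sin (θ + arg L)) ^ 2 := ⟨_, rfl⟩
  have hq0 : 0 ≤ q := by rw [hq]; positivity
  rw [← hq] at h3 h7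
  have h9 : 1 - 2 * eta ≤ (1 - q) * Real.cos (2 * ψ) := by linarith
  have h10 : 1 - 2 * eta ≤ Real.cos (2 * ψ) := by
    by_contra hcon
    rw [not_le] at hcon
    have h11 : 0 ≤ Real.cos (2 * ψ) := by
      by_contra h12
      rw [not_le] at h12
      nlinarith
    nlinarith
  rw [Real.cos_two_mul] at h10
  have h12 := Real.sin_sq_add_cos_sq ψ
  have h13 : Real.sin ψ ^ 2 ≤ Real.sqrt eta ^ 2 := by
    rw [Real.sq_sqrt h0.le]
    linarith
  exact abs_le_of_sq_le_sq h13 (Real.sqrt_nonneg _)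

/-- The bad angles in a fibre over a point of a cap. -/
theorem phase_meas {a2 a3 : ℝ} {mu : ℝ → ℝ} (hd : Dev a2 a3 mu) {β : ℕ} (hβ : 1 ≤ β)
    {L E g : ℂ} (hL : ‖L‖ ^ 2 < 1 / 2) (hE : E ≠ 0) (hg : ‖g‖ = 1) {eta : ℝ} (h0 : 0 < eta)
    (h1 : eta < 1 / 2) :
    volume {θ : ℝ | θ ∈ Set.Icc 0 (2 * Real.pi) ∧ |(dir θ * L).im| < a2 ∧
      (g ^ 2 * (-((1 - (dir θ * L).im ^ 2 : ℝ) : ℂ) * chi β mu θ L E ^ 2)).re ≤
        -1 + 2 * eta} ≤
      ENNReal.ofReal (16 * Real.pi * (β + 2) * Real.sqrt eta) := by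
  have hpi := Real.pi_pos
  obtain ⟨s, hs⟩ : ∃ s, s = ‖L‖ := ⟨_, rfl⟩
  obtain ⟨c, hc⟩ : ∃ c, c = arg L := ⟨_, rfl⟩
  obtain ⟨c0, hc0⟩ : ∃ c0, c0 = arg g + β * c - arg E := ⟨_, rfl⟩
  obtain ⟨S, hS⟩ : ∃ S : Set ℝ, S = {x | -(Real.pi / 2) < x ∧ x < Real.pi / 2 ∧
    |s * Real.sin x| < a2} := ⟨_, rfl⟩
  have hB : ∀ c1 : ℝ, volume {x : ℝ | x ∈ S ∧ |Real.sin (phPh β mu s x - c1)| ≤ Real.sqrt eta} ≤
      ENNReal.ofReal (4 * Real.pi * (β + 2) * Real.sqrt eta) := by
    intro c1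
    have h2 := phase_small (s := S) (φ := phPh β mu s) (T := β * Real.pi) (d := Real.sqrt eta)
      (by positivity) (Real.sqrt_nonneg _) (by
        intro x hx y hy hxy
        rw [hS] at hx hy
        exact Psi_mono hd hβ (by rw [hs]; exact norm_nonneg _) (by rw [hs]; exact hL) hx.1 hxy hy.2.1
          hx.2.2 hy.2.2) c1
    refine h2.trans (ENNReal.ofReal_le_ofReal (le_of_eq ?_))
    field_simp
  obtain ⟨m0, hm0⟩ : ∃ m0 : ℤ, m0 = round (c / Real.pi) := ⟨_, rfl⟩
  let A : ℤ → Set ℝ := fun m => (fun θ => θ + (c - m * Real.pi)) ⁻¹'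
    {x : ℝ | x ∈ S ∧ |Real.sin (phPh β mu s x - (c0 - β * (m * Real.pi)))| ≤ Real.sqrt eta}
  have hA : ∀ m, volume (A m) ≤ ENNReal.ofReal (4 * Real.pi * (β + 2) * Real.sqrt eta) := by
    intro m
    refine le_trans (le_of_eq ?_) (hB (c0 - β * (m * Real.pi)))
    exact measure_preimage_add_right volume _ _
  obtain ⟨F, hF⟩ : ∃ F : Finset ℤ, F = {m0, m0 + 1, m0 + 2} := ⟨_, rfl⟩
  have hFc : F.card ≤ 3 := by
    rw [hF]
    exact Finset.card_le_three
  let N : Set ℝ := (F.image fun m : ℤ => Real.pi / 2 - (c - m * Real.pi)) ∪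
    (F.image fun m : ℤ => -(Real.pi / 2) - (c - m * Real.pi))
  have hN : volume N = 0 := by
    refine Set.Countable.measure_zero ?_ _
    exact ((Finset.finite_toSet _).union (Finset.finite_toSet _)).countable
  have hsub : {θ : ℝ | θ ∈ Set.Icc 0 (2 * Real.pi) ∧ |(dir θ * L).im| < a2 ∧
      (g ^ 2 * (-((1 - (dir θ * L).im ^ 2 : ℝ) : ℂ) * chi β mu θ L E ^ 2)).re ≤
        -1 + 2 * eta} ⊆ (⋃ m ∈ F, A m) ∪ N := by
    rintro θ ⟨hθ, h2, h3⟩
    obtain ⟨h4, h5⟩ := PhM_point mu β hL hE hg h0 h1 h2 h3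
    rw [← hs, ← hc] at h4 h5
    rw [← hc0] at h5
    obtain ⟨m, hm⟩ : ∃ m : ℤ, m = round ((θ + c) / Real.pi) := ⟨_, rfl⟩
    have h6 : |θ + c - m * Real.pi| ≤ Real.pi / 2 := by
      have h7 := abs_sub_round ((θ + c) / Real.pi)
      rw [← hm] at h7
      have h8 : θ + c - m * Real.pi = ((θ + c) / Real.pi - m) * Real.pi := by
        field_simp
      rw [h8, abs_mul, abs_of_pos hpi]
      nlinarith
    have hmF : m ∈ F := by
      have h7 : m0 ≤ m := by
        rw [hm0, hm, round_eq, round_eq]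
        refine Int.floor_le_floor ?_
        have : c / Real.pi ≤ (θ + c) / Real.pi := div_le_div_of_nonneg_right (by linarith [hθ.1]) hpi.le
        linarith
      have h8 : m ≤ m0 + 2 := by
        rw [hm0, hm, round_eq, round_eq]
        have h9 : (θ + c) / Real.pi ≤ c / Real.pi + 2 := by
          rw [div_le_iff₀ hpi, add_mul, div_mul_cancel₀ _ hpi.ne']
          linarith [hθ.2]
        calc ⌊(θ + c) / Real.pi + 1 / 2⌋ ≤ ⌊c / Real.pi + 1 / 2 + (2 : ℤ)⌋ := by
              refine Int.floor_le_floor ?_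
              push_cast
              linarith
          _ = ⌊c / Real.pi + 1 / 2⌋ + 2 := Int.floor_add_intCast _ _
      rw [hF]
      have h9 : m = m0 ∨ m = m0 + 1 ∨ m = m0 + 2 := by omega
      simp only [Finset.mem_insert, Finset.mem_singleton]
      exact h9
    obtain ⟨h7, h8⟩ := abs_le.1 h6
    by_cases h9 : θ + c - m * Real.pi = Real.pi / 2
    · right
      left
      rw [Finset.mem_coe, Finset.mem_image]
      exact ⟨m, hmF, by linarith⟩
    by_cases h10 : θ + c - m * Real.pi = -(Real.pi / 2)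
    · right
      right
      rw [Finset.mem_coe, Finset.mem_image]
      exact ⟨m, hmF, by linarith⟩
    left
    refine Set.mem_biUnion hmF ?_
    have h11 : θ + c = m * Real.pi + (θ + (c - m * Real.pi)) := by ring
    have h12 : θ + (c - m * Real.pi) = θ + c - m * Real.pi := by ring
    refine ⟨?_, ?_⟩
    · rw [hS]
      refine ⟨?_, ?_, ?_⟩
      · change -(Real.pi / 2) < θ + (c - m * Real.pi)
        rw [h12]
        exact lt_of_le_of_ne h7 (Ne.symm h10)
      · change θ + (c - m * Real.pi) < Real.pi / 2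
        rw [h12]
        exact lt_of_le_of_ne h8 h9
      · have h13 : |Real.sin (θ + c)| = |Real.sin (θ + (c - m * Real.pi))| := by
          conv_lhs => rw [h11, add_comm, Real.sin_add_int_mul_pi]
          rw [abs_mul, abs_zpow, abs_neg, abs_one, one_zpow, one_mul]
        rw [abs_mul, ← h13, ← abs_mul]
        exact h4
    · have h13 : phPh β mu s (θ + c) - c0 =
          phPh β mu s (θ + (c - m * Real.pi)) - (c0 - β * (m * Real.pi)) := by
        conv_lhs => rw [h11, PhM_shift]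
        ring
      show |Real.sin (phPh β mu s (θ + (c - m * Real.pi)) - (c0 - β * (m * Real.pi)))| ≤ Real.sqrt eta
      rw [← h13]
      exact h5
  calc volume _ ≤ volume ((⋃ m ∈ F, A m) ∪ N) := measure_mono hsub
    _ ≤ volume (⋃ m ∈ F, A m) + volume N := measure_union_le _ _
    _ = volume (⋃ m ∈ F, A m) := by rw [hN, add_zero]
    _ ≤ ∑ m ∈ F, volume (A m) := measure_biUnion_finset_le F A
    _ ≤ ∑ _m ∈ F, ENNReal.ofReal (4 * Real.pi * (β + 2) * Real.sqrt eta) :=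
        Finset.sum_le_sum fun m _ => hA m
    _ = ENNReal.ofReal (F.card * (4 * Real.pi * (β + 2) * Real.sqrt eta)) := by
        rw [Finset.sum_const, nsmul_eq_mul, ENNReal.ofReal_mul (Nat.cast_nonneg _),
          ENNReal.ofReal_natCast]
    _ ≤ _ := by
        refine ENNReal.ofReal_le_ofReal ?_
        have h4 : (F.card : ℝ) ≤ 4 := by
          have : F.card ≤ 4 := by omega
          exact_mod_cast this
        have h5 : 0 ≤ 4 * Real.pi * (β + 2) * Real.sqrt eta := by positivity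
        nlinarith

end Pool.Agent.H.MP_bfbbee_an.F4
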