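import Pool.Agent.H.MP_bfbbee_an.helper67.GF
import Pool.Agent.H.MP_bfbbee_an.helper67.PhM

/-!
# Measure of the critical angles in the caps
-/

set_option autoImplicit false

namespace Pool.Agent.H.MP_bfbbee_an.F4

open ComplexConjugate Filter Topology Complex MeasureTheory
open scoped ContDiff ENNReal

private theorem MeB_cc {l l' : ℂ} (hne : l ≠ l') (hl : ‖l‖ < 1) (hl' : ‖l'‖ < 1) :
    cc l l' ≠ 0 := by
  unfold cc
  refine div_ne_zero (sub_ne_zero.2 (Ne.symm hne)) ?_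
  intro h0
  have h1 : conj l * l' = -1 := by linear_combination h0
  have h2 : ‖l‖ * ‖l'‖ = 1 := by
    have h3 := congrArg norm h1
    rwa [norm_mul, Complex.norm_conj, norm_neg, norm_one] at h3
  have h4 : ‖l‖ * ‖l'‖ < 1 := by
    nlinarith [norm_nonneg l, norm_nonneg l']
  linarith

private theorem MeB_g {l l' : ℂ} (hne : l ≠ l') (hl : ‖l‖ < 1) (hl' : ‖l'‖ < 1) :
    ‖cc l l' / (‖cc l l'‖ : ℂ)‖ = 1 := by
  have h := norm_ne_zero_iff.2 (MeB_cc hne hl hl')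
  rw [norm_div, Complex.norm_real, norm_norm, div_self h]

private theorem MeB_T0_nonneg (q : ℝ) : 0 ≤ T0 q := by
  unfold T0
  positivity

private theorem MeB_dir : Continuous dir := by
  unfold dir
  fun_prop

private theorem MeB_chi {a2 a3 : ℝ} {mu : ℝ → ℝ} (hd : Dev a2 a3 mu) (β : ℕ) {z : ℂ} (θ : ℝ)
    {Ll El : ℂ → ℂ} (hL : ContinuousAt Ll z) (hE : ContinuousAt El z) (hE0 : El z ≠ 0)
    (hL1 : ‖Ll z‖ ^ 2 < 1) :
    ContinuousAt (fun p : ℂ × ℝ => chi β mu p.2 (Ll p.1) (El p.1)) (z, θ) := by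
  have c1 : ContinuousAt (fun p : ℂ × ℝ => Ll p.1) (z, θ) :=
    ContinuousAt.comp (f := Prod.fst) (x := (z, θ)) hL continuousAt_fst
  have c2 : ContinuousAt (fun p : ℂ × ℝ => El p.1) (z, θ) :=
    ContinuousAt.comp (f := Prod.fst) (x := (z, θ)) hE continuousAt_fst
  have c3 : ContinuousAt (fun p : ℂ × ℝ => dir p.2) (z, θ) :=
    (MeB_dir.comp continuous_snd).continuousAt
  have c4 : ContinuousAt (fun p : ℂ × ℝ => dir ((β : ℝ) * p.2)) (z, θ) :=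
    (MeB_dir.comp (continuous_const.mul continuous_snd)).continuousAt
  have c5 : ContinuousAt (fun p : ℂ × ℝ => dir p.2 * Ll p.1) (z, θ) := c3.mul c1
  have c6 : ContinuousAt (fun p : ℂ × ℝ => (dir p.2 * Ll p.1).im) (z, θ) :=
    ContinuousAt.comp (f := fun p : ℂ × ℝ => dir p.2 * Ll p.1) (x := (z, θ))
      Complex.continuous_im.continuousAt c5
  have c7 : ContinuousAt (fun p : ℂ × ℝ => (dir p.2 * Ll p.1).re) (z, θ) :=
    ContinuousAt.comp (f := fun p : ℂ × ℝ => dir p.2 * Ll p.1) (x := (z, θ))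
      Complex.continuous_re.continuousAt c5
  have hq : (dir θ * Ll z).im ^ 2 + (dir θ * Ll z).re ^ 2 < 1 := by
    have h1 : ‖dir θ * Ll z‖ ^ 2 = (dir θ * Ll z).re ^ 2 + (dir θ * Ll z).im ^ 2 := by
      rw [← Complex.normSq_eq_norm_sq, Complex.normSq_apply]
      ring
    rw [norm_mul, norm_dir, one_mul] at h1
    linarith
  have c8 : ContinuousAt (fun p : ℂ × ℝ => Psi β mu (dir p.2 * Ll p.1).im (dir p.2 * Ll p.1).re)
      (z, θ) := by
    have h2 := (Psi_smooth hd β hq).continuousAt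
    exact ContinuousAt.comp
      (f := fun p : ℂ × ℝ => ((dir p.2 * Ll p.1).im, (dir p.2 * Ll p.1).re)) (x := (z, θ)) h2
      (c6.prodMk c7)
  have c9 : ContinuousAt (fun p : ℂ × ℝ => El p.1 / (‖El p.1‖ : ℂ)) (z, θ) := by
    refine c2.div ?_ ?_
    · exact ContinuousAt.comp (f := fun p : ℂ × ℝ => ‖El p.1‖) (x := (z, θ))
        Complex.continuous_ofReal.continuousAt c2.norm
    · simpa using hE0
  unfold chi
  refine ContinuousAt.mul ?_ ?_
  · exact ContinuousAt.comp (f := fun p : ℂ × ℝ => dir ((β : ℝ) * p.2) * (El p.1 / (‖El p.1‖ : ℂ)))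
      (x := (z, θ)) Complex.continuous_conj.continuousAt (c4.mul c9)
  · refine ContinuousAt.cexp ?_
    refine continuousAt_const.mul ?_
    exact ContinuousAt.comp
      (f := fun p : ℂ × ℝ => Psi β mu (dir p.2 * Ll p.1).im (dir p.2 * Ll p.1).re) (x := (z, θ))
      Complex.continuous_ofReal.continuousAt c8

namespace Cfg

variable {D : Cfg}

private theorem MeB_ord (h : D.Ok) {P : ℂ} (hP : isRam D.A D.B P) : 1 ≤ D.ord P := by
  have h1 := In_open h (In_self h hP)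
  have h2 : ∀ᶠ y in 𝓝[≠] P, D.In P y ∧ y ≠ P :=
    (h1.filter_mono nhdsWithin_le_nhds).and self_mem_nhdsWithin
  obtain ⟨y, hy, hne⟩ := h2.exists
  exact (In_ne h hy hne).2.2.2.2

private theorem MeB_norm (h : D.Ok) {P z : ℂ} {rl : ℂ → ℝ} {Ll El : ℂ → ℂ}
    (hR : D.Rep P rl Ll El) (hz : D.In P z) (hna : ¬ D.Away z) : ‖Ll z‖ ^ 2 ≤ D.a3 ^ 2 := by
  have ha1 := h.a1pos
  have ha12 := h.a12
  have ha23 := h.a23
  have ha34 := h.a34
  have ha45 := h.a45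
  have ha5 := h.a5lt
  by_cases hzP : z = P
  · subst hzP
    rw [(hR.zero hz).1, norm_zero]
    nlinarith [sq_nonneg D.a3]
  · have hex : ∃ P', isRam D.A D.B P' ∧ ‖mob 1 P' z‖ < D.r0 ∧
        ‖D.ra (D.lv P') z‖ ≤ T0 (D.a3 ^ 2) * ‖D.rb (D.lv P') z‖ := by
      by_contra hc
      push Not at hc
      exact hna ⟨hz.2.1, hc⟩
    obtain ⟨P', hP', hd, hle⟩ := hex
    have hT34 : T0 (D.a3 ^ 2) < T0 (D.a4 ^ 2) := by
      refine T0_mono (by positivity) ?_ ?_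
      · nlinarith
      · nlinarith
    have hrb : 0 < ‖D.rb (D.lv P') z‖ := norm_pos_iff.2 (h.disc P' hP' z hz.2.1 hd).2.1
    have hin : D.In P' z := ⟨hP', hz.2.1, hd, lt_of_le_of_lt hle (mul_lt_mul_of_pos_right hT34 hrb)⟩
    have hPP : P' = P := In_unique h hin hz
    subst hPP
    rw [hR.eq4 z hz hzP]
    obtain ⟨δ, hprof⟩ := h.prof (D.ord P') (In_ne h hz hzP).2.2.2.2
    have hβ : (1 : ℝ) ≤ (D.ord P' : ℝ) := by exact_mod_cast (In_ne h hz hzP).2.2.2.2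
    have hex0 : 0 < 2 / (D.ord P' : ℝ) := by positivity
    have ht : ‖D.ra (D.lv P') z‖ / ‖D.rb (D.lv P') z‖ ≤ T0 (D.a3 ^ 2) := by
      rw [div_le_iff₀ hrb]
      exact hle
    have ht0 : 0 ≤ ‖D.ra (D.lv P') z‖ / ‖D.rb (D.lv P') z‖ := by positivity
    have hx : xo (D.ord P') (D.ra (D.lv P')) (D.rb (D.lv P')) z ≤
        T0 (D.a3 ^ 2) ^ (2 / (D.ord P' : ℝ)) := by
      unfold xo
      exact Real.rpow_le_rpow ht0 ht hex0.le
    have hx0 : 0 ≤ xo (D.ord P') (D.ra (D.lv P')) (D.rb (D.lv P')) z := by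
      unfold xo
      exact Real.rpow_nonneg ht0 _
    have hb : D.a3 ^ 2 < 1 / 2 := by nlinarith
    have hT3 : T0 (D.a3 ^ 2) ^ (2 / (D.ord P' : ℝ)) < T0 (1 / 2) ^ (2 / (D.ord P' : ℝ)) := by
      refine Real.rpow_lt_rpow (MeB_T0_nonneg _) ?_ hex0
      exact T0_mono (by positivity) hb (by norm_num)
    have h3 := hprof.mono.monotoneOn ⟨hx0, lt_of_le_of_lt hx hT3⟩
      ⟨Real.rpow_nonneg (MeB_T0_nonneg _) _, hT3⟩ hx
    rwa [hprof.std (D.a3 ^ 2) ⟨le_refl _, hb⟩] at h3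

/-- Near a good angle the first integral is the angular momentum. -/
private theorem MeB_local (h : D.Ok) {P z : ℂ} {rl : ℂ → ℝ} {Ll El : ℂ → ℂ}
    (hR : D.Rep P rl Ll El) (hz : D.In P z) {θ : ℝ}
    (hj : |(dir θ * Ll z).im| < D.a1)
    (hY : ∀ l' ∈ D.S.erase (D.lv P), -1 + 2 * D.eta <
      ((cc (D.lv P) l' / (‖cc (D.lv P) l'‖ : ℂ)) ^ 2 *
        (-((1 - (dir θ * Ll z).im ^ 2 : ℝ) : ℂ) *
          chi (D.ord P) D.mu θ (Ll z) (El z) ^ 2)).re) :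
    ∀ᶠ p in 𝓝 (z, θ), D.F p = (dir p.2 * Ll p.1).im := by
  have cL : ContinuousAt Ll z := (hR.s2 z hz).continuousAt
  have cE : ContinuousAt El z := (hR.s3 z hz).continuousAt
  have cchi := MeB_chi h.dev (D.ord P) θ cL cE (hR.ne z hz) ((hR.lt z hz).trans (by norm_num))
  have cj : ContinuousAt (fun p : ℂ × ℝ => (dir p.2 * Ll p.1).im) (z, θ) := by
    have c1 : ContinuousAt (fun p : ℂ × ℝ => Ll p.1) (z, θ) :=
      ContinuousAt.comp (f := Prod.fst) (x := (z, θ)) cL continuousAt_fst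
    have c3 : ContinuousAt (fun p : ℂ × ℝ => dir p.2) (z, θ) :=
      (MeB_dir.comp continuous_snd).continuousAt
    exact ContinuousAt.comp (f := fun p : ℂ × ℝ => dir p.2 * Ll p.1) (x := (z, θ))
      Complex.continuous_im.continuousAt (c3.mul c1)
  have e1 : ∀ᶠ p : ℂ × ℝ in 𝓝 (z, θ), |(dir p.2 * Ll p.1).im| < D.a1 :=
    cj.abs.eventually_lt continuousAt_const hj
  have e2 : ∀ᶠ p : ℂ × ℝ in 𝓝 (z, θ), ∀ l' ∈ D.S.erase (D.lv P), -1 + 2 * D.eta <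
      ((cc (D.lv P) l' / (‖cc (D.lv P) l'‖ : ℂ)) ^ 2 *
        (-((1 - (dir p.2 * Ll p.1).im ^ 2 : ℝ) : ℂ) *
          chi (D.ord P) D.mu p.2 (Ll p.1) (El p.1) ^ 2)).re := by
    rw [Filter.eventually_all_finset]
    intro l' hl'
    refine ContinuousAt.eventually_lt continuousAt_const ?_ (hY l' hl')
    have c10 : ContinuousAt (fun p : ℂ × ℝ => (cc (D.lv P) l' / (‖cc (D.lv P) l'‖ : ℂ)) ^ 2 *
        (-((1 - (dir p.2 * Ll p.1).im ^ 2 : ℝ) : ℂ) *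
          chi (D.ord P) D.mu p.2 (Ll p.1) (El p.1) ^ 2)) (z, θ) := by
      refine continuousAt_const.mul (ContinuousAt.mul ?_ (cchi.pow 2))
      refine ContinuousAt.neg ?_
      exact ContinuousAt.comp (f := fun p : ℂ × ℝ => 1 - (dir p.2 * Ll p.1).im ^ 2) (x := (z, θ))
        Complex.continuous_ofReal.continuousAt (continuousAt_const.sub (cj.pow 2))
    exact ContinuousAt.comp (x := (z, θ)) Complex.continuous_re.continuousAt c10
  filter_upwards [F_cap h hR hz θ, e1, e2] with p hp1 hp2 hp3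
  rw [hp1]
  unfold Fk Y
  rw [h.cg1 _ hp2.le, Finset.prod_eq_one, mul_one, mul_one]
  intro l' hl'
  exact h.cX1 _ (hp3 l' hl').le

/-- In a cap. -/
theorem meas_cap (h : D.Ok) {e1 e3 : ℝ≥0∞} (heta : D.eta < 1 / 2)
    (h1 : ∀ L : ℂ, volume {θ : ℝ | θ ∈ Set.Icc 0 (2 * Real.pi) ∧ D.a1 ≤ |(dir θ * L).im| ∧
      |(dir θ * L).im| ≤ D.a5} ≤ e1)
    (h3 : ∀ P, isRam D.A D.B P →
      ENNReal.ofReal (16 * Real.pi * (D.ord P + 2) * Real.sqrt D.eta) ≤ e3)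
    {P z : ℂ} (hz : D.In P z) (hna : ¬ D.Away z) :
    volume {θ : ℝ | θ ∈ Set.Icc 0 (2 * Real.pi) ∧ fderiv ℝ D.F (z, θ) = 0} ≤
      e1 + D.S.card * e3 := by
  classical
  obtain ⟨rl, Ll, El, hR⟩ := exists_rep h hz.1
  have hnorm := MeB_norm h hR hz hna
  have ha1 := h.a1pos
  have ha12 := h.a12
  have ha23 := h.a23
  have ha34 := h.a34
  have ha45 := h.a45
  set l := D.lv P with hl
  have hlS : l ∈ D.S := h.memS P hz.1
  let B1 : Set ℝ := {θ : ℝ | θ ∈ Set.Icc 0 (2 * Real.pi) ∧ D.a1 ≤ |(dir θ * Ll z).im| ∧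
      |(dir θ * Ll z).im| ≤ D.a5}
  let B2 : ℂ → Set ℝ := fun l' => {θ : ℝ | θ ∈ Set.Icc 0 (2 * Real.pi) ∧
      |(dir θ * Ll z).im| < D.a2 ∧
      ((cc l l' / (‖cc l l'‖ : ℂ)) ^ 2 * (-((1 - (dir θ * Ll z).im ^ 2 : ℝ) : ℂ) *
        chi (D.ord P) D.mu θ (Ll z) (El z) ^ 2)).re ≤ -1 + 2 * D.eta}
  let B3 : Set ℝ := {θ : ℝ | θ ∈ Set.Icc 0 (2 * Real.pi) ∧
      fderiv ℝ (fun p : ℂ × ℝ => (dir p.2 * Ll p.1).im) (z, θ) = 0}
  have hsub : {θ : ℝ | θ ∈ Set.Icc 0 (2 * Real.pi) ∧ fderiv ℝ D.F (z, θ) = 0} ⊆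
      (B1 ∪ ⋃ l' ∈ D.S.erase l, B2 l') ∪ B3 := by
    rintro θ ⟨hθ, hF⟩
    by_cases hb1 : θ ∈ B1
    · exact Or.inl (Or.inl hb1)
    by_cases hb2 : θ ∈ ⋃ l' ∈ D.S.erase l, B2 l'
    · exact Or.inl (Or.inr hb2)
    refine Or.inr ⟨hθ, ?_⟩
    have hjn : |(dir θ * Ll z).im| ≤ ‖Ll z‖ := by
      have := Complex.abs_im_le_norm (dir θ * Ll z)
      rwa [norm_mul, norm_dir, one_mul] at this
    have hLn : ‖Ll z‖ ≤ D.a3 := by
      have h4 := abs_le_of_sq_le_sq hnorm (by linarith)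
      exact (le_abs_self _).trans h4
    have hj : |(dir θ * Ll z).im| < D.a1 := by
      by_contra hc
      exact hb1 ⟨hθ, not_lt.1 hc, by linarith⟩
    have hY : ∀ l' ∈ D.S.erase (D.lv P), -1 + 2 * D.eta <
        ((cc (D.lv P) l' / (‖cc (D.lv P) l'‖ : ℂ)) ^ 2 *
          (-((1 - (dir θ * Ll z).im ^ 2 : ℝ) : ℂ) *
            chi (D.ord P) D.mu θ (Ll z) (El z) ^ 2)).re := by
      intro l' hl'
      by_contra hc
      refine hb2 (Set.mem_biUnion hl' ⟨hθ, by linarith, not_lt.1 hc⟩)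
    have h5 := MeB_local h hR hz hj hY
    have h6 : fderiv ℝ D.F (z, θ) =
        fderiv ℝ (fun p : ℂ × ℝ => (dir p.2 * Ll p.1).im) (z, θ) :=
      Filter.EventuallyEq.fderiv_eq h5
    rw [← h6]
    exact hF
  have hB2 : ∀ l' ∈ D.S.erase l, volume (B2 l') ≤ e3 := by
    intro l' hl'
    obtain ⟨hne, hl'S⟩ := Finset.mem_erase.1 hl'
    refine le_trans ?_ (h3 P hz.1)
    exact phase_meas h.dev (MeB_ord h hz.1) (hR.lt z hz) (hR.ne z hz)
      (MeB_g (Ne.symm hne) (h.ltS l hlS) (h.ltS l' hl'S)) h.etapos heta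
  have hB3 : volume B3 = 0 := by
    refine im_crit ((hR.s2 z hz).differentiableAt (by simp)) ?_
    by_cases hzP : z = P
    · subst hzP
      exact Or.inr (hR.zero hz).2
    · left
      intro h0
      have h7 := hR.gpos z hz hzP
      rw [← hR.eq4 z hz hzP, h0, norm_zero] at h7
      simp at h7
  calc volume {θ : ℝ | θ ∈ Set.Icc 0 (2 * Real.pi) ∧ fderiv ℝ D.F (z, θ) = 0}
      ≤ volume ((B1 ∪ ⋃ l' ∈ D.S.erase l, B2 l') ∪ B3) := measure_mono hsub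
    _ ≤ volume (B1 ∪ ⋃ l' ∈ D.S.erase l, B2 l') + volume B3 := measure_union_le _ _
    _ = volume (B1 ∪ ⋃ l' ∈ D.S.erase l, B2 l') := by rw [hB3, add_zero]
    _ ≤ volume B1 + volume (⋃ l' ∈ D.S.erase l, B2 l') := measure_union_le _ _
    _ ≤ e1 + ∑ l' ∈ D.S.erase l, volume (B2 l') :=
        add_le_add (h1 (Ll z)) (measure_biUnion_finset_le _ _)
    _ ≤ e1 + ∑ _l' ∈ D.S.erase l, e3 := add_le_add le_rfl (Finset.sum_le_sum hB2)
    _ = e1 + ((D.S.erase l).card : ℝ≥0∞) * e3 := by rw [Finset.sum_const, nsmul_eq_mul]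
    _ ≤ e1 + D.S.card * e3 := by
        refine add_le_add le_rfl (mul_le_mul_left ?_ _)
        exact_mod_cast Finset.card_le_card (Finset.erase_subset _ _)

end Cfg

end Pool.Agent.H.MP_bfbbee_an.F4
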