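import Pool.Agent.H.MP_bfbbee_an.helper67.Fg

/-!
# The group: uniqueness of the parameters, translations, convergence
-/

set_option autoImplicit false

namespace Pool.Agent.H.MP_bfbbee_an.F4

open ComplexConjugate Filter Topology Complex MeasureTheory
open scoped ContDiff

/-- The parameters of a Möbius map are determined by the map. -/
theorem par_unique {w a w' a' : ℂ} (hw : ‖w‖ = 1) (ha : ‖a‖ < 1) (hw' : ‖w'‖ = 1)
    (ha' : ‖a'‖ < 1) (h : ∀ z ∈ Disc, mob w a z = mob w' a' z) : w = w' ∧ a = a' := by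
  have haD : a ∈ Disc := mem_ball_zero_iff.2 ha
  have hw0' : w' ≠ 0 := by
    rintro rfl
    simp at hw'
  have h1 : a = a' := by
    have h2 := h a haD
    unfold mob at h2
    rw [sub_self, mul_zero, zero_div, eq_comm, div_eq_zero_iff] at h2
    rcases h2 with h2 | h2
    · exact sub_eq_zero.1 ((mul_eq_zero.1 h2).resolve_left hw0')
    · exact absurd h2 (den_ne ha' ha.le)
  subst h1
  refine ⟨?_, rfl⟩
  obtain ⟨z, hz, hza⟩ : ∃ z ∈ Disc, z ≠ a := by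
    by_cases h0 : a = 0
    · refine ⟨1 / 2, mem_ball_zero_iff.2 (by norm_num), ?_⟩
      rw [h0]
      norm_num
    · exact ⟨0, mem_ball_zero_iff.2 (by simp), fun h => h0 h.symm⟩
  have h3 := h z hz
  have hD := den_ne ha (RadA_lt hz).le
  unfold mob at h3
  rw [div_left_inj' hD] at h3
  exact mul_right_cancel₀ (sub_ne_zero.2 hza) h3

theorem PgA_mem {G : Set (ℂ × ℂ)} (h : SurfaceGroup G) {g : ℂ × ℂ} (hg : g ∈ G) {z : ℂ}
    (hz : z ∈ Disc) : mob g.1 g.2 z ∈ Disc :=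
  mob_mem (h.par g hg).1 (h.par g hg).2 hz

/-- The inverse as an element of the group, with both compositions. -/
theorem PgA_inv {G : Set (ℂ × ℂ)} (h : SurfaceGroup G) {g : ℂ × ℂ} (hg : g ∈ G) :
    ∃ k ∈ G, (∀ z ∈ Disc, mob k.1 k.2 (mob g.1 g.2 z) = z) ∧
      ∀ z ∈ Disc, mob g.1 g.2 (mob k.1 k.2 z) = z := by
  obtain ⟨k, hk, h1⟩ := h.inv g hg
  refine ⟨k, hk, h1, fun z hz => ?_⟩
  have hw := (h.par g hg).1
  have ha := (h.par g hg).2
  have h2 : ‖(starRingEnd ℂ) g.1‖ = 1 := by rw [Complex.norm_conj, hw]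
  have h3 : ‖-(g.1 * g.2)‖ < 1 := by rwa [norm_neg, norm_mul, hw, one_mul]
  have hy : mob ((starRingEnd ℂ) g.1) (-(g.1 * g.2)) z ∈ Disc := mob_mem h2 h3 hz
  have h4 := mob_inv' hw ha (RadA_lt hz).le
  have h5 := h1 _ hy
  rw [h4] at h5
  rw [h5, h4]

theorem PgA_ext {G : Set (ℂ × ℂ)} (h : SurfaceGroup G) {g k : ℂ × ℂ} (hg : g ∈ G) (hk : k ∈ G)
    (he : ∀ z ∈ Disc, mob g.1 g.2 z = mob k.1 k.2 z) : g = k := by
  obtain ⟨h1, h2⟩ := par_unique (h.par g hg).1 (h.par g hg).2 (h.par k hk).1 (h.par k hk).2 he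
  exact Prod.ext h1 h2

/-- Right translation by `g`. -/
theorem right_trans {G : Set (ℂ × ℂ)} (h : SurfaceGroup G) {g : ℂ × ℂ} (hg : g ∈ G) :
    ∃ e : G ≃ G, ∀ k : G, ∀ z ∈ Disc,
      mob (e k : ℂ × ℂ).1 (e k : ℂ × ℂ).2 z = mob (k : ℂ × ℂ).1 (k : ℂ × ℂ).2 (mob g.1 g.2 z) := by
  obtain ⟨j, hj, hj1, hj2⟩ := PgA_inv h hg
  have h1 : ∀ k : G, ∃ l : G, ∀ z ∈ Disc, mob (l : ℂ × ℂ).1 (l : ℂ × ℂ).2 z =
      mob (k : ℂ × ℂ).1 (k : ℂ × ℂ).2 (mob g.1 g.2 z) := by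
    intro k
    obtain ⟨l, hl, h2⟩ := h.mul k k.2 g hg
    exact ⟨⟨l, hl⟩, h2⟩
  have h1' : ∀ k : G, ∃ l : G, ∀ z ∈ Disc, mob (l : ℂ × ℂ).1 (l : ℂ × ℂ).2 z =
      mob (k : ℂ × ℂ).1 (k : ℂ × ℂ).2 (mob j.1 j.2 z) := by
    intro k
    obtain ⟨l, hl, h2⟩ := h.mul k k.2 j hj
    exact ⟨⟨l, hl⟩, h2⟩
  choose e he using h1
  choose e' he' using h1'
  refine ⟨⟨e, e', fun k => ?_, fun k => ?_⟩, he⟩
  · apply Subtype.ext
    apply PgA_ext h (e' (e k)).2 k.2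
    intro z hz
    rw [he' _ z hz, he _ _ (PgA_mem h hj hz), hj2 z hz]
  · apply Subtype.ext
    apply PgA_ext h (e (e' k)).2 k.2
    intro z hz
    rw [he _ z hz, he' _ _ (PgA_mem h hg hz), hj1 z hz]

/-- Left translation by the inverse of `g`. -/
theorem left_trans {G : Set (ℂ × ℂ)} (h : SurfaceGroup G) {g : ℂ × ℂ} (hg : g ∈ G) :
    ∃ e : G ≃ G, ∀ k : G, ∀ z ∈ Disc,
      mob g.1 g.2 (mob (e k : ℂ × ℂ).1 (e k : ℂ × ℂ).2 z) = mob (k : ℂ × ℂ).1 (k : ℂ × ℂ).2 z := by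
  obtain ⟨j, hj, hj1, hj2⟩ := PgA_inv h hg
  have h1 : ∀ k : G, ∃ l : G, ∀ z ∈ Disc, mob (l : ℂ × ℂ).1 (l : ℂ × ℂ).2 z =
      mob j.1 j.2 (mob (k : ℂ × ℂ).1 (k : ℂ × ℂ).2 z) := by
    intro k
    obtain ⟨l, hl, h2⟩ := h.mul j hj k k.2
    exact ⟨⟨l, hl⟩, h2⟩
  have h1' : ∀ k : G, ∃ l : G, ∀ z ∈ Disc, mob (l : ℂ × ℂ).1 (l : ℂ × ℂ).2 z =
      mob g.1 g.2 (mob (k : ℂ × ℂ).1 (k : ℂ × ℂ).2 z) := by
    intro k
    obtain ⟨l, hl, h2⟩ := h.mul g hg k k.2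
    exact ⟨⟨l, hl⟩, h2⟩
  choose e he using h1
  choose e' he' using h1'
  refine ⟨⟨e, e', fun k => ?_, fun k => ?_⟩, fun k z hz => ?_⟩
  · apply Subtype.ext
    apply PgA_ext h (e' (e k)).2 k.2
    intro z hz
    rw [he' _ z hz, he _ z hz, hj2 _ (PgA_mem h k.2 hz)]
  · apply Subtype.ext
    apply PgA_ext h (e (e' k)).2 k.2
    intro z hz
    rw [he _ z hz, he' _ z hz, hj1 _ (PgA_mem h k.2 hz)]
  · show mob g.1 g.2 (mob (e k : ℂ × ℂ).1 (e k : ℂ × ℂ).2 z) = _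
    rw [he k z hz, hj2 _ (PgA_mem h k.2 hz)]

/-- The image of the centre. -/
theorem PgA_zero (w a : ℂ) (hw : ‖w‖ = 1) : ‖mob w a 0‖ = ‖a‖ := by
  unfold mob
  rw [norm_div, norm_mul, hw, mul_zero, sub_zero, norm_one, zero_sub, norm_neg, one_mul, div_one]

/-- The radius of the ball. -/
noncomputable def PgA_rad (g : ℂ × ℂ) : ℝ := (1 - ‖g.2‖ ^ 2) / 8

theorem PgA_near {G : Set (ℂ × ℂ)} (h : SurfaceGroup G) {g : ℂ × ℂ} (hg : g ∈ G) {z : ℂ}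
    (hz : z ∈ Metric.ball (mob g.1 g.2 0) (PgA_rad g)) :
    z ∈ Disc ∧ ‖mob 1 (mob g.1 g.2 0) z‖ < 1 / 4 := by
  have hn := PgA_zero g.1 g.2 (h.par g hg).1
  have ha := (h.par g hg).2
  rw [mem_ball_iff_norm] at hz
  set p := mob g.1 g.2 0 with hp
  unfold PgA_rad at hz
  rw [← hn] at hz ha
  have h0 := norm_nonneg p
  have hzD : ‖z‖ < 1 := by
    have h1 : ‖z‖ ≤ ‖z - p‖ + ‖p‖ := by
      calc ‖z‖ = ‖(z - p) + p‖ := by rw [sub_add_cancel]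
        _ ≤ _ := norm_add_le _ _
    nlinarith
  have hD : 1 - ‖p‖ ≤ ‖1 - conj p * z‖ := by
    have h1 : ‖(1 : ℂ)‖ - ‖conj p * z‖ ≤ ‖1 - conj p * z‖ := norm_sub_norm_le _ _
    rw [norm_one, norm_mul, Complex.norm_conj] at h1
    nlinarith [norm_nonneg z]
  refine ⟨mem_ball_zero_iff.2 hzD, ?_⟩
  rw [RadA_pd, div_lt_iff₀ (by linarith)]
  nlinarith

theorem PgA_close {G : Set (ℂ × ℂ)} (h : SurfaceGroup G) {g : ℂ × ℂ} (hg : g ∈ G) {e : G ≃ G}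
    (he : ∀ k : G, ∀ z ∈ Disc,
      mob g.1 g.2 (mob (e k : ℂ × ℂ).1 (e k : ℂ × ℂ).2 z) = mob (k : ℂ × ℂ).1 (k : ℂ × ℂ).2 z)
    (k : G) {z : ℂ} (hz : z ∈ Metric.ball (mob g.1 g.2 0) (PgA_rad g))
    (hz' : z ∈ Metric.ball (mob (k : ℂ × ℂ).1 (k : ℂ × ℂ).2 0) (PgA_rad k)) :
    ‖(e k : ℂ × ℂ).2‖ ≤ 1 / 2 := by
  obtain ⟨hzD, h1⟩ := PgA_near h hg hz
  obtain ⟨-, h2⟩ := PgA_near h k.2 hz'
  have h0 : (0 : ℂ) ∈ Disc := mem_ball_zero_iff.2 (by simp)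
  have hp := PgA_mem h hg h0
  have hp' := PgA_mem h k.2 h0
  have h3 := pd_triangle hzD hp hp'
  have h4 := he k 0 h0
  have h5 : mob (e k : ℂ × ℂ).1 (e k : ℂ × ℂ).2 0 ∈ Disc := PgA_mem h (e k).2 h0
  rw [← h4, pd_inv (h.par g hg).1 (h.par g hg).2 h5 h0, h4] at h3
  have h6 : ‖mob 1 0 (mob (e k : ℂ × ℂ).1 (e k : ℂ × ℂ).2 0)‖ = ‖(e k : ℂ × ℂ).2‖ := by
    rw [RadA_pd, map_zero, zero_mul, sub_zero, sub_zero, norm_one, div_one]
    exact PgA_zero _ _ (h.par _ (e k).2).1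
  rw [h6] at h3
  linarith

/-- The series of the squares of `1 - |a|²` converges (area argument). -/
theorem summ_sq {G : Set (ℂ × ℂ)} (h : SurfaceGroup G) :
    Summable (fun g : G => (1 - ‖(g : ℂ × ℂ).2‖ ^ 2) ^ 2) := by
  have hfin := h.disc (1 / 2) (by norm_num)
  set N : ℕ := hfin.toFinset.card with hN
  -- multiplicity
  have hmult : ∀ (Φ : Finset G) (z : ℂ),
      ∑ g ∈ Φ, Set.indicator (Metric.ball (mob (g : ℂ × ℂ).1 (g : ℂ × ℂ).2 0) (PgA_rad g))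
        (fun _ => (1 : ENNReal)) z ≤ N * Set.indicator Disc (fun _ => (1 : ENNReal)) z := by
    intro Φ z
    classical
    by_cases hex : ∃ g ∈ Φ, z ∈ Metric.ball (mob (g : ℂ × ℂ).1 (g : ℂ × ℂ).2 0) (PgA_rad g)
    · obtain ⟨g, hg, hz⟩ := hex
      obtain ⟨e, he⟩ := left_trans h g.2
      have hzD := (PgA_near h g.2 hz).1
      rw [Set.indicator_of_mem hzD, mul_one]
      have h1 : ∑ g ∈ Φ, Set.indicator (Metric.ball (mob (g : ℂ × ℂ).1 (g : ℂ × ℂ).2 0)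
          (PgA_rad g)) (fun _ => (1 : ENNReal)) z =
          ((Φ.filter fun g : G => z ∈ Metric.ball (mob (g : ℂ × ℂ).1 (g : ℂ × ℂ).2 0)
            (PgA_rad g)).card : ENNReal) := by
        simp only [Set.indicator_apply]
        rw [Finset.sum_ite, Finset.sum_const_zero, add_zero, Finset.sum_const, nsmul_eq_mul,
          mul_one]
      rw [h1]
      norm_cast
      rw [hN]
      refine Finset.card_le_card_of_injOn (fun k : G => ((e k : G) : ℂ × ℂ)) ?_ ?_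
      · intro k hk
        have hk' := (Finset.mem_filter.1 (Finset.mem_coe.1 hk)).2
        rw [Finset.mem_coe, Set.Finite.mem_toFinset]
        exact ⟨(e k).2, PgA_close h g.2 he k hz hk'⟩
      · intro k _ k' _ hkk
        exact e.injective (Subtype.ext hkk)
    · push Not at hex
      rw [Finset.sum_eq_zero]
      · exact zero_le
      · intro g hg
        exact Set.indicator_of_notMem (hex g hg) _
  have hint : ∀ Φ : Finset G,
      ∑ g ∈ Φ, volume (Metric.ball (mob (g : ℂ × ℂ).1 (g : ℂ × ℂ).2 0) (PgA_rad g)) ≤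
        N * volume Disc := by
    intro Φ
    have h1 : ∑ g ∈ Φ, volume (Metric.ball (mob (g : ℂ × ℂ).1 (g : ℂ × ℂ).2 0) (PgA_rad g)) =
        ∫⁻ z : ℂ, ∑ g ∈ Φ, Set.indicator (Metric.ball (mob (g : ℂ × ℂ).1 (g : ℂ × ℂ).2 0)
          (PgA_rad g)) (fun _ => (1 : ENNReal)) z := by
      rw [lintegral_finsetSum]
      · refine Finset.sum_congr rfl fun g _ => ?_
        rw [lintegral_indicator Metric.isOpen_ball.measurableSet, lintegral_one,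
          Measure.restrict_apply_univ]
      · intro g _
        exact measurable_const.indicator Metric.isOpen_ball.measurableSet
    rw [h1]
    refine (lintegral_mono (hmult Φ)).trans ?_
    rw [lintegral_const_mul _ (measurable_const.indicator Metric.isOpen_ball.measurableSet),
      lintegral_indicator Metric.isOpen_ball.measurableSet, lintegral_one,
      Measure.restrict_apply_univ]
  refine summable_of_sum_le (c := 64 * N) (fun g => sq_nonneg _) fun Φ => ?_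
  have h2 := hint Φ
  simp only [Complex.volume_ball] at h2
  rw [← Finset.sum_mul, ← mul_assoc] at h2
  have hpi0 : (NNReal.pi : ENNReal) ≠ 0 := by
    rw [Ne, ENNReal.coe_eq_zero]
    exact NNReal.pi_ne_zero
  have h3 : ∑ g ∈ Φ, ENNReal.ofReal (PgA_rad g) ^ 2 ≤ N * ENNReal.ofReal 1 ^ 2 :=
    (ENNReal.mul_le_mul_iff_left hpi0 ENNReal.coe_ne_top).1 h2
  have hnn : ∀ g : G, 0 ≤ PgA_rad g := fun g => by
    have := (h.par g g.2).2
    have h0 := norm_nonneg (g : ℂ × ℂ).2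
    unfold PgA_rad
    nlinarith
  have h4 : ENNReal.ofReal (∑ g ∈ Φ, PgA_rad g ^ 2) ≤ ENNReal.ofReal N := by
    rw [ENNReal.ofReal_sum_of_nonneg fun g _ => sq_nonneg _]
    rw [ENNReal.ofReal_one, one_pow, mul_one] at h3
    rw [ENNReal.ofReal_natCast]
    refine le_trans (le_of_eq (Finset.sum_congr rfl fun g _ => ?_)) h3
    rw [ENNReal.ofReal_pow (hnn g)]
  have h5 := (ENNReal.ofReal_le_ofReal_iff (Nat.cast_nonneg N)).1 h4
  have h6 : ∑ g ∈ Φ, (1 - ‖(g : ℂ × ℂ).2‖ ^ 2) ^ 2 = 64 * ∑ g ∈ Φ, PgA_rad g ^ 2 := by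
    rw [Finset.mul_sum]
    refine Finset.sum_congr rfl fun g _ => ?_
    unfold PgA_rad
    ring
  rw [h6]
  linarith

end Pool.Agent.H.MP_bfbbee_an.F4
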