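import Pool.Agent.H.MP_bfbbee_an.helper67.PgA
import Pool.Agent.H.MP_bfbbee_an.MobC

/-!
# Kernel Poincaré series
-/

set_option autoImplicit false

namespace Pool.Agent.H.MP_bfbbee_an.F4

open ComplexConjugate Filter Topology Complex MeasureTheory
open scoped ContDiff

variable {G : Set (ℂ × ℂ)}

/-- The norm of the terms. -/
theorem norm_kt (h : SurfaceGroup G) (m : ℕ) {ζ : ℂ} (hζ : ζ ∈ Disc) {g : ℂ × ℂ} (hg : g ∈ G)
    {z : ℂ} (hz : z ∈ Disc) :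
    ‖kt m ζ g z‖ * (1 - ‖z‖ ^ 2) ^ m = kd ζ (mob g.1 g.2 z) ^ m := by
  have hw := (h.par g hg).1
  have ha := (h.par g hg).2
  have hy := PgA_mem h hg hz
  have h1 := one_sub_mob hw ha (RadA_lt hz).le
  unfold kt kd
  rw [RadA_sq hζ hy, norm_mul, norm_pow, norm_pow, norm_div, norm_pow, Complex.norm_real,
    Real.norm_eq_abs, abs_of_pos (q_pos hζ), h1, ← mul_pow, ← mul_pow]
  congr 1
  ring

/-- Uniform bound: for `|z| ≤ r < 1`, `kd ζ (g z) ≤ C (1 - |a|²)`. -/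
theorem kd_le (h : SurfaceGroup G) {r : ℝ} (hr : r < 1) :
    ∃ C : ℝ, 0 < C ∧ ∀ ζ z : ℂ, ‖ζ‖ ≤ r → ‖z‖ ≤ r → ∀ g ∈ G,
      0 ≤ kd ζ (mob g.1 g.2 z) ∧ kd ζ (mob g.1 g.2 z) ≤ 1 ∧
      kd ζ (mob g.1 g.2 z) ≤ C * (1 - ‖g.2‖ ^ 2) := by
  have hr' : 0 < 1 - r := by linarith
  refine ⟨1 / ((1 - r) ^ 2 * (1 - r) ^ 2), by positivity, fun ζ z hζ hz g hg => ?_⟩
  have hζD : ζ ∈ Disc := mem_ball_zero_iff.2 (hζ.trans_lt hr)
  have hzD : z ∈ Disc := mem_ball_zero_iff.2 (hz.trans_lt hr)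
  have hw := (h.par g hg).1
  have ha := (h.par g hg).2
  have hy := PgA_mem h hg hzD
  have hk := RadA_sq hζD hy
  have hn := norm_nonneg ζ
  have hn' := norm_nonneg z
  have hy1 := RadA_lt hy
  have hy0 := norm_nonneg (mob g.1 g.2 z)
  refine ⟨?_, ?_, ?_⟩
  · exact (q_pos (mob_mem norm_one (RadA_lt hζD) hy)).le
  · unfold kd
    linarith [sq_nonneg ‖mob 1 ζ (mob g.1 g.2 z)‖]
  · have hD1 : 1 - r ≤ ‖1 - conj ζ * mob g.1 g.2 z‖ := by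
      have h1 : ‖(1 : ℂ)‖ - ‖conj ζ * mob g.1 g.2 z‖ ≤ ‖1 - conj ζ * mob g.1 g.2 z‖ :=
        norm_sub_norm_le _ _
      rw [norm_one, norm_mul, Complex.norm_conj] at h1
      nlinarith
    have hD2 : 1 - r ≤ ‖1 - conj g.2 * z‖ := by
      have h1 : ‖(1 : ℂ)‖ - ‖conj g.2 * z‖ ≤ ‖1 - conj g.2 * z‖ :=
        norm_sub_norm_le _ _
      rw [norm_one, norm_mul, Complex.norm_conj] at h1
      nlinarith [norm_nonneg g.2]
    unfold kd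
    rw [hk, one_sub_mob hw ha (RadA_lt hzD).le, norm_mobd hw ha]
    have hA := mob_aux1 ha
    have hz2 := q_pos hzD
    have hζ2 := q_pos hζD
    have e1 : (1 - ‖ζ‖ ^ 2) * ((1 - ‖z‖ ^ 2) * ((1 - ‖g.2‖ ^ 2) / ‖1 - conj g.2 * z‖ ^ 2)) /
        ‖1 - conj ζ * mob g.1 g.2 z‖ ^ 2 =
        ((1 - ‖ζ‖ ^ 2) * (1 - ‖z‖ ^ 2) * (1 - ‖g.2‖ ^ 2)) /
          (‖1 - conj ζ * mob g.1 g.2 z‖ ^ 2 * ‖1 - conj g.2 * z‖ ^ 2) := by
      rw [← mul_div_assoc, ← mul_div_assoc, div_div, mul_comm (‖1 - conj g.2 * z‖ ^ 2),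
        mul_assoc (1 - ‖ζ‖ ^ 2)]
    rw [e1, div_mul_eq_mul_div, one_mul]
    apply div_le_div₀ hA.le _ (by positivity)
    · exact mul_le_mul (pow_le_pow_left₀ hr'.le hD1 2) (pow_le_pow_left₀ hr'.le hD2 2)
        (by positivity) (by positivity)
    · have h3 : (1 - ‖ζ‖ ^ 2) * (1 - ‖z‖ ^ 2) ≤ 1 := by nlinarith [sq_nonneg ‖ζ‖, sq_nonneg ‖z‖]
      nlinarith

theorem PgB_pow_le {x : ℝ} (h0 : 0 ≤ x) (h1 : x ≤ 1) {m : ℕ} (hm : 2 ≤ m) {c : ℝ} (hc : x ≤ c) :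
    x ^ m ≤ c ^ 2 :=
  (pow_le_pow_of_le_one h0 h1 hm).trans (pow_le_pow_left₀ h0 hc 2)

theorem PgB_summ (h : SurfaceGroup G) {m : ℕ} (hm : 2 ≤ m) {ζ z : ℂ} (hζ : ζ ∈ Disc)
    (hz : z ∈ Disc) : Summable (fun g : G => kd ζ (mob (g : ℂ × ℂ).1 (g : ℂ × ℂ).2 z) ^ m) := by
  obtain ⟨C, hC, hk⟩ := kd_le h (max_lt (RadA_lt hζ) (RadA_lt hz))
  refine Summable.of_nonneg_of_le (fun g => ?_) (fun g => ?_) ((summ_sq h).mul_left (C ^ 2))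
  · exact pow_nonneg (hk ζ z (le_max_left _ _) (le_max_right _ _) g g.2).1 m
  · obtain ⟨h1, h2, h3⟩ := hk ζ z (le_max_left _ _) (le_max_right _ _) g g.2
    rw [← mul_pow]
    exact PgB_pow_le h1 h2 hm h3

theorem PgB_norm (h : SurfaceGroup G) (m : ℕ) {ζ : ℂ} (hζ : ζ ∈ Disc) {g : ℂ × ℂ} (hg : g ∈ G)
    {z : ℂ} (hz : z ∈ Disc) :
    ‖kt m ζ g z‖ = kd ζ (mob g.1 g.2 z) ^ m / (1 - ‖z‖ ^ 2) ^ m := by
  rw [eq_div_iff (pow_ne_zero m (q_pos hz).ne'), norm_kt h m hζ hg hz]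

theorem PgB_mobd_diff {w a : ℂ} (ha : ‖a‖ < 1) : DifferentiableOn ℂ (mobd w a) Disc := by
  unfold mobd
  refine DifferentiableOn.div (by fun_prop) (by fun_prop) fun z hz => ?_
  exact pow_ne_zero 2 (den_ne ha (RadA_lt hz).le)

theorem PgB_kt_diff (h : SurfaceGroup G) (m : ℕ) {ζ : ℂ} (hζ : ζ ∈ Disc) {g : ℂ × ℂ}
    (hg : g ∈ G) : DifferentiableOn ℂ (kt m ζ g) Disc := by
  have ha := (h.par g hg).2
  have h1 : DifferentiableOn ℂ (mob g.1 g.2) Disc := fun z hz =>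
    (mob_hasDerivAt ha (RadA_lt hz).le).differentiableAt.differentiableWithinAt
  unfold kt
  refine ((PgB_mobd_diff ha).pow m).mul (DifferentiableOn.pow ?_ m)
  refine DifferentiableOn.div (differentiableOn_const _)
    (((differentiableOn_const _).sub ((differentiableOn_const _).mul h1)).pow 2) fun z hz => ?_
  exact pow_ne_zero 2 (den_ne (RadA_lt hζ) (RadA_lt (PgA_mem h hg hz)).le)

/-- The series is holomorphic. -/
theorem kth_diff (h : SurfaceGroup G) {m : ℕ} (hm : 2 ≤ m) {ζ : ℂ} (hζ : ζ ∈ Disc) :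
    DifferentiableOn ℂ (kth G m ζ) Disc := by
  intro z0 hz0
  obtain ⟨r, hr1, hr2⟩ := exists_between (max_lt (RadA_lt hζ) (RadA_lt hz0))
  have hζr : ‖ζ‖ ≤ r := (le_max_left _ _).trans hr1.le
  have hz0r : ‖z0‖ < r := (le_max_right _ _).trans_lt hr1
  have hr0 : 0 ≤ r := (norm_nonneg _).trans hζr
  obtain ⟨C, hC, hk⟩ := kd_le h hr2
  have hsub : Metric.ball (0 : ℂ) r ⊆ Disc := Metric.ball_subset_ball hr2.le
  have h1 : DifferentiableOn ℂ (fun z => ∑' g : G, kt m ζ g z) (Metric.ball (0 : ℂ) r) := by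
    refine differentiableOn_tsum_of_summable_norm
      (u := fun g : G => C ^ 2 * (1 - ‖(g : ℂ × ℂ).2‖ ^ 2) ^ 2 / (1 - r ^ 2) ^ m)
      (((summ_sq h).mul_left (C ^ 2)).div_const _)
      (fun g => (PgB_kt_diff h m hζ g.2).mono hsub) Metric.isOpen_ball fun g z hz => ?_
    have hzr : ‖z‖ ≤ r := (mem_ball_zero_iff.1 hz).le
    have hzD : z ∈ Disc := hsub hz
    obtain ⟨k1, k2, k3⟩ := hk ζ z hζr hzr g g.2
    rw [PgB_norm h m hζ g.2 hzD]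
    have hr3 : 0 < 1 - r ^ 2 := by nlinarith
    refine div_le_div₀ (by positivity) ?_ (pow_pos hr3 m) ?_
    · rw [← mul_pow]
      exact PgB_pow_le k1 k2 hm k3
    · exact pow_le_pow_left₀ hr3.le (by nlinarith [norm_nonneg z]) m
  have h2 := (h1.differentiableAt (Metric.isOpen_ball.mem_nhds (mem_ball_zero_iff.2 hz0r)))
  exact h2.differentiableWithinAt

theorem PgB_chain {w1 a1 w2 a2 w a : ℂ} (hw1 : ‖w1‖ = 1) (ha1 : ‖a1‖ < 1)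
    (ha2 : ‖a2‖ < 1) (ha : ‖a‖ < 1)
    (h : ∀ z ∈ Disc, mob w a z = mob w2 a2 (mob w1 a1 z)) {z : ℂ} (hz : z ∈ Disc) :
    mobd w a z = mobd w2 a2 (mob w1 a1 z) * mobd w1 a1 z := by
  have hz1 : ‖z‖ ≤ 1 := (mem_ball_zero_iff.1 hz).le
  have h1 := mob_hasDerivAt (w := w1) ha1 hz1
  have h2 := mob_hasDerivAt (w := w2) ha2 (RadA_lt (mob_mem hw1 ha1 hz)).le
  have h3 := h2.comp z h1
  have h4 := mob_hasDerivAt (w := w) ha hz1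
  have h5 : mob w a =ᶠ[𝓝 z] mob w2 a2 ∘ mob w1 a1 := by
    filter_upwards [Metric.isOpen_ball.mem_nhds hz] with y hy
    exact h y hy
  exact (h4.congr_of_eventuallyEq h5.symm).unique h3

/-- Automorphy. -/
theorem kth_auto (h : SurfaceGroup G) {m : ℕ} (hm : 2 ≤ m) {ζ : ℂ} (hζ : ζ ∈ Disc)
    {g : ℂ × ℂ} (hg : g ∈ G) {z : ℂ} (hz : z ∈ Disc) :
    kth G m ζ (mob g.1 g.2 z) * mobd g.1 g.2 z ^ m = kth G m ζ z := by
  have _ := hm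
  have _ := hζ
  obtain ⟨e, he⟩ := right_trans h hg
  unfold kth
  rw [← tsum_mul_right, ← e.tsum_eq (fun k : G => kt m ζ k z)]
  refine tsum_congr fun k => ?_
  have h1 := he k z hz
  have h2 := PgB_chain (h.par g hg).1 (h.par g hg).2 (h.par k k.2).2 (h.par _ (e k).2).2
    (he k) hz
  unfold kt
  rw [h1, h2, mul_pow]
  ring

/-- Upper bound. -/
theorem kth_upper (h : SurfaceGroup G) {m : ℕ} (hm : 2 ≤ m) {ζ z : ℂ} (hζ : ζ ∈ Disc)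
    (hz : z ∈ Disc) :
    Summable (fun g : G => kd ζ (mob (g : ℂ × ℂ).1 (g : ℂ × ℂ).2 z) ^ m) ∧
    ‖kth G m ζ z‖ * (1 - ‖z‖ ^ 2) ^ m ≤
      ∑' g : G, kd ζ (mob (g : ℂ × ℂ).1 (g : ℂ × ℂ).2 z) ^ m := by
  have hs := PgB_summ h hm hζ hz
  refine ⟨hs, ?_⟩
  have hP := pow_pos (q_pos hz) m
  have hn : Summable fun g : G => ‖kt m ζ g z‖ := by
    have h1 : (fun g : G => ‖kt m ζ g z‖) =
        fun g : G => kd ζ (mob (g : ℂ × ℂ).1 (g : ℂ × ℂ).2 z) ^ m / (1 - ‖z‖ ^ 2) ^ m := by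
      funext g
      exact PgB_norm h m hζ g.2 hz
    rw [h1]
    exact hs.div_const _
  have h2 : ‖kth G m ζ z‖ ≤ ∑' g : G, ‖kt m ζ g z‖ := norm_tsum_le_tsum_norm hn
  calc ‖kth G m ζ z‖ * (1 - ‖z‖ ^ 2) ^ m ≤ (∑' g : G, ‖kt m ζ g z‖) * (1 - ‖z‖ ^ 2) ^ m :=
        mul_le_mul_of_nonneg_right h2 hP.le
    _ = ∑' g : G, kd ζ (mob (g : ℂ × ℂ).1 (g : ℂ × ℂ).2 z) ^ m := by
        rw [← tsum_mul_right]
        exact tsum_congr fun g => norm_kt h m hζ g.2 hz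

theorem PgB_one {m : ℕ} {ζ : ℂ} (hζ : ζ ∈ Disc) :
    ‖kt m ζ (1, 0) ζ‖ * (1 - ‖ζ‖ ^ 2) ^ m = 1 := by
  have h0 := (q_pos hζ).ne'
  have e1 : mob (1 : ℂ) 0 ζ = ζ := by unfold mob; simp
  have e2 : mobd (1 : ℂ) 0 ζ = 1 := by unfold mobd; simp
  have e3 : (1 : ℂ) - conj ζ * ζ = ((1 - ‖ζ‖ ^ 2 : ℝ) : ℂ) := by
    rw [Complex.conj_mul']
    push_cast
    ring
  unfold kt
  simp only [e1, e2, e3]
  rw [one_pow, one_mul, norm_pow, norm_div, norm_pow, Complex.norm_real, Real.norm_eq_abs,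
    abs_of_pos (q_pos hζ), ← mul_pow]
  have h1 : (1 - ‖ζ‖ ^ 2) / (1 - ‖ζ‖ ^ 2) ^ 2 * (1 - ‖ζ‖ ^ 2) = 1 := by
    field_simp
  rw [h1, one_pow]

theorem PgB_kd_self (ζ : ℂ) : kd ζ (mob 1 0 ζ) = 1 := by
  have e1 : mob (1 : ℂ) 0 ζ = ζ := by unfold mob; simp
  unfold kd
  rw [e1]
  unfold mob
  simp

/-- Lower bound at the centre. -/
theorem kth_lower (h : SurfaceGroup G) {m : ℕ} (hm : 2 ≤ m) {ζ : ℂ} (hζ : ζ ∈ Disc) :
    2 - ∑' g : G, kd ζ (mob (g : ℂ × ℂ).1 (g : ℂ × ℂ).2 ζ) ^ m ≤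
      ‖kth G m ζ ζ‖ * (1 - ‖ζ‖ ^ 2) ^ m := by
  classical
  have hs := PgB_summ h hm hζ hζ
  have hP := pow_pos (q_pos hζ) m
  have hn : Summable fun g : G => ‖kt m ζ g ζ‖ := by
    have h1 : (fun g : G => ‖kt m ζ g ζ‖) =
        fun g : G => kd ζ (mob (g : ℂ × ℂ).1 (g : ℂ × ℂ).2 ζ) ^ m / (1 - ‖ζ‖ ^ 2) ^ m := by
      funext g
      exact PgB_norm h m hζ g.2 hζ
    rw [h1]
    exact hs.div_const _
  have hc : Summable fun g : G => kt m ζ g ζ := hn.of_norm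
  set i0 : G := ⟨(1, 0), h.one⟩ with hi0
  have t1 := hc.tsum_eq_add_tsum_ite i0
  have t2 := hs.tsum_eq_add_tsum_ite i0
  have hn' : Summable fun g : G => ‖if g = i0 then (0 : ℂ) else kt m ζ g ζ‖ := by
    refine Summable.of_nonneg_of_le (fun g => norm_nonneg _) (fun g => ?_) hn
    split_ifs
    · simp
    · exact le_rfl
  have h3 : ‖kt m ζ i0 ζ‖ ≤ ‖kth G m ζ ζ‖ +
      ∑' g : G, ‖if g = i0 then (0 : ℂ) else kt m ζ g ζ‖ := by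
    have h4 : kt m ζ i0 ζ = kth G m ζ ζ - ∑' g : G, (if g = i0 then (0 : ℂ) else kt m ζ g ζ) := by
      unfold kth
      rw [t1]
      ring
    rw [h4]
    exact (norm_sub_le _ _).trans (add_le_add_right (norm_tsum_le_tsum_norm hn') _)
  have h5 : (∑' g : G, ‖if g = i0 then (0 : ℂ) else kt m ζ g ζ‖) * (1 - ‖ζ‖ ^ 2) ^ m =
      ∑' g : G, if g = i0 then (0 : ℝ) else kd ζ (mob (g : ℂ × ℂ).1 (g : ℂ × ℂ).2 ζ) ^ m := by
    rw [← tsum_mul_right]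
    refine tsum_congr fun g => ?_
    split_ifs
    · simp
    · exact norm_kt h m hζ g.2 hζ
  have h6 : ‖kt m ζ i0 ζ‖ * (1 - ‖ζ‖ ^ 2) ^ m = 1 := PgB_one hζ
  have h7 : kd ζ (mob (i0 : ℂ × ℂ).1 (i0 : ℂ × ℂ).2 ζ) ^ m = 1 := by
    have : kd ζ (mob (i0 : ℂ × ℂ).1 (i0 : ℂ × ℂ).2 ζ) = 1 := PgB_kd_self ζ
    rw [this, one_pow]
  have h8 := mul_le_mul_of_nonneg_right h3 hP.le
  rw [add_mul, h5, h6] at h8
  rw [t2, h7]
  linarith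

end Pool.Agent.H.MP_bfbbee_an.F4
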