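import Pool.Agent.H.MP_bfbbee_an.helper67.PgB

/-!
# Large weights
-/

set_option autoImplicit false

namespace Pool.Agent.H.MP_bfbbee_an.F4

open ComplexConjugate Filter Topology Complex MeasureTheory
open scoped ContDiff

variable {G : Set (ℂ × ℂ)}

private theorem PgC_finite (h : SurfaceGroup G) {C : ℝ} (hC : 0 < C) :
    {g : ℂ × ℂ | g ∈ G ∧ 1 / 2 < C * (1 - ‖g.2‖ ^ 2)}.Finite := by
  have h5 : 0 < 1 / (4 * C) := by positivity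
  refine (h.disc (1 - 1 / (4 * C)) (by linarith)).subset ?_
  rintro g ⟨hg, h1⟩
  refine ⟨hg, ?_⟩
  have ha := (h.par g hg).2
  have h0 := norm_nonneg g.2
  have h2 : 1 - ‖g.2‖ ^ 2 ≤ 2 * (1 - ‖g.2‖) := by nlinarith
  have h3 : 1 / 2 < C * (2 * (1 - ‖g.2‖)) := h1.trans_le (mul_le_mul_of_nonneg_left h2 hC.le)
  have h4 : 1 / (4 * C) < 1 - ‖g.2‖ := by
    rw [div_lt_iff₀ (by positivity)]
    linarith
  linarith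

private theorem PgC_kappa (h : SurfaceGroup G) {C : ℝ} (hC : 0 < C) (X E : Set (ℂ × ℂ))
    (hb : ∀ x ∈ X, ∀ g ∈ G, kd x.1 (mob g.1 g.2 x.2) ≤ C * (1 - ‖g.2‖ ^ 2))
    (hE : ∀ g ∈ G, g ∉ E → ∀ᶠ κ in 𝓝[<] (1 : ℝ), ∀ x ∈ X, kd x.1 (mob g.1 g.2 x.2) ≤ κ) :
    ∃ κ : ℝ, 0 ≤ κ ∧ κ < 1 ∧ ∀ g ∈ G, g ∉ E → ∀ x ∈ X, kd x.1 (mob g.1 g.2 x.2) ≤ κ := by
  have h1 : ∀ᶠ κ in 𝓝[<] (1 : ℝ), ∀ g ∈ {g : ℂ × ℂ | g ∈ G ∧ 1 / 2 < C * (1 - ‖g.2‖ ^ 2)},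
      g ∉ E → ∀ x ∈ X, kd x.1 (mob g.1 g.2 x.2) ≤ κ := by
    rw [Filter.eventually_all_finite (PgC_finite h hC)]
    intro g hg
    by_cases hgE : g ∈ E
    · exact Eventually.of_forall fun κ h' => absurd hgE h'
    · filter_upwards [hE g hg.1 hgE] with κ hκ _ using hκ
  obtain ⟨κ, h2, h3⟩ := (h1.and (Ico_mem_nhdsLT (show (1 / 2 : ℝ) < 1 by norm_num))).exists
  refine ⟨κ, by linarith [h3.1], h3.2, fun g hg hgE x hx => ?_⟩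
  by_cases hc : 1 / 2 < C * (1 - ‖g.2‖ ^ 2)
  · exact h2 g ⟨hg, hc⟩ hgE x hx
  · exact ((hb x hx g hg).trans (not_lt.1 hc)).trans h3.1

private theorem PgC_pow {C a κ k : ℝ} (h0 : 0 ≤ k) (h1 : k ≤ C * a) (h2 : k ≤ κ) {m : ℕ}
    (hm : 2 ≤ m) : k ^ m ≤ κ ^ (m - 2) * (C ^ 2 * a ^ 2) := by
  obtain ⟨n, rfl⟩ := Nat.exists_eq_add_of_le' hm
  rw [Nat.add_sub_cancel, pow_add, ← mul_pow]
  exact mul_le_mul (pow_le_pow_left₀ h0 h2 n) (pow_le_pow_left₀ h0 h1 2) (by positivity)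
    (pow_nonneg (h0.trans h2) n)

private theorem PgC_sum (h : SurfaceGroup G) (C : ℝ) {κ : ℝ} (hκ0 : 0 ≤ κ) (hκ1 : κ < 1) :
    ∃ m₀ : ℕ, 2 ≤ m₀ ∧ ∀ m, m₀ ≤ m → ∀ f : G → ℝ, (∀ g, 0 ≤ f g) →
      (∀ g : G, f g ≤ κ ^ (m - 2) * (C ^ 2 * (1 - ‖(g : ℂ × ℂ).2‖ ^ 2) ^ 2)) →
        ∑' g, f g < 1 / 4 := by
  have hs : Summable (fun g : G => C ^ 2 * (1 - ‖(g : ℂ × ℂ).2‖ ^ 2) ^ 2) :=
    (summ_sq h).mul_left _
  set K : ℝ := ∑' g : G, C ^ 2 * (1 - ‖(g : ℂ × ℂ).2‖ ^ 2) ^ 2 with hK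
  have ht : Tendsto (fun n : ℕ => κ ^ n * K) atTop (𝓝 0) := by
    simpa using (tendsto_pow_atTop_nhds_zero_of_lt_one hκ0 hκ1).mul_const K
  obtain ⟨N, hN⟩ := (ht.eventually_lt_const (show (0 : ℝ) < 1 / 4 by norm_num)).exists_forall_of_atTop
  refine ⟨N + 2, by omega, fun m hm f hf0 hf => ?_⟩
  have hs' : Summable (fun g : G => κ ^ (m - 2) * (C ^ 2 * (1 - ‖(g : ℂ × ℂ).2‖ ^ 2) ^ 2)) :=
    hs.mul_left _
  have h1 : ∑' g, f g ≤ ∑' g : G, κ ^ (m - 2) * (C ^ 2 * (1 - ‖(g : ℂ × ℂ).2‖ ^ 2) ^ 2) :=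
    Summable.tsum_le_tsum hf (Summable.of_nonneg_of_le hf0 hf hs') hs'
  rw [tsum_mul_left, ← hK] at h1
  exact h1.trans_lt (hN (m - 2) (by omega))

private theorem PgC_lt {ζ y : ℂ} (hζ : ζ ∈ Disc) (hy : y ∈ Disc) (hne : y ≠ ζ) : kd ζ y < 1 := by
  have h1 : mob 1 ζ y ≠ 0 := by
    unfold mob
    rw [one_mul]
    exact div_ne_zero (sub_ne_zero.2 hne)
      (den_ne (mem_ball_zero_iff.1 hζ) (mem_ball_zero_iff.1 hy).le)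
  have h2 := pow_pos (norm_pos_iff.2 h1) 2
  unfold kd
  linarith

private theorem PgC_compact (h : SurfaceGroup G) {r : ℝ} (hr0 : 0 ≤ r) (hr : r < 1) {g : ℂ × ℂ}
    (hg : g ∈ G) (hg1 : g ≠ (1, 0)) :
    ∃ κ < (1 : ℝ), ∀ ζ : ℂ, ‖ζ‖ ≤ r → kd ζ (mob g.1 g.2 ζ) ≤ κ := by
  have hsub : ∀ ζ ∈ Metric.closedBall (0 : ℂ) r, ζ ∈ Disc := fun ζ hζ =>
    mem_ball_zero_iff.2 ((mem_closedBall_zero_iff.1 hζ).trans_lt hr)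
  have hm : ContinuousOn (fun ζ => mob g.1 g.2 ζ) (Metric.closedBall 0 r) := fun ζ hζ =>
    (mob_hasDerivAt (h.par g hg).2 (mem_ball_zero_iff.1 (hsub ζ hζ)).le).continuousAt.continuousWithinAt
  have hcont : ContinuousOn (fun ζ => kd ζ (mob g.1 g.2 ζ)) (Metric.closedBall 0 r) := by
    unfold kd
    refine continuousOn_const.sub (ContinuousOn.pow (ContinuousOn.norm ?_) 2)
    show ContinuousOn (fun ζ => 1 * (mob g.1 g.2 ζ - ζ) / (1 - conj ζ * mob g.1 g.2 ζ)) _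
    refine ContinuousOn.div (continuousOn_const.mul (hm.sub continuousOn_id))
      (continuousOn_const.sub (Complex.continuous_conj.continuousOn.mul hm)) fun ζ hζ => ?_
    exact den_ne (mem_ball_zero_iff.1 (hsub ζ hζ))
      (mem_ball_zero_iff.1 (mob_mem (h.par g hg).1 (h.par g hg).2 (hsub ζ hζ))).le
  obtain ⟨ζ₀, hζ₀, hmax⟩ := (isCompact_closedBall (0 : ℂ) r).exists_isMaxOn
    ⟨0, by simpa using hr0⟩ hcont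
  refine ⟨_, ?_, fun ζ hζ => hmax (mem_closedBall_zero_iff.2 hζ)⟩
  exact PgC_lt (hsub ζ₀ hζ₀) (mob_mem (h.par g hg).1 (h.par g hg).2 (hsub ζ₀ hζ₀))
    fun he => hg1 (h.free g hg ζ₀ (hsub ζ₀ hζ₀) he)

/-- For large weights the series centred at `ζ`, `|ζ| ≤ r`, does not vanish at `ζ`. -/
theorem large_weight (h : SurfaceGroup G) {r : ℝ} (hr : r < 1) :
    ∃ m₀ : ℕ, 2 ≤ m₀ ∧ ∀ m, m₀ ≤ m → ∀ ζ : ℂ, ‖ζ‖ ≤ r →
      ∑' g : G, kd ζ (mob (g : ℂ × ℂ).1 (g : ℂ × ℂ).2 ζ) ^ m < 5 / 4 := by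
  classical
  rcases lt_or_ge r 0 with hr0 | hr0
  · exact ⟨2, le_rfl, fun m _ ζ hζ => absurd (hζ.trans_lt hr0) (not_lt.2 (norm_nonneg ζ))⟩
  obtain ⟨C, hC, hCb⟩ := kd_le h hr
  obtain ⟨κ, hκ0, hκ1, hκ⟩ := PgC_kappa h hC {x : ℂ × ℂ | ‖x.1‖ ≤ r ∧ x.2 = x.1}
    {((1 : ℂ), (0 : ℂ))}
    (fun x hx g hg => (hCb x.1 x.2 hx.1 (by rw [hx.2]; exact hx.1) g hg).2.2)
    (fun g hg hg1 => by
      obtain ⟨κ, hκ, hb⟩ := PgC_compact h hr0 hr hg hg1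
      filter_upwards [Ico_mem_nhdsLT hκ] with κ' hκ' x hx
      rw [hx.2]
      exact (hb x.1 hx.1).trans hκ'.1)
  obtain ⟨m₀, hm₀, hm⟩ := PgC_sum h C hκ0 hκ1
  refine ⟨m₀, hm₀, fun m hmm ζ hζ => ?_⟩
  have hζD : ζ ∈ Disc := mem_ball_zero_iff.2 (hζ.trans_lt hr)
  have hsum := (kth_upper h (hm₀.trans hmm) hζD hζD).1
  have hb : ∀ g : G, 0 ≤ kd ζ (mob (g : ℂ × ℂ).1 (g : ℂ × ℂ).2 ζ) := fun g =>
    (hCb ζ ζ hζ hζ g g.2).1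
  rw [hsum.tsum_eq_add_tsum_ite (⟨((1 : ℂ), (0 : ℂ)), h.one⟩ : G)]
  have h1 : kd ζ (mob 1 0 ζ) ^ m = 1 := by
    have h2 : mob 1 0 ζ = ζ := by
      unfold mob
      simp
    rw [h2]
    unfold kd mob
    simp
  have h3 : ∑' g : G, (if g = (⟨((1 : ℂ), (0 : ℂ)), h.one⟩ : G) then 0 else
      kd ζ (mob (g : ℂ × ℂ).1 (g : ℂ × ℂ).2 ζ) ^ m) < 1 / 4 := by
    refine hm m hmm _ (fun g => ?_) fun g => ?_
    · split_ifs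
      · exact le_rfl
      · exact pow_nonneg (hb g) m
    · split_ifs with hg
      · positivity
      · have hg1 : (g : ℂ × ℂ) ∉ ({((1 : ℂ), (0 : ℂ))} : Set (ℂ × ℂ)) := fun he =>
          hg (Subtype.ext he)
        exact PgC_pow (hb g) (hCb ζ ζ hζ hζ g g.2).2.2 (hκ g g.2 hg1 (ζ, ζ) ⟨hζ, rfl⟩)
          (hm₀.trans hmm)
  show kd ζ (mob 1 0 ζ) ^ m + _ < _
  rw [h1]
  linarith

/-- For large weights the series centred at `ζ` is small at a point which is not equivalent. -/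
theorem large_weight' (h : SurfaceGroup G) {ζ z : ℂ} (hζ : ζ ∈ Disc) (hz : z ∈ Disc)
    (hne : ∀ g ∈ G, mob g.1 g.2 z ≠ ζ) :
    ∃ m₀ : ℕ, 2 ≤ m₀ ∧ ∀ m, m₀ ≤ m →
      ∑' g : G, kd ζ (mob (g : ℂ × ℂ).1 (g : ℂ × ℂ).2 z) ^ m < 1 / 4 := by
  have hζ1 := mem_ball_zero_iff.1 hζ
  have hz1 := mem_ball_zero_iff.1 hz
  obtain ⟨C, hC, hCb⟩ := kd_le h (max_lt hζ1 hz1)
  have hCb' := hCb ζ z (le_max_left _ _) (le_max_right _ _)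
  obtain ⟨κ, hκ0, hκ1, hκ⟩ := PgC_kappa h hC {(ζ, z)} ∅
    (fun x hx g hg => by
      rw [Set.mem_singleton_iff.1 hx]
      exact (hCb' g hg).2.2)
    (fun g hg _ => by
      have h1 : kd ζ (mob g.1 g.2 z) < 1 :=
        PgC_lt hζ (mob_mem (h.par g hg).1 (h.par g hg).2 hz) (hne g hg)
      filter_upwards [Ico_mem_nhdsLT h1] with κ' hκ' x hx
      rw [Set.mem_singleton_iff.1 hx]
      exact hκ'.1)
  obtain ⟨m₀, hm₀, hm⟩ := PgC_sum h C hκ0 hκ1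
  refine ⟨m₀, hm₀, fun m hmm => hm m hmm _ (fun g => ?_) fun g => ?_⟩
  · exact pow_nonneg (hCb' g g.2).1 m
  · exact PgC_pow (hCb' g g.2).1 (hCb' g g.2).2.2
      (hκ g g.2 (Set.notMem_empty _) (ζ, z) rfl) (hm₀.trans hmm)

end Pool.Agent.H.MP_bfbbee_an.F4
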