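import Pool.Agent.H.MP_bfbbee_an.helper67.PgC

/-!
# Every surface group has a pair of automorphic forms without common zeros
-/

set_option autoImplicit false

namespace Pool.Agent.H.MP_bfbbee_an.F4

open ComplexConjugate Filter Topology Complex MeasureTheory
open scoped ContDiff

variable {G : Set (ℂ × ℂ)}

/-- `f` is a holomorphic form of weight `2m`. -/
structure AutF (G : Set (ℂ × ℂ)) (m : ℕ) (f : ℂ → ℂ) : Prop where
  diff : DifferentiableOn ℂ f Disc
  auto : ∀ g ∈ G, ∀ z ∈ Disc, f (mob g.1 g.2 z) * mobd g.1 g.2 z ^ m = f z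

/-- For large weights and every finite set of points of `|z| ≤ r` there is a form which does not
vanish on the set. -/
theorem exists_nonvanishing (h : SurfaceGroup G) {r : ℝ} {m : ℕ} (hm2 : 2 ≤ m)
    (hr : r < 1)
    (hm : ∀ ζ : ℂ, ‖ζ‖ ≤ r →
      ∑' g : G, kd ζ (mob (g : ℂ × ℂ).1 (g : ℂ × ℂ).2 ζ) ^ m < 5 / 4)
    (T : Finset ℂ) (hT : ∀ z ∈ T, ‖z‖ ≤ r) :
    ∃ f : ℂ → ℂ, AutF G m f ∧ ∀ z ∈ T, f z ≠ 0 := by
  classical
  induction T using Finset.induction_on with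
  | empty =>
    exact ⟨fun _ => 0, ⟨differentiableOn_const _, fun g _ z _ => by simp⟩, by simp⟩
  | insert z' T hz' ih =>
    obtain ⟨f0, hf0, hne⟩ := ih fun z hz => hT z (Finset.mem_insert_of_mem hz)
    have hz'r := hT z' (Finset.mem_insert_self _ _)
    have hz'D : z' ∈ Disc := mem_ball_zero_iff.2 (hz'r.trans_lt hr)
    have hk : kth G m z' z' ≠ 0 := by
      intro h0
      have h1 := kth_lower h hm2 hz'D
      rw [h0, norm_zero, zero_mul] at h1
      have h2 := hm z' hz'r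
      linarith
    by_cases h0 : f0 z' = 0
    · obtain ⟨t, ht⟩ : ∃ t : ℂ, t ∉ insert 0 (T.image fun s => -f0 s / kth G m z' s) :=
        Infinite.exists_notMem_finset _
      rw [Finset.mem_insert, not_or] at ht
      refine ⟨fun z => f0 z + t * kth G m z' z,
        ⟨hf0.diff.add ((kth_diff h hm2 hz'D).const_mul t), ?_⟩, ?_⟩
      · intro g hg z hz
        rw [add_mul, mul_assoc, hf0.auto g hg z hz, kth_auto h hm2 hz'D hg hz]
      · intro s hs
        rcases Finset.mem_insert.1 hs with hs | hs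
        · rw [hs]
          show f0 z' + t * kth G m z' z' ≠ 0
          rw [h0, zero_add]
          exact mul_ne_zero ht.1 hk
        · intro hc
          have hc : f0 s + t * kth G m z' s = 0 := hc
          by_cases hks : kth G m z' s = 0
          · rw [hks, mul_zero, add_zero] at hc
            exact hne s hs hc
          · apply ht.2
            rw [Finset.mem_image]
            refine ⟨s, hs, ?_⟩
            rw [div_eq_iff hks]
            linear_combination -hc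
    · refine ⟨f0, hf0, fun s hs => ?_⟩
      rcases Finset.mem_insert.1 hs with hs | hs
      · rw [hs]
        exact h0
      · exact hne s hs

/-- The zeros of a form which is not identically zero, modulo the group. -/
theorem zeros_finite (h : SurfaceGroup G) {R : ℝ} (hR : R < 1)
    (hco : ∀ z ∈ Disc, ∃ g ∈ G, ‖mob g.1 g.2 z‖ ≤ R) {m : ℕ} {f : ℂ → ℂ} (hf : AutF G m f)
    (hne : ∃ z ∈ Disc, f z ≠ 0) :
    ∃ T : Finset ℂ, (∀ z ∈ T, ‖z‖ ≤ R ∧ f z = 0) ∧
      ∀ z ∈ Disc, f z = 0 → ∃ g ∈ G, mob g.1 g.2 z ∈ T := by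
  have hfin : {z : ℂ | ‖z‖ ≤ R ∧ f z = 0}.Finite := by
    by_contra hinf
    obtain ⟨x, hx, hacc⟩ := Set.Infinite.exists_accPt_of_subset_isCompact hinf
      (isCompact_closedBall (0 : ℂ) R) fun z hz => mem_closedBall_zero_iff.2 hz.1
    have hxD : x ∈ Disc := mem_ball_zero_iff.2 ((mem_closedBall_zero_iff.1 hx).trans_lt hR)
    have h1 : ∃ᶠ z in 𝓝[≠] x, f z = 0 := by
      rw [accPt_iff_frequently_nhdsNE] at hacc
      exact hacc.mono fun z hz => hz.2
    have h2 := (hf.diff.analyticOnNhd Metric.isOpen_ball).eqOn_zero_of_preconnected_of_frequently_eq_zero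
      (convex_ball (0 : ℂ) 1).isPreconnected hxD h1
    obtain ⟨z, hz, hz'⟩ := hne
    exact hz' (h2 hz)
  refine ⟨hfin.toFinset, fun z hz => (Set.Finite.mem_toFinset hfin).1 hz, fun z hz h0 => ?_⟩
  obtain ⟨g, hg, hg'⟩ := hco z hz
  refine ⟨g, hg, (Set.Finite.mem_toFinset hfin).2 ⟨hg', ?_⟩⟩
  have h1 := hf.auto g hg z hz
  rw [h0] at h1
  exact (mul_eq_zero.1 h1).resolve_right (pow_ne_zero m
    (mobd_ne (h.par g hg).1 (h.par g hg).2 (RadA_lt hz).le))

/-- There is a point which is not equivalent to `0`. -/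
theorem exists_ineq (h : SurfaceGroup G) :
    ∃ ζ ∈ Disc, ∀ g ∈ G, mob g.1 g.2 ζ ≠ 0 ∧ mob g.1 g.2 0 ≠ ζ := by
  classical
  have hfin := h.disc (1 / 2) (by norm_num)
  have hinf : (Metric.ball (0 : ℂ) (1 / 2)).Infinite :=
    infinite_of_mem_nhds (0 : ℂ) (Metric.ball_mem_nhds _ (by norm_num))
  obtain ⟨ζ, hζ, hbad⟩ := hinf.exists_notMem_finset
    (hfin.toFinset.image (fun g : ℂ × ℂ => mob g.1 g.2 0) ∪
      hfin.toFinset.image fun g : ℂ × ℂ => g.2)
  rw [Finset.mem_union, not_or, Finset.mem_image, Finset.mem_image] at hbad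
  have hζ1 : ‖ζ‖ < 1 / 2 := mem_ball_zero_iff.1 hζ
  refine ⟨ζ, mem_ball_zero_iff.2 (by linarith), fun g hg => ⟨fun h0 => ?_, fun h0 => ?_⟩⟩
  · have hw : g.1 ≠ 0 := by
      intro h1
      have h2 := (h.par g hg).1
      rw [h1, norm_zero] at h2
      exact zero_ne_one h2
    unfold mob at h0
    rw [div_eq_zero_iff] at h0
    rcases h0 with h0 | h0
    · have h1 : ζ - g.2 = 0 := (mul_eq_zero.1 h0).resolve_left hw
      have h2 : ζ = g.2 := sub_eq_zero.1 h1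
      exact hbad.2 ⟨g, (Set.Finite.mem_toFinset hfin).2 ⟨hg, by rw [← h2]; exact hζ1.le⟩, h2.symm⟩
    · exact den_ne (h.par g hg).2 (by linarith) h0
  · have h1 := PgA_zero g.1 g.2 (h.par g hg).1
    rw [h0] at h1
    exact hbad.1 ⟨g, (Set.Finite.mem_toFinset hfin).2 ⟨hg, by rw [← h1]; exact hζ1.le⟩, h0⟩

/-- Existence of the pair. -/
theorem exists_pair (h : SurfaceGroup G) :
    ∃ A B : ℂ → ℂ, Pair A B ∧ (∃ z ∈ Disc, ∃ z' ∈ Disc, A z * B z' ≠ A z' * B z) ∧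
      ∀ g ∈ G, Pres A B g.1 g.2 := by
  obtain ⟨R, hR1, hco⟩ := h.cocompact
  have h0D : (0 : ℂ) ∈ Disc := mem_ball_zero_iff.2 (by simp)
  have hR0 : 0 ≤ R := by
    obtain ⟨g, -, hg⟩ := hco 0 h0D
    exact (norm_nonneg _).trans hg
  obtain ⟨ζ, hζ, hineq⟩ := exists_ineq h
  have hr : max R ‖ζ‖ < 1 := max_lt hR1 (RadA_lt hζ)
  obtain ⟨m1, hm1, w1⟩ := large_weight h hr
  obtain ⟨m2, -, w2⟩ := large_weight' h h0D hζ fun g hg => (hineq g hg).1
  obtain ⟨m3, -, w3⟩ := large_weight' h hζ h0D fun g hg => (hineq g hg).2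
  obtain ⟨m, hm⟩ : ∃ m, m = max m1 (max m2 m3) := ⟨_, rfl⟩
  have k1 : m1 ≤ m := by rw [hm]; exact le_max_left _ _
  have k2 : m2 ≤ m := by rw [hm]; exact (le_max_left _ _).trans (le_max_right _ _)
  have k3 : m3 ≤ m := by rw [hm]; exact (le_max_right _ _).trans (le_max_right _ _)
  have hm2 : 2 ≤ m := hm1.trans k1
  have w1' := w1 m k1
  have w2' := w2 m k2
  have w3' := w3 m k3
  have lowA := kth_lower h hm2 h0D
  have s0 := w1' 0 (by rw [norm_zero]; exact hR0.trans (le_max_left _ _))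
  rw [norm_zero, zero_pow two_ne_zero, sub_zero, one_pow, mul_one] at lowA
  have hA0 : 3 / 4 < ‖kth G m 0 0‖ := by linarith
  have hA0' : kth G m 0 0 ≠ 0 := by
    intro h1
    rw [h1, norm_zero] at hA0
    linarith
  have hA : AutF G m (kth G m 0) := ⟨kth_diff h hm2 h0D, fun g hg z hz => kth_auto h hm2 h0D hg hz⟩
  have hpres : ∀ B : ℂ → ℂ, AutF G m B → ∀ g ∈ G, Pres (kth G m 0) B g.1 g.2 := by
    intro B hB g hg
    refine ⟨(h.par g hg).1, (h.par g hg).2, fun z hz => ?_⟩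
    rw [← hA.auto g hg z hz, ← hB.auto g hg z hz]
    ring
  obtain ⟨T, hT1, hT2⟩ := zeros_finite h hR1 hco hA ⟨0, h0D, hA0'⟩
  by_cases hT : T.Nonempty
  · obtain ⟨B, hB, hBT⟩ := exists_nonvanishing h hm2 hr w1' T fun z hz =>
      (hT1 z hz).1.trans (le_max_left _ _)
    refine ⟨kth G m 0, B, ⟨hA.diff, hB.diff, fun z hz => ?_⟩, ?_, hpres B hB⟩
    · by_cases h1 : kth G m 0 z = 0
      · right
        obtain ⟨g, hg, hgT⟩ := hT2 z hz h1
        rw [← hB.auto g hg z hz]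
        exact mul_ne_zero (hBT _ hgT) (pow_ne_zero m
          (mobd_ne (h.par g hg).1 (h.par g hg).2 (RadA_lt hz).le))
      · exact Or.inl h1
    · obtain ⟨z', hz'⟩ := hT
      refine ⟨0, h0D, z', mem_ball_zero_iff.2 ((hT1 z' hz').1.trans_lt hR1), ?_⟩
      rw [(hT1 z' hz').2, zero_mul]
      exact mul_ne_zero hA0' (hBT z' hz')
  · have hB : AutF G m (kth G m ζ) :=
      ⟨kth_diff h hm2 hζ, fun g hg z hz => kth_auto h hm2 hζ hg hz⟩
    refine ⟨kth G m 0, kth G m ζ, ⟨hA.diff, hB.diff, fun z hz => Or.inl fun h1 => ?_⟩, ?_,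
      hpres _ hB⟩
    · obtain ⟨g, -, hgT⟩ := hT2 z hz h1
      exact hT ⟨_, hgT⟩
    · refine ⟨0, h0D, ζ, hζ, fun heq => ?_⟩
      have lowB := kth_lower h hm2 hζ
      have s1 := w1' ζ (le_max_right _ _)
      have upA := (kth_upper h hm2 h0D hζ).2
      have upB := (kth_upper h hm2 hζ h0D).2
      rw [norm_zero, zero_pow two_ne_zero, sub_zero, one_pow, mul_one] at upB
      have hP : 0 < (1 - ‖ζ‖ ^ 2) ^ m := pow_pos (q_pos hζ) m
      have e1 := congrArg norm heq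
      rw [norm_mul, norm_mul] at e1
      have b1 : 3 / 4 < ‖kth G m ζ ζ‖ * (1 - ‖ζ‖ ^ 2) ^ m := by linarith
      have b2 : ‖kth G m 0 ζ‖ * (1 - ‖ζ‖ ^ 2) ^ m < 1 / 4 := by linarith
      have b3 : ‖kth G m ζ 0‖ < 1 / 4 := by linarith
      have c1 : 9 / 16 < ‖kth G m 0 0‖ * (‖kth G m ζ ζ‖ * (1 - ‖ζ‖ ^ 2) ^ m) := by nlinarith
      have c2 : ‖kth G m 0 ζ‖ * (1 - ‖ζ‖ ^ 2) ^ m * ‖kth G m ζ 0‖ ≤ 1 / 4 * (1 / 4) :=
        mul_le_mul b2.le b3.le (norm_nonneg _) (by norm_num)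
      have c3 : ‖kth G m 0 0‖ * (‖kth G m ζ ζ‖ * (1 - ‖ζ‖ ^ 2) ^ m) =
          ‖kth G m 0 ζ‖ * (1 - ‖ζ‖ ^ 2) ^ m * ‖kth G m ζ 0‖ := by
        rw [← mul_assoc, e1]
        ring
      rw [c3] at c1
      linarith

end Pool.Agent.H.MP_bfbbee_an.F4
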