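import Pool.Agent.H.MP_bfbbee_an.helper67.Std

/-!
# The pseudo-hyperbolic distance, ramification points
-/

set_option autoImplicit false

namespace Pool.Agent.H.MP_bfbbee_an.F4

open ComplexConjugate Filter Topology Complex
open scoped ContDiff

/-- A ramification point. -/
def isRam (A B : ℂ → ℂ) (P : ℂ) : Prop := P ∈ Disc ∧ Wr A B P = 0

/-- The maps preserving `f` are cocompact. -/
def CoPres (A B : ℂ → ℂ) : Prop :=
  ∃ R : ℝ, R < 1 ∧ ∀ z ∈ Disc, ∃ w a : ℂ, Pres A B w a ∧ ‖mob w a z‖ ≤ R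

theorem RadA_lt {z : ℂ} (hz : z ∈ Disc) : ‖z‖ < 1 := mem_ball_zero_iff.1 hz

theorem RadA_pd (p z : ℂ) : ‖mob 1 p z‖ = ‖z - p‖ / ‖1 - conj p * z‖ := by
  unfold mob
  rw [norm_div, one_mul]

theorem RadA_den (p z : ℂ) : ‖1 - conj p * z‖ = ‖1 - conj z * p‖ := by
  rw [← Complex.norm_conj (1 - conj p * z)]
  congr 1
  simp [mul_comm]

/-- Symmetry. -/
theorem pd_symm (z p : ℂ) : ‖mob 1 p z‖ = ‖mob 1 z p‖ := by
  rw [RadA_pd, RadA_pd, norm_sub_rev, RadA_den]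

theorem RadA_sq {p z : ℂ} (hp : p ∈ Disc) (hz : z ∈ Disc) :
    1 - ‖mob 1 p z‖ ^ 2 = (1 - ‖p‖ ^ 2) * (1 - ‖z‖ ^ 2) / ‖1 - conj p * z‖ ^ 2 := by
  have hD : ‖1 - conj p * z‖ ^ 2 ≠ 0 :=
    pow_ne_zero 2 (norm_ne_zero_iff.2 (den_ne (RadA_lt hp) (RadA_lt hz).le))
  rw [RadA_pd, div_pow, eq_div_iff hD, sub_mul, div_mul_cancel₀ _ hD]
  linarith [mob_aux3 p z]

theorem RadA_one_sub {w a z p : ℂ} (hw : ‖w‖ = 1) (ha : ‖a‖ < 1) (hz : z ∈ Disc) (hp : p ∈ Disc) :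
    ‖1 - conj (mob w a p) * mob w a z‖ = (1 - ‖a‖ ^ 2) * ‖1 - conj p * z‖ /
      (‖1 - conj a * z‖ * ‖1 - conj a * p‖) := by
  have hz1 := (RadA_lt hz).le
  have hp1 := (RadA_lt hp).le
  have hDz : 0 < ‖1 - conj a * z‖ := norm_pos_iff.2 (den_ne ha hz1)
  have hDp : 0 < ‖1 - conj a * p‖ := norm_pos_iff.2 (den_ne ha hp1)
  have h1 := mob_aux3 (mob w a p) (mob w a z)
  rw [one_sub_mob hw ha hz1, one_sub_mob hw ha hp1, norm_mobd hw ha, norm_mobd hw ha,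
    mob_sub hw ha hz1 hp1] at h1
  have h2 := mob_aux3 p z
  have ha' := mob_aux1 ha
  have h3 : ‖1 - conj (mob w a p) * mob w a z‖ ^ 2 = ((1 - ‖a‖ ^ 2) * ‖1 - conj p * z‖ /
      (‖1 - conj a * z‖ * ‖1 - conj a * p‖)) ^ 2 := by
    have h4 : ‖1 - conj (mob w a p) * mob w a z‖ ^ 2 =
        (‖z - p‖ * (1 - ‖a‖ ^ 2) / (‖1 - conj a * z‖ * ‖1 - conj a * p‖)) ^ 2 +
        (1 - ‖p‖ ^ 2) * ((1 - ‖a‖ ^ 2) / ‖1 - conj a * p‖ ^ 2) *
          ((1 - ‖z‖ ^ 2) * ((1 - ‖a‖ ^ 2) / ‖1 - conj a * z‖ ^ 2)) := by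
      linarith
    have h5 : ‖1 - conj p * z‖ ^ 2 = ‖z - p‖ ^ 2 + (1 - ‖p‖ ^ 2) * (1 - ‖z‖ ^ 2) := by linarith
    rw [h4, div_pow, div_pow, mul_pow, mul_pow, mul_pow, h5]
    field_simp
  have h6 : 0 ≤ (1 - ‖a‖ ^ 2) * ‖1 - conj p * z‖ /
      (‖1 - conj a * z‖ * ‖1 - conj a * p‖) := by positivity
  exact (pow_left_inj₀ (norm_nonneg _) h6 two_ne_zero).1 h3

/-- Invariance. -/
theorem pd_inv {w a z p : ℂ} (hw : ‖w‖ = 1) (ha : ‖a‖ < 1) (hz : z ∈ Disc) (hp : p ∈ Disc) :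
    ‖mob 1 (mob w a p) (mob w a z)‖ = ‖mob 1 p z‖ := by
  have hz1 := (RadA_lt hz).le
  have hp1 := (RadA_lt hp).le
  have hDz : 0 < ‖1 - conj a * z‖ := norm_pos_iff.2 (den_ne ha hz1)
  have hDp : 0 < ‖1 - conj a * p‖ := norm_pos_iff.2 (den_ne ha hp1)
  have hD : 0 < ‖1 - conj p * z‖ := norm_pos_iff.2 (den_ne (RadA_lt hp) hz1)
  have ha' := mob_aux1 ha
  rw [RadA_pd, RadA_pd, RadA_one_sub hw ha hz hp, mob_sub hw ha hz1 hp1]
  generalize ‖1 - conj a * z‖ = X at hDz ⊢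
  generalize ‖1 - conj a * p‖ = Y at hDp ⊢
  generalize ‖1 - conj p * z‖ = D at hD ⊢
  generalize 1 - ‖a‖ ^ 2 = k at ha' ⊢
  field_simp

/-- Triangle inequality. -/
theorem pd_triangle {z p p' : ℂ} (hz : z ∈ Disc) (hp : p ∈ Disc) (hp' : p' ∈ Disc) :
    ‖mob 1 p p'‖ ≤ ‖mob 1 p z‖ + ‖mob 1 p' z‖ := by
  have hz1 := RadA_lt hz
  have h1 : ‖(1 : ℂ)‖ = 1 := norm_one
  have e1 := pd_inv h1 hz1 hp' hp
  have e2 : ‖mob 1 p z‖ = ‖mob 1 z p‖ := pd_symm _ _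
  have e3 : ‖mob 1 p' z‖ = ‖mob 1 z p'‖ := pd_symm _ _
  rw [← e1, e2, e3]
  have hq : mob 1 z p ∈ Disc := mob_mem h1 hz1 hp
  have hq' : mob 1 z p' ∈ Disc := mob_mem h1 hz1 hp'
  set q := mob 1 z p with hqd
  set q' := mob 1 z p' with hqd'
  have hq1 := RadA_lt hq
  have hq1' := RadA_lt hq'
  have n0 := norm_nonneg q
  have n0' := norm_nonneg q'
  have hsq := RadA_sq hq hq'
  have hDle : ‖1 - conj q * q'‖ ≤ 1 + ‖q‖ * ‖q'‖ := by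
    calc ‖1 - conj q * q'‖ ≤ ‖(1 : ℂ)‖ + ‖conj q * q'‖ := norm_sub_le _ _
      _ = 1 + ‖q‖ * ‖q'‖ := by rw [norm_one, norm_mul, Complex.norm_conj]
  have hDpos : 0 < ‖1 - conj q * q'‖ := norm_pos_iff.2 (den_ne hq1 hq1'.le)
  have hnum : 0 ≤ (1 - ‖q‖ ^ 2) * (1 - ‖q'‖ ^ 2) := mul_nonneg (q_pos hq).le (q_pos hq').le
  have h2 : (1 - ‖q‖ ^ 2) * (1 - ‖q'‖ ^ 2) / (1 + ‖q‖ * ‖q'‖) ^ 2 ≤ 1 - ‖mob 1 q q'‖ ^ 2 := by
    rw [hsq]
    apply div_le_div_of_nonneg_left hnum (by positivity)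
    exact pow_le_pow_left₀ hDpos.le hDle 2
  have h3 : ‖mob 1 q q'‖ ^ 2 ≤ ((‖q‖ + ‖q'‖) / (1 + ‖q‖ * ‖q'‖)) ^ 2 := by
    have h4 : 1 - (1 - ‖q‖ ^ 2) * (1 - ‖q'‖ ^ 2) / (1 + ‖q‖ * ‖q'‖) ^ 2 =
        ((‖q‖ + ‖q'‖) / (1 + ‖q‖ * ‖q'‖)) ^ 2 := by
      have h5 : (1 + ‖q‖ * ‖q'‖) ≠ 0 := by positivity
      field_simp
      ring
    linarith
  have h6 : ‖mob 1 q q'‖ ≤ (‖q‖ + ‖q'‖) / (1 + ‖q‖ * ‖q'‖) :=
    le_of_sq_le_sq h3 (by positivity)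
  refine h6.trans ?_
  rw [div_le_iff₀ (by positivity)]
  nlinarith [mul_nonneg n0 n0', mul_nonneg (add_nonneg n0 n0') (mul_nonneg n0 n0')]

theorem pd_zero {z p : ℂ} (hz : z ∈ Disc) (hp : p ∈ Disc) : ‖mob 1 p z‖ = 0 ↔ z = p := by
  have hD : ‖1 - conj p * z‖ ≠ 0 := norm_ne_zero_iff.2 (den_ne (RadA_lt hp) (RadA_lt hz).le)
  rw [RadA_pd, div_eq_zero_iff]
  constructor
  · rintro (h | h)
    · exact sub_eq_zero.1 (norm_eq_zero.1 h)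
    · exact absurd h hD
  · rintro rfl
    left
    simp

theorem pd_cont {p : ℂ} (hp : p ∈ Disc) : ContinuousOn (fun z : ℂ => ‖mob 1 p z‖) Disc := by
  have h : (fun z : ℂ => ‖mob 1 p z‖) = fun z => ‖z - p‖ / ‖1 - conj p * z‖ := by
    funext z
    exact RadA_pd p z
  rw [h]
  refine ContinuousOn.div (by fun_prop) (by fun_prop) fun z hz => ?_
  exact norm_ne_zero_iff.2 (den_ne (RadA_lt hp) (RadA_lt hz).le)

/-- Pseudo-hyperbolic discs of radius `r < 1` around `p` are contained in a compact subset. -/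
theorem pd_compact {p : ℂ} (hp : p ∈ Disc) {r : ℝ} (hr : r < 1) :
    IsCompact {z : ℂ | z ∈ Disc ∧ ‖mob 1 p z‖ ≤ r} := by
  rcases lt_or_ge r 0 with h0 | h0
  · have : {z : ℂ | z ∈ Disc ∧ ‖mob 1 p z‖ ≤ r} = ∅ := by
      ext z
      simp only [Set.mem_ofPred_eq, Set.mem_empty_iff_false, iff_false, not_and, not_le]
      exact fun _ => h0.trans_le (norm_nonneg _)
    rw [this]
    exact isCompact_empty
  · have hp1 := RadA_lt hp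
    have hp0 := norm_nonneg p
    set c : ℝ := (1 - r ^ 2) * (1 - ‖p‖) ^ 2 with hc
    have hr2 : 0 < 1 - r ^ 2 := by nlinarith
    have hc0 : 0 < c := mul_pos hr2 (pow_pos (by linarith) 2)
    have key : ∀ z : ℂ, z ∈ Disc → ‖mob 1 p z‖ ≤ r → ‖z‖ ≤ Real.sqrt (1 - c) := by
      intro z hz hzr
      have hz1 := RadA_lt hz
      have hsq := RadA_sq hp hz
      have hDpos : 0 < ‖1 - conj p * z‖ := norm_pos_iff.2 (den_ne hp1 hz1.le)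
      have hD : 1 - ‖p‖ ≤ ‖1 - conj p * z‖ := by
        have h1 : ‖(1 : ℂ)‖ - ‖conj p * z‖ ≤ ‖1 - conj p * z‖ := norm_sub_norm_le _ _
        rw [norm_one, norm_mul, Complex.norm_conj] at h1
        nlinarith [norm_nonneg z]
      have h2 : 1 - r ^ 2 ≤ (1 - ‖p‖ ^ 2) * (1 - ‖z‖ ^ 2) / ‖1 - conj p * z‖ ^ 2 := by
        rw [← hsq]
        nlinarith [norm_nonneg (mob 1 p z)]
      rw [le_div_iff₀ (pow_pos hDpos 2)] at h2
      have h3 : c ≤ (1 - r ^ 2) * ‖1 - conj p * z‖ ^ 2 :=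
        mul_le_mul_of_nonneg_left (pow_le_pow_left₀ (by linarith) hD 2) hr2.le
      have h4 := q_pos hz
      have h5 : (1 - ‖p‖ ^ 2) * (1 - ‖z‖ ^ 2) ≤ 1 - ‖z‖ ^ 2 := by nlinarith [sq_nonneg ‖p‖]
      apply Real.le_sqrt_of_sq_le
      linarith
    have hlt : Real.sqrt (1 - c) < 1 := by
      rw [Real.sqrt_lt' one_pos]
      linarith
    have hsub : Metric.closedBall (0 : ℂ) (Real.sqrt (1 - c)) ⊆ Disc :=
      Metric.closedBall_subset_ball hlt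
    have heq : {z : ℂ | z ∈ Disc ∧ ‖mob 1 p z‖ ≤ r} =
        Metric.closedBall (0 : ℂ) (Real.sqrt (1 - c)) ∩
          (fun z : ℂ => ‖mob 1 p z‖) ⁻¹' (Set.Iic r) := by
      ext z
      simp only [Set.mem_ofPred_eq, Set.mem_inter_iff, Set.mem_preimage, Set.mem_Iic,
        mem_closedBall_zero_iff]
      constructor
      · rintro ⟨h1, h2⟩
        exact ⟨key z h1 h2, h2⟩
      · rintro ⟨h1, h2⟩
        exact ⟨hsub (mem_closedBall_zero_iff.2 h1), h2⟩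
    rw [heq]
    have hcl : IsClosed (Metric.closedBall (0 : ℂ) (Real.sqrt (1 - c)) ∩
          (fun z : ℂ => ‖mob 1 p z‖) ⁻¹' (Set.Iic r)) :=
      ((pd_cont hp).mono hsub).preimage_isClosed_of_isClosed Metric.isClosed_closedBall
        isClosed_Iic
    exact (isCompact_closedBall (0 : ℂ) (Real.sqrt (1 - c))).of_isClosed_subset hcl
      Set.inter_subset_left

/-- The inverse of a map preserving `f` preserves `f`. -/
theorem pres_inv {A B : ℂ → ℂ} {w a : ℂ} (h : Pres A B w a) :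
    Pres A B ((starRingEnd ℂ) w) (-(w * a)) := by
  obtain ⟨hw, ha, hc⟩ := h
  have h1 : ‖(starRingEnd ℂ) w‖ = 1 := by rw [Complex.norm_conj, hw]
  have h2 : ‖-(w * a)‖ < 1 := by rwa [norm_neg, norm_mul, hw, one_mul]
  refine ⟨h1, h2, fun z hz => ?_⟩
  have hm : mob ((starRingEnd ℂ) w) (-(w * a)) z ∈ Disc := mob_mem h1 h2 hz
  have h3 := hc _ hm
  rw [mob_inv' hw ha (RadA_lt hz).le] at h3
  exact h3.symm

/-- Images of ramification points are ramification points with the same value; the rotated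
functions are related by a common factor. -/
theorem ram_pres {A B : ℂ → ℂ} (h : Pair A B) {w a P : ℂ} (hm : Pres A B w a)
    (hP : isRam A B P) : isRam A B (mob w a P) ∧
      A (mob w a P) / B (mob w a P) = A P / B P := by
  obtain ⟨hPD, hW⟩ := hP
  obtain ⟨m, hm0, hA, hB, hWm⟩ := pres_fac h hm hPD
  have hd := mobd_ne hm.1 hm.2.1 (RadA_lt hPD).le
  refine ⟨⟨mob_mem hm.1 hm.2.1 hPD, ?_⟩, ?_⟩
  · rw [hW, mul_zero] at hWm
    exact (mul_eq_zero.1 hWm).resolve_right hd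
  · rw [hA, hB, mul_div_mul_left _ _ hm0]

end Pool.Agent.H.MP_bfbbee_an.F4
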