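import Pool.Agent.H.MP_bfbbee_an.helper67.GI
import Pool.Agent.H.MP_bfbbee_an.helper67.MeA
import Pool.Agent.H.MP_bfbbee_an.helper67.MeB
import Pool.Agent.H.MP_bfbbee_an.helper67.Const

/-!
# Fibrewise almost integrable metrics
-/

set_option autoImplicit false

namespace Pool.Agent.H.MP_bfbbee_an.F4

open ComplexConjugate Filter Topology Complex MeasureTheory
open scoped ContDiff ENNReal

/-- The theorem for normalised pairs. -/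
theorem main_norm {A B : ℂ → ℂ} (h : Pair A B) (hne : ∃ z ∈ Disc, Wr A B z ≠ 0)
    (hco : CoPres A B) (hsm : ∀ P, isRam A B P → ‖A P‖ < ‖B P‖) {ε : ℝ} (hε : 0 < ε) :
    ∃ (u : ℂ → ℝ) (F : ℂ × ℝ → ℝ), ContDiffOn ℝ ∞ u Disc ∧
      ContDiffOn ℝ ∞ F (Disc ×ˢ Set.univ) ∧ FirstIntegral u F ∧
      (∀ w a : ℂ, Pres A B w a → Sym u w a ∧ FSym F w a) ∧
      ∀ z ∈ Disc, volume {θ : ℝ | θ ∈ Set.Icc 0 (2 * Real.pi) ∧ fderiv ℝ F (z, θ) = 0} <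
        ENNReal.ofReal ε := by
  obtain ⟨D, e1, e2, e3, rfl, rfl, hD, heta, h1, h2, h3, hs⟩ := exists_cfg h hne hco hsm hε
  refine ⟨D.u, D.F, Cfg.u_smooth hD, Cfg.F_smooth hD, Cfg.F_first hD,
    fun w a hm => ⟨Cfg.u_sym hD hm, Cfg.F_fsym hD hm⟩, fun z hz => lt_of_le_of_lt ?_ hs⟩
  by_cases ha : D.Away z
  · exact (Cfg.meas_away hD h1 h2 ha).trans le_self_add
  · obtain ⟨P, hP⟩ := (Cfg.In_or_Away hD hz).resolve_right ha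
    exact (Cfg.meas_cap hD heta h1 h3 hP ha).trans le_add_self

theorem main {A B : ℂ → ℂ} (hA : DifferentiableOn ℂ A Disc) (hB : DifferentiableOn ℂ B Disc)
    (hAB : ∀ z ∈ Disc, A z ≠ 0 ∨ B z ≠ 0)
    (hne : ∃ z ∈ Disc, ∃ z' ∈ Disc, A z * B z' ≠ A z' * B z)
    (hco : CoPres A B) {ε : ℝ} (hε : 0 < ε) :
    ∃ (u : ℂ → ℝ) (F : ℂ × ℝ → ℝ), ContDiffOn ℝ ∞ u Disc ∧
      ContDiffOn ℝ ∞ F (Disc ×ˢ Set.univ) ∧ FirstIntegral u F ∧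
      (∀ w a : ℂ, Pres A B w a → Sym u w a ∧ FSym F w a) ∧
      ∀ z ∈ Disc, volume {θ : ℝ | θ ∈ Set.Icc 0 (2 * Real.pi) ∧ fderiv ℝ F (z, θ) = 0} <
        ENNReal.ofReal ε := by
  have h : Pair A B := ⟨hA, hB, hAB⟩
  have hW := Wr_ne_of_nonconst h hne
  obtain ⟨A', B', h', hP, hZ, hs⟩ := norm_exists h hW hco
  have hW' : ∃ z ∈ Disc, Wr A' B' z ≠ 0 := by
    obtain ⟨z, hz, hz'⟩ := hW
    exact ⟨z, hz, fun h0 => hz' ((hZ z hz).1 h0)⟩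
  have hco' : CoPres A' B' := by
    obtain ⟨R, hR, hm⟩ := hco
    refine ⟨R, hR, fun z hz => ?_⟩
    obtain ⟨w, a, h1, h2⟩ := hm z hz
    exact ⟨w, a, (hP w a).2 h1, h2⟩
  obtain ⟨u, F, h1, h2, h3, h4, h5⟩ := main_norm h' hW' hco' hs hε
  exact ⟨u, F, h1, h2, h3, fun w a hm => h4 w a ((hP w a).2 hm), h5⟩

end Pool.Agent.H.MP_bfbbee_an.F4
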