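import Pool.Agent.H.MP_bfbbee_an.helper67.PgD
import Pool.Agent.H.MP_bfbbee_an.helper67.T4

/-!
# Fibrewise almost integrable metrics on every closed surface of genus at least two
-/

set_option autoImplicit false

namespace Pool.Agent.H.MP_bfbbee_an.F4

open ComplexConjugate Filter Topology Complex MeasureTheory
open scoped ContDiff ENNReal

theorem main_group {G : Set (ℂ × ℂ)} (h : SurfaceGroup G) {ε : ℝ} (hε : 0 < ε) :
    ∃ (u : ℂ → ℝ) (F : ℂ × ℝ → ℝ), ContDiffOn ℝ ∞ u Disc ∧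
      ContDiffOn ℝ ∞ F (Disc ×ˢ Set.univ) ∧ FirstIntegral u F ∧
      (∀ g ∈ G, Sym u g.1 g.2 ∧ FSym F g.1 g.2) ∧
      ∀ z ∈ Disc, volume {θ : ℝ | θ ∈ Set.Icc 0 (2 * Real.pi) ∧ fderiv ℝ F (z, θ) = 0} <
        ENNReal.ofReal ε := by
  obtain ⟨A, B, hP, hne, hG⟩ := exists_pair h
  have hco : CoPres A B := by
    obtain ⟨R, hR, hm⟩ := h.cocompact
    refine ⟨R, hR, fun z hz => ?_⟩
    obtain ⟨g, hg, h1⟩ := hm z hz
    exact ⟨g.1, g.2, hG g hg, h1⟩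
  obtain ⟨u, F, h1, h2, h3, h4, h5⟩ := main hP.hA hP.hB hP.ne hne hco hε
  exact ⟨u, F, h1, h2, h3, fun g hg => h4 _ _ (hG g hg), h5⟩

end Pool.Agent.H.MP_bfbbee_an.F4
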